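import Pool.Agent.RB.Defs

/-!
# Project RC (MP_c6e2b4_co): better upper bounds for BSPs of disjoint rectangles.  Definitions, part 1.

Clean dissections with ABSORBING cuts.  The configuration type `Pool.RB.Cfg` and the symmetries `tr`, `fx`, `fy`
are those of project RB.  A cell of the partition is again a clean dissection all of whose holes are intact:
when a hole is hit or touched by the cutting line, its arm which would be a stub in the part (a piece between the
cutting line and a side of the former hole) is deleted, so that the rest of the hole (which contains nothing)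
is merged with a neighbouring face.
Type A: `yL < yR, xU < xD` (then x1 = xU, x2 = xD, y1 = yL, y2 = yR);
type B: `yR < yL, xD < xU` (then x1 = xD, x2 = xU, y1 = yR, y2 = yL).
-/

namespace Pool.RC

open Pool.RB

/-- a dissection (`Pool.RB.Ok`) with clean holes: no piece ends in an open side of a hole (also from outside) -/
structure OkC (D : Cfg) : Prop where
  ok : Ok D
  cV : ∀ z ∈ D.Z, ∀ x ∈ D.V, z.x1 < x → x < z.x2 → D.vlo x ≤ z.y2 → z.y1 ≤ D.vhi x → False
  cH : ∀ z ∈ D.Z, ∀ y ∈ D.H, z.y1 < y → y < z.y2 → D.hlo y ≤ z.x2 → z.x1 ≤ D.hhi y → False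

/-! ### absorbing cuts -/

/-- the part above `c`: the down arm of a hole with `y1 ≤ c < y2` is a stub and is deleted -/
def upA (D : Cfg) (c : ℤ) : Cfg :=
  ⟨D.X0, D.X1, c, D.Y1, D.V.filter (fun x => c < D.vhi x ∧ ∀ z ∈ D.Z, z.y1 ≤ c → c < z.y2 → z.xD ≠ x),
    D.H.filter (fun y => c < y), fun x => max (D.vlo x) c, D.vhi, D.hlo, D.hhi, D.Z.filter (fun z => c < z.y1)⟩

/-- the part below `c`: the up arm of a hole with `y1 < c ≤ y2` is deleted -/
def dnA (D : Cfg) (c : ℤ) : Cfg :=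
  ⟨D.X0, D.X1, D.Y0, c, D.V.filter (fun x => D.vlo x < c ∧ ∀ z ∈ D.Z, z.y1 < c → c ≤ z.y2 → z.xU ≠ x),
    D.H.filter (fun y => y < c), D.vlo, fun x => min (D.vhi x) c, D.hlo, D.hhi, D.Z.filter (fun z => z.y2 < c)⟩

/-- the part right of `c`: the left arm of a hole with `x1 ≤ c < x2` is deleted -/
def rtA (D : Cfg) (c : ℤ) : Cfg :=
  ⟨c, D.X1, D.Y0, D.Y1, D.V.filter (fun x => c < x),
    D.H.filter (fun y => c < D.hhi y ∧ ∀ z ∈ D.Z, z.x1 ≤ c → c < z.x2 → z.yL ≠ y),
    D.vlo, D.vhi, fun y => max (D.hlo y) c, D.hhi, D.Z.filter (fun z => c < z.x1)⟩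

/-- the part left of `c`: the right arm of a hole with `x1 < c ≤ x2` is deleted -/
def lfA (D : Cfg) (c : ℤ) : Cfg :=
  ⟨D.X0, c, D.Y0, D.Y1, D.V.filter (fun x => x < c),
    D.H.filter (fun y => D.hlo y < c ∧ ∀ z ∈ D.Z, z.x1 < c → c ≤ z.x2 → z.yR ≠ y),
    D.vlo, D.vhi, D.hlo, fun y => min (D.hhi y) c, D.Z.filter (fun z => z.x2 < c)⟩

/-! ### counts -/

/-- ends of pieces at the top / bottom / left / right wall -/
def WT (D : Cfg) : ℕ := (D.V.filter (fun x => D.vhi x = D.Y1)).card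
def WB (D : Cfg) : ℕ := (D.V.filter (fun x => D.vlo x = D.Y0)).card
def WL (D : Cfg) : ℕ := (D.H.filter (fun y => D.hlo y = D.X0)).card
def WR (D : Cfg) : ℕ := (D.H.filter (fun y => D.hhi y = D.X1)).card

/-- full horizontal / full vertical pieces -/
def fH (D : Cfg) : ℕ := (D.H.filter (fun y => D.hlo y = D.X0 ∧ D.hhi y = D.X1)).card
def fV (D : Cfg) : ℕ := (D.V.filter (fun x => D.vlo x = D.Y0 ∧ D.vhi x = D.Y1)).card

/-- T-ends (ends not at a wall and not owned by a hole): lower ends, upper ends, left ends, right ends of pieces -/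
def tLo (D : Cfg) : Finset ℤ := D.V.filter (fun x => D.vlo x ≠ D.Y0 ∧ ∀ z ∈ D.Z, z.xU ≠ x)
def tHi (D : Cfg) : Finset ℤ := D.V.filter (fun x => D.vhi x ≠ D.Y1 ∧ ∀ z ∈ D.Z, z.xD ≠ x)
def tLe (D : Cfg) : Finset ℤ := D.H.filter (fun y => D.hlo y ≠ D.X0 ∧ ∀ z ∈ D.Z, z.yR ≠ y)
def tRi (D : Cfg) : Finset ℤ := D.H.filter (fun y => D.hhi y ≠ D.X1 ∧ ∀ z ∈ D.Z, z.yL ≠ y)

/-- T-ends on the horizontal piece at height `c`, from above and from below -/
def eUp (D : Cfg) (c : ℤ) : Finset ℤ := D.V.filter (fun x => D.vlo x = c ∧ ∀ z ∈ D.Z, z.xU ≠ x)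
def eDn (D : Cfg) (c : ℤ) : Finset ℤ := D.V.filter (fun x => D.vhi x = c ∧ ∀ z ∈ D.Z, z.xD ≠ x)

/-- T-ends on the vertical piece at `x`, from the right and from the left -/
def eRt (D : Cfg) (x : ℤ) : Finset ℤ := D.H.filter (fun y => D.hlo y = x ∧ ∀ z ∈ D.Z, z.yR ≠ y)
def eLf (D : Cfg) (x : ℤ) : Finset ℤ := D.H.filter (fun y => D.hhi y = x ∧ ∀ z ∈ D.Z, z.yL ≠ y)

/-- number of T-ends on the horizontal piece `c` / on the vertical piece `x` -/
def eH (D : Cfg) (c : ℤ) : ℕ := (eUp D c).card + (eDn D c).card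
def eV (D : Cfg) (x : ℤ) : ℕ := (eRt D x).card + (eLf D x).card

/-- number of walls touched by the horizontal piece `c` / the vertical piece `x` -/
def wH (D : Cfg) (c : ℤ) : ℕ := (if D.hlo c = D.X0 then 1 else 0) + (if D.hhi c = D.X1 then 1 else 0)
def wV (D : Cfg) (x : ℤ) : ℕ := (if D.vlo x = D.Y0 then 1 else 0) + (if D.vhi x = D.Y1 then 1 else 0)

/-- holes hit / touched by the vertical line at `x` (`crs`, `hit`, `tch`, `crsV` for lines are in `Pool.RB`) -/
def hitV (D : Cfg) (x : ℤ) : ℕ := (D.Z.filter (fun z => z.x1 < x ∧ x < z.x2)).card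
def tchV (D : Cfg) (x : ℤ) : ℕ := (D.Z.filter (fun z => z.x1 = x ∨ z.x2 = x)).card

/-- the members of `A` can be separated at cost `N` beyond `cnt` -/
abbrev Sol (D : Cfg) (N : ℚ) : Prop := Slv D ∅ N

end Pool.RC
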