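import Pool.Agent.RC.Defs

/-!
# Project RC, definitions, part 2: the potential and the sets used in the case analysis
Units: 1/3.  `U = 5 (pieces - holes) - 4 (ends at walls)`.  The claim proved by induction for the open side BOTTOM is
`3 cost <= U + 3 WB + 3 fH + uH s` for both values of the Boolean `s` (`true`: inner sides of the left arms, `false`: of
the right arms).
-/

namespace Pool.RC

open Pool.RB

/-- the potential of a cell without open side, in units of 1/3 -/
def U (D : Cfg) : ℤ := 5 * ((D.sz : ℤ) - D.Z.card) - 4 * ((WT D : ℤ) + WB D + WL D + WR D)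

/-- solvability in units of 1/3 -/
def SolZ (D : Cfg) (n : ℤ) : Prop := Sol D ((n : ℚ) / 3)

/-- no T-end on the inner side of the up / left / right arm.  The inner side of the up arm is its right side for type A and
its left side for type B; of the left arm: above for type A, below for type B; of the right arm: below for type A, above
for type B. -/
def icU (D : Cfg) (z : Hole) : Prop := (z.xU < z.xD → eRt D z.xU = ∅) ∧ (z.xD < z.xU → eLf D z.xU = ∅)
def icL (D : Cfg) (z : Hole) : Prop := (z.yL < z.yR → eUp D z.yL = ∅) ∧ (z.yR < z.yL → eDn D z.yL = ∅)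
def icR (D : Cfg) (z : Hole) : Prop := (z.yL < z.yR → eDn D z.yR = ∅) ∧ (z.yR < z.yL → eUp D z.yR = ∅)

/-- both lateral arms at the lateral walls / both vertical arms at bottom and top -/
def LC (D : Cfg) (z : Hole) : Prop := D.hlo z.yL = D.X0 ∧ D.hhi z.yR = D.X1
def VC (D : Cfg) (z : Hole) : Prop := D.vlo z.xD = D.Y0 ∧ D.vhi z.xU = D.Y1

/-- the holes with both lateral arms attached which are counted in the claim with Boolean `s` -/
def LI (s : Bool) (D : Cfg) (z : Hole) : Prop := LC D z ∧ (if s then icL D z else icR D z)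

open Classical in
noncomputable def uH (s : Bool) (D : Cfg) : ℕ := (D.Z.filter (fun z => LI s D z)).card

open Classical in
noncomputable def uV (D : Cfg) : ℕ := (D.Z.filter (fun z => VC D z ∧ icU D z)).card

/-- what is added to `U` for the open side bottom / right / left -/
noncomputable def KB (s : Bool) (D : Cfg) : ℤ := 3 * (WB D : ℤ) + 3 * fH D + uH s D
noncomputable def KR (D : Cfg) : ℤ := 3 * (WR D : ℤ) + 3 * fV D + uV D
noncomputable def KL (D : Cfg) : ℤ := 3 * (WL D : ℤ) + 3 * fV D + uV D

/-- the claim, open side: bottom -/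
def P (s : Bool) (D : Cfg) : Prop := SolZ D (U D + KB s D)

/-- induction hypothesis -/
def IH (D : Cfg) : Prop := ∀ E : Cfg, OkC E → E.sz < D.sz → ∀ s : Bool, P s E

/-- no full pieces -/
def Irr (D : Cfg) : Prop :=
  (∀ y ∈ D.H, ¬ (D.hlo y = D.X0 ∧ D.hhi y = D.X1)) ∧ (∀ x ∈ D.V, ¬ (D.vlo x = D.Y0 ∧ D.vhi x = D.Y1))

open Classical in
/-- the holes above `p` with top attached up arm, clean inner side of the up arm, and down arm reaching `p` -/
noncomputable def QQ (D : Cfg) (p : ℤ) : Finset Hole :=
  D.Z.filter (fun z => p < z.y1 ∧ D.vhi z.xU = D.Y1 ∧ icU D z ∧ D.vlo z.xD ≤ p)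

open Classical in
/-- the members of `QQ` not counted in `uH` -/
noncomputable def MM (s : Bool) (D : Cfg) (p : ℤ) : Finset Hole := (QQ D p).filter (fun z => ¬ LI s D z)

open Classical in
/-- the holes below `c` counted in `uH` / the holes with bottom side on `c` counted in `uH` -/
noncomputable def LIb (s : Bool) (D : Cfg) (c : ℤ) : ℕ := (D.Z.filter (fun z => z.y2 < c ∧ LI s D z)).card
open Classical in
noncomputable def LIt (s : Bool) (D : Cfg) (c : ℤ) : ℕ := (D.Z.filter (fun z => z.y1 = c ∧ LI s D z)).card

open Classical in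
/-- the elements: top attached up arm with clean inner side, down arm ending below `g`, not counted in `uH` -/
noncomputable def EL (s : Bool) (D : Cfg) (g : ℤ) : Finset Hole :=
  D.Z.filter (fun z => D.vhi z.xU = D.Y1 ∧ icU D z ∧ ¬ LI s D z ∧ D.vlo z.xD < g)

/-- top attached pieces whose lower end is at height `c` -/
def Tg (D : Cfg) (c : ℤ) : Finset ℤ := D.V.filter (fun x => D.vhi x = D.Y1 ∧ D.vlo x = c)

/-- gain of the decomposition along the full horizontal piece `c`: T-ends from above count 1, or 3 if they are not top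
attached, T-ends from below count 1 -/
def gn (E : Cfg) (c : ℤ) : ℕ :=
  (eUp E c).card + (eDn E c).card + 2 * ((eUp E c).filter (fun x => E.vhi x ≠ E.Y1)).card

/-- `w` is an element of `D` for the line `p`: the move that cuts `p`, then the upper part along the down arm of `w`, is possible -/
structure EC (D : Cfg) (p : ℤ) (w : Hole) : Prop where
  hw : w ∈ D.Z
  hU : D.vhi w.xU = D.Y1
  ic : icU D w
  hp : p ∈ D.H
  hlo : D.vlo w.xD ≤ p
  hlt : p < w.y1
  hT : TopGt D p

/-- the left side of the down arm of `w` is closed between its lower end and `g` / the right side -/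
def TowL (D : Cfg) (g : ℤ) (w : Hole) : Prop := ∀ x ∈ D.V, x < w.xD → D.vlo x < g → D.vlo w.xD < D.vhi x → False
def TowR (D : Cfg) (g : ℤ) (w : Hole) : Prop := ∀ x ∈ D.V, w.xD < x → D.vlo x < g → D.vlo w.xD < D.vhi x → False

/-- the down arm of `w` ends on a piece without T-ends which is attached to the left / right wall -/
def BadL (D : Cfg) (w : Hole) : Prop := D.vlo w.xD ∈ D.H ∧ eH D (D.vlo w.xD) = 0 ∧ D.hlo (D.vlo w.xD) = D.X0
def BadR (D : Cfg) (w : Hole) : Prop := D.vlo w.xD ∈ D.H ∧ eH D (D.vlo w.xD) = 0 ∧ D.hhi (D.vlo w.xD) = D.X1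

/-- setting of the case analysis -/
structure Sit (s : Bool) (D : Cfg) (g : ℤ) : Prop where
  ok : OkC D
  ih : IH D
  irr : Irr D
  hg : g ∈ D.H
  hT : TopGe D g
  ht : (Tg D g).Nonempty
  lo : ∀ z ∈ EL s D g, D.vlo z.xD ≠ D.Y0

end Pool.RC
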