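import Pool.Agent.RC.Defs
import Pool.Agent.RB.St2
import Pool.Agent.RB.St3

/-!
# Statements of project RC, part 1: clean dissections and absorbing cuts
Every docstring contains a complete proof; all statements have been checked numerically (4 million random lines in
cells of depth up to 5).  `omega` closes most goals once the right instances of the fields of `Ok`, `OkC` and of
`HB` (StHB) are at hand.
-/

namespace Pool.RC

open Pool.RB
open Pool.Agent.Helper30.BSP (Rect Tree IsBSP size)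
open Pool.Agent.Helper4.BSPT (IBox Seeds ICost IMeets)

/-! ## A. symmetries -/

/-- StCTr.  `Ok D.tr` is StOkTr; `cV` for `D.tr` and `z.tr` is `cH` for `D`, `z` (`z.tr.x1 = min z.yR z.yL = z.y1` etc.). -/
def StCTr : Prop := ∀ D : Cfg, OkC D → OkC D.tr

/-- StCFx.  `Ok D.fx` is StOkFx; members of `D.fx.V` are `-x` with `x ∈ D.V`, `D.fx.vlo (-x) = D.vlo x`,
`z.fx.x1 = -z.x2`, `z.fx.x2 = -z.x1`, `z.fx.y1 = z.y1`, `z.fx.y2 = z.y2`, `D.fx.hlo y = -D.hhi y`. -/
def StCFx : Prop := ∀ D : Cfg, OkC D → OkC D.fx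

/-- StCFy.  As StCFx (or: `D.fy = D.tr.fx.tr` up to the set `Z`, where `z.fy = z.tr.fx.tr`). -/
def StCFy : Prop := ∀ D : Cfg, OkC D → OkC D.fy

/-- StEq.  Equalities of configurations.  All fields of `Cfg` agree: the functions by `funext` and
`neg_neg`, `max_neg_neg`, `min_neg_neg`; the sets by `Finset.ext` with `Finset.mem_image`, `Finset.mem_filter`,
`Hole.tr (Hole.tr z) = z`, `Hole.fx (Hole.fx z) = z`, `Hole.fy (Hole.fy z) = z`,
`z.tr.y1 = z.x1`, `z.tr.y2 = z.x2`, `z.tr.x1 = z.y1`, `z.tr.x2 = z.y2`, `z.fx.x1 = -z.x2`, `z.fx.x2 = -z.x1`. -/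
def StEq : Prop :=
  (∀ D : Cfg, D.tr.tr = D ∧ D.fx.fx = D ∧ D.fy.fy = D) ∧
  (∀ (D : Cfg) (c : ℤ), (upA D c).tr = rtA D.tr c ∧ (dnA D c).tr = lfA D.tr c ∧
    (rtA D c).tr = upA D.tr c ∧ (lfA D c).tr = dnA D.tr c) ∧
  (∀ (D : Cfg) (c : ℤ), (upA D c).fx = upA D.fx c ∧ (dnA D c).fx = dnA D.fx c ∧
    (rtA D c).fx = lfA D.fx (-c) ∧ (lfA D c).fx = rtA D.fx (-c)) ∧
  (∀ (D : Cfg) (c : ℤ), (upA D c).fy = dnA D.fy (-c) ∧ (dnA D c).fy = upA D.fy (-c) ∧
    (rtA D c).fy = rtA D.fy c ∧ (lfA D c).fy = lfA D.fy c)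

/-- StSolSym.  Solvability is invariant under the symmetries: StSTr, StSFx and StEq (`D.tr.tr = D`); for `fy` use
`D.fy = D.tr.fx.tr` (all fields agree, `z.fy = z.tr.fx.tr`). -/
def StSolSym : Prop := ∀ (D : Cfg) (N : ℚ), (Sol D.tr N ↔ Sol D N) ∧ (Sol D.fx N ↔ Sol D N) ∧ (Sol D.fy N ↔ Sol D N)

/-! ## B. absorbing cuts -/

/-- StUpA.  `x ∈ (upA D c).V` iff `x ∈ D.V`, `c < vhi x` and `x` is not the down arm of a hole with `y1 ≤ c < y2`; the extent
is `[max (vlo x) c, vhi x]`.  v, h: clear.  vlo_end: if `vlo x ≤ c` the new end is at the wall `c`; else its host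
`vlo x > c` is in the new `H` with the same extent.  vhi_end: `vhi x > c`, same host.  hlo_end, `y > c`: if
`hlo y = x0 ∈ D.V` with `vlo x0 < y < vhi x0` then `x0` is not deleted: if `x0 = z.xD`, `z.y1 ≤ c < z.y2`, then `y < vhi z.xD = z.y2`
and `z.y1 ≤ c < y`, `hlo y = z.xD ≤ z.x2`, `z.x1 ≤ z.xD = hlo y < hhi y`: contradicts `cH z y`.  hhi_end: the same
(`hhi y = z.xD ≥ z.x1`, `hlo y < hhi y = z.xD ≤ z.x2`).  `max (vlo x0) c < y` because `c < y`.  nc: extents shrink.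
Holes `z` with `c < z.y1`: `z.xU` is kept: `vhi z.xU > z.y2 > c` (HB); if `z.xU = w.xD` with `w.y1 ≤ c` then `adjV z w` gives
`z.y2 < w.y1 ≤ c`, no.  `z.xD` is kept: `vhi = z.y2 > c`; `z.xD = w.xD` gives `z = w` (StHU), but `w.y1 ≤ c < z.y1`.
`z.yL, z.yR ≥ z.y1 > c`.  `max (vlo z.xU) c = z.y1`.  noV, noH, cV, cH: from `D` (`max a c ≤ b → a ≤ b`).  adjH, adjV: from `D`. -/
def StUpA : Prop := ∀ (D : Cfg) (c : ℤ), OkC D → D.Y0 < c → c < D.Y1 → OkC (upA D c)

/-- StDnA.  StUpA for `D.fy` and `-c` (StCFy, StEq: `(upA D.fy (-c)).fy = dnA D c`), or the mirror image proof. -/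
def StDnA : Prop := ∀ (D : Cfg) (c : ℤ), OkC D → D.Y0 < c → c < D.Y1 → OkC (dnA D c)

/-- StLRA.  `rtA D c = (upA D.tr c).tr`, `lfA D c = (dnA D.tr c).tr` (StEq), StCTr, StUpA, StDnA. -/
def StLRA : Prop := ∀ (D : Cfg) (c : ℤ), OkC D → D.X0 < c → c < D.X1 → OkC (lfA D c) ∧ OkC (rtA D c)

/-- StSzA.  `c` itself is lost, everything else only shrinks. -/
def StSzA : Prop :=
  (∀ (D : Cfg) (c : ℤ), (upA D c).sz ≤ D.sz ∧ (dnA D c).sz ≤ D.sz ∧ (rtA D c).sz ≤ D.sz ∧ (lfA D c).sz ≤ D.sz) ∧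
  (∀ (D : Cfg) (c : ℤ), c ∈ D.H → (upA D c).sz < D.sz ∧ (dnA D c).sz < D.sz) ∧
  (∀ (D : Cfg) (x : ℤ), x ∈ D.V → (rtA D x).sz < D.sz ∧ (lfA D x).sz < D.sz) ∧
  (∀ D : Cfg, D.tr.sz = D.sz ∧ D.fx.sz = D.sz ∧ D.fy.sz = D.sz)

/-- StSub.  A face of `E` which meets an empty box `g` contains it.  If `g.x1 < f.x1` then `f.x1 ≠ E.X0`, so `f.x1 ∈ E.V`
covers `[f.y1, f.y2]`, and `g.x1 < f.x1 < f.x2`, `f.x1 < g.x2` (Meets): `f.x1` meets the interior of `g`.  The other
three sides are the same. -/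
def StSub : Prop := ∀ (E : Cfg) (f g : Box), IsFace E f →
  (∀ x ∈ E.V, g.x1 < x → x < g.x2 → E.vlo x < g.y2 → g.y1 < E.vhi x → False) →
  (∀ y ∈ E.H, g.y1 < y → y < g.y2 → E.hlo y < g.x2 → g.x1 < E.hhi y → False) →
  E.X0 ≤ g.x1 → g.x2 ≤ E.X1 → E.Y0 ≤ g.y1 → g.y2 ≤ E.Y1 → Meets f g →
  f.x1 ≤ g.x1 ∧ g.x2 ≤ f.x2 ∧ f.y1 ≤ g.y1 ∧ g.y2 ≤ f.y2

/-- StStub.  Faces of `upA D c` containing a stub.  Let `s = z.xD` be deleted (`z.y1 ≤ c < z.y2`; its part above `c` is
`{s} x [c, z.y2]`) and let the face `f` of `upA D c` meet it in its interior (`f.x1 < s < f.x2`; `f.y1 < z.y2`).  `f.y1 = c`: otherwise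
`f.y1 ∈ H`, `c < f.y1 < z.y2`, and `f.y1` passes over `s` (`hlo f.y1 ≤ f.x1 < s < f.x2 ≤ hhi f.y1`): `nc` (`vlo s < z.y1`, HB.loD;
`vhi s = z.y2`).  `f.y2 = z.y2`: if `f.y2 < z.y2` then `f.y2` passes over `s`, `nc`; if `z.y2 < f.y2`: the piece `z.y2 ∈ H` (it is
`yR` for type A, `yL` for type B; vhi_end of `s`: `hlo < s < hhi`) meets the interior of `f`: f.noH.
Type A (`s = z.x2`, `z.xU = z.x1`): `f.x1 = z.xU`: `z.xU` is not deleted (`z.xU = w.xD` with `w.y1 ≤ c < w.y2`: `adjV z w`: `z.y2 < w.y1 ≤ c`,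
no) and covers `[c, z.y2]` (`vlo z.xU = z.y1 ≤ c`, `vhi z.xU > z.y2`), so `z.xU ≤ f.x1` (otherwise `f.x1 < z.xU < f.x2` contradicts f.noV); if
`z.xU < f.x1`: `f.x1 ≠ X0`, so `f.x1 ∈ D.V` covers `[c, z.y2]` and lies strictly between `z.x1` and `z.x2`: contradicts `cV z`.
Type B (`s = z.x1`, `z.xU = z.x2`): `f.x2 = z.xU`, in the same way. -/
def StStub : Prop := ∀ (D : Cfg) (c : ℤ) (f : Box) (z : Hole), OkC D → D.Y0 < c → c < D.Y1 → IsFace (upA D c) f →
  z ∈ D.Z → z.y1 ≤ c → c < z.y2 → f.x1 < z.xD → z.xD < f.x2 → f.y1 < z.y2 →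
  f.y1 = c ∧ f.y2 = z.y2 ∧ (z.yL < z.yR → f.x1 = z.xU) ∧ (z.yR < z.yL → f.x2 = z.xU)

/-- StFitUp.  Let `φ` be the map of `Fit D ∅ A`.  For `R ∈ A` meeting the box of `upA D c` let `g R = clip (φ R)`
(`⟨x1, x2, max y1 c, y2⟩`), a face of `up D c` (StFClip; `c < (φ R).y2` because the part of `R` above `c` lies in `φ R`), and
let `φ' R` be the face of `upA D c` containing the lower left unit square of `g R` (StFE for `upA D c`, StUpA).  `g R` is
empty in `up D c`, so it is empty in `upA D c` (fewer pieces), so `g R ⊆ φ' R` (StSub): InF holds.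
`φ' R` is no hole: if `φ' R = z.box`, `z ∈ D.Z`, `c < z.y1`: `z.box` (StHB: a face of `D`) and `φ R` have a common interior
point, so they are equal (StFU), but `φ R` is no hole.
Injective: let `f = φ' R = φ' R'`, `g = g R`, `g' = g R'`; both are contained in `f`.  Define `a = z.xD` if there is `z ∈ D.Z` with
`z.y1 ≤ c < z.y2`, `f.x1 < z.xD < f.x2`, `f.y1 < z.y2` and type A, else `a = f.x1`; `b = z.xD` if there is such a `z` of type B, else
`b = f.x2`.  By StStub `z.xU = f.x1` for type A, so `z` is unique (StHU), similarly for type B.  The box `M = ⟨a, b, f.y1, f.y2⟩` is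
empty in `up D c`: a piece of `up D c` meeting the interior of `f` is a deleted one, `x = z.xD`, `z.y1 ≤ c < z.y2`, and by
StStub it is the `a`-piece or the `b`-piece.  `g` lies in `M`: `g` and `clip z.box` (`⟨z.x1, z.x2, c, z.y2⟩ = ⟨f.x1, a, f.y1, f.y2⟩` for type A)
have disjoint interiors, because otherwise `φ R` and `z.box` have a common interior point (both are faces of `D`),
so `φ R = z.box`, a hole; as `g ⊆ f` this gives `a ≤ g.x1`, similarly `g.x2 ≤ b`.  The same for `g'`.  As `g` is a face of `up D c` and `M` is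
empty in `up D c` and they meet, `M ⊆ g` (StSub for `up D c`), so `g = M = g'`.  So `φ R`, `φ R'` have a common interior
point and are equal (StFU), so `R = R'`. -/
def StFitUp : Prop := ∀ (D : Cfg) (A : Finset Box) (c : ℤ), OkC D → D.Y0 < c → c < D.Y1 → Fit D ∅ A →
  Fit (upA D c) ∅ A

/-- StFitFy.  New map `R ↦ (φ R.fy).fy`; faces, InF, Meets, holes are invariant under `fy` (compare `SS_gen` in
Pool/Agent/RB/M_SS.lean, where this is done for `tr` and `fx`). -/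
def StFitFy : Prop := ∀ (D : Cfg) (A : Finset Box), Fit D ∅ A → Fit D.fy ∅ (A.image Box.fy)

/-- StFitDn.  StFitUp for `D.fy`, `A.image Box.fy`, `-c`, and StFitFy twice (`(A.image Box.fy).image Box.fy = A`,
`(upA D.fy (-c)).fy = dnA D c`, StEq). -/
def StFitDn : Prop := ∀ (D : Cfg) (A : Finset Box) (c : ℤ), OkC D → D.Y0 < c → c < D.Y1 → Fit D ∅ A →
  Fit (dnA D c) ∅ A

/-- StCutH.  The cut along the horizontal piece `c`.  Given `A` with `Fit D ∅ A`, StFitUp and StFitDn give partitions of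
the two parts (`(upA D c).box = ⟨X0,X1,c,Y1⟩`, `(dnA D c).box = ⟨X0,X1,Y0,c⟩`, rfl), `Bsp.horiz`; a member of `A` meeting `D.box` meets
the upper or the lower part, and both exactly when it is cut, so `cnt up + cnt dn = cnt D + #cut`; StCC gives
`#cut + hit D c ≤ crs D c`.  (Compare StSH, Pool/Agent/RB/M_SH.lean: the same proof.) -/
def StCutH : Prop := ∀ (D : Cfg) (c : ℤ) (N1 N2 N : ℚ), OkC D → c ∈ D.H → Sol (upA D c) N1 → Sol (dnA D c) N2 →
  N1 + N2 + (crs D c : ℚ) - (hit D c : ℚ) ≤ N → Sol D N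

/-- StCutV.  StCutH for `D.tr` (StEq: `upA D.tr x = (rtA D x).tr`, `dnA D.tr x = (lfA D x).tr`; StSolSym; `crs D.tr x = crsV D x` by rfl;
`hit D.tr x = hitV D x` by `card_image_of_injective`). -/
def StCutV : Prop := ∀ (D : Cfg) (x : ℤ) (N1 N2 N : ℚ), OkC D → x ∈ D.V → Sol (lfA D x) N1 → Sol (rtA D x) N2 →
  N1 + N2 + (crsV D x : ℚ) - (hitV D x : ℚ) ≤ N → Sol D N

/-- StMonoC.  `Sol` is monotone. -/
def StMonoC : Prop := ∀ (D : Cfg) (N N' : ℚ), Sol D N → N ≤ N' → Sol D N'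

/-- StLeaf.  No pieces: the only face is the box, so at most one member of `A` meets it (see StBase,
Pool/Agent/RB/M_Base.lean). -/
def StLeaf : Prop := ∀ D : Cfg, OkC D → D.V = ∅ → D.H = ∅ → Sol D 0

/-! ## C. counting identities for a horizontal cut -/

/-- StI1.  Number of pieces.  Horizontal pieces: those above, those below, and `c`.  Vertical pieces: `x` is in the
upper part iff `c < vhi x` and it is not deleted there, in the lower part iff `vlo x < c` and not deleted there.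
`#{c < vhi x} + #{vlo x < c} = #V + crs` (for every `x`: `[c < vhi x] + [vlo x < c] = 1 + [vlo x < c < vhi x]` because `vlo x < vhi x`).
Deleted above: `{z.xD : z.y1 ≤ c < z.y2}` (in bijection with these holes, StHU; `c < vhi z.xD = z.y2`), deleted below:
`{z.xU : z.y1 < c ≤ z.y2}` (`vlo z.xU = z.y1 < c`): together `2 hit + #{z.y1 = c} + #{z.y2 = c} = 2 hit + tch`. -/
def StI1 : Prop := ∀ (D : Cfg) (c : ℤ), OkC D → c ∈ D.H →
  (upA D c).sz + (dnA D c).sz + 1 + 2 * hit D c + tch D c = D.sz + crs D c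

/-- StI2.  A hole is above, below, hit or touched (`z.y1 < z.y2`, HB). -/
def StI2 : Prop := ∀ (D : Cfg) (c : ℤ), OkC D →
  (upA D c).Z.card + (dnA D c).Z.card + hit D c + tch D c = D.Z.card

/-- StI3.  Ends at the new walls.  Upper part: `x ∈ (upA D c).V` has `max (vlo x) c = c` iff `vlo x ≤ c`; the pieces with
`vlo x < c < vhi x` are `crs` many; those with `vlo x = c` are the T-ends `eUp` and the up arms of the holes with
`z.y1 = c` (`vlo z.xU = z.y1`; an up arm `z.xU` with `vlo = c` belongs to such a hole); deleted: `{z.xD : z.y1 ≤ c < z.y2}`, all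
of them have `vlo z.xD < z.y1 ≤ c` (HB), their number is `hit + #{z.y1 = c}`.  So `WB (upA D c) = crs + eUp + #{y1 = c} - hit - #{y1 = c}`.
Lower part: mirror image. -/
def StI3 : Prop := ∀ (D : Cfg) (c : ℤ), OkC D → c ∈ D.H →
  WB (upA D c) + hit D c = crs D c + (eUp D c).card ∧ WT (dnA D c) + hit D c = crs D c + (eDn D c).card

/-- StI4.  Ends at the old walls.  `vhi x = Y1 > c`; a deleted piece `z.xD` has `vhi = z.y2 < Y1` (HB).  Horizontal pieces: above,
below, or `c`. -/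
def StI4 : Prop := ∀ (D : Cfg) (c : ℤ), OkC D → c ∈ D.H →
  WT (upA D c) = WT D ∧ WB (dnA D c) = WB D ∧
  WL (upA D c) + WL (dnA D c) + (if D.hlo c = D.X0 then 1 else 0) = WL D ∧
  WR (upA D c) + WR (dnA D c) + (if D.hhi c = D.X1 then 1 else 0) = WR D ∧
  fH (upA D c) + fH (dnA D c) + (if D.hlo c = D.X0 ∧ D.hhi c = D.X1 then 1 else 0) = fH D

/-- StI5.  Holes touched by `c`: each end of the piece `c` not at a wall which is owned by a hole belongs to one
touched hole (`z.yL = c`: right end, `z.yR = c`: left end; StHU), and `z.y1 = c` or `z.y2 = c` iff `z.yL = c` or `z.yR = c`.  A left end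
owned by `z` is at `z.x1 > X0`, so `tch + wH ≤ 2`; `z.yL = c` and `z.yR = c` do not both hold for one hole. -/
def StI5 : Prop := ∀ (D : Cfg) (c : ℤ), OkC D → c ∈ D.H → tch D c + wH D c ≤ 2

/-- StI6.  Transposed counts.  All by `rfl` or `card_image_of_injective` with `z.tr.y1 = z.x1` etc. -/
def StI6 : Prop :=
  (∀ D : Cfg, WT D.tr = WR D ∧ WB D.tr = WL D ∧ WL D.tr = WB D ∧ WR D.tr = WT D ∧ fH D.tr = fV D ∧ fV D.tr = fH D ∧
    D.tr.Z.card = D.Z.card) ∧
  (∀ (D : Cfg) (x : ℤ), crs D.tr x = crsV D x ∧ crsV D.tr x = crs D x ∧ hit D.tr x = hitV D x ∧ hitV D.tr x = hit D x ∧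
    tch D.tr x = tchV D x ∧ tchV D.tr x = tch D x ∧ wH D.tr x = wV D x ∧ wV D.tr x = wH D x ∧
    eUp D.tr x = eRt D x ∧ eDn D.tr x = eLf D x ∧ eRt D.tr x = eUp D x ∧ eLf D.tr x = eDn D x)

/-- StI7.  Counts of the mirror image. -/
def StI7 : Prop :=
  (∀ D : Cfg, WT D.fx = WT D ∧ WB D.fx = WB D ∧ WL D.fx = WR D ∧ WR D.fx = WL D ∧ fH D.fx = fH D ∧ fV D.fx = fV D ∧
    D.fx.Z.card = D.Z.card) ∧
  (∀ (D : Cfg) (c : ℤ), crs D.fx c = crs D c ∧ crsV D.fx (-c) = crsV D c ∧ hit D.fx c = hit D c ∧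
    hitV D.fx (-c) = hitV D c ∧ tch D.fx c = tch D c ∧ tchV D.fx (-c) = tchV D c ∧ wH D.fx c = wH D c ∧
    wV D.fx (-c) = wV D c ∧ (eUp D.fx c).card = (eUp D c).card ∧ (eDn D.fx c).card = (eDn D c).card ∧
    (eRt D.fx (-c)).card = (eLf D c).card ∧ (eLf D.fx (-c)).card = (eRt D c).card)

/-! ## D. the root -/

/-- StRootC.  As StRootS (Pool/Agent/RB/M_RootS.lean, Pool/Agent/Helper23/BG/RBRoot.lean), with `OkC` instead of `Ok`: the
root dissection of helper23 (`Pool.Agent.Helper23.BG.exists_root`) has clean holes (`CleanF`), which gives `cV` and `cH`. -/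
def StRootC : Prop := ∀ (n : ℕ) (s : Fin n → IBox), 0 < n → Seeds n s →
  ∃ D : Cfg, OkC D ∧ D.box = ⟨0, 2 * n + 1, 0, 2 * n + 1⟩ ∧ Fit D ∅ (bx s) ∧ D.sz + 1 ≤ n + D.Z.card

/-- StEnds.  Each of the `2 sz` ends of pieces is at a wall, owned by a hole or a T-end; a hole owns exactly four ends
(`(xU, low)`, `(xD, high)`, `(yR, left)`, `(yL, right)`), different holes own different ends (StHU), and owned ends are not at
walls (HB). -/
def StEnds : Prop := ∀ D : Cfg, OkC D →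
  2 * D.sz = 4 * D.Z.card + (WT D + WB D + WL D + WR D) +
    ((tLo D).card + (tHi D).card + (tLe D).card + (tRi D).card)

end Pool.RC
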