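import Pool.Agent.RC.Defs2
import Pool.Agent.RC.St1

/-!
# Statements of project RC, part 2: accounting and moves
Every docstring contains a complete proof; all statements have been checked numerically in the form below (1.6 million
cells, millions of lines).  The modules of part 1 are proved: `import Pool.Agent.RC.M_X` and use the theorems `pX`
(see Pool/Agent/RC/Main1.lean for the assembled versions `qX` without hypotheses).
Notation in the docstrings: `UP = upA D p`, `v = w.xD`, `L = lfA UP v`, `R = rtA UP v`.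
-/

namespace Pool.RC

open Pool.RB

/-! ## E. cut lemmas in units of 1/3 -/

/-- StZM.  Monotone (StMonoC). -/
def StZM : Prop := ∀ (D : Cfg) (m n : ℤ), SolZ D m → m ≤ n → SolZ D n

/-- StCH.  StCutH with StI1, StI2, StI3, StI4.  Let `k = crs`, `h = hit`.  `5 (sz - Z)`: the two parts together have
`5 (sz - Z) + 5 (k - h - 1)` (StI1, StI2).  Wall ends: the two parts together have `W + 2 (k - h) + eH - wH` (StI3, StI4; note
`WT (dnA) + WB (upA) = 2 (k - h) + eH`).  So `U (upA) + U (dnA) + 3 (k - h) = U D - 5 - 4 eH + 4 wH`. -/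
def StCH : Prop := ∀ (D : Cfg) (c a b : ℤ), OkC D → c ∈ D.H → SolZ (upA D c) (U (upA D c) + a) →
  SolZ (dnA D c) (U (dnA D c) + b) → SolZ D (U D + a + b - 5 - 4 * (eH D c : ℤ) + 4 * (wH D c : ℤ))

/-- StCV.  The same for a vertical line: StCutV and StI1, ..., StI4 for `D.tr` (StEq: `upA D.tr x = (rtA D x).tr`,
`dnA D.tr x = (lfA D x).tr`; StI6, `D.tr.sz = D.sz`), or StCH for `D.tr` and StSolSym. -/
def StCV : Prop := ∀ (D : Cfg) (x a b : ℤ), OkC D → x ∈ D.V → SolZ (lfA D x) (U (lfA D x) + a) →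
  SolZ (rtA D x) (U (rtA D x) + b) → SolZ D (U D + a + b - 5 - 4 * (eV D x : ℤ) + 4 * (wV D x : ℤ))

/-- StW.  Wall ends and full pieces of the two parts of a vertical cut: StI3, StI4 for `D.tr` (StEq, StI6). -/
def StW : Prop := ∀ (D : Cfg) (x : ℤ), OkC D → x ∈ D.V →
  WR (lfA D x) + hitV D x = crsV D x + (eLf D x).card ∧ WL (rtA D x) + hitV D x = crsV D x + (eRt D x).card ∧
  WL (lfA D x) = WL D ∧ WR (rtA D x) = WR D ∧
  WT (lfA D x) + WT (rtA D x) + (if D.vhi x = D.Y1 then 1 else 0) = WT D ∧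
  WB (lfA D x) + WB (rtA D x) + (if D.vlo x = D.Y0 then 1 else 0) = WB D ∧
  fV (lfA D x) + fV (rtA D x) + (if D.vlo x = D.Y0 ∧ D.vhi x = D.Y1 then 1 else 0) = fV D

/-! ## F. symmetries of the potential -/

/-- StSymZ.  Holes: `z.fx = ⟨z.yR, z.yL, -z.xU, -z.xD⟩`, `z.tr = ⟨z.xD, z.xU, z.yR, z.yL⟩` exchange the types as follows: `fx`
exchanges A and B, `tr` keeps: `z.tr.yL < z.tr.yR` iff `z.xD < z.xU` (type B of `z` gives type A of `z.tr`).  (1) `fx`: `U`, `WB`, `fH` do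
not change (StI7); a T-end from above stays one from above, the left arm of `z` is the right arm of `z.fx`; type A with
`icL` (nothing from above on `yL`) becomes type B with `icR` (nothing from above on `yR`).  (2) `E.fx.tr.fx`: `WB = WR E`, `fH = fV E`,
`LI true` for `z.fx.tr.fx` says `VC E z` and `icU E z`.  (Check: `z.fx.tr.fx = ⟨z.yL', ...⟩`; its left arm is the vertical piece
`z.xU` of `E`, i.e. `(z.fx.tr.fx).yL = -z.xU`.)  (3) `E.tr.fx`: `WB = WL E`, `fH = fV E`, `(z.tr.fx).yL = z.tr.yR = z.xU`. -/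
def StSymZ : Prop :=
  (∀ (s : Bool) (D : Cfg), U D.fx = U D ∧ KB (!s) D.fx = KB s D ∧ U D.tr = U D) ∧
  (∀ E : Cfg, KB true E.fx.tr.fx = KR E ∧ KB true E.tr.fx = KL E ∧ KR E.fx = KL E ∧ KL E.fx = KR E) ∧
  (∀ (s : Bool) (D : Cfg) (z : Hole), (LI (!s) D.fx z.fx ↔ LI s D z) ∧ (icU D.fx z.fx ↔ icU D z) ∧
    (VC D.fx z.fx ↔ VC D z))

/-- StIHs.  Consequences of the induction hypothesis for a smaller cell `E` with open side right / left / bottom: StSymZ,
StSolSym (`SolZ E.fx.tr.fx n ↔ SolZ E n` by StSolSym three times), StCTr, StCFx, sizes (StSzA).  And `IH` and `P` are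
invariant under the reflection. -/
def StIHs : Prop :=
  (∀ D E : Cfg, IH D → OkC E → E.sz < D.sz → SolZ E (U E + KR E) ∧ SolZ E (U E + KL E) ∧
    ∀ s : Bool, SolZ E (U E + KB s E)) ∧
  (∀ D : Cfg, IH D → IH D.fx) ∧ (∀ (s : Bool) (D : Cfg), P (!s) D.fx ↔ P s D)

/-- StSit.  The setting is invariant under the reflection (StCFx, StIHs, StSymZ; `Irr`, `TopGe`, `Tg` are clear), and so are
the sets.  `D.fx.vlo (-x) = D.vlo x`, `z.fx.xD = -z.xD`, `z.fx.y1 = z.y1`. -/
def StSit : Prop :=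
  (∀ (s : Bool) (D : Cfg) (g : ℤ), Sit s D g → Sit (!s) D.fx g) ∧
  (∀ (s : Bool) (D : Cfg) (g : ℤ), EL (!s) D.fx g = (EL s D g).image Hole.fx ∧
    MM (!s) D.fx g = (MM s D g).image Hole.fx ∧ QQ D.fx g = (QQ D g).image Hole.fx ∧
    (MM (!s) D.fx g).card = (MM s D g).card ∧ (QQ D.fx g).card = (QQ D g).card) ∧
  (∀ (D : Cfg) (g : ℤ) (w : Hole), (TowL D.fx g w.fx ↔ TowR D g w) ∧ (TowR D.fx g w.fx ↔ TowL D g w) ∧
    (BadL D.fx w.fx ↔ BadR D w) ∧ (BadR D.fx w.fx ↔ BadL D w) ∧ (EC D.fx g w.fx ↔ EC D g w)) ∧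
  (∀ (D : Cfg) (c : ℤ), eH D.fx c = eH D c ∧ wH D.fx c = wH D c ∧ eV D.fx (-c) = eV D c ∧ gn D.fx c = gn D c)

/-! ## G. inner sides, strips -/

/-- StStr.  The strip lemma.  Let `y` be the smallest piece with `w.y2 < y`, `hlo y < w.x2`, `w.x1 < hhi y` (strong induction on
`y - w.y2`).  Type A (`w.xU = w.x1`): `w.xU` covers the heights in `(w.y1, Y1)`, so `y` does not cross it: `w.x1 ≤ hlo y < w.x2`.  If
`hlo y = w.xU`: `y` is in `eRt D w.xU` (contradiction to `icU`) unless its left end is owned: `z.yR = y`, `z.x1 = w.xU`; `z.xU = w.xU` gives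
`z = w` (StHU), `y = w.yR = w.y2`, no; `z.xD = w.xU` gives `vhi w.xU = z.y2 < Y1` (HB), no.  So `w.x1 < hlo y =: x`, `x ∈ V`, `vlo x < y < vhi x`; `cV w x`
gives `w.y2 < vlo x` (`w.y1 < y < vhi x`), so `vlo x ∈ H`, `hlo (vlo x) < x < hhi (vlo x)`: `vlo x` is a smaller piece of the same
kind.  Type B: mirror image. -/
def StStr : Prop := ∀ (D : Cfg) (w : Hole), OkC D → w ∈ D.Z → D.vhi w.xU = D.Y1 → icU D w →
  ∀ y ∈ D.H, w.y2 < y → D.hlo y < w.x2 → w.x1 < D.hhi y → False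

/-- StOne.  The only piece crossing the vertical line `x = w.xD` is the piece at height `w.y2` (the host of the upper end of
`w.xD`: `hlo < w.xD < hhi`): pieces `y < w.y2` would cross `w.xD` (`vlo w.xD = Y0`, nc), pieces `y > w.y2` are excluded by StStr
(`hlo y < w.xD ≤ w.x2`, `w.x1 ≤ w.xD < hhi y`).  A hole `z` with `z.x1 < w.xD < z.x2` has two arms crossing this line (the pieces
`z.y1`, `z.y2` cover `[z.x1, z.x2]`, HB), but only `w.y2` crosses it. -/
def StOne : Prop := ∀ (D : Cfg) (w : Hole), OkC D → w ∈ D.Z → D.vhi w.xU = D.Y1 → icU D w → D.vlo w.xD = D.Y0 →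
  crsV D w.xD = 1 ∧ hitV D w.xD = 0

/-- StIC.  Inner sides in parts.  (1) If `y` is a T-end on `z.xU` in `upA D c`, then it is one in `D` unless its end is owned in `D`
by `z'`: then `z.xU` is `z'.xU` (`z' = z`, StHU; but `z` is still there) or `z'.xD` (`adjV z z'`: `c < z.y2 < z'.y1`, so `z'` is still there).
Conversely a T-end `y` of `D` on `z.xU` has `y > vlo z.xU = z.y1 > c` (hlo_end / hhi_end) and stays.  (2) A T-end `x` of `D` on an arm `y` of `z`,
`y ≤ z.y2 < c`, stays in `dnA D c`: it is not deleted (from above: a deleted piece `z'.xU` has an owned lower end; from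
below: `vhi x = y < c` but a deleted `z'.xU` has `vhi > z'.y2 ≥ c`, HB) and not owned; the value of `vlo` resp. `min (vhi x) c` does
not change.  `LC` is the same.  (3) T-ends `y` of `D` on `z.xU`, `z.x2 < v`, stay in `lfA D v`: type A, `hlo y = z.xU < v`: a deleted piece `z'.yR`
has an owned left end; type B, `hhi y = z.xU < v`, a deleted `z'.yR` has `hhi > z'.x2 ≥ v`.  (4) mirror image of (3). -/
def StIC : Prop := ∀ (D : Cfg) (z : Hole) (c : ℤ), OkC D → z ∈ D.Z →
  (D.Y0 < c → c < z.y1 → (icU (upA D c) z ↔ icU D z)) ∧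
  (∀ s : Bool, z.y2 < c → c < D.Y1 → LI s (dnA D c) z → LI s D z) ∧
  (z.x2 < c → c < D.X1 → icU (lfA D c) z → icU D z) ∧
  (D.X0 < c → c < z.x1 → icU (rtA D c) z → icU D z)

/-- StDnK.  `WB (dnA D c) = WB D`, `fH (dnA D c) ≤ fH D` (StI4); a hole of `dnA D c` counted in `uH` has `z.y2 < c` and is counted in
`D` (StIC (2)). -/
def StDnK : Prop := ∀ (s : Bool) (D : Cfg) (c : ℤ), OkC D → c ∈ D.H →
  KB s (dnA D c) ≤ 3 * (WB D : ℤ) + 3 * fH D + LIb s D c

/-- StAcc.  `QQ \ MM` = members of `QQ` with `LI`; they have `c < z.y1`; the holes counted in `LIt` have `z.y1 = c`, those in `LIb` have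
`z.y2 < c`: three disjoint sets of holes with `LI` (`z.y1 < z.y2`, HB). -/
def StAcc : Prop := ∀ (s : Bool) (D : Cfg) (c : ℤ), OkC D →
  LIb s D c + LIt s D c + (QQ D c).card ≤ uH s D + (MM s D c).card

/-- StUpE.  For an element `w` and the line `p`: `w` is a hole of `UP` (`p < w.y1`), `vhi w.xU = Y1`, `icU UP w` (StIC (1)), `vlo w.xD`
becomes `max (vlo w.xD) p = p`; so StOne for `UP`; `wV UP w.xD = 1` (`vhi w.xD = w.y2 < Y1`, HB). -/
def StUpE : Prop := ∀ (D : Cfg) (p : ℤ) (w : Hole), OkC D → EC D p w →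
  OkC (upA D p) ∧ w ∈ (upA D p).Z ∧ w.xD ∈ (upA D p).V ∧ icU (upA D p) w ∧ VC (upA D p) w ∧
  crsV (upA D p) w.xD = 1 ∧ hitV (upA D p) w.xD = 0 ∧ wV (upA D p) w.xD = 1 ∧
  (upA D p).X0 < w.xD ∧ w.xD < (upA D p).X1 ∧ D.Y0 < p ∧ p < D.Y1

/-- StCnt.  Counts for the two upper leaves.  `fV UP = 0`: a piece with `vhi x = Y1` has `vlo x > p` (TopGt); so `fV L = fV R = 0`
(StW).  A hole counted in `uV L` is a hole `z` of `UP` with `z.x2 < v`, `vhi z.xU = Y1`, `max (vlo z.xD) p = p`, and `icU D z` (StIC (3),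
(1)): it is in `QQ D p`, and it is not `w` (`w.x2 < v = w.xD ≤ w.x2` is false).  A hole counted in `uV R` has `v < z.x1`, so the two sets
are disjoint, and `w ∈ QQ D p` is in none. -/
def StCnt : Prop := ∀ (D : Cfg) (p : ℤ) (w : Hole), OkC D → EC D p w →
  fV (upA D p) = 0 ∧ fV (lfA (upA D p) w.xD) = 0 ∧ fV (rtA (upA D p) w.xD) = 0 ∧
  uV (lfA (upA D p) w.xD) + uV (rtA (upA D p) w.xD) + 1 ≤ (QQ D p).card

/-- StCntU.  `uV UP ≤ QQ` for every line `p` (StIC (1)); if `TopGt D p` then `fV UP = 0`; if `TopGe D p` then `fV UP` is the number of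
`Tg D p`. -/
def StCntU : Prop := ∀ (D : Cfg) (p : ℤ), OkC D → p ∈ D.H →
  uV (upA D p) ≤ (QQ D p).card ∧ (TopGt D p → fV (upA D p) = 0) ∧ (TopGe D p → fV (upA D p) = (Tg D p).card)

/-- StUVfull.  A cut of a cell `E` along a full vertical piece `x`, or along `y.xD` for a counted hole `y`: the counted holes
of the two parts are counted in `E` (StIC (3), (4)), they are on different sides, and `y` is in none of them. -/
def StUVp : Prop := ∀ (E : Cfg) (x : ℤ), OkC E → x ∈ E.V →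
  uV (lfA E x) + uV (rtA E x) ≤ uV E ∧
  (∀ y ∈ E.Z, y.xD = x → VC E y → icU E y → uV (lfA E x) + uV (rtA E x) + 1 ≤ uV E)

/-! ## H. leaves -/

/-- StLd.  Decomposition of a leaf with open right side along a full horizontal piece `c`: StCH with StIHs for the two
parts (smaller: StSzA): `SolZ E (U E + KR (upA E c) + KR (dnA E c) - 5 - 4 eH + 8)`.  `WR (upA) + WR (dnA) = WR E - 1` (StI4).  No piece
crosses `c` (nc), `c` is no arm (an arm has an end owned by a hole, strictly inside), so the ends on `c` are T-ends;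
`fV (upA E c)` counts the `x ∈ eUp E c` with `vhi x = Y1`; `uV (upA E c)` counts holes `z` with `z.xD ∈ eUp E c` (`vlo z.xD ≤ c` means `= c`),
`vhi z.xD = z.y2 ≠ Y1`, injectively: together `3 fV + uV ≤ 3 #T + #nonT`, i.e. `4 |eUp| - 3 fV - uV ≥ |eUp| + 2 #nonT`.
Lower part: `fV` counts some `x ∈ eDn E c` with `vlo x = Y0`, `uV` counts holes with `z.xU ∈ eDn E c` (`vlo z.xU = z.y1 ≠ Y0`):
`3 fV + uV ≤ 3 |eDn|`.  The version with open left side: apply the first to `E.fx` (StIHs, StSit: `gn`). -/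
def StLd : Prop := ∀ (D E : Cfg) (c : ℤ), IH D → OkC E → E.sz < D.sz → c ∈ E.H → E.hlo c = E.X0 → E.hhi c = E.X1 →
  SolZ E (U E + 3 * (WR E : ℤ) - gn E c) ∧ SolZ E (U E + 3 * (WL E : ℤ) - gn E c)

/-- StLv.  Cut of a leaf with open right side along `v = y.xD`, `y` a counted hole: StCV with StIHs for both parts (open right):
`a = KR (lfA E v)`, `b = KR (rtA E v)`, `fV = 0` for both (StW), `WR (lfA) = 1 + |eLf|` (StW, StOne), `WR (rtA) = WR E`, `uV + uV + 1 ≤ uV E` (StUVp),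
`wV E v = 1`: `3 + 3 |eLf| + 3 WR E + uV E - 1 - 5 - 4 |eLf| - 4 |eRt| + 4`.  Open left side: mirror image (`E.fx`). -/
def StLv : Prop := ∀ (D E : Cfg) (y : Hole), IH D → OkC E → E.sz < D.sz → fV E = 0 → y ∈ E.Z → VC E y → icU E y →
  SolZ E (U E + 3 * (WR E : ℤ) + uV E + 1 - (eLf E y.xD).card - 4 * ((eRt E y.xD).card : ℤ)) ∧
  SolZ E (U E + 3 * (WL E : ℤ) + uV E + 1 - (eRt E y.xD).card - 4 * ((eLf E y.xD).card : ℤ))

/-- StLf.  Cut of a leaf with open right side along a full vertical piece `x` (nothing crosses it, no hole is touched or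
hit): StCV with StIHs for both parts (open right): `WR (lfA) = |eLf|`, `WR (rtA) = WR E`, `fV + fV = fV E - 1`, `wV = 2`, StUVp. -/
def StLf : Prop := ∀ (D E : Cfg) (x : ℤ), IH D → OkC E → E.sz < D.sz → x ∈ E.V → E.vlo x = E.Y0 → E.vhi x = E.Y1 →
  SolZ E (U E + KR E - (eLf E x).card - 4 * ((eRt E x).card : ℤ)) ∧
  SolZ E (U E + KL E - (eRt E x).card - 4 * ((eLf E x).card : ℤ))

/-! ## I. moves -/

/-- StBaseC.  No pieces: StLeaf; `Z = ∅` (a hole has arms), all counts are 0. -/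
def StBaseC : Prop := ∀ (s : Bool) (D : Cfg), OkC D → D.V = ∅ → D.H = ∅ → P s D

/-- StMFH.  Full horizontal piece `c`: StCH with StIHs (open bottom, same `s`).  `crs = hit = 0` (nc; a hole hit by `c` is
excluded by noH), so `WB (upA) = |eUp|`, `WB (dnA) = WB D`, `fH + fH = fH D - 1` (StI3, StI4), `uH (upA) + uH (dnA) ≤ uH D`: T-ends of `D` on
an arm of `z` (`z` above or below `c`) stay (StIC (2) for the lower part, for the upper part: a T-end `x` on an arm `y > c` of `z` from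
above has `vlo x = y > c`, from below `vhi x = y`; it is not deleted, because no hole has `z'.y1 ≤ c < z'.y2`).  `wH = 2`.  Sum:
`3 |eUp| + 3 WB D + 3 fH D - 3 + uH D - 5 - 4 eH + 8 ≤ KB s D`. -/
def StMFH : Prop := ∀ (s : Bool) (D : Cfg) (c : ℤ), OkC D → IH D → c ∈ D.H → D.hlo c = D.X0 → D.hhi c = D.X1 → P s D

/-- StMFV.  Full vertical piece `x`: StCV with StIHs (open bottom, same `s`).  `WB + WB = WB D - 1` (StW).  No piece crosses `x`, so a
horizontal piece which is full in a part ends on `x` (T-end, `x` is no arm), and a hole counted in `uH (lfA D x)` has `hhi z.yR = x`,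
one counted in `uH (rtA D x)` has `hlo z.yL = x`: again T-ends on `x`; a full piece is no arm.  So `3 fH + uH`, summed over both parts,
is at most `3 eV`.  `wV = 2`.  Sum: `3 WB D - 3 + 3 eV - 5 - 4 eV + 8 ≤ 3 WB D`. -/
def StMFV : Prop := ∀ (s : Bool) (D : Cfg) (x : ℤ), OkC D → IH D → x ∈ D.V → D.vlo x = D.Y0 → D.vhi x = D.Y1 → P s D

/-- StR2g.  The general move R2: cut `p`, then `UP` along `v = w.xD`, with arbitrary values `a`, `b` for the two upper leaves.
StCV for `UP` (StUpE): `U UP + (3 WR L + a) + (3 WL R + b) - 5 - 4 eV + 4`, `WR L + WL R = 2 + eV` (StW, StUpE): `U UP + a + b + 5 - eV`.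
StCH: `U D + (a + b + 5 - eV) + KB s (dnA D p) - 5 - 4 eH + 4 wH`, lower part: StIHs; StDnK. -/
def StR2g : Prop := ∀ (s : Bool) (D : Cfg) (p : ℤ) (w : Hole) (a b : ℤ), OkC D → IH D → EC D p w →
  SolZ (lfA (upA D p) w.xD) (U (lfA (upA D p) w.xD) + 3 * (WR (lfA (upA D p) w.xD) : ℤ) + a) →
  SolZ (rtA (upA D p) w.xD) (U (rtA (upA D p) w.xD) + 3 * (WL (rtA (upA D p) w.xD) : ℤ) + b) →
  a + b + LIb s D p + 4 * (wH D p : ℤ) ≤ (eV (upA D p) w.xD : ℤ) + 4 * (eH D p : ℤ) + uH s D → P s D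

/-- StMR2.  Plain R2: `a = uV L`, `b = uV R` (StIHs, StCnt: `fV = 0`), `a + b ≤ |QQ| - 1`, StAcc: `LIb + |QQ| ≤ uH + |MM|`. -/
def StMR2 : Prop := ∀ (s : Bool) (D : Cfg) (p : ℤ) (w : Hole), OkC D → IH D → EC D p w →
  (MM s D p).card + 4 * wH D p ≤ 1 + eV (upA D p) w.xD + 4 * eH D p → P s D

/-- StMRd.  R2 with decomposition of the left leaf along `c` (first version) or of the right leaf (second version):
`a = - gn L c` (StLd), `b = uV R`. -/
def StMRd : Prop := ∀ (s : Bool) (D : Cfg) (p c : ℤ) (w : Hole), OkC D → IH D → EC D p w →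
  ((c ∈ (lfA (upA D p) w.xD).H → D.hlo c = D.X0 → w.xD ≤ D.hhi c →
    (MM s D p).card + 4 * wH D p ≤ 1 + eV (upA D p) w.xD + 4 * eH D p + gn (lfA (upA D p) w.xD) c → P s D) ∧
  (c ∈ (rtA (upA D p) w.xD).H → D.hhi c = D.X1 → D.hlo c ≤ w.xD →
    (MM s D p).card + 4 * wH D p ≤ 1 + eV (upA D p) w.xD + 4 * eH D p + gn (rtA (upA D p) w.xD) c → P s D))

/-- StMRv.  R2 and a cut of the left leaf along `y.xD`, `y ∈ QQ D p` left of `w.xD` (first version): `a = uV L + 1 - |eLf| - 4 |eRt|` (StLv for `L`: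
`y` is a hole of `UP` with `y.x2 < w.xD` - otherwise `y` would be hit or touched by the line `w.xD`, but `hitV = 0` (StUpE) and a
touched hole `y ≠ w` has `y.xU = w.xD` or `y.xD = w.xD`, no since `vhi w.xD ≠ Y1` and StHU; `icU L y`: a piece of `L` whose end is on
`y.xU` and is owned in `UP` is owned by a hole `z'` with `z'.xU = y.xU`, i.e. `y`, or `z'.xD = y.xU`, no because `vhi = Y1`; `fV L = 0`
StCnt), `b = uV R`.  Second version: mirror
image. -/
def StMRv : Prop := ∀ (s : Bool) (D : Cfg) (p : ℤ) (w y : Hole), OkC D → IH D → EC D p w → y ∈ QQ D p → y ≠ w →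
  (y.xD < w.xD → (MM s D p).card + 4 * wH D p ≤ eV (upA D p) w.xD + 4 * eH D p +
    (eLf (lfA (upA D p) w.xD) y.xD).card + 4 * (eRt (lfA (upA D p) w.xD) y.xD).card → P s D) ∧
  (w.xD < y.xD → (MM s D p).card + 4 * wH D p ≤ eV (upA D p) w.xD + 4 * eH D p +
    (eRt (rtA (upA D p) w.xD) y.xD).card + 4 * (eLf (rtA (upA D p) w.xD) y.xD).card → P s D)

/-- StMHS.  One line `p`, the upper part open at the left wall, which has only one contact: `KL UP = 3 + 0 + uV UP` (StCntU),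
StCH: `U D + 3 + |QQ| + KB s (dnA D p) - 5 - 4 eH + 4 wH`; StDnK, StAcc.  Second version: right wall. -/
def StMHS : Prop := ∀ (s : Bool) (D : Cfg) (p : ℤ), OkC D → IH D → p ∈ D.H → TopGt D p →
  (WL (upA D p) = 1 ∨ WR (upA D p) = 1) → (MM s D p).card + 4 * wH D p ≤ 2 + 4 * eH D p → P s D

/-- StS1g.  The general move S1: cut `g`, then `UP = upA D g` along the full piece `t` (`crsV = hitV = 0`, `wV = 2`: nothing crosses `t`, a
hole hit by the line `t` would be met by `t`), with arbitrary values: `UP`: `U UP + (3 WR L + a) + (3 WL R + b) - 5 - 4 eV + 8`,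
`WR L + WL R = eV`: `U UP + a + b + 3 - eV`; `D`: `U D + (a + b + 3 - eV) + KB s (dnA D g) - 5 - 4 eH + 4 wH`, StDnK. -/
def StS1g : Prop := ∀ (s : Bool) (D : Cfg) (g t a b : ℤ), OkC D → IH D → g ∈ D.H → t ∈ Tg D g →
  SolZ (lfA (upA D g) t) (U (lfA (upA D g) t) + 3 * (WR (lfA (upA D g) t) : ℤ) + a) →
  SolZ (rtA (upA D g) t) (U (rtA (upA D g) t) + 3 * (WL (rtA (upA D g) t) : ℤ) + b) →
  a + b + LIb s D g + 4 * (wH D g : ℤ) ≤ 2 + (eV (upA D g) t : ℤ) + 4 * (eH D g : ℤ) + uH s D → P s D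

/-- StMS1.  Plain S1: `a + b = 3 (fV L + fV R) + uV L + uV R`, `fV L + fV R = |Tg| - 1` (StW, StCntU), `uV L + uV R ≤ uV UP ≤ |QQ|` (StUVp, StCntU),
StAcc (with `LIt`). -/
def StMS1 : Prop := ∀ (s : Bool) (D : Cfg) (g t : ℤ), OkC D → IH D → g ∈ D.H → TopGe D g → t ∈ Tg D g →
  3 * (Tg D g).card + (MM s D g).card + 4 * wH D g ≤ 5 + eV (upA D g) t + 4 * eH D g + LIt s D g → P s D

/-- StMSf.  S1 with a second full piece `t2 < t`, cut in the left leaf (StLf; `t2` is full in `lfA (upA D g) t`). -/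
def StMSf : Prop := ∀ (s : Bool) (D : Cfg) (g t t2 : ℤ), OkC D → IH D → g ∈ D.H → TopGe D g → t ∈ Tg D g →
  t2 ∈ Tg D g → t2 < t →
  3 * (Tg D g).card + (MM s D g).card + 4 * wH D g ≤ 5 + eV (upA D g) t + (eLf (lfA (upA D g) t) t2).card +
    4 * (eRt (lfA (upA D g) t) t2).card + 4 * eH D g + LIt s D g → P s D

/-- StMSv.  S1 if `t` is the only member of `Tg D g`, with a cut of the right leaf along `y.xD`, `y ∈ QQ D g`, `t < y.xD` (StLv, second
version; `y` is a hole of the right leaf: `t` is full in `UP`, so it does not meet `y` and is no arm of `y` in `UP`; `icU` in the leaf: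
the T-ends on `y.xU` in the leaf are T-ends in `UP`: a piece with an end on `y.xU > t` whose end is owned in `UP` by `z'` has `z'.xU = y.xU`
or `z'.xD = y.xU`, no). -/
def StMSv : Prop := ∀ (s : Bool) (D : Cfg) (g t : ℤ) (y : Hole), OkC D → IH D → g ∈ D.H → TopGe D g → Tg D g = {t} →
  y ∈ QQ D g → t < y.xD →
  (MM s D g).card + 4 * wH D g ≤ 1 + eV (upA D g) t + (eRt (rtA (upA D g) t) y.xD).card +
    4 * (eLf (rtA (upA D g) t) y.xD).card + 4 * eH D g + LIt s D g → P s D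

/-- StMI.  The move I: cut `D` along `w.xD` (bottom attached): StCV with StIHs (open right, open left), StOne, StW: `WR L + WL R = 2 + eV`,
`fV = 0` by `Irr`, `uV L + uV R + 1 ≤ uV D` (StUVp), `wV = 1`: `U D + 6 + 3 eV + uV D - 1 - 5 - 4 eV + 4`; `KB s D ≥ 3 WB + uH`.  Second version: the left
leaf is decomposed along `c` (StLd), `L = lfA D w.xD`. -/
def StMI : Prop := ∀ (s : Bool) (D : Cfg) (w : Hole), OkC D → IH D → Irr D → w ∈ D.Z → D.vhi w.xU = D.Y1 →
  icU D w → D.vlo w.xD = D.Y0 →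
  (uV D + 4 ≤ 3 * WB D + eV D w.xD + uH s D → P s D) ∧
  (∀ c ∈ (lfA D w.xD).H, D.hlo c = D.X0 → w.xD ≤ D.hhi c →
    uV D + 4 ≤ 3 * WB D + eV D w.xD + gn (lfA D w.xD) c + uH s D → P s D)

end Pool.RC
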