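import Pool.Agent.RB.M_HB
import Pool.Agent.RC.St2

/-! Module Acc of project RC. -/

namespace Pool.RC

open Pool.RB

theorem pAcc : StAcc := by
  classical
  intro s D c hD
  have hy : ∀ z ∈ D.Z, z.y1 < z.y2 := fun z hz => (pHB D hD.ok z hz).y12
  set A := D.Z.filter (fun z => z.y2 < c ∧ LI s D z) with hA
  set B := D.Z.filter (fun z => z.y1 = c ∧ LI s D z) with hB
  set Q := (QQ D c).filter (fun z => LI s D z) with hQ
  have h1 : LIb s D c = A.card := by
    unfold LIb; rw [hA]
  have h2 : LIt s D c = B.card := by
    unfold LIt; rw [hB]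
  have h3 : Q.card + (MM s D c).card = (QQ D c).card := by
    have := Finset.card_filter_add_card_filter_not (s := QQ D c) (fun z => LI s D z)
    rw [hQ]
    unfold MM
    exact this
  have hdAB : Disjoint A B := by
    rw [Finset.disjoint_left]
    intro z hz hz'
    rw [hA, Finset.mem_filter] at hz
    rw [hB, Finset.mem_filter] at hz'
    have := hy z hz.1
    omega
  have hdABQ : Disjoint (A ∪ B) Q := by
    rw [Finset.disjoint_left]
    intro z hz hz'
    rw [hQ, Finset.mem_filter] at hz'
    unfold QQ at hz'
    rw [Finset.mem_filter] at hz'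
    have h := hy z hz'.1.1
    have hc := hz'.1.2.1
    rw [Finset.mem_union, hA, hB, Finset.mem_filter, Finset.mem_filter] at hz
    rcases hz with hz | hz <;> omega
  have hsub : (A ∪ B) ∪ Q ⊆ D.Z.filter (fun z => LI s D z) := by
    intro z hz
    rw [Finset.mem_union, Finset.mem_union] at hz
    rw [Finset.mem_filter]
    rcases hz with (hz | hz) | hz
    · rw [hA, Finset.mem_filter] at hz
      exact ⟨hz.1, hz.2.2⟩
    · rw [hB, Finset.mem_filter] at hz
      exact ⟨hz.1, hz.2.2⟩
    · rw [hQ, Finset.mem_filter] at hz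
      unfold QQ at hz
      rw [Finset.mem_filter] at hz
      exact ⟨hz.1.1, hz.2⟩
  have h4 : A.card + B.card + Q.card ≤ uH s D := by
    unfold uH
    rw [← Finset.card_union_of_disjoint hdAB, ← Finset.card_union_of_disjoint hdABQ]
    exact Finset.card_le_card hsub
  omega

end Pool.RC
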