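import Pool.Agent.RC.St1

/-!
# Project RC, module Base: monotonicity, and a dissection without pieces
-/

namespace Pool.RC

open Pool.RB

private theorem Base_face {D : Cfg} (hV : D.V = ∅) (hH : D.H = ∅) {f : Box} (hf : IsFace D f) :
    f = D.box := by
  have h1 : f.x1 = D.X0 := by
    rcases hf.left with h | h
    · exact h
    · rw [hV] at h; simp at h
  have h2 : f.x2 = D.X1 := by
    rcases hf.right with h | h
    · exact h
    · rw [hV] at h; simp at h
  have h3 : f.y1 = D.Y0 := by
    rcases hf.bot with h | h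
    · exact h
    · rw [hH] at h; simp at h
  have h4 : f.y2 = D.Y1 := by
    rcases hf.top with h | h
    · exact h
    · rw [hH] at h; simp at h
  cases f
  simp only at h1 h2 h3 h4
  subst h1 h2 h3 h4
  rfl

/-- MODULE Base, first half. -/
theorem pMonoC : StMonoC := by
  intro D N N' h hN A hA
  obtain ⟨s, h1, h2⟩ := h A hA
  exact ⟨s, h1, by linarith⟩

/-- MODULE Base, second half. -/
theorem pLeaf : StLeaf := by
  intro D hok hV hH A hfit
  obtain ⟨φ, h1, h2⟩ := hfit
  have hc : cnt A D.box ≤ 1 := by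
    unfold cnt
    rw [Finset.card_le_one]
    intro R hR R' hR'
    rw [Finset.mem_filter] at hR hR'
    refine h2 R hR.1 R' hR'.1 hR.2 hR'.2 ?_
    rw [Base_face hV hH (h1 R hR.1 hR.2).1, Base_face hV hH (h1 R' hR'.1 hR'.2).1]
  exact ⟨cnt A D.box, Bsp.leaf D.box hc, by simp⟩

end Pool.RC
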