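import Pool.Agent.RC.St1

/-! # RC, module CutV: the cut along a vertical piece (by transposition) -/

namespace Pool.RC

open Pool.RB

private theorem tr_inj : Function.Injective Hole.tr := by
  intro a b h
  cases a; cases b
  simp only [Hole.tr, Hole.mk.injEq] at h ⊢
  obtain ⟨h1, h2, h3, h4⟩ := h
  exact ⟨h4, h3, h2, h1⟩

theorem CutV_hit (D : Cfg) (x : ℤ) : hit D.tr x = hitV D x := by
  unfold hit hitV
  simp only [Cfg.tr]
  rw [Finset.filter_image, Finset.card_image_of_injective _ tr_inj]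
  congr 1
  ext z
  simp only [Finset.mem_filter, Hole.y1, Hole.y2, Hole.x1, Hole.x2, Hole.tr]
  constructor
  · rintro ⟨h1, h2, h3⟩
    exact ⟨h1, by omega, by omega⟩
  · rintro ⟨h1, h2, h3⟩
    exact ⟨h1, by omega, by omega⟩

theorem pCutV (hCTr : StCTr) (hEq : StEq) (hSolSym : StSolSym) (hCutH : StCutH) : StCutV := by
  intro D x N1 N2 N hD hx h1 h2 hN
  obtain ⟨_, hE, _, _⟩ := hEq
  obtain ⟨_, _, e3, e4⟩ := hE D x
  refine (hSolSym D N).1.1 ?_
  refine hCutH D.tr x N2 N1 N (hCTr D hD) hx ?_ ?_ ?_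
  · rw [← e3]
    exact (hSolSym (rtA D x) N2).1.2 h2
  · rw [← e4]
    exact (hSolSym (lfA D x) N1).1.2 h1
  · have hc : crs D.tr x = crsV D x := rfl
    rw [hc, CutV_hit]
    linarith

end Pool.RC
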