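import Pool.Agent.RC.St1

/-! # Project RC, module DnA: the part below an absorbing cut is a clean dissection -/

set_option autoImplicit false

namespace Pool.RC

open Pool.RB

theorem pDnA (hCFy : StCFy) (hEq : StEq) (hUpA : StUpA) : StDnA := by
  intro D c hD h0 h1
  have e1 : (D.fy).Y0 = -D.Y1 := rfl
  have e2 : (D.fy).Y1 = -D.Y0 := rfl
  have h : OkC (upA D.fy (-c)) :=
    hUpA D.fy (-c) (hCFy D hD) (by rw [e1]; omega) (by rw [e2]; omega)
  have h' : OkC (upA D.fy (-c)).fy := hCFy _ h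
  have e : (upA D.fy (-c)).fy = dnA D.fy.fy (- -c) := (hEq.2.2.2 D.fy (-c)).1
  rw [e, (hEq.1 D).2.2, neg_neg] at h'
  exact h'

end Pool.RC
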