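import Pool.Agent.RC.St1
import Pool.Agent.RB.M_HB
import Pool.Agent.RB.M_HU

/-!
# Project RC, module Ends
-/

namespace Pool.RC

open Pool.RB

private theorem Ends_count (S : Finset ℤ) (Z : Finset Hole) (f : Hole → ℤ) (p : ℤ → Prop) [DecidablePred p]
    (hinj : ∀ z ∈ Z, ∀ w ∈ Z, f z = f w → z = w) (hS : ∀ z ∈ Z, f z ∈ S) (hp : ∀ z ∈ Z, ¬ p (f z)) :
    S.card = (S.filter p).card + Z.card + (S.filter (fun x => ¬ p x ∧ ∀ z ∈ Z, f z ≠ x)).card := by
  have h1 : (Z.image f).card = Z.card := Finset.card_image_of_injOn (fun z hz w hw h => hinj z hz w hw h)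
  have h2 := Finset.card_filter_add_card_filter_not (s := S) p
  have h3 := Finset.card_filter_add_card_filter_not (s := S.filter (fun x => ¬ p x)) (fun x => x ∈ Z.image f)
  have h4 : (S.filter (fun x => ¬ p x)).filter (fun x => x ∈ Z.image f) = Z.image f := by
    ext x
    simp only [Finset.mem_filter, Finset.mem_image]
    constructor
    · rintro ⟨-, h⟩
      exact h
    · rintro ⟨z, hz, rfl⟩
      exact ⟨⟨hS z hz, hp z hz⟩, z, hz, rfl⟩
  have h5 : (S.filter (fun x => ¬ p x)).filter (fun x => ¬ x ∈ Z.image f) =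
      S.filter (fun x => ¬ p x ∧ ∀ z ∈ Z, f z ≠ x) := by
    ext x
    simp only [Finset.mem_filter, Finset.mem_image, not_exists, not_and]
    tauto
  rw [h4, h5, h1] at h3
  omega

theorem pEnds : StEnds := by
  intro D hD
  have hO := hD.ok
  have hHB := pHB D hO
  have hHU := pHU pHB D hO
  have e1 := Ends_count D.V D.Z (fun z => z.xU) (fun x => D.vlo x = D.Y0)
    (fun z hz w hw => (hHU z hz w hw).2.2.1) (fun z hz => (hO.z z hz).hU)
    (fun z hz h => by
      have h1 := (hO.z z hz).eU
      have h2 := (hHB z hz).Y0lt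
      omega)
  have e2 := Ends_count D.V D.Z (fun z => z.xD) (fun x => D.vhi x = D.Y1)
    (fun z hz w hw => (hHU z hz w hw).2.2.2) (fun z hz => (hO.z z hz).hD)
    (fun z hz h => by
      have h1 := (hO.z z hz).eD
      have h2 := (hHB z hz).ltY1
      omega)
  have e3 := Ends_count D.H D.Z (fun z => z.yR) (fun y => D.hlo y = D.X0)
    (fun z hz w hw => (hHU z hz w hw).2.1) (fun z hz => (hO.z z hz).hR)
    (fun z hz h => by
      have h1 := (hO.z z hz).eR
      have h2 := (hHB z hz).X0lt
      omega)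
  have e4 := Ends_count D.H D.Z (fun z => z.yL) (fun y => D.hhi y = D.X1)
    (fun z hz w hw => (hHU z hz w hw).1) (fun z hz => (hO.z z hz).hL)
    (fun z hz h => by
      have h1 := (hO.z z hz).eL
      have h2 := (hHB z hz).ltX1
      omega)
  unfold Cfg.sz WT WB WL WR tLo tHi tLe tRi
  simp only [ne_eq] at *
  omega

end Pool.RC
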