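import Pool.Agent.RC.St1

/-!
# Project RC (MP_c6e2b4_co), module Eq: equalities of configurations
-/

set_option autoImplicit false

namespace Pool.RC

open Pool.RB

private lemma Eq_ext {D E : Cfg} (h1 : D.X0 = E.X0) (h2 : D.X1 = E.X1) (h3 : D.Y0 = E.Y0)
    (h4 : D.Y1 = E.Y1) (h5 : D.V = E.V) (h6 : D.H = E.H) (h7 : D.vlo = E.vlo) (h8 : D.vhi = E.vhi)
    (h9 : D.hlo = E.hlo) (h10 : D.hhi = E.hhi) (h11 : D.Z = E.Z) : D = E := by
  cases D
  cases E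
  simp only at h1 h2 h3 h4 h5 h6 h7 h8 h9 h10 h11
  subst h1 h2 h3 h4 h5 h6 h7 h8 h9 h10 h11
  rfl

private lemma Eq_trx1 (z : Hole) : z.tr.x1 = z.y1 := min_comm _ _
private lemma Eq_trx2 (z : Hole) : z.tr.x2 = z.y2 := max_comm _ _
private lemma Eq_try1 (z : Hole) : z.tr.y1 = z.x1 := min_comm _ _
private lemma Eq_try2 (z : Hole) : z.tr.y2 = z.x2 := max_comm _ _
private lemma Eq_fxx1 (z : Hole) : z.fx.x1 = -z.x2 := by
  simp only [Hole.fx, Hole.x1, Hole.x2, min_neg_neg]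
private lemma Eq_fxx2 (z : Hole) : z.fx.x2 = -z.x1 := by
  simp only [Hole.fx, Hole.x1, Hole.x2, max_neg_neg]
private lemma Eq_fxy1 (z : Hole) : z.fx.y1 = z.y1 := min_comm _ _
private lemma Eq_fxy2 (z : Hole) : z.fx.y2 = z.y2 := max_comm _ _
private lemma Eq_fyx1 (z : Hole) : z.fy.x1 = z.x1 := min_comm _ _
private lemma Eq_fyx2 (z : Hole) : z.fy.x2 = z.x2 := max_comm _ _
private lemma Eq_fyy1 (z : Hole) : z.fy.y1 = -z.y2 := by
  simp only [Hole.fy, Hole.y1, Hole.y2, min_neg_neg]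
private lemma Eq_fyy2 (z : Hole) : z.fy.y2 = -z.y1 := by
  simp only [Hole.fy, Hole.y1, Hole.y2, max_neg_neg]

private lemma Eq_fxU (z : Hole) : z.fx.xU = -z.xU := rfl
private lemma Eq_fxD (z : Hole) : z.fx.xD = -z.xD := rfl
private lemma Eq_fxL (z : Hole) : z.fx.yL = z.yR := rfl
private lemma Eq_fxR (z : Hole) : z.fx.yR = z.yL := rfl
private lemma Eq_fyU (z : Hole) : z.fy.xU = z.xD := rfl
private lemma Eq_fyD (z : Hole) : z.fy.xD = z.xU := rfl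
private lemma Eq_fyL (z : Hole) : z.fy.yL = -z.yL := rfl
private lemma Eq_fyR (z : Hole) : z.fy.yR = -z.yR := rfl

private lemma Eq_trtr (z : Hole) : z.tr.tr = z := rfl
private lemma Eq_fxfx (z : Hole) : z.fx.fx = z := by simp [Hole.fx]
private lemma Eq_fyfy (z : Hole) : z.fy.fy = z := by simp [Hole.fy]

private lemma Eq_im {α : Type*} [DecidableEq α] (f : α → α) (h : ∀ x, f (f x) = x) (s : Finset α) :
    (s.image f).image f = s := by
  rw [Finset.image_image]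
  have : f ∘ f = id := funext h
  rw [this, Finset.image_id]

private lemma Eq_inv (D : Cfg) : D.tr.tr = D ∧ D.fx.fx = D ∧ D.fy.fy = D := by
  refine ⟨?_, ?_, ?_⟩
  · exact Eq_ext rfl rfl rfl rfl rfl rfl rfl rfl rfl rfl (Eq_im _ Eq_trtr _)
  · refine Eq_ext (neg_neg _) (neg_neg _) rfl rfl (Eq_im _ neg_neg _) rfl ?_ ?_ ?_ ?_
      (Eq_im _ Eq_fxfx _)
    · funext x; simp [Cfg.fx]
    · funext x; simp [Cfg.fx]
    · funext x; simp [Cfg.fx]
    · funext x; simp [Cfg.fx]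
  · refine Eq_ext rfl rfl (neg_neg _) (neg_neg _) rfl (Eq_im _ neg_neg _) ?_ ?_ ?_ ?_
      (Eq_im _ Eq_fyfy _)
    · funext x; simp [Cfg.fy]
    · funext x; simp [Cfg.fy]
    · funext x; simp [Cfg.fy]
    · funext x; simp [Cfg.fy]

private lemma Eq_tr1 (D : Cfg) (c : ℤ) : (upA D c).tr = rtA D.tr c := by
  refine Eq_ext rfl rfl rfl rfl rfl ?_ rfl rfl rfl rfl ?_
  · simp only [Cfg.tr, upA, rtA, Finset.forall_mem_image, Eq_trx1, Eq_trx2]
    rfl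
  · simp only [Cfg.tr, upA, rtA, Finset.filter_image, Eq_trx1]

private lemma Eq_tr2 (D : Cfg) (c : ℤ) : (dnA D c).tr = lfA D.tr c := by
  refine Eq_ext rfl rfl rfl rfl rfl ?_ rfl rfl rfl rfl ?_
  · simp only [Cfg.tr, dnA, lfA, Finset.forall_mem_image, Eq_trx1, Eq_trx2]
    rfl
  · simp only [Cfg.tr, dnA, lfA, Finset.filter_image, Eq_trx2]

private lemma Eq_tr3 (D : Cfg) (c : ℤ) : (rtA D c).tr = upA D.tr c := by
  have h := Eq_tr1 D.tr c
  rw [(Eq_inv D).1] at h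
  rw [← h, (Eq_inv _).1]

private lemma Eq_tr4 (D : Cfg) (c : ℤ) : (lfA D c).tr = dnA D.tr c := by
  have h := Eq_tr2 D.tr c
  rw [(Eq_inv D).1] at h
  rw [← h, (Eq_inv _).1]

private lemma Eq_fx1 (D : Cfg) (c : ℤ) : (upA D c).fx = upA D.fx c := by
  refine Eq_ext rfl rfl rfl rfl ?_ rfl rfl rfl rfl rfl ?_
  · simp only [Cfg.fx, upA, Finset.filter_image, Finset.forall_mem_image, Eq_fxy1, Eq_fxy2, neg_neg,
      Eq_fxD, ne_eq, neg_inj]
  · simp only [Cfg.fx, upA, Finset.filter_image, Eq_fxy1]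

private lemma Eq_fx2 (D : Cfg) (c : ℤ) : (dnA D c).fx = dnA D.fx c := by
  refine Eq_ext rfl rfl rfl rfl ?_ rfl rfl rfl rfl rfl ?_
  · simp only [Cfg.fx, dnA, Finset.filter_image, Finset.forall_mem_image, Eq_fxy1, Eq_fxy2, neg_neg,
      Eq_fxU, ne_eq, neg_inj]
  · simp only [Cfg.fx, dnA, Finset.filter_image, Eq_fxy2]

private lemma Eq_fx3 (D : Cfg) (c : ℤ) : (rtA D c).fx = lfA D.fx (-c) := by
  refine Eq_ext rfl rfl rfl rfl ?_ ?_ rfl rfl rfl ?_ ?_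
  · simp only [Cfg.fx, rtA, lfA, Finset.filter_image, neg_lt_neg_iff]
  · simp only [Cfg.fx, rtA, lfA, Finset.forall_mem_image, Eq_fxx1, Eq_fxx2, neg_lt_neg_iff,
      neg_le_neg_iff, Eq_fxR]
    refine Finset.filter_congr fun y _ => ?_
    constructor
    · rintro ⟨h1, h2⟩
      exact ⟨h1, fun z hz a b => h2 z hz b a⟩
    · rintro ⟨h1, h2⟩
      exact ⟨h1, fun z hz a b => h2 hz b a⟩
  · funext y
    simp only [Cfg.fx, rtA, lfA, min_neg_neg]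
  · simp only [Cfg.fx, rtA, lfA, Finset.filter_image, Eq_fxx2, neg_lt_neg_iff]

private lemma Eq_fx4 (D : Cfg) (c : ℤ) : (lfA D c).fx = rtA D.fx (-c) := by
  have h := Eq_fx3 D.fx (-c)
  rw [(Eq_inv D).2.1, neg_neg] at h
  rw [← h, (Eq_inv _).2.1]

private lemma Eq_fy1 (D : Cfg) (c : ℤ) : (upA D c).fy = dnA D.fy (-c) := by
  refine Eq_ext rfl rfl rfl rfl ?_ ?_ rfl ?_ rfl rfl ?_
  · simp only [Cfg.fy, upA, dnA, Finset.forall_mem_image, Eq_fyy1, Eq_fyy2, neg_lt_neg_iff,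
      neg_le_neg_iff, Eq_fyU]
    refine Finset.filter_congr fun y _ => ?_
    constructor
    · rintro ⟨h1, h2⟩
      exact ⟨h1, fun z hz a b => h2 z hz b a⟩
    · rintro ⟨h1, h2⟩
      exact ⟨h1, fun z hz a b => h2 hz b a⟩
  · simp only [Cfg.fy, upA, dnA, Finset.filter_image, neg_lt_neg_iff]
  · funext y
    simp only [Cfg.fy, upA, dnA, min_neg_neg]
  · simp only [Cfg.fy, upA, dnA, Finset.filter_image, Eq_fyy2, neg_lt_neg_iff]

private lemma Eq_fy2 (D : Cfg) (c : ℤ) : (dnA D c).fy = upA D.fy (-c) := by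
  have h := Eq_fy1 D.fy (-c)
  rw [(Eq_inv D).2.2, neg_neg] at h
  rw [← h, (Eq_inv _).2.2]

private lemma Eq_fy3 (D : Cfg) (c : ℤ) : (rtA D c).fy = rtA D.fy c := by
  refine Eq_ext rfl rfl rfl rfl rfl ?_ rfl rfl rfl rfl ?_
  · simp only [Cfg.fy, rtA, Finset.filter_image, Finset.forall_mem_image, Eq_fyx1, Eq_fyx2, neg_neg,
      Eq_fyL, ne_eq, neg_inj]
  · simp only [Cfg.fy, rtA, Finset.filter_image, Eq_fyx1]

private lemma Eq_fy4 (D : Cfg) (c : ℤ) : (lfA D c).fy = lfA D.fy c := by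
  refine Eq_ext rfl rfl rfl rfl rfl ?_ rfl rfl rfl rfl ?_
  · simp only [Cfg.fy, lfA, Finset.filter_image, Finset.forall_mem_image, Eq_fyx1, Eq_fyx2, neg_neg,
      Eq_fyR, ne_eq, neg_inj]
  · simp only [Cfg.fy, lfA, Finset.filter_image, Eq_fyx2]

theorem pEq : StEq :=
  ⟨Eq_inv, fun D c => ⟨Eq_tr1 D c, Eq_tr2 D c, Eq_tr3 D c, Eq_tr4 D c⟩,
    fun D c => ⟨Eq_fx1 D c, Eq_fx2 D c, Eq_fx3 D c, Eq_fx4 D c⟩,
    fun D c => ⟨Eq_fy1 D c, Eq_fy2 D c, Eq_fy3 D c, Eq_fy4 D c⟩⟩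

end Pool.RC
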