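import Pool.Agent.RC.St1

/-! # Project RC, module FitDn: fitting families and the part below an absorbing cut -/

set_option autoImplicit false

namespace Pool.RC

open Pool.RB

private theorem FitDn_im (A : Finset Box) : (A.image Box.fy).image Box.fy = A := by
  rw [Finset.image_image]
  have h : Box.fy ∘ Box.fy = id := by
    funext R
    cases R
    simp [Box.fy]
  rw [h, Finset.image_id]

theorem pFitDn (hCFy : StCFy) (hEq : StEq) (hFitUp : StFitUp) (hFitFy : StFitFy) : StFitDn := by
  intro D A c hD h0 h1 hA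
  have e1 : (D.fy).Y0 = -D.Y1 := rfl
  have e2 : (D.fy).Y1 = -D.Y0 := rfl
  have hF : Fit D.fy ∅ (A.image Box.fy) := hFitFy D A hA
  have h2 : Fit (upA D.fy (-c)) ∅ (A.image Box.fy) :=
    hFitUp D.fy (A.image Box.fy) (-c) (hCFy D hD) (by rw [e1]; omega) (by rw [e2]; omega) hF
  have h3 : Fit (upA D.fy (-c)).fy ∅ ((A.image Box.fy).image Box.fy) := hFitFy _ _ h2
  have e : (upA D.fy (-c)).fy = dnA D.fy.fy (- -c) := (hEq.2.2.2 D.fy (-c)).1
  rw [e, (hEq.1 D).2.2, neg_neg, FitDn_im] at h3
  exact h3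

end Pool.RC
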