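import Pool.Agent.RC.St1

/-! # Project RC, module FitFy (helper4): `Fit` is invariant under the reflection `fy` -/

set_option autoImplicit false

namespace Pool.RC

open Pool.RB

private theorem FitFy_box (R : Box) : R.fy.fy = R := by
  unfold Box.fy
  simp

private theorem FitFy_face {D : Cfg} {f : Box} (h : IsFace D f) : IsFace D.fy f.fy := by
  refine ⟨⟨h.nd.1, neg_lt_neg h.nd.2⟩, h.ix1, h.ix2, neg_le_neg h.iy2, neg_le_neg h.iy1, ?_, ?_,
    ?_, ?_, ?_, ?_⟩
  · rcases h.left with h1 | ⟨h1, h2, h3⟩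
    · left
      exact h1
    · right
      exact ⟨h1, neg_le_neg h3, neg_le_neg h2⟩
  · rcases h.right with h1 | ⟨h1, h2, h3⟩
    · left
      exact h1
    · right
      exact ⟨h1, neg_le_neg h3, neg_le_neg h2⟩
  · rcases h.top with h1 | ⟨h1, h2, h3⟩
    · left
      show -f.y2 = -D.Y1
      rw [h1]
    · right
      refine ⟨Finset.mem_image.2 ⟨f.y2, h1, rfl⟩, ?_, ?_⟩
      · show D.hlo (- -f.y2) ≤ f.x1
        rw [neg_neg]; exact h2
      · show f.x2 ≤ D.hhi (- -f.y2)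
        rw [neg_neg]; exact h3
  · rcases h.bot with h1 | ⟨h1, h2, h3⟩
    · left
      show -f.y1 = -D.Y0
      rw [h1]
    · right
      refine ⟨Finset.mem_image.2 ⟨f.y1, h1, rfl⟩, ?_, ?_⟩
      · show D.hlo (- -f.y1) ≤ f.x1
        rw [neg_neg]; exact h2
      · show f.x2 ≤ D.hhi (- -f.y1)
        rw [neg_neg]; exact h3
  · intro x hx h1 h2 h3 h4
    have h3' : -D.vhi x < -f.y1 := h3
    have h4' : -f.y2 < -D.vlo x := h4
    exact h.noV x hx h1 h2 (by omega) (by omega)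
  · intro y hy h1 h2 h3 h4
    obtain ⟨y', hy', rfl⟩ := Finset.mem_image.1 hy
    have h1' : -f.y2 < -y' := h1
    have h2' : -y' < -f.y1 := h2
    have h3' : D.hlo (- -y') < f.x2 := h3
    have h4' : f.x1 < D.hhi (- -y') := h4
    rw [neg_neg] at h3' h4'
    exact h.noH y' hy' (by omega) (by omega) h3' h4'

private theorem FitFy_meets {D : Cfg} {R : Box} (h : Meets R.fy D.fy.box) : Meets R D.box := by
  obtain ⟨a, b, c, d⟩ := h
  have c' : -R.y2 < -D.Y0 := c
  have d' : -D.Y1 < -R.y1 := d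
  exact ⟨a, b, by show R.y1 < D.Y1; omega, by show D.Y0 < R.y2; omega⟩

private theorem FitFy_inF {D : Cfg} {R f : Box} (h : InF D R f) : InF D.fy R.fy f.fy := by
  obtain ⟨a, b, c, d⟩ := h
  refine ⟨a, b, ?_, ?_⟩
  · show -f.y2 ≤ max (-R.y2) (-D.Y1)
    omega
  · show min (-R.y1) (-D.Y0) ≤ -f.y1
    omega

private theorem FitFy_hole (z : Hole) : z.fy.box = z.box.fy := by
  unfold Hole.box Box.fy Hole.fy Hole.x1 Hole.x2 Hole.y1 Hole.y2
  simp only [Box.mk.injEq]
  refine ⟨min_comm _ _, max_comm _ _, ?_, ?_⟩ <;> omega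

theorem pFitFy : StFitFy := by
  intro D A hA
  obtain ⟨φ, h1, h2⟩ := hA
  refine ⟨fun R => (φ R.fy).fy, ?_, ?_⟩
  · intro R hR hM
    obtain ⟨Q, hQ, rfl⟩ := Finset.mem_image.1 hR
    obtain ⟨a, b, c, _⟩ := h1 Q hQ (FitFy_meets hM)
    simp only [FitFy_box]
    refine ⟨FitFy_face a, FitFy_inF b, ?_, fun h => h.elim⟩
    intro z hz he
    obtain ⟨w, hw, rfl⟩ := Finset.mem_image.1 hz
    rw [FitFy_hole] at he
    apply c w hw
    rw [← FitFy_box (φ Q), he, FitFy_box]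
  · intro R hR R' hR' hM hM' he
    obtain ⟨Q, hQ, rfl⟩ := Finset.mem_image.1 hR
    obtain ⟨Q', hQ', rfl⟩ := Finset.mem_image.1 hR'
    simp only [FitFy_box] at he
    have he' : φ Q = φ Q' := by
      rw [← FitFy_box (φ Q), he, FitFy_box]
    rw [h2 Q hQ Q' hQ' (FitFy_meets hM) (FitFy_meets hM') he']

end Pool.RC
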