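import Pool.Agent.RC.St1
import Pool.Agent.RB.Main

set_option autoImplicit false

/-!
# Module FitUp of project RC (MP_c6e2b4_co, owner helper22), written by helper61
-/

namespace Pool.RC

open Pool.RB

/-- containment of the clipped face -/
private theorem FitUp_cont (hUpA : StUpA) (hSub : StSub) (D : Cfg) (c : ℤ) (hD : OkC D)
    (h1 : D.Y0 < c) (h2 : c < D.Y1) (F : Box) (hF : IsFace D F) (hc : c < F.y2) :
    ∃ f : Box, IsFace (upA D c) f ∧ f.x1 ≤ F.x1 ∧ F.x2 ≤ f.x2 ∧ f.y1 ≤ max F.y1 c ∧ F.y2 ≤ f.y2 := by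
  have hE := (hUpA D c hD h1 h2).ok
  have hg := (qFClip D F c hF).1 h1 h2 hc
  have hnd := hF.nd
  have hgnd := hg.nd
  simp only [Box.Nd] at hnd hgnd
  have a1 := hF.ix1
  have a2 := hF.ix2
  have a3 := hF.iy1
  have a4 := hF.iy2
  obtain ⟨f, hf, b1, b2, b3, b4⟩ := qFE (upA D c) F.x1 (max F.y1 c) hE
    (by simp only [upA]; omega) (by simp only [upA]; omega) (by simp only [upA]; omega)
    (by simp only [upA]; omega)
  refine ⟨f, hf, ?_⟩
  have key := hSub (upA D c) f ⟨F.x1, F.x2, max F.y1 c, F.y2⟩ hf ?_ ?_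
    (by simp only [upA]; omega) (by simp only [upA]; omega) (by simp only [upA]; omega)
    (by simp only [upA]; omega) (by simp only [Meets]; omega)
  · simp only at key
    omega
  · intro x hx e1 e2 e3 e4
    refine hg.noV x ?_ e1 e2 e3 e4
    simp only [upA, Finset.mem_filter] at hx
    simp only [up, Finset.mem_filter]
    exact ⟨hx.1, hx.2.1⟩
  · intro y hy e1 e2 e3 e4
    refine hg.noH y ?_ e1 e2 e3 e4
    simpa only [upA, up] using hy

/-- stub condition -/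
private def FitUp_S (D : Cfg) (c : ℤ) (f : Box) (z : Hole) : Prop :=
  z ∈ D.Z ∧ z.y1 ≤ c ∧ c < z.y2 ∧ f.x1 < z.xD ∧ z.xD < f.x2 ∧ f.y1 < z.y2

/-- condition on a face -/
private def FitUp_G (D : Cfg) (c : ℤ) (f F : Box) : Prop :=
  IsFace D F ∧ c < F.y2 ∧ (∀ z ∈ D.Z, F ≠ z.box) ∧
    f.x1 ≤ F.x1 ∧ F.x2 ≤ f.x2 ∧ f.y1 ≤ max F.y1 c ∧ F.y2 ≤ f.y2

private theorem FitUp_a (hStub : StStub) (D : Cfg) (c : ℤ) (hD : OkC D)
    (h1 : D.Y0 < c) (h2 : c < D.Y1) (f : Box) (hf : IsFace (upA D c) f) :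
    ∃ a : ℤ, f.x1 ≤ a ∧ (∀ z, FitUp_S D c f z → z.yL < z.yR → z.xD = a) ∧
      (∀ F, FitUp_G D c f F → a ≤ F.x1) := by
  by_cases hex : ∃ z, FitUp_S D c f z ∧ z.yL < z.yR
  · obtain ⟨z0, ⟨m0, m1, m2, m3, m4, m5⟩, m6⟩ := hex
    have hst := hStub D c f z0 hD h1 h2 hf m0 m1 m2 m3 m4 m5
    have hU := hst.2.2.1 m6
    refine ⟨z0.xD, m3.le, ?_, ?_⟩
    · rintro z ⟨n0, n1, n2, n3, n4, n5⟩ n6
      have hst' := hStub D c f z hD h1 h2 hf n0 n1 n2 n3 n4 n5
      have hU' := hst'.2.2.1 n6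
      have := (qHU D hD.ok z n0 z0 m0).2.2.1 (hU'.symm.trans hU)
      rw [this]
    · rintro F ⟨hF, hc, hz, g1, g2, g3, g4⟩
      by_contra hlt
      have hB := qHB D hD.ok z0 m0
      have hch := (hD.ok.z z0 m0).chir
      have e1 : z0.x1 = z0.xU := by simp only [Hole.x1]; omega
      have e2 : z0.x2 = z0.xD := by simp only [Hole.x2]; omega
      have hnd := hF.nd
      simp only [Box.Nd] at hnd
      refine hz z0 m0 (qFU D F z0.box hF hB.face ?_)
      simp only [Meets, Hole.box]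
      have hst1 := hst.1
      have hst2 := hst.2.1
      omega
  · refine ⟨f.x1, le_refl _, ?_, ?_⟩
    · intro z hz hzA
      exact absurd ⟨z, hz, hzA⟩ hex
    · rintro F ⟨hF, hc, hz, g1, g2, g3, g4⟩
      exact g1

private theorem FitUp_b (hStub : StStub) (D : Cfg) (c : ℤ) (hD : OkC D)
    (h1 : D.Y0 < c) (h2 : c < D.Y1) (f : Box) (hf : IsFace (upA D c) f) :
    ∃ b : ℤ, b ≤ f.x2 ∧ (∀ z, FitUp_S D c f z → z.yR < z.yL → z.xD = b) ∧
      (∀ F, FitUp_G D c f F → F.x2 ≤ b) := by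
  by_cases hex : ∃ z, FitUp_S D c f z ∧ z.yR < z.yL
  · obtain ⟨z0, ⟨m0, m1, m2, m3, m4, m5⟩, m6⟩ := hex
    have hst := hStub D c f z0 hD h1 h2 hf m0 m1 m2 m3 m4 m5
    have hU := hst.2.2.2 m6
    refine ⟨z0.xD, m4.le, ?_, ?_⟩
    · rintro z ⟨n0, n1, n2, n3, n4, n5⟩ n6
      have hst' := hStub D c f z hD h1 h2 hf n0 n1 n2 n3 n4 n5
      have hU' := hst'.2.2.2 n6
      have := (qHU D hD.ok z n0 z0 m0).2.2.1 (hU'.symm.trans hU)
      rw [this]
    · rintro F ⟨hF, hc, hz, g1, g2, g3, g4⟩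
      by_contra hlt
      have hB := qHB D hD.ok z0 m0
      have hch := (hD.ok.z z0 m0).chir
      have e1 : z0.x1 = z0.xD := by simp only [Hole.x1]; omega
      have e2 : z0.x2 = z0.xU := by simp only [Hole.x2]; omega
      have hnd := hF.nd
      simp only [Box.Nd] at hnd
      refine hz z0 m0 (qFU D F z0.box hF hB.face ?_)
      simp only [Meets, Hole.box]
      have hst1 := hst.1
      have hst2 := hst.2.1
      omega
  · refine ⟨f.x2, le_refl _, ?_, ?_⟩
    · intro z hz hzA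
      exact absurd ⟨z, hz, hzA⟩ hex
    · rintro F ⟨hF, hc, hz, g1, g2, g3, g4⟩
      exact g2

/-- a clipped face contained in `f` is determined by `f` -/
private theorem FitUp_det (hSub : StSub) (hStub : StStub) (D : Cfg) (c : ℤ) (hD : OkC D)
    (h1 : D.Y0 < c) (h2 : c < D.Y1) (f : Box) (hf : IsFace (upA D c) f) :
    ∃ a b : ℤ, ∀ F, FitUp_G D c f F → F.x1 = a ∧ F.x2 = b ∧ F.y2 = f.y2 := by
  obtain ⟨a, ha1, ha2, ha3⟩ := FitUp_a hStub D c hD h1 h2 f hf
  obtain ⟨b, hb1, hb2, hb3⟩ := FitUp_b hStub D c hD h1 h2 f hf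
  refine ⟨a, b, fun F hG => ?_⟩
  have hFa := ha3 F hG
  have hFb := hb3 F hG
  obtain ⟨hF, hc, hz, g1, g2, g3, g4⟩ := hG
  have hg := (qFClip D F c hF).1 h1 h2 hc
  have hnd := hF.nd
  simp only [Box.Nd] at hnd
  have a1 := hf.ix1
  have a2 := hf.ix2
  have a3 := hf.iy1
  have a4 := hf.iy2
  simp only [upA] at a1 a2 a3 a4
  have key := hSub (up D c) ⟨F.x1, F.x2, max F.y1 c, F.y2⟩ ⟨a, b, f.y1, f.y2⟩ hg ?_ ?_
    (by simp only [up]; omega) (by simp only [up]; omega) (by simp only [up]; omega)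
    (by simp only [up]; omega) (by simp only [Meets]; omega)
  · simp only at key
    omega
  · intro x hx e1 e2 e3 e4
    simp only [up, Finset.mem_filter] at hx e3 e4
    simp only at e1 e2
    by_cases hxE : ∀ z ∈ D.Z, z.y1 ≤ c → c < z.y2 → z.xD ≠ x
    · refine hf.noV x ?_ (by omega) (by omega) ?_ ?_
      · simp only [upA, Finset.mem_filter]
        exact ⟨hx.1, hx.2, hxE⟩
      · simp only [upA]
        exact e3
      · simp only [upA]
        exact e4
    · push Not at hxE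
      obtain ⟨z, n0, n1, n2, n3⟩ := hxE
      have hzo := hD.ok.z z n0
      have heD := hzo.eD
      rw [n3] at heD
      have hS : FitUp_S D c f z := ⟨n0, n1, n2, by omega, by omega, by omega⟩
      rcases hzo.chir with hch | hch
      · have := ha2 z hS hch.1
        omega
      · have := hb2 z hS hch.1
        omega
  · intro y hy e1 e2 e3 e4
    simp only [up] at hy e3 e4
    simp only at e1 e2
    refine hf.noH y ?_ e1 e2 ?_ ?_
    · simpa only [upA] using hy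
    · simp only [upA]
      omega
    · simp only [upA]
      omega

theorem pFitUp (hUpA : StUpA) (hSub : StSub) (hStub : StStub) : StFitUp := by
  classical
  intro D A c hD h1 h2 hfit
  obtain ⟨φ, hφ1, hφ2⟩ := hfit
  have hex : ∀ F : Box, ∃ f : Box, IsFace D F → c < F.y2 →
      IsFace (upA D c) f ∧ f.x1 ≤ F.x1 ∧ F.x2 ≤ f.x2 ∧ f.y1 ≤ max F.y1 c ∧ F.y2 ≤ f.y2 := by
    intro F
    by_cases hF : IsFace D F ∧ c < F.y2
    · obtain ⟨f, hf⟩ := FitUp_cont hUpA hSub D c hD h1 h2 F hF.1 hF.2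
      exact ⟨f, fun _ _ => hf⟩
    · exact ⟨F, fun h h' => absurd ⟨h, h'⟩ hF⟩
  choose ψ hψ using hex
  have hM : ∀ R : Box, Meets R (upA D c).box → Meets R D.box ∧ c < R.y2 := by
    intro R hR
    simp only [Meets, upA, Cfg.box] at hR ⊢
    omega
  have hcy : ∀ R F : Box, Meets R (upA D c).box → InF D R F → c < F.y2 := by
    intro R F hR hI
    have h3 := (hM R hR).2
    simp only [InF] at hI
    omega
  refine ⟨fun R => ψ (φ R), ?_, ?_⟩
  · intro R hR hRM
    obtain ⟨hF, hI, hZ, -⟩ := hφ1 R hR (hM R hRM).1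
    have hc := hcy R _ hRM hI
    obtain ⟨hf, c1, c2, c3, c4⟩ := hψ (φ R) hF hc
    refine ⟨hf, ?_, ?_, fun h => h.elim⟩
    · simp only [InF] at hI ⊢
      simp only [upA]
      omega
    · intro z hz heq
      simp only [upA, Finset.mem_filter] at hz
      have hB := qHB D hD.ok z hz.1
      have hnd := hF.nd
      simp only [Box.Nd] at hnd
      refine hZ z hz.1 (qFU D _ _ hF hB.face ?_)
      simp only at heq
      rw [heq] at c1 c2 c3 c4
      simp only [Hole.box] at c1 c2 c3 c4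
      simp only [Meets, Hole.box]
      omega
  · intro R hR R' hR' hRM hRM' heq
    obtain ⟨hF, hI, hZ, -⟩ := hφ1 R hR (hM R hRM).1
    obtain ⟨hF', hI', hZ', -⟩ := hφ1 R' hR' (hM R' hRM').1
    have hc := hcy R _ hRM hI
    have hc' := hcy R' _ hRM' hI'
    have hf := hψ (φ R) hF hc
    have hf' := hψ (φ R') hF' hc'
    simp only at heq
    rw [← heq] at hf'
    obtain ⟨a, b, hab⟩ := FitUp_det hSub hStub D c hD h1 h2 (ψ (φ R)) hf.1
    have r1 := hab (φ R) ⟨hF, hc, hZ, hf.2⟩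
    have r2 := hab (φ R') ⟨hF', hc', hZ', hf'.2⟩
    refine hφ2 R hR R' hR' (hM R hRM).1 (hM R' hRM').1 (qFU D _ _ hF hF' ?_)
    have hnd := hF.nd
    have hnd' := hF'.nd
    simp only [Box.Nd] at hnd hnd'
    simp only [Meets]
    omega

end Pool.RC
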