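import Pool.Agent.RC.St1
import Pool.Agent.RB.Main

/-!
# Project RC, module I1 (helper7): number of pieces of the two parts of an absorbing cut
-/

namespace Pool.RC

open Pool.RB

private lemma I1_V (D : Cfg) (c : ℤ) (hD : Ok D) :
    (D.V.filter (fun x => c < D.vhi x)).card + (D.V.filter (fun x => D.vlo x < c)).card =
      D.V.card + crs D c := by
  have h1 : D.V.card = ∑ x ∈ D.V, 1 := by simp
  rw [crs, Finset.card_filter, Finset.card_filter, Finset.card_filter, h1,
    ← Finset.sum_add_distrib, ← Finset.sum_add_distrib]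
  refine Finset.sum_congr rfl fun x hx => ?_
  have := (hD.v x hx).2.2.2.1
  split_ifs <;> omega

private lemma I1_H (D : Cfg) (c : ℤ) (hc : c ∈ D.H) :
    (D.H.filter (fun y => c < y)).card + (D.H.filter (fun y => y < c)).card + 1 = D.H.card := by
  have h1 : D.H.card = ∑ x ∈ D.H, 1 := by simp
  have h2 : (1 : ℕ) = ∑ x ∈ D.H, if x = c then 1 else 0 := by
    rw [Finset.sum_ite_eq' D.H c]
    simp [hc]
  rw [Finset.card_filter, Finset.card_filter, h1]
  conv_lhs => rw [h2]
  rw [← Finset.sum_add_distrib, ← Finset.sum_add_distrib]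
  refine Finset.sum_congr rfl fun x hx => ?_
  split_ifs <;> omega

private lemma I1_Zu (D : Cfg) (c : ℤ) (hD : Ok D) :
    (D.Z.filter (fun z => z.y1 ≤ c ∧ c < z.y2)).card =
      hit D c + (D.Z.filter (fun z => z.y1 = c)).card := by
  rw [hit, Finset.card_filter, Finset.card_filter, Finset.card_filter, ← Finset.sum_add_distrib]
  refine Finset.sum_congr rfl fun z hz => ?_
  have := (qHB D hD z hz).y12
  split_ifs <;> omega

private lemma I1_Zd (D : Cfg) (c : ℤ) (hD : Ok D) :
    (D.Z.filter (fun z => z.y1 < c ∧ c ≤ z.y2)).card =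
      hit D c + (D.Z.filter (fun z => z.y2 = c)).card := by
  rw [hit, Finset.card_filter, Finset.card_filter, Finset.card_filter, ← Finset.sum_add_distrib]
  refine Finset.sum_congr rfl fun z hz => ?_
  have := (qHB D hD z hz).y12
  split_ifs <;> omega

private lemma I1_tch (D : Cfg) (c : ℤ) (hD : Ok D) :
    tch D c = (D.Z.filter (fun z => z.y1 = c)).card + (D.Z.filter (fun z => z.y2 = c)).card := by
  rw [tch, Finset.card_filter, Finset.card_filter, Finset.card_filter, ← Finset.sum_add_distrib]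
  refine Finset.sum_congr rfl fun z hz => ?_
  have := (qHB D hD z hz).y12
  split_ifs <;> omega

private lemma I1_up (D : Cfg) (c : ℤ) (hD : Ok D) :
    (D.V.filter (fun x => c < D.vhi x)).card = (upA D c).V.card +
      (D.Z.filter (fun z => z.y1 ≤ c ∧ c < z.y2)).card := by
  have hinj : Set.InjOn (fun z : Hole => z.xD)
      (D.Z.filter (fun z => z.y1 ≤ c ∧ c < z.y2) : Finset Hole) := by
    intro z hz w hw h
    have hz' := (Finset.mem_filter.mp (Finset.mem_coe.mp hz)).1
    have hw' := (Finset.mem_filter.mp (Finset.mem_coe.mp hw)).1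
    exact (qHU D hD z hz' w hw').2.2.2 h
  rw [← Finset.card_image_of_injOn hinj, ← Finset.card_union_of_disjoint]
  · congr 1
    ext x
    simp only [upA, Finset.mem_filter, Finset.mem_union, Finset.mem_image]
    constructor
    · rintro ⟨h1, h2⟩
      by_cases h3 : ∃ z ∈ D.Z, z.y1 ≤ c ∧ c < z.y2 ∧ z.xD = x
      · obtain ⟨z, hz, h4, h5, h6⟩ := h3
        exact Or.inr ⟨z, ⟨hz, h4, h5⟩, h6⟩
      · refine Or.inl ⟨h1, h2, fun z hz h4 h5 h6 => h3 ⟨z, hz, h4, h5, h6⟩⟩
    · rintro (⟨h1, h2, -⟩ | ⟨z, ⟨hz, h4, h5⟩, rfl⟩)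
      · exact ⟨h1, h2⟩
      · refine ⟨(hD.z z hz).hD, ?_⟩
        rw [(hD.z z hz).eD]
        exact h5
  · rw [Finset.disjoint_left]
    intro x h1 h2
    simp only [upA, Finset.mem_filter] at h1
    obtain ⟨z, hz, h3⟩ := Finset.mem_image.mp h2
    obtain ⟨hz1, hz2, hz3⟩ := Finset.mem_filter.mp hz
    exact h1.2.2 z hz1 hz2 hz3 h3

private lemma I1_dn (D : Cfg) (c : ℤ) (hD : Ok D) :
    (D.V.filter (fun x => D.vlo x < c)).card = (dnA D c).V.card +
      (D.Z.filter (fun z => z.y1 < c ∧ c ≤ z.y2)).card := by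
  have hinj : Set.InjOn (fun z : Hole => z.xU)
      (D.Z.filter (fun z => z.y1 < c ∧ c ≤ z.y2) : Finset Hole) := by
    intro z hz w hw h
    have hz' := (Finset.mem_filter.mp (Finset.mem_coe.mp hz)).1
    have hw' := (Finset.mem_filter.mp (Finset.mem_coe.mp hw)).1
    exact (qHU D hD z hz' w hw').2.2.1 h
  rw [← Finset.card_image_of_injOn hinj, ← Finset.card_union_of_disjoint]
  · congr 1
    ext x
    simp only [dnA, Finset.mem_filter, Finset.mem_union, Finset.mem_image]
    constructor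
    · rintro ⟨h1, h2⟩
      by_cases h3 : ∃ z ∈ D.Z, z.y1 < c ∧ c ≤ z.y2 ∧ z.xU = x
      · obtain ⟨z, hz, h4, h5, h6⟩ := h3
        exact Or.inr ⟨z, ⟨hz, h4, h5⟩, h6⟩
      · refine Or.inl ⟨h1, h2, fun z hz h4 h5 h6 => h3 ⟨z, hz, h4, h5, h6⟩⟩
    · rintro (⟨h1, h2, -⟩ | ⟨z, ⟨hz, h4, h5⟩, rfl⟩)
      · exact ⟨h1, h2⟩
      · refine ⟨(hD.z z hz).hU, ?_⟩
        rw [(hD.z z hz).eU]
        exact h4
  · rw [Finset.disjoint_left]
    intro x h1 h2
    simp only [dnA, Finset.mem_filter] at h1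
    obtain ⟨z, hz, h3⟩ := Finset.mem_image.mp h2
    obtain ⟨hz1, hz2, hz3⟩ := Finset.mem_filter.mp hz
    exact h1.2.2 z hz1 hz2 hz3 h3

theorem pI1 : StI1 := by
  intro D c hD hc
  have hOk := hD.ok
  have h1 := I1_V D c hOk
  have h2 := I1_H D c hc
  have h3 := I1_Zu D c hOk
  have h4 := I1_Zd D c hOk
  have h5 := I1_tch D c hOk
  have h6 := I1_up D c hOk
  have h7 := I1_dn D c hOk
  have e1 : (upA D c).sz = (upA D c).V.card + (D.H.filter (fun y => c < y)).card := rfl
  have e2 : (dnA D c).sz = (dnA D c).V.card + (D.H.filter (fun y => y < c)).card := rfl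
  have e3 : D.sz = D.V.card + D.H.card := rfl
  omega

end Pool.RC
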