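import Pool.Agent.RC.St1
import Pool.Agent.RB.M_HB

namespace Pool.RC

open Pool.RB

/-- MODULE I2: a hole is above, below, hit or touched. -/
theorem pI2 : StI2 := by
  intro D c hD
  have key : ∀ z ∈ D.Z, (if c < z.y1 then 1 else 0) + (if z.y2 < c then 1 else 0) +
      (if (z.y1 < c ∧ c < z.y2) then 1 else 0) + (if (z.y1 = c ∨ z.y2 = c) then 1 else 0) = 1 := by
    intro z hz
    have h := (pHB D hD.ok z hz).y12
    by_cases h1 : c < z.y1
    · have a2 : ¬ z.y2 < c := by omega
      have a3 : ¬ (z.y1 < c ∧ c < z.y2) := by omega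
      have a4 : ¬ (z.y1 = c ∨ z.y2 = c) := by omega
      simp [h1, a2, a3, a4]
    · by_cases h2 : z.y2 < c
      · have a3 : ¬ (z.y1 < c ∧ c < z.y2) := by omega
        have a4 : ¬ (z.y1 = c ∨ z.y2 = c) := by omega
        simp [h1, h2, a3, a4]
      · by_cases h3 : z.y1 < c ∧ c < z.y2
        · have a4 : ¬ (z.y1 = c ∨ z.y2 = c) := by omega
          simp [h1, h2, h3, a4]
        · have a4 : (z.y1 = c ∨ z.y2 = c) := by omega
          simp [h1, h2, h3, a4]
  have e : ∀ (p : Hole → Prop) [DecidablePred p], (D.Z.filter p).card = ∑ z ∈ D.Z, (if p z then 1 else 0) := by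
    intro p _
    rw [Finset.card_filter]
  have h1 : (upA D c).Z.card = ∑ z ∈ D.Z, (if c < z.y1 then 1 else 0) := by
    show (D.Z.filter (fun z => c < z.y1)).card = _
    exact e _
  have h2 : (dnA D c).Z.card = ∑ z ∈ D.Z, (if z.y2 < c then 1 else 0) := by
    show (D.Z.filter (fun z => z.y2 < c)).card = _
    exact e _
  have h3 : hit D c = ∑ z ∈ D.Z, (if (z.y1 < c ∧ c < z.y2) then 1 else 0) := by
    unfold hit
    exact e _
  have h4 : tch D c = ∑ z ∈ D.Z, (if (z.y1 = c ∨ z.y2 = c) then 1 else 0) := by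
    unfold tch
    exact e _
  rw [h1, h2, h3, h4, ← Finset.sum_add_distrib, ← Finset.sum_add_distrib, ← Finset.sum_add_distrib,
    Finset.sum_congr rfl key]
  simp

end Pool.RC
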