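import Pool.Agent.RC.St1
import Pool.Agent.RB.M_HB

/-!
# RC module I4: ends at the old walls
-/

namespace Pool.RC

open Pool.RB

private lemma split3 (H : Finset ℤ) (c : ℤ) (hc : c ∈ H) (p : ℤ → Prop) [DecidablePred p] :
    ((H.filter (fun y => c < y)).filter p).card + ((H.filter (fun y => y < c)).filter p).card +
      (if p c then 1 else 0) = (H.filter p).card := by
  have h1 : (H.filter p) = ((H.filter (fun y => c < y)).filter p) ∪ (((H.filter (fun y => y < c)).filter p) ∪
      (if p c then {c} else ∅)) := by
    ext y
    simp only [Finset.mem_filter, Finset.mem_union]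
    constructor
    · rintro ⟨hy, hp⟩
      rcases lt_trichotomy c y with h | h | h
      · exact Or.inl ⟨⟨hy, h⟩, hp⟩
      · subst h
        right; right
        rw [if_pos hp]
        exact Finset.mem_singleton_self _
      · exact Or.inr (Or.inl ⟨⟨hy, h⟩, hp⟩)
    · rintro (⟨⟨hy, _⟩, hp⟩ | ⟨⟨hy, _⟩, hp⟩ | h)
      · exact ⟨hy, hp⟩
      · exact ⟨hy, hp⟩
      · split_ifs at h with hpc
        · rw [Finset.mem_singleton] at h
          subst h
          exact ⟨hc, hpc⟩
        · simp at h
  rw [h1, Finset.card_union_of_disjoint, Finset.card_union_of_disjoint]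
  · have : (if p c then ({c} : Finset ℤ) else ∅).card = if p c then 1 else 0 := by
      split_ifs <;> simp
    rw [this]; ring
  · rw [Finset.disjoint_left]
    intro y hy h
    simp only [Finset.mem_filter] at hy
    split_ifs at h with hpc
    · rw [Finset.mem_singleton] at h
      omega
    · simp at h
  · rw [Finset.disjoint_left]
    intro y hy h
    simp only [Finset.mem_filter] at hy
    rw [Finset.mem_union] at h
    rcases h with h | h
    · simp only [Finset.mem_filter] at h
      omega
    · split_ifs at h with hpc
      · rw [Finset.mem_singleton] at h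
        omega
      · simp at h

/-- ends at the old walls -/
theorem pI4 : StI4 := by
  intro D c hD hc
  have hc' := hD.ok.h c hc
  refine ⟨?_, ?_, ?_, ?_, ?_⟩
  · unfold WT upA
    simp only
    rw [Finset.filter_filter]
    congr 1
    apply Finset.filter_congr
    intro x hx
    constructor
    · rintro ⟨_, h⟩; exact h
    · intro h
      refine ⟨⟨by omega, ?_⟩, h⟩
      rintro z hz h1 h2 rfl
      have hb := pHB D hD.ok z hz
      have := (hD.ok.z z hz).eD
      have := hb.ltY1
      omega
  · unfold WB dnA
    simp only
    rw [Finset.filter_filter]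
    congr 1
    apply Finset.filter_congr
    intro x hx
    constructor
    · rintro ⟨_, h⟩; exact h
    · intro h
      refine ⟨⟨by omega, ?_⟩, h⟩
      rintro z hz h1 h2 rfl
      have hb := pHB D hD.ok z hz
      have := (hD.ok.z z hz).eU
      have := hb.Y0lt
      omega
  · exact split3 D.H c hc (fun y => D.hlo y = D.X0)
  · exact split3 D.H c hc (fun y => D.hhi y = D.X1)
  · exact split3 D.H c hc (fun y => D.hlo y = D.X0 ∧ D.hhi y = D.X1)

end Pool.RC
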