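import Pool.Agent.RC.St1
import Pool.Agent.RB.M_HB
import Pool.Agent.RB.M_HU

/-!
# Project RC, module I5
-/

namespace Pool.RC

open Pool.RB

private theorem I5_one (Z : Finset Hole) (f : Hole → ℤ) (c : ℤ) (q : Prop) [Decidable q]
    (hinj : ∀ z ∈ Z, ∀ w ∈ Z, f z = f w → z = w) (hq : ∀ z ∈ Z, f z = c → ¬ q) :
    (Z.filter (fun z => f z = c)).card + (if q then 1 else 0) ≤ 1 := by
  have h1 : (Z.filter (fun z => f z = c)).card ≤ 1 := by
    rw [Finset.card_le_one]
    intro x hx y hy
    rw [Finset.mem_filter] at hx hy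
    exact hinj x hx.1 y hy.1 (hx.2.trans hy.2.symm)
  by_cases h : q
  · have h2 : Z.filter (fun z => f z = c) = ∅ := by
      rw [Finset.filter_eq_empty_iff]
      intro z hz hf
      exact hq z hz hf h
    rw [h2, if_pos h]
    simp
  · rw [if_neg h]
    omega

theorem pI5 : StI5 := by
  intro D c hD _
  have hO := hD.ok
  have hHB := pHB D hO
  have hHU := pHU pHB D hO
  have e1 := I5_one D.Z (fun z => z.yR) c (D.hlo c = D.X0)
    (fun z hz w hw => (hHU z hz w hw).2.1)
    (fun z hz h1 h2 => by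
      have h3 := (hO.z z hz).eR
      have h4 := (hHB z hz).X0lt
      rw [show z.yR = c from h1] at h3
      omega)
  have e2 := I5_one D.Z (fun z => z.yL) c (D.hhi c = D.X1)
    (fun z hz w hw => (hHU z hz w hw).1)
    (fun z hz h1 h2 => by
      have h3 := (hO.z z hz).eL
      have h4 := (hHB z hz).ltX1
      rw [show z.yL = c from h1] at h3
      omega)
  have h3 : D.Z.filter (fun z => z.y1 = c ∨ z.y2 = c) ⊆
      D.Z.filter (fun z => z.yR = c) ∪ D.Z.filter (fun z => z.yL = c) := by
    intro z hz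
    rw [Finset.mem_filter] at hz
    have a1 : z.y1 = min z.yL z.yR := rfl
    have a2 : z.y2 = max z.yL z.yR := rfl
    rw [Finset.mem_union, Finset.mem_filter, Finset.mem_filter]
    rcases hz with ⟨hz, h | h⟩
    · by_cases h5 : z.yR = c
      · exact Or.inl ⟨hz, h5⟩
      · exact Or.inr ⟨hz, by omega⟩
    · by_cases h5 : z.yR = c
      · exact Or.inl ⟨hz, h5⟩
      · exact Or.inr ⟨hz, by omega⟩
  have h4 := Finset.card_le_card h3
  have h5 := Finset.card_union_le (D.Z.filter (fun z => z.yR = c)) (D.Z.filter (fun z => z.yL = c))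
  unfold tch wH
  omega

end Pool.RC
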