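import Pool.Agent.RC.St1

/-!
# Project RC, module I6: transposed counts
-/

namespace Pool.RC

open Pool.RB

private theorem I6_inj : Function.Injective Hole.tr := by
  intro a b h
  cases a
  cases b
  simp only [Hole.tr, Hole.mk.injEq] at h
  obtain ⟨h1, h2, h3, h4⟩ := h
  subst h1 h2 h3 h4
  rfl

private theorem I6_x1 (z : Hole) : z.tr.x1 = z.y1 := min_comm _ _
private theorem I6_x2 (z : Hole) : z.tr.x2 = z.y2 := max_comm _ _
private theorem I6_y1 (z : Hole) : z.tr.y1 = z.x1 := min_comm _ _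
private theorem I6_y2 (z : Hole) : z.tr.y2 = z.x2 := max_comm _ _

private theorem I6_card (Z : Finset Hole) (p q : Hole → Prop) [DecidablePred p] [DecidablePred q]
    (h : ∀ z, p z.tr ↔ q z) : ((Z.image Hole.tr).filter p).card = (Z.filter q).card := by
  rw [Finset.filter_image, Finset.card_image_of_injective _ I6_inj]
  congr 1
  exact Finset.filter_congr (fun z _ => h z)

theorem pI6 : StI6 := by
  refine ⟨fun D => ⟨rfl, rfl, rfl, rfl, rfl, rfl, ?_⟩, fun D x => ⟨rfl, rfl, ?_, ?_, ?_, ?_, rfl, rfl,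
    ?_, ?_, ?_, ?_⟩⟩
  · exact Finset.card_image_of_injective _ I6_inj
  · refine I6_card D.Z _ _ (fun z => ?_)
    rw [I6_y1, I6_y2]
  · refine I6_card D.Z _ _ (fun z => ?_)
    rw [I6_x1, I6_x2]
  · refine I6_card D.Z _ _ (fun z => ?_)
    rw [I6_y1, I6_y2]
  · refine I6_card D.Z _ _ (fun z => ?_)
    rw [I6_x1, I6_x2]
  · refine Finset.filter_congr (fun y _ => ?_)
    show (D.hlo y = x ∧ ∀ z ∈ D.Z.image Hole.tr, z.xU ≠ y) ↔ _
    rw [Finset.forall_mem_image]
    rfl
  · refine Finset.filter_congr (fun y _ => ?_)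
    show (D.hhi y = x ∧ ∀ z ∈ D.Z.image Hole.tr, z.xD ≠ y) ↔ _
    rw [Finset.forall_mem_image]
    rfl
  · refine Finset.filter_congr (fun y _ => ?_)
    show (D.vlo y = x ∧ ∀ z ∈ D.Z.image Hole.tr, z.yR ≠ y) ↔ _
    rw [Finset.forall_mem_image]
    rfl
  · refine Finset.filter_congr (fun y _ => ?_)
    show (D.vhi y = x ∧ ∀ z ∈ D.Z.image Hole.tr, z.yL ≠ y) ↔ _
    rw [Finset.forall_mem_image]
    rfl

end Pool.RC
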