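import Pool.Agent.RC.St1

/-! MP_c6e2b4_co, project RC, module I7: counts of the mirror image. -/

namespace Pool.RC

open Pool.RB

private theorem I7_fx_fx (z : Hole) : z.fx.fx = z := by
  cases z; simp [Hole.fx]

private theorem I7_fx_inj : Function.Injective Hole.fx := by
  intro a b h
  rw [← I7_fx_fx a, ← I7_fx_fx b, h]

private theorem I7_x1 (z : Hole) : z.fx.x1 = -z.x2 := by
  simp only [Hole.fx, Hole.x1, Hole.x2]; omega

private theorem I7_x2 (z : Hole) : z.fx.x2 = -z.x1 := by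
  simp only [Hole.fx, Hole.x1, Hole.x2]; omega

private theorem I7_y1 (z : Hole) : z.fx.y1 = z.y1 := by
  simp only [Hole.fx, Hole.y1]; omega

private theorem I7_y2 (z : Hole) : z.fx.y2 = z.y2 := by
  simp only [Hole.fx, Hole.y2]; omega

private theorem I7_neg_inj : Function.Injective (fun x : ℤ => -x) := fun a b h => by
  simp only at h; omega

/-- counting in an image under negation -/
private theorem I7_cV (V : Finset ℤ) (p q : ℤ → Prop) [DecidablePred p] [DecidablePred q]
    (h : ∀ x ∈ V, (p (-x) ↔ q x)) :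
    ((V.image (fun x => -x)).filter p).card = (V.filter q).card := by
  rw [Finset.filter_image, Finset.card_image_of_injective _ I7_neg_inj]
  apply congrArg Finset.card
  apply Finset.filter_congr
  intro x hx
  exact h x hx

private theorem I7_cZ (Z : Finset Hole) (p q : Hole → Prop) [DecidablePred p] [DecidablePred q]
    (h : ∀ z ∈ Z, (p z.fx ↔ q z)) :
    ((Z.image Hole.fx).filter p).card = (Z.filter q).card := by
  rw [Finset.filter_image, Finset.card_image_of_injective _ I7_fx_inj]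
  apply congrArg Finset.card
  apply Finset.filter_congr
  intro z hz
  exact h z hz

private theorem I7_cH (H : Finset ℤ) (p q : ℤ → Prop) [DecidablePred p] [DecidablePred q]
    (h : ∀ y ∈ H, (p y ↔ q y)) : (H.filter p).card = (H.filter q).card := by
  apply congrArg Finset.card
  apply Finset.filter_congr
  intro y hy
  exact h y hy

theorem pI7 : StI7 := by
  refine ⟨fun D => ⟨?_, ?_, ?_, ?_, ?_, ?_, ?_⟩, fun D c => ⟨?_, ?_, ?_, ?_, ?_, ?_, ?_, ?_, ?_, ?_, ?_, ?_⟩⟩
  · exact I7_cV D.V _ _ (fun x _ => by simp only [Cfg.fx, neg_neg])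
  · exact I7_cV D.V _ _ (fun x _ => by simp only [Cfg.fx, neg_neg])
  · exact I7_cH D.H _ _ (fun y _ => by simp only [Cfg.fx]; omega)
  · exact I7_cH D.H _ _ (fun y _ => by simp only [Cfg.fx]; omega)
  · exact I7_cH D.H _ _ (fun y _ => by simp only [Cfg.fx]; omega)
  · exact I7_cV D.V _ _ (fun x _ => by simp only [Cfg.fx, neg_neg])
  · exact Finset.card_image_of_injective _ I7_fx_inj
  · exact I7_cV D.V _ _ (fun x _ => by simp only [Cfg.fx, neg_neg])
  · exact I7_cH D.H _ _ (fun y _ => by simp only [Cfg.fx]; omega)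
  · exact I7_cZ D.Z _ _ (fun z _ => by rw [I7_y1, I7_y2])
  · exact I7_cZ D.Z _ _ (fun z _ => by rw [I7_x1, I7_x2]; omega)
  · exact I7_cZ D.Z _ _ (fun z _ => by rw [I7_y1, I7_y2])
  · exact I7_cZ D.Z _ _ (fun z _ => by rw [I7_x1, I7_x2]; omega)
  · have e1 : (D.fx.hlo c = D.fx.X0) ↔ (D.hhi c = D.X1) := by simp only [Cfg.fx]; omega
    have e2 : (D.fx.hhi c = D.fx.X1) ↔ (D.hlo c = D.X0) := by simp only [Cfg.fx]; omega
    unfold wH
    simp only [e1, e2]
    omega
  · have e1 : (D.fx.vlo (-c) = D.fx.Y0) ↔ (D.vlo c = D.Y0) := by simp only [Cfg.fx, neg_neg]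
    have e2 : (D.fx.vhi (-c) = D.fx.Y1) ↔ (D.vhi c = D.Y1) := by simp only [Cfg.fx, neg_neg]
    unfold wV
    simp only [e1, e2]
  · refine I7_cV D.V _ _ (fun x _ => ?_)
    simp only [Cfg.fx, neg_neg, Finset.mem_image]
    constructor
    · rintro ⟨h1, h2⟩
      refine ⟨h1, fun z hz h => h2 z.fx ⟨z, hz, rfl⟩ ?_⟩
      simp only [Hole.fx]; omega
    · rintro ⟨h1, h2⟩
      refine ⟨h1, ?_⟩
      rintro _ ⟨z, hz, rfl⟩ h
      simp only [Hole.fx] at h
      exact h2 z hz (by omega)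
  · refine I7_cV D.V _ _ (fun x _ => ?_)
    simp only [Cfg.fx, neg_neg, Finset.mem_image]
    constructor
    · rintro ⟨h1, h2⟩
      refine ⟨h1, fun z hz h => h2 z.fx ⟨z, hz, rfl⟩ ?_⟩
      simp only [Hole.fx]; omega
    · rintro ⟨h1, h2⟩
      refine ⟨h1, ?_⟩
      rintro _ ⟨z, hz, rfl⟩ h
      simp only [Hole.fx] at h
      exact h2 z hz (by omega)
  · refine I7_cH D.H _ _ (fun y _ => ?_)
    simp only [Cfg.fx, Finset.mem_image]
    constructor
    · rintro ⟨h1, h2⟩
      refine ⟨by omega, fun z hz h => h2 z.fx ⟨z, hz, rfl⟩ ?_⟩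
      simp only [Hole.fx]; omega
    · rintro ⟨h1, h2⟩
      refine ⟨by omega, ?_⟩
      rintro _ ⟨z, hz, rfl⟩ h
      simp only [Hole.fx] at h
      exact h2 z hz (by omega)
  · refine I7_cH D.H _ _ (fun y _ => ?_)
    simp only [Cfg.fx, Finset.mem_image]
    constructor
    · rintro ⟨h1, h2⟩
      refine ⟨by omega, fun z hz h => h2 z.fx ⟨z, hz, rfl⟩ ?_⟩
      simp only [Hole.fx]; omega
    · rintro ⟨h1, h2⟩
      refine ⟨by omega, ?_⟩
      rintro _ ⟨z, hz, rfl⟩ h
      simp only [Hole.fx] at h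
      exact h2 z hz (by omega)

end Pool.RC
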