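import Pool.Agent.RC.St1

/-! # Project RC, module LRA: the parts left and right of an absorbing cut are clean dissections -/

set_option autoImplicit false

namespace Pool.RC

open Pool.RB

theorem pLRA (hCTr : StCTr) (hEq : StEq) (hUpA : StUpA) (hDnA : StDnA) : StLRA := by
  intro D c hD h0 h1
  have e1 : (D.tr).Y0 = D.X0 := rfl
  have e2 : (D.tr).Y1 = D.X1 := rfl
  have hu : OkC (upA D.tr c) := hUpA D.tr c (hCTr D hD) h0 h1
  have hd : OkC (dnA D.tr c) := hDnA D.tr c (hCTr D hD) h0 h1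
  have hu' : OkC (upA D.tr c).tr := hCTr _ hu
  have hd' : OkC (dnA D.tr c).tr := hCTr _ hd
  rw [(hEq.2.1 D.tr c).1, (hEq.1 D).1] at hu'
  rw [(hEq.2.1 D.tr c).2.1, (hEq.1 D).1] at hd'
  exact ⟨hd', hu'⟩

end Pool.RC
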