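import Pool.Agent.RC.St1
import Pool.Agent.RB.Main

namespace Pool.RC

open Pool.RB

private lemma SolSym_fy (D : Cfg) : D.fy = D.tr.fx.tr := by
  have h : D.Z.image Hole.fy = ((D.Z.image Hole.tr).image Hole.fx).image Hole.tr := by
    rw [Finset.image_image, Finset.image_image]
    rfl
  unfold Cfg.fy Cfg.tr Cfg.fx
  simp only [Cfg.mk.injEq, true_and]
  exact h

theorem pSolSym (hEq : StEq) : StSolSym := by
  have hT : ∀ (D : Cfg) (N : ℚ), Sol D.tr N ↔ Sol D N := by
    intro D N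
    refine ⟨qSTr D N, fun h => ?_⟩
    apply qSTr D.tr N
    rw [(hEq.1 D).1]
    exact h
  have hF : ∀ (D : Cfg) (N : ℚ), Sol D.fx N ↔ Sol D N := by
    intro D N
    refine ⟨qSFx D N, fun h => ?_⟩
    apply qSFx D.fx N
    rw [(hEq.1 D).2.1]
    exact h
  intro D N
  refine ⟨hT D N, hF D N, ?_⟩
  rw [SolSym_fy D, hT, hF, hT]

end Pool.RC
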