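import Pool.Agent.RC.St1
import Pool.Agent.RB.M_HB

/-! Module Stub of project RC. -/

namespace Pool.RC

open Pool.RB

theorem pStub : StStub := by
  intro D c f z hD hc0 hc1 hf hz hzc hcz hfs hsf hfy
  have hO := hD.ok
  have hb : HB D z := pHB D hO z hz
  have hok := hO.z z hz
  obtain ⟨b1, b2, b3, b4, b5, b6, b7, b8, b9, b10, -⟩ := hb
  have ex1 : z.x1 = min z.xU z.xD := rfl
  have ex2 : z.x2 = max z.xU z.xD := rfl
  have eD := hok.eD
  have eU := hok.eU
  have hsV := hok.hD
  have hnd : f.x1 < f.x2 ∧ f.y1 < f.y2 := hf.nd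
  have hiy1 : c ≤ f.y1 := hf.iy1
  -- membership in the new sets
  have hH : ∀ y : ℤ, y ∈ (upA D c).H ↔ y ∈ D.H ∧ c < y := by
    intro y
    show y ∈ D.H.filter (fun y => c < y) ↔ _
    rw [Finset.mem_filter]
  have hV : ∀ x : ℤ, x ∈ (upA D c).V ↔
      x ∈ D.V ∧ (c < D.vhi x ∧ ∀ z ∈ D.Z, z.y1 ≤ c → c < z.y2 → z.xD ≠ x) := by
    intro x
    show x ∈ D.V.filter (fun x => c < D.vhi x ∧ ∀ z ∈ D.Z, z.y1 ≤ c → c < z.y2 → z.xD ≠ x) ↔ _
    rw [Finset.mem_filter]
  have h1 : f.y1 = c := by
    rcases hf.bot with h | ⟨h, h2, h3⟩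
    · exact h
    · exfalso
      have h4 := (hH _).1 h
      have h2' : D.hlo f.y1 ≤ f.x1 := h2
      have h3' : f.x2 ≤ D.hhi f.y1 := h3
      exact hO.nc z.xD hsV f.y1 h4.1 (by omega) (by omega) (by omega) (by omega)
  have hve := hO.vhi_end z.xD hsV
  rw [eD] at hve
  have hve' : z.y2 ∈ D.H ∧ D.hlo z.y2 < z.xD ∧ z.xD < D.hhi z.y2 := by
    rcases hve with h | h
    · omega
    · exact h
  have h2 : f.y2 = z.y2 := by
    rcases lt_trichotomy f.y2 z.y2 with h | h | h
    · exfalso
      rcases hf.top with h3 | ⟨h3, h4, h5⟩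
      · have h3' : f.y2 = D.Y1 := h3
        omega
      · have h6 := (hH _).1 h3
        have h4' : D.hlo f.y2 ≤ f.x1 := h4
        have h5' : f.x2 ≤ D.hhi f.y2 := h5
        exact hO.nc z.xD hsV f.y2 h6.1 (by omega) (by omega) (by omega) (by omega)
    · exact h
    · exfalso
      exact hf.noH z.y2 ((hH _).2 ⟨hve'.1, hcz⟩) hfy h (by show D.hlo z.y2 < f.x2; omega)
        (by show f.x1 < D.hhi z.y2; omega)
  have hUV : z.xU ∈ (upA D c).V := by
    rw [hV]
    refine ⟨hok.hU, by omega, ?_⟩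
    intro w hw hw1 hw2 he
    have := hO.adjV z hz w hw he.symm
    omega
  have hvU := hO.v _ hok.hU
  refine ⟨h1, h2, ?_, ?_⟩
  · intro hA
    have hx : z.xU < z.xD := by
      rcases hok.chir with h | h
      · exact h.2
      · omega
    rcases lt_trichotomy f.x1 z.xU with h | h | h
    · exfalso
      exact hf.noV z.xU hUV h (by omega) (by show max (D.vlo z.xU) c < f.y2; omega)
        (by show f.y1 < D.vhi z.xU; omega)
    · exact h
    · exfalso
      rcases hf.left with h3 | ⟨h3, h4, h5⟩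
      · have h3' : f.x1 = D.X0 := h3
        omega
      · have h6 := (hV _).1 h3
        have h4' : max (D.vlo f.x1) c ≤ f.y1 := h4
        have h5' : f.y2 ≤ D.vhi f.x1 := h5
        exact hD.cV z hz f.x1 h6.1 (by omega) (by omega) (by omega) (by omega)
  · intro hB
    have hx : z.xD < z.xU := by
      rcases hok.chir with h | h
      · omega
      · exact h.2
    rcases lt_trichotomy f.x2 z.xU with h | h | h
    · exfalso
      rcases hf.right with h3 | ⟨h3, h4, h5⟩
      · have h3' : f.x2 = D.X1 := h3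
        omega
      · have h6 := (hV _).1 h3
        have h4' : max (D.vlo f.x2) c ≤ f.y1 := h4
        have h5' : f.y2 ≤ D.vhi f.x2 := h5
        exact hD.cV z hz f.x2 h6.1 (by omega) (by omega) (by omega) (by omega)
    · exact h
    · exfalso
      exact hf.noV z.xU hUV (by omega) h (by show max (D.vlo z.xU) c < f.y2; omega)
        (by show f.y1 < D.vhi z.xU; omega)

end Pool.RC
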