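import Pool.Agent.RC.St1

/-!
# Project RC, module Sub (helper7): a face which meets an empty box contains it
-/

namespace Pool.RC

open Pool.RB

theorem pSub : StSub := by
  intro E f g hf hV hH hx1 hx2 hy1 hy2 hM
  obtain ⟨m1, m2, m3, m4⟩ := hM
  refine ⟨?_, ?_, ?_, ?_⟩
  · by_contra hc
    rcases hf.left with h | ⟨h1, h2, h3⟩
    · omega
    · exact hV f.x1 h1 (by omega) (by omega) (by omega) (by omega)
  · by_contra hc
    rcases hf.right with h | ⟨h1, h2, h3⟩
    · omega
    · exact hV f.x2 h1 (by omega) (by omega) (by omega) (by omega)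
  · by_contra hc
    rcases hf.bot with h | ⟨h1, h2, h3⟩
    · omega
    · exact hH f.y1 h1 (by omega) (by omega) (by omega) (by omega)
  · by_contra hc
    rcases hf.top with h | ⟨h1, h2, h3⟩
    · omega
    · exact hH f.y2 h1 (by omega) (by omega) (by omega) (by omega)

end Pool.RC
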