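import Pool.Agent.RC.St1
import Pool.Agent.RB.M_HB
import Pool.Agent.RB.M_HU

/-! # Project RC, module UpA -/

set_option autoImplicit false

namespace Pool.RC

open Pool.RB

theorem pUpA : StUpA := by
  intro D c hC h0 h1
  have h := hC.ok
  have hHB := pHB D h
  have hHU := pHU pHB D h
  have hxD : ∀ z : Hole, z.x1 ≤ z.xD ∧ z.xD ≤ z.x2 := by
    intro z
    simp only [Hole.x1, Hole.x2]
    omega
  refine ⟨⟨h.hX, h1, ?_, ?_, ?_, ?_, ?_, ?_, ?_, ?_, ?_, ?_⟩, ?_, ?_⟩
  · intro x hx
    simp only [upA, Finset.mem_filter] at hx ⊢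
    have := h.v x hx.1
    have := hx.2.1
    omega
  · intro y hy
    simp only [upA, Finset.mem_filter] at hy ⊢
    have := h.h y hy.1
    omega
  · intro x hx
    simp only [upA, Finset.mem_filter] at hx ⊢
    rcases h.vlo_end x hx.1 with h2 | ⟨h2, h3, h4⟩
    · left; omega
    · by_cases h5 : D.vlo x ≤ c
      · left; omega
      · right
        have h6 : max (D.vlo x) c = D.vlo x := by omega
        rw [h6]
        exact ⟨⟨h2, by omega⟩, h3, h4⟩
  · intro x hx
    simp only [upA, Finset.mem_filter] at hx ⊢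
    rcases h.vhi_end x hx.1 with h2 | ⟨h2, h3, h4⟩
    · left; exact h2
    · right; exact ⟨⟨h2, hx.2.1⟩, h3, h4⟩
  · intro y hy
    simp only [upA, Finset.mem_filter] at hy ⊢
    rcases h.hlo_end y hy.1 with h2 | ⟨h2, h3, h4⟩
    · left; exact h2
    · right
      refine ⟨⟨h2, by omega, ?_⟩, by omega, h4⟩
      intro z hz hz1 hz2 he
      have e1 := (h.z z hz).eD
      rw [he] at e1
      have e2 := hxD z
      have e3 := h.h y hy.1
      exact hC.cH z hz y hy.1 (by omega) (by omega) (by omega) (by omega)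
  · intro y hy
    simp only [upA, Finset.mem_filter] at hy ⊢
    rcases h.hhi_end y hy.1 with h2 | ⟨h2, h3, h4⟩
    · left; exact h2
    · right
      refine ⟨⟨h2, by omega, ?_⟩, by omega, h4⟩
      intro z hz hz1 hz2 he
      have e1 := (h.z z hz).eD
      rw [he] at e1
      have e2 := hxD z
      have e3 := h.h y hy.1
      exact hC.cH z hz y hy.1 (by omega) (by omega) (by omega) (by omega)
  · intro x hx y hy h2 h3 h4 h5
    simp only [upA, Finset.mem_filter] at hx hy h2 h3 h4 h5
    exact h.nc x hx.1 y hy.1 (by omega) h3 h4 h5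
  · intro z hz
    simp only [upA, Finset.mem_filter] at hz
    have hz' := h.z z hz.1
    have hB := hHB z hz.1
    have c1 : c < z.yL := by have := hz.2; simp only [Hole.y1] at this; omega
    have c2 : c < z.yR := by have := hz.2; simp only [Hole.y1] at this; omega
    have e1 := hz'.eU
    have e2 := hz'.eD
    have g1 := hB.y12
    have g2 := hz.2
    have g3 := hB.hiU
    refine ⟨?_, ?_, ?_, ?_, hz'.chir, hz'.eL, hz'.eR, ?_, hz'.eD, ?_, ?_⟩
    · simp only [upA, Finset.mem_filter]
      refine ⟨hz'.hU, by omega, fun w hw hw1 hw2 he => ?_⟩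
      have := h.adjV z hz.1 w hw he.symm
      omega
    · simp only [upA, Finset.mem_filter]
      refine ⟨hz'.hD, by omega, fun w hw hw1 hw2 he => ?_⟩
      have hwz := (hHU w hw z hz.1).2.2.2 he
      rw [hwz] at hw1
      omega
    · simp only [upA, Finset.mem_filter]; exact ⟨hz'.hL, c1⟩
    · simp only [upA, Finset.mem_filter]; exact ⟨hz'.hR, c2⟩
    · simp only [upA]; omega
    · intro x hx h2 h3 h4 h5
      simp only [upA, Finset.mem_filter] at hx h4 h5
      exact hz'.noV x hx.1 h2 h3 (by omega) h5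
    · intro y hy h2 h3 h4 h5
      simp only [upA, Finset.mem_filter] at hy h4 h5
      exact hz'.noH y hy.1 h2 h3 h4 h5
  · intro z hz w hw h2
    simp only [upA, Finset.mem_filter] at hz hw
    exact h.adjH z hz.1 w hw.1 h2
  · intro z hz w hw h2
    simp only [upA, Finset.mem_filter] at hz hw
    exact h.adjV z hz.1 w hw.1 h2
  · intro z hz x hx h2 h3 h4 h5
    simp only [upA, Finset.mem_filter] at hz hx h4 h5
    exact hC.cV z hz.1 x hx.1 h2 h3 (by omega) h5
  · intro z hz y hy h2 h3 h4 h5
    simp only [upA, Finset.mem_filter] at hz hy h4 h5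
    exact hC.cH z hz.1 y hy.1 h2 h3 h4 h5

end Pool.RC
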