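import Pool.Agent.RC.M_CSym
import Pool.Agent.RC.M_Eq
import Pool.Agent.RC.M_SolSym
import Pool.Agent.RC.M_UpA
import Pool.Agent.RC.M_DnA
import Pool.Agent.RC.M_LRA
import Pool.Agent.RC.M_SzA
import Pool.Agent.RC.M_Sub
import Pool.Agent.RC.M_Stub
import Pool.Agent.RC.M_FitUp
import Pool.Agent.RC.M_FitFy
import Pool.Agent.RC.M_FitDn
import Pool.Agent.RC.M_CutH
import Pool.Agent.RC.M_CutV
import Pool.Agent.RC.M_Base
import Pool.Agent.RC.M_I1
import Pool.Agent.RC.M_I2
import Pool.Agent.RC.M_I3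
import Pool.Agent.RC.M_I4
import Pool.Agent.RC.M_I5
import Pool.Agent.RC.M_I6
import Pool.Agent.RC.M_I7
import Pool.Agent.RC.M_RootC
import Pool.Agent.RC.M_Ends
import Pool.Agent.RC.St2

/-! Assembly of layer 1 of project RC. -/

namespace Pool.RC

open Pool.RB

theorem qCTr : StCTr := pCTr
theorem qCFx : StCFx := pCFx
theorem qCFy : StCFy := pCFy
theorem qEq : StEq := pEq
theorem qSolSym : StSolSym := pSolSym qEq
theorem qUpA : StUpA := pUpA
theorem qDnA : StDnA := pDnA qCFy qEq qUpA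
theorem qLRA : StLRA := pLRA qCTr qEq qUpA qDnA
theorem qSzA : StSzA := pSzA
theorem qSub : StSub := pSub
theorem qStub : StStub := pStub
theorem qFitUp : StFitUp := pFitUp qUpA qSub qStub
theorem qFitFy : StFitFy := pFitFy
theorem qFitDn : StFitDn := pFitDn qCFy qEq qFitUp qFitFy
theorem qCutH : StCutH := pCutH qFitUp qFitDn
theorem qCutV : StCutV := pCutV qCTr qEq qSolSym qCutH
theorem qMonoC : StMonoC := pMonoC
theorem qLeaf : StLeaf := pLeaf
theorem qI1 : StI1 := pI1
theorem qI2 : StI2 := pI2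
theorem qI3 : StI3 := pI3
theorem qI4 : StI4 := pI4
theorem qI5 : StI5 := pI5
theorem qI6 : StI6 := pI6
theorem qI7 : StI7 := pI7
theorem qRootC : StRootC := pRootC
theorem qEnds : StEnds := pEnds

end Pool.RC
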