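import Pool.Agent.RC.St3
import Pool.Agent.RC.Main1

/-!
# Project RC (MP_c6e2b4_co), module BadS: the hole under a bad element
-/

set_option autoImplicit false

namespace Pool.RC

open Pool.RB

private lemma BadS_x {D : Cfg} (hD : OkC D) {z : Hole} (hz : z ∈ D.Z) : D.X0 < z.x1 ∧ z.x2 < D.X1 := by
  have h := hD.ok.z z hz
  have hU := hD.ok.v _ h.hU
  have hDn := hD.ok.v _ h.hD
  exact ⟨lt_min hU.1 hDn.1, max_lt hU.2.1 hDn.2.1⟩

private lemma BadS_own {D : Cfg} {b x : ℤ} (he : eH D b = 0) (hx : x ∈ D.V) (hb : D.vlo x = b) :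
    ∃ z ∈ D.Z, z.xU = x := by
  by_contra hne
  push_neg at hne
  have h1 : x ∈ eUp D b := by
    unfold eUp
    rw [Finset.mem_filter]
    exact ⟨hx, hb, hne⟩
  have h2 : (eUp D b).card = 0 := by
    unfold eH at he
    omega
  rw [Finset.card_eq_zero] at h2
  rw [h2] at h1
  exact absurd h1 (Finset.notMem_empty _)

private lemma BadS_y1 {D : Cfg} (hD : OkC D) {z : Hole} (hz : z ∈ D.Z) : D.vlo z.xU = z.y1 :=
  (hD.ok.z z hz).eU

private lemma BadS_yc (z : Hole) : z.y1 = z.yL ∨ z.y1 = z.yR := min_choice _ _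

theorem pBadS : StBadS := by
  intro D w hD hw
  have hwz := hD.ok.z w hw
  constructor
  · rintro ⟨hb, he, hlo⟩
    -- no right arm of a hole is at this height
    have hR : ∀ z ∈ D.Z, z.yR ≠ D.vlo w.xD := by
      intro z hz h
      have h1 := (hD.ok.z z hz).eR
      have h2 := (BadS_x hD hz).1
      rw [h, hlo] at h1
      omega
    obtain ⟨z, hz, hzU⟩ := BadS_own he hwz.hD rfl
    have hzy1 : z.y1 = D.vlo w.xD := by rw [← BadS_y1 hD hz, hzU]
    have hzyL : z.yL = D.vlo w.xD := by
      rcases BadS_yc z with h | h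
      · rw [← h, hzy1]
      · exact absurd (h.symm.trans hzy1) (hR z hz)
    have hlt : z.yL < z.yR := by
      rcases (hD.ok.z z hz).chir with h | h
      · exact h.1
      · exfalso
        have h1 : z.y1 = z.yR := min_eq_right h.1.le
        exact hR z hz (h1.symm.trans hzy1)
    have hadj := hD.ok.adjV z hz w hw hzU
    refine ⟨?_, ?_, z, hz, hzU, hlt, hzyL, hzy1, (max_eq_right hlt.le).symm, hadj⟩
    · have h1 := (hD.ok.z z hz).eL
      have h2 := (BadS_x hD hz).2
      rw [hzyL] at h1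
      unfold wH
      rw [if_pos hlo, if_neg (by rw [h1]; exact ne_of_lt h2)]
    · intro x hx hxb
      obtain ⟨z', hz', hz'U⟩ := BadS_own he hx hxb
      have hy1 : z'.y1 = D.vlo w.xD := by rw [← BadS_y1 hD hz', hz'U, hxb]
      have hyL : z'.yL = D.vlo w.xD := by
        rcases BadS_yc z' with h | h
        · rw [← h, hy1]
        · exact absurd (h.symm.trans hy1) (hR z' hz')
      have heq := (qHU D hD.ok z' hz' z hz).1 (hyL.trans hzyL.symm)
      rw [← hz'U, heq, hzU]
  · rintro ⟨hb, he, hhi⟩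
    have hL : ∀ z ∈ D.Z, z.yL ≠ D.vlo w.xD := by
      intro z hz h
      have h1 := (hD.ok.z z hz).eL
      have h2 := (BadS_x hD hz).2
      rw [h, hhi] at h1
      omega
    obtain ⟨z, hz, hzU⟩ := BadS_own he hwz.hD rfl
    have hzy1 : z.y1 = D.vlo w.xD := by rw [← BadS_y1 hD hz, hzU]
    have hzyR : z.yR = D.vlo w.xD := by
      rcases BadS_yc z with h | h
      · exact absurd (h.symm.trans hzy1) (hL z hz)
      · rw [← h, hzy1]
    have hlt : z.yR < z.yL := by
      rcases (hD.ok.z z hz).chir with h | h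
      · exfalso
        have h1 : z.y1 = z.yL := min_eq_left h.1.le
        exact hL z hz (h1.symm.trans hzy1)
      · exact h.1
    have hadj := hD.ok.adjV z hz w hw hzU
    refine ⟨?_, ?_, z, hz, hzU, hlt, hzyR, hzy1, (max_eq_left hlt.le).symm, hadj⟩
    · have h1 := (hD.ok.z z hz).eR
      have h2 := (BadS_x hD hz).1
      rw [hzyR] at h1
      unfold wH
      rw [if_neg (by rw [h1]; exact ne_of_gt h2), if_pos hhi]
    · intro x hx hxb
      obtain ⟨z', hz', hz'U⟩ := BadS_own he hx hxb
      have hy1 : z'.y1 = D.vlo w.xD := by rw [← BadS_y1 hD hz', hz'U, hxb]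
      have hyR : z'.yR = D.vlo w.xD := by
        rcases BadS_yc z' with h | h
        · exact absurd (h.symm.trans hy1) (hL z' hz')
        · rw [← h, hy1]
      have heq := (qHU D hD.ok z' hz' z hz).2.1 (hyR.trans hzyR.symm)
      rw [← hz'U, heq, hzU]

end Pool.RC
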