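import Pool.Agent.RC.St2
import Pool.Agent.RC.Main1

/-! # Project RC, module BaseC: the cell without pieces -/

namespace Pool.RC

open Pool.RB

theorem pBaseC : StBaseC := by
  intro s D hD hV hH
  have hZ : D.Z = ∅ := by
    rw [Finset.eq_empty_iff_forall_notMem]
    intro z hz
    have h := (hD.1.z z hz).hU
    rw [hV] at h
    exact absurd h (Finset.notMem_empty _)
  have hL := qLeaf D hD hV hH
  have hval : U D + KB s D = 0 := by
    simp [U, KB, Cfg.sz, WT, WB, WL, WR, fH, uH, hV, hH, hZ]
  show Sol D (((U D + KB s D : ℤ) : ℚ) / 3)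
  rw [hval]
  simpa using hL

end Pool.RC
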