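import Pool.Agent.RC.Main1

/-! Module CH of project RC. -/

namespace Pool.RC

open Pool.RB

theorem pCH : StCH := by
  intro D c a b hD hc hu hd
  have h1 := qI1 D c hD hc
  have h2 := qI2 D c hD
  obtain ⟨h3, h3'⟩ := qI3 D c hD hc
  obtain ⟨h4a, h4b, h4c, h4d, -⟩ := qI4 D c hD hc
  unfold SolZ at *
  refine qCutH D c _ _ _ hD hc hu hd ?_
  have key : U (upA D c) + U (dnA D c) + 3 * ((crs D c : ℤ) - (hit D c : ℤ)) =
      U D - 5 - 4 * (eH D c : ℤ) + 4 * (wH D c : ℤ) := by
    have e1 : (WB (upA D c) : ℤ) + hit D c = crs D c + (eUp D c).card := by exact_mod_cast h3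
    have e2 : (WT (dnA D c) : ℤ) + hit D c = crs D c + (eDn D c).card := by exact_mod_cast h3'
    have e3 : (WT (upA D c) : ℤ) = WT D := by exact_mod_cast h4a
    have e4 : (WB (dnA D c) : ℤ) = WB D := by exact_mod_cast h4b
    have e5 : (WL (upA D c) : ℤ) + WL (dnA D c) + ((if D.hlo c = D.X0 then 1 else 0 : ℕ) : ℤ) = WL D := by
      exact_mod_cast h4c
    have e6 : (WR (upA D c) : ℤ) + WR (dnA D c) + ((if D.hhi c = D.X1 then 1 else 0 : ℕ) : ℤ) = WR D := by
      exact_mod_cast h4d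
    have e7 : ((upA D c).sz : ℤ) + (dnA D c).sz + 1 + 2 * hit D c + tch D c = D.sz + crs D c := by
      exact_mod_cast h1
    have e8 : ((upA D c).Z.card : ℤ) + (dnA D c).Z.card + hit D c + tch D c = D.Z.card := by
      exact_mod_cast h2
    have e9 : (eH D c : ℤ) = (eUp D c).card + (eDn D c).card := by
      unfold eH; push_cast; ring
    have e10 : (wH D c : ℤ) = ((if D.hlo c = D.X0 then 1 else 0 : ℕ) : ℤ) +
        ((if D.hhi c = D.X1 then 1 else 0 : ℕ) : ℤ) := by
      unfold wH; push_cast; ring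
    unfold U
    linarith
  have key' : ((U (upA D c) : ℤ) : ℚ) + U (dnA D c) + 3 * ((crs D c : ℚ) - (hit D c : ℚ)) =
      U D - 5 - 4 * (eH D c : ℚ) + 4 * (wH D c : ℚ) := by exact_mod_cast key
  push_cast
  linarith

end Pool.RC
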