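import Pool.Agent.RC.St1
import Pool.Agent.RB.M_OkTr
import Pool.Agent.RB.M_OkFx

/-!
# Project RC (MP_c6e2b4_co, owner helper22): `OkC` is invariant under the symmetries `tr`, `fx`, `fy`
-/

set_option autoImplicit false

namespace Pool.RC

open Pool.RB

private theorem CSym_tr1 (z : Hole) : z.tr.x1 = z.y1 := by
  simp only [Hole.x1, Hole.y1, Hole.tr]; omega

private theorem CSym_tr2 (z : Hole) : z.tr.x2 = z.y2 := by
  simp only [Hole.x2, Hole.y2, Hole.tr]; omega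

private theorem CSym_tr3 (z : Hole) : z.tr.y1 = z.x1 := by
  simp only [Hole.x1, Hole.y1, Hole.tr]; omega

private theorem CSym_tr4 (z : Hole) : z.tr.y2 = z.x2 := by
  simp only [Hole.x2, Hole.y2, Hole.tr]; omega

private theorem CSym_fx1 (z : Hole) : z.fx.x1 = -z.x2 := by
  simp only [Hole.x1, Hole.x2, Hole.fx]; omega

private theorem CSym_fx2 (z : Hole) : z.fx.x2 = -z.x1 := by
  simp only [Hole.x1, Hole.x2, Hole.fx]; omega

private theorem CSym_fx3 (z : Hole) : z.fx.y1 = z.y1 := by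
  simp only [Hole.y1, Hole.fx]; omega

private theorem CSym_fx4 (z : Hole) : z.fx.y2 = z.y2 := by
  simp only [Hole.y2, Hole.fx]; omega

theorem pCTr : StCTr := by
  intro D hD
  refine ⟨pOkTr D hD.ok, ?_, ?_⟩
  · intro z hz x hx h1 h2 h3 h4
    obtain ⟨w, hw, rfl⟩ := Finset.mem_image.1 hz
    rw [CSym_tr1] at h1
    rw [CSym_tr2] at h2
    rw [CSym_tr4] at h3
    rw [CSym_tr3] at h4
    exact hD.cH w hw x hx h1 h2 h3 h4
  · intro z hz y hy h1 h2 h3 h4
    obtain ⟨w, hw, rfl⟩ := Finset.mem_image.1 hz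
    rw [CSym_tr3] at h1
    rw [CSym_tr4] at h2
    rw [CSym_tr2] at h3
    rw [CSym_tr1] at h4
    exact hD.cV w hw y hy h1 h2 h3 h4

theorem pCFx : StCFx := by
  intro D hD
  refine ⟨pOkFx D hD.ok, ?_, ?_⟩
  · intro z hz x hx h1 h2 h3 h4
    obtain ⟨w, hw, rfl⟩ := Finset.mem_image.1 hz
    obtain ⟨u, hu, rfl⟩ := Finset.mem_image.1 hx
    rw [CSym_fx1] at h1
    rw [CSym_fx2] at h2
    rw [CSym_fx4] at h3
    rw [CSym_fx3] at h4
    change D.vlo (- -u) ≤ w.y2 at h3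
    change w.y1 ≤ D.vhi (- -u) at h4
    rw [neg_neg] at h3 h4
    exact hD.cV w hw u hu (by omega) (by omega) h3 h4
  · intro z hz y hy h1 h2 h3 h4
    obtain ⟨w, hw, rfl⟩ := Finset.mem_image.1 hz
    rw [CSym_fx3] at h1
    rw [CSym_fx4] at h2
    rw [CSym_fx2] at h3
    rw [CSym_fx1] at h4
    change -D.hhi y ≤ -w.x1 at h3
    change -w.x2 ≤ -D.hlo y at h4
    exact hD.cH w hw y hy h1 h2 (by omega) (by omega)

private theorem CSym_fy_eq (D : Cfg) : D.fy = D.tr.fx.tr := by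
  simp only [Cfg.fy, Cfg.tr, Cfg.fx, Finset.image_image]
  rfl

theorem pCFy : StCFy := by
  intro D hD
  rw [CSym_fy_eq]
  exact pCTr _ (pCFx _ (pCTr _ hD))

end Pool.RC
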