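import Pool.Agent.RC.St3
import Pool.Agent.RC.M_CSym
import Pool.Agent.RC.M_Eq
import Pool.Agent.RC.M_UpA
import Pool.Agent.RC.M_I7
import Pool.Agent.RB.M_HB
import Pool.Agent.RB.M_HU
import Pool.Agent.RB.M_FE

/-! # Project RC, module CLs: the closed side lemma -/

set_option autoImplicit false

namespace Pool.RC

open Pool.RB

private theorem CLs_face_fx {D : Cfg} {f : Box} (h : IsFace D f) : IsFace D.fx f.fx := by
  refine ⟨⟨neg_lt_neg h.nd.1, h.nd.2⟩, neg_le_neg h.ix2, neg_le_neg h.ix1, h.iy1, h.iy2, ?_, ?_,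
    ?_, ?_, ?_, ?_⟩
  · rcases h.right with h1 | ⟨h1, h2, h3⟩
    · left
      show -f.x2 = -D.X1
      rw [h1]
    · right
      refine ⟨Finset.mem_image.2 ⟨f.x2, h1, rfl⟩, ?_, ?_⟩
      · show D.vlo (- -f.x2) ≤ f.y1
        rw [neg_neg]; exact h2
      · show f.y2 ≤ D.vhi (- -f.x2)
        rw [neg_neg]; exact h3
  · rcases h.left with h1 | ⟨h1, h2, h3⟩
    · left
      show -f.x1 = -D.X0
      rw [h1]
    · right
      refine ⟨Finset.mem_image.2 ⟨f.x1, h1, rfl⟩, ?_, ?_⟩
      · show D.vlo (- -f.x1) ≤ f.y1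
        rw [neg_neg]; exact h2
      · show f.y2 ≤ D.vhi (- -f.x1)
        rw [neg_neg]; exact h3
  · rcases h.bot with h1 | ⟨h1, h2, h3⟩
    · exact Or.inl h1
    · exact Or.inr ⟨h1, neg_le_neg h3, neg_le_neg h2⟩
  · rcases h.top with h1 | ⟨h1, h2, h3⟩
    · exact Or.inl h1
    · exact Or.inr ⟨h1, neg_le_neg h3, neg_le_neg h2⟩
  · intro x hx h1 h2 h3 h4
    obtain ⟨x', hx', rfl⟩ := Finset.mem_image.1 hx
    have h3' : D.vlo (- -x') < f.y2 := h3
    have h4' : f.y1 < D.vhi (- -x') := h4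
    rw [neg_neg] at h3' h4'
    exact h.noV x' hx' (neg_lt_neg_iff.1 h2) (neg_lt_neg_iff.1 h1) h3' h4'
  · intro y hy h1 h2 h3 h4
    exact h.noH y hy h1 h2 (neg_lt_neg_iff.1 h4) (neg_lt_neg_iff.1 h3)

/-- the first version -/
private theorem CLs_left (hStr : StStr) (D : Cfg) (q : ℤ) (w : Hole) (f : Box) (hD : OkC D) (hE : EC D q w)
    (hf : IsFace D f) (hq1 : f.y1 ≤ q) (hq2 : q < f.y2) (hev : eV (upA D q) w.xD = 0) (hfx1 : f.x1 = D.X0)
    (hfx2 : f.x2 = w.xD) :
    D.hlo w.yL = D.X0 ∧ w.xD ≤ D.hhi w.yL ∧ w.yL ∈ (lfA (upA D q) w.xD).H ∧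
    (1 ≤ gn (lfA (upA D q) w.xD) w.yL ∨ WL (upA D q) = 1) := by
  have hHU := pHU pHB
  have hw := hE.hw
  have hb := pHB D hD.ok w hw
  have ho := hD.ok.z w hw
  obtain ⟨hqH0, hqH1, -⟩ := hD.ok.h q hE.hp
  have hUP : OkC (upA D q) := pUpA D q hD hqH0 hqH1
  have hwUP : w ∈ (upA D q).Z := Finset.mem_filter.2 ⟨hw, hE.hlt⟩
  obtain ⟨hvX0, hvX1, -⟩ := hD.ok.v w.xD ho.hD
  have hvlo := hE.hlo
  have hlt := hE.hlt
  have b1 := hb.x12
  have b2 := hb.y12
  have b3 := hb.X0lt
  have b4 := hb.ltX1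
  have b5 := hb.Y0lt
  have b6 := hb.ltY1
  have hyL1 : w.y1 ≤ w.yL := min_le_left _ _
  -- the top side of the face
  have hfy : f.y2 ≤ w.y2 := by
    rcases hf.right with h | ⟨h1, h2, h3⟩
    · rw [hfx2] at h; omega
    · rw [hfx2, ho.eD] at h3; exact h3
  have hfH : f.y2 ∈ D.H ∧ D.hlo f.y2 = D.X0 ∧ w.xD ≤ D.hhi f.y2 := by
    rcases hf.top with h | ⟨h1, h2, h3⟩
    · omega
    · rw [hfx1] at h2
      rw [hfx2] at h3
      have := (hD.ok.h f.y2 h1).2.2.1
      exact ⟨h1, by omega, h3⟩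
  obtain ⟨hfH1, hfH2, hfH3⟩ := hfH
  have hfyL : f.y2 = w.yL := by
    rcases eq_or_lt_of_le hfH3 with h | h
    · have hcard : (eLf (upA D q) w.xD).card = 0 := by
        unfold eV at hev
        omega
      rw [Finset.card_eq_zero, Finset.eq_empty_iff_forall_notMem] at hcard
      have hn := hcard f.y2
      by_contra hcon
      apply hn
      refine Finset.mem_filter.2 ⟨Finset.mem_filter.2 ⟨hfH1, hq2⟩, h.symm, ?_⟩
      intro z hz hzy
      obtain ⟨hzD, hz1⟩ := Finset.mem_filter.1 hz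
      have e := (hD.ok.z z hzD).eL
      rw [hzy, ← h] at e
      have e' : w.xD = max z.xU z.xD := e
      rcases max_choice z.xU z.xD with h' | h'
      · have h8 : z.xU = w.xD := by rw [e', h']
        have e2 := (hD.ok.z z hzD).eU
        rw [h8] at e2
        omega
      · have hzw : z = w := (hHU D hD.ok z hzD w hw).2.2.2 (by rw [e', h'])
        apply hcon
        rw [← hzy, hzw]
    · have h1 : ¬ f.y2 < w.y2 := by
        intro h2
        exact hD.ok.nc w.xD ho.hD f.y2 hfH1 (by omega) (by rw [ho.eD]; exact h2) (by omega) h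
      have h3 : f.y2 = max w.yL w.yR := le_antisymm hfy (not_lt.1 h1)
      rcases max_choice w.yL w.yR with h' | h'
      · rw [h3, h']
      · rw [h'] at h3
        rw [h3, ho.eR] at hfH2
        omega
  rw [hfyL] at hfH1 hfH2 hfH3 hq2 hfy
  have hyLUP : w.yL ∈ (upA D q).H := Finset.mem_filter.2 ⟨hfH1, hq2⟩
  have hyLL : w.yL ∈ (lfA (upA D q) w.xD).H := by
    refine Finset.mem_filter.2 ⟨hyLUP, ?_, ?_⟩
    · show D.hlo w.yL < w.xD
      omega
    · intro z hz _ _ h3
      obtain ⟨hzD, -⟩ := Finset.mem_filter.1 hz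
      have e := (hD.ok.z z hzD).eR
      have := (pHB D hD.ok z hzD).X0lt
      rw [h3] at e
      omega
  refine ⟨hfH2, hfH3, hyLL, ?_⟩
  have hgn : (eUp (lfA (upA D q) w.xD) w.yL).Nonempty → 1 ≤ gn (lfA (upA D q) w.xD) w.yL := by
    intro h
    have := Finset.card_pos.2 h
    unfold gn
    omega
  rcases ho.chir with ⟨hA1, hA2⟩ | ⟨hB1, hB2⟩
  · left
    apply hgn
    have hy1 : w.y1 = w.yL := min_eq_left hA1.le
    refine ⟨w.xU, Finset.mem_filter.2 ⟨Finset.mem_filter.2 ⟨(hUP.ok.z w hwUP).hU, hA2⟩, ?_, ?_⟩⟩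
    · show (upA D q).vlo w.xU = w.yL
      rw [(hUP.ok.z w hwUP).eU, hy1]
    · intro z hz hzx
      obtain ⟨hzUP, hz2⟩ := Finset.mem_filter.1 hz
      have hzw : z = w := (hHU (upA D q) hUP.ok z hzUP w hwUP).2.2.1 hzx
      rw [hzw] at hz2
      have : w.xD ≤ w.x2 := le_max_right _ _
      omega
  · by_cases hne : (eUp (lfA (upA D q) w.xD) w.yL).Nonempty
    · exact Or.inl (hgn hne)
    right
    rw [Finset.not_nonempty_iff_eq_empty, Finset.eq_empty_iff_forall_notMem] at hne
    have hx1 : w.x1 = w.xD := min_eq_right hB2.le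
    have hx2 : w.x2 = w.xU := max_eq_left hB2.le
    have hy1 : w.y1 = w.yR := min_eq_right hB1.le
    have hy2 : w.y2 = w.yL := max_eq_left hB1.le
    have hiy := hD.ok.h w.yL hfH1
    obtain ⟨G, hG, g1, g2, g3, g4⟩ := pFE D D.X0 w.yL hD.ok le_rfl (by omega) (by omega) (by omega)
    have hGx1 : G.x1 = D.X0 := le_antisymm g1 hG.ix1
    have hGy1 : G.y1 = w.yL := by
      by_contra hcon
      exact hG.noH w.yL hfH1 (by omega) (by omega) (by omega) (by omega)
    have heL := ho.eL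
    have hGx2le : G.x2 ≤ w.xU := by
      by_contra hcon
      refine hG.noV w.xU ho.hU (by omega) (by omega) ?_ ?_
      · rw [ho.eU]; omega
      · rw [hE.hU]; omega
    have hGx2 : G.x2 = w.xU := by
      by_contra hcon
      rcases hG.right with h | ⟨h1, h2, h3⟩
      · omega
      have hvl : D.vlo G.x2 = w.yL := by
        by_contra hcon2
        exact hD.ok.nc G.x2 h1 w.yL hfH1 (by omega) (by omega) (by omega) (by omega)
      rcases lt_trichotomy G.x2 w.xD with h | h | h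
      · apply hne G.x2
        refine Finset.mem_filter.2 ⟨Finset.mem_filter.2 ⟨Finset.mem_filter.2 ⟨h1, by omega, ?_⟩, h⟩, ?_, ?_⟩
        · intro z hz hz1 _ hz3
          have := (pHB D hD.ok z hz).loD
          rw [hz3] at this
          omega
        · show max (D.vlo G.x2) q = w.yL
          rw [hvl]
          exact max_eq_left hq2.le
        · intro z hz hzx
          obtain ⟨hzUP, -⟩ := Finset.mem_filter.1 hz
          obtain ⟨hzD, -⟩ := Finset.mem_filter.1 hzUP
          have e := (hD.ok.z z hzD).eU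
          rw [hzx, hvl] at e
          have e' : w.yL = min z.yL z.yR := e
          rcases min_choice z.yL z.yR with h' | h'
          · have hzw : z = w := (hHU D hD.ok z hzD w hw).1 (by rw [e', h'])
            rw [hzw] at e
            omega
          · have e2 := (hD.ok.z z hzD).eR
            have := (pHB D hD.ok z hzD).X0lt
            rw [← h', ← e'] at e2
            omega
      · have e := ho.eD
        rw [← h] at e
        omega
      · exact hD.cV w hw G.x2 h1 (by omega) (by omega) (by omega) (by omega)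
    have hGy2 : G.y2 = D.Y1 := by
      rcases hG.top with h | ⟨h1, h2, h3⟩
      · exact h
      · exact (hStr D w hD hw hE.hU hE.ic G.y2 h1 (by omega) (by omega) (by omega)).elim
    have hset : (upA D q).H.filter (fun y => (upA D q).hlo y = (upA D q).X0) = {w.yL} := by
      ext y
      rw [Finset.mem_filter, Finset.mem_singleton]
      constructor
      · rintro ⟨h1, h2⟩
        obtain ⟨h3, h4⟩ := Finset.mem_filter.1 h1
        have h2' : D.hlo y = D.X0 := h2
        have h5 := hD.ok.h y h3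
        have hfn := hf.nd.1
        rcases lt_trichotomy y w.yL with h | h | h
        · exact (hf.noH y h3 (by omega) (by omega) (by omega) (by omega)).elim
        · exact h
        · exact (hG.noH y h3 (by omega) (by omega) (by omega) (by omega)).elim
      · rintro rfl
        exact ⟨hyLUP, hfH2⟩
    unfold WL
    rw [hset, Finset.card_singleton]

theorem pCLs (hSit : StSit) (hStr : StStr) (hOwn : StOwn) (hTe : StTe) : StCLs := by
  intro D q w f hD hE hf hq1 hq2 hev
  refine ⟨fun h1 h2 => CLs_left hStr D q w f hD hE hf hq1 hq2 hev h1 h2, fun h1 h2 => ?_⟩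
  have hEC : EC D.fx q w.fx := ((hSit.2.2.1 D q w).2.2.2.2).2 hE
  have e1 : upA D.fx q = (upA D q).fx := ((pEq.2.2.1 D q).1).symm
  have hxD : w.fx.xD = -w.xD := rfl
  have e2 : lfA (upA D.fx q) w.fx.xD = (rtA (upA D q) w.xD).fx := by
    rw [e1, hxD]
    exact ((pEq.2.2.1 (upA D q) w.xD).2.2.1).symm
  have hev' : eV (upA D.fx q) w.fx.xD = 0 := by
    rw [e1, hxD, (hSit.2.2.2 (upA D q) w.xD).2.2.1]
    exact hev
  have hA := CLs_left hStr D.fx q w.fx f.fx (pCFx D hD) hEC (CLs_face_fx hf) hq1 hq2 hev'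
    (by show -f.x2 = -D.X1; rw [h2]) (by show -f.x1 = -w.xD; rw [h1])
  rw [e2, e1] at hA
  obtain ⟨a1, a2, a3, a4⟩ := hA
  have a1' : -D.hhi w.yR = -D.X1 := a1
  have a2' : -w.xD ≤ -D.hlo w.yR := a2
  refine ⟨by omega, by omega, a3, ?_⟩
  rcases a4 with h | h
  · left
    have h' : 1 ≤ gn (rtA (upA D q) w.xD).fx w.yR := h
    rw [(hSit.2.2.2 (rtA (upA D q) w.xD) w.yR).2.2.2] at h'
    exact h'
  · right
    rw [(pI7.1 (upA D q)).2.2.1] at h
    exact h

end Pool.RC
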