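import Pool.Agent.RC.Main1
import Pool.Agent.RC.Defs2

/-! Module CV of project RC: the vertical form of the cut lemma. -/

set_option autoImplicit false

namespace Pool.RC

open Pool.RB

private theorem CV_U (E : Cfg) : U E.tr = U E := by
  obtain ⟨h1, h2, h3, h4, -, -, h7⟩ := qI6.1 E
  have hs : E.tr.sz = E.sz := by
    unfold Cfg.sz
    simp only [Cfg.tr]
    omega
  unfold U
  rw [hs, h1, h2, h3, h4, h7]
  ring

private theorem CV_Sol (E : Cfg) (n : ℤ) : SolZ E.tr n ↔ SolZ E n := (qSolSym E _).1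

theorem pCV (hCH : StCH) : StCV := by
  intro D x a b hD hx h1 h2
  have e1 : upA D.tr x = (rtA D x).tr := ((qEq.2.1 D x).2.2.1).symm
  have e2 : dnA D.tr x = (lfA D x).tr := ((qEq.2.1 D x).2.2.2).symm
  have h := hCH D.tr x b a (qCTr D hD) hx
    (by rw [e1, CV_U]; exact (CV_Sol _ _).2 h2) (by rw [e2, CV_U]; exact (CV_Sol _ _).2 h1)
  have e3 : eH D.tr x = eV D x := by
    obtain ⟨-, -, -, -, -, -, -, -, i1, i2, -, -⟩ := qI6.2 D x
    unfold eH eV
    rw [i1, i2]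
  have e4 : wH D.tr x = wV D x := (qI6.2 D x).2.2.2.2.2.2.1
  rw [CV_U, e3, e4, CV_Sol] at h
  have e5 : U D + b + a - 5 - 4 * (eV D x : ℤ) + 4 * (wV D x : ℤ) =
      U D + a + b - 5 - 4 * (eV D x : ℤ) + 4 * (wV D x : ℤ) := by ring
  rwa [e5] at h

end Pool.RC
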