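import Pool.Agent.RC.St3
import Pool.Agent.RC.Main1

/-! # Project RC, module Cl: climbing along a vertical piece -/

namespace Pool.RC

open Pool.RB

private theorem Cl_left (D : Cfg) (v α β : ℤ) (hD : Ok D) (hv : v ∈ D.V) (hα : α ∈ D.H)
    (h1 : D.vlo v ≤ α) (h2 : β ≤ D.vhi v) (h3 : D.hlo α = D.X0) (h4 : v ≤ D.hhi α)
    (h5 : ∀ x ∈ D.V, x < v → D.vlo x ≠ α)
    (h6 : ∀ c ∈ D.H, α < c → c < β → D.hlo c = D.X0 → D.hhi c = v → ∀ x ∈ D.V, x < v → D.vlo x ≠ c) :
    ∀ n : ℕ, ∀ x ∈ D.V, x < v → D.vlo x < β → α < D.vhi x → D.vlo x - α < (n : ℤ) → False := by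
  intro n
  induction n with
  | zero =>
    intro x hx hxv hxb hxa hn
    have hvx := hD.v x hx
    exact hD.nc x hx α hα (by push_cast at hn; omega) hxa (by omega) (by omega)
  | succ n ih =>
    intro x hx hxv hxb hxa hn
    have hvx := hD.v x hx
    have hha := hD.h α hα
    have hvv := hD.v v hv
    push_cast at hn
    have a1 : α ≤ D.vlo x := by
      by_contra hc
      exact hD.nc x hx α hα (by omega) hxa (by omega) (by omega)
    have a2 := h5 x hx hxv
    rcases hD.vlo_end x hx with h | ⟨hy, hy1, hy2⟩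
    · omega
    rcases hD.hlo_end _ hy with h | ⟨hq, hq1, hq2⟩
    · have a3 : D.hhi (D.vlo x) ≤ v := by
        by_contra hc
        exact hD.nc v hv _ hy (by omega) (by omega) (by omega) (by omega)
      rcases lt_or_eq_of_le a3 with a4 | a4
      · rcases hD.hhi_end _ hy with h7 | ⟨hq, hq1, hq2⟩
        · omega
        · exact ih _ hq a4 (by omega) (by omega) (by omega)
      · exact h6 _ hy (by omega) hxb h a4 x hx hxv rfl
    · exact ih _ hq (by omega) (by omega) (by omega) (by omega)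

private theorem Cl_right (D : Cfg) (v α β : ℤ) (hD : Ok D) (hv : v ∈ D.V) (hα : α ∈ D.H)
    (h1 : D.vlo v ≤ α) (h2 : β ≤ D.vhi v) (h3 : D.hhi α = D.X1) (h4 : D.hlo α ≤ v)
    (h5 : ∀ x ∈ D.V, v < x → D.vlo x ≠ α)
    (h6 : ∀ c ∈ D.H, α < c → c < β → D.hhi c = D.X1 → D.hlo c = v → ∀ x ∈ D.V, v < x → D.vlo x ≠ c) :
    ∀ n : ℕ, ∀ x ∈ D.V, v < x → D.vlo x < β → α < D.vhi x → D.vlo x - α < (n : ℤ) → False := by
  intro n
  induction n with
  | zero =>
    intro x hx hxv hxb hxa hn
    have hvx := hD.v x hx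
    exact hD.nc x hx α hα (by push_cast at hn; omega) hxa (by omega) (by omega)
  | succ n ih =>
    intro x hx hxv hxb hxa hn
    have hvx := hD.v x hx
    have hha := hD.h α hα
    have hvv := hD.v v hv
    push_cast at hn
    have a1 : α ≤ D.vlo x := by
      by_contra hc
      exact hD.nc x hx α hα (by omega) hxa (by omega) (by omega)
    have a2 := h5 x hx hxv
    rcases hD.vlo_end x hx with h | ⟨hy, hy1, hy2⟩
    · omega
    rcases hD.hhi_end _ hy with h | ⟨hq, hq1, hq2⟩
    · have a3 : v ≤ D.hlo (D.vlo x) := by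
        by_contra hc
        exact hD.nc v hv _ hy (by omega) (by omega) (by omega) (by omega)
      rcases lt_or_eq_of_le a3 with a4 | a4
      · rcases hD.hlo_end _ hy with h7 | ⟨hq, hq1, hq2⟩
        · omega
        · exact ih _ hq a4 (by omega) (by omega) (by omega)
      · exact h6 _ hy (by omega) hxb h a4.symm x hx hxv rfl
    · exact ih _ hq (by omega) (by omega) (by omega) (by omega)

theorem pCl : StCl := by
  intro D v α β hD hv hα h1 h2
  refine ⟨?_, ?_⟩
  · intro h3 h4 h5 h6 x hx hxv hxb hxa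
    exact Cl_left D v α β hD.ok hv hα h1 h2 h3 h4 h5 h6 ((D.vlo x - α).toNat + 1) x hx hxv hxb hxa
      (by push_cast; omega)
  · intro h3 h4 h5 h6 x hx hxv hxb hxa
    exact Cl_right D v α β hD.ok hv hα h1 h2 h3 h4 h5 h6 ((D.vlo x - α).toNat + 1) x hx hxv hxb hxa
      (by push_cast; omega)

end Pool.RC
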