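import Pool.Agent.RC.Main1

/-!
# Project RC, module Cnt (StCnt)
-/

namespace Pool.RC

open Pool.RB

theorem pCnt (hW : StW) (hIC : StIC) (hUpE : StUpE) : StCnt := by
  classical
  intro D p w hD hE
  obtain ⟨hOk', hwZ, hvV, hic, hVC, -, -, -, hX0, hX1, hY0, hY1⟩ := hUpE D p w hD hE
  have hf : fV (upA D p) = 0 := by
    unfold fV
    rw [Finset.card_eq_zero, Finset.filter_eq_empty_iff]
    rintro x hx ⟨h1, h2⟩
    have hxV : x ∈ D.V := (Finset.mem_filter.1 hx).1
    have h3 : p < D.vlo x := hE.hT x hxV h2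
    have h4 : max (D.vlo x) p = p := h1
    have h5 : D.vlo x ≤ p := max_eq_right_iff.1 h4
    omega
  have hW' := (hW (upA D p) w.xD hOk' hvV).2.2.2.2.2.2
  rw [hf] at hW'
  have hfL : fV (lfA (upA D p) w.xD) = 0 := by omega
  have hfR : fV (rtA (upA D p) w.xD) = 0 := by omega
  refine ⟨hf, hfL, hfR, ?_⟩
  -- the three disjoint sets
  set A := (lfA (upA D p) w.xD).Z.filter
    (fun z => VC (lfA (upA D p) w.xD) z ∧ icU (lfA (upA D p) w.xD) z) with hA
  set B := (rtA (upA D p) w.xD).Z.filter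
    (fun z => VC (rtA (upA D p) w.xD) z ∧ icU (rtA (upA D p) w.xD) z) with hB
  have eA : uV (lfA (upA D p) w.xD) = A.card := by
    unfold uV; rw [hA]
  have eB : uV (rtA (upA D p) w.xD) = B.card := by
    unfold uV; rw [hB]
  have memQ : ∀ z : Hole, z ∈ QQ D p ↔
      z ∈ D.Z ∧ (p < z.y1 ∧ D.vhi z.xU = D.Y1 ∧ icU D z ∧ D.vlo z.xD ≤ p) := by
    intro z
    unfold QQ
    exact Finset.mem_filter
  have hAQ : ∀ z ∈ A, z ∈ QQ D p ∧ z.x2 < w.xD := by
    intro z hz
    obtain ⟨h1, h2, h3⟩ := Finset.mem_filter.1 hz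
    obtain ⟨h4, h5⟩ := Finset.mem_filter.1 (show z ∈ (upA D p).Z.filter (fun z => z.x2 < w.xD) from h1)
    obtain ⟨h6, h7⟩ := Finset.mem_filter.1 (show z ∈ D.Z.filter (fun z => p < z.y1) from h4)
    have h8 : icU (upA D p) z := (hIC (upA D p) z w.xD hOk' h4).2.2.1 h5 hX1 h3
    have h9 : icU D z := ((hIC D z p hD h6).1 hY0 h7).1 h8
    have h10 : max (D.vlo z.xD) p = p := h2.1
    have h11 : D.vhi z.xU = D.Y1 := h2.2
    exact ⟨(memQ z).2 ⟨h6, h7, h11, h9, max_eq_right_iff.1 h10⟩, h5⟩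
  have hBQ : ∀ z ∈ B, z ∈ QQ D p ∧ w.xD < z.x1 := by
    intro z hz
    obtain ⟨h1, h2, h3⟩ := Finset.mem_filter.1 hz
    obtain ⟨h4, h5⟩ := Finset.mem_filter.1 (show z ∈ (upA D p).Z.filter (fun z => w.xD < z.x1) from h1)
    obtain ⟨h6, h7⟩ := Finset.mem_filter.1 (show z ∈ D.Z.filter (fun z => p < z.y1) from h4)
    have h8 : icU (upA D p) z := (hIC (upA D p) z w.xD hOk' h4).2.2.2 hX0 h5 h3
    have h9 : icU D z := ((hIC D z p hD h6).1 hY0 h7).1 h8
    have h10 : max (D.vlo z.xD) p = p := h2.1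
    have h11 : D.vhi z.xU = D.Y1 := h2.2
    exact ⟨(memQ z).2 ⟨h6, h7, h11, h9, max_eq_right_iff.1 h10⟩, h5⟩
  have hwQ : w ∈ QQ D p := (memQ w).2 ⟨hE.hw, hE.hlt, hE.hU, hE.ic, hE.hlo⟩
  have x12 : ∀ z : Hole, z.x1 ≤ z.x2 := fun z => le_trans (min_le_left _ _) (le_max_left _ _)
  have hdis : Disjoint A B := by
    rw [Finset.disjoint_left]
    intro z h1 h2
    have h3 := (hAQ z h1).2
    have h4 := (hBQ z h2).2
    have h5 := x12 z
    omega
  have hwAB : w ∉ A ∪ B := by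
    intro h
    rcases Finset.mem_union.1 h with h | h
    · have h1 := (hAQ w h).2
      have h2 : w.xD ≤ w.x2 := le_max_right _ _
      omega
    · have h1 := (hBQ w h).2
      have h2 : w.x1 ≤ w.xD := min_le_right _ _
      omega
  have hsub : insert w (A ∪ B) ⊆ QQ D p := by
    intro z hz
    rcases Finset.mem_insert.1 hz with h | h
    · rw [h]; exact hwQ
    · rcases Finset.mem_union.1 h with h | h
      · exact (hAQ z h).1
      · exact (hBQ z h).1
  have hc := Finset.card_le_card hsub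
  rw [Finset.card_insert_of_notMem hwAB, Finset.card_union_of_disjoint hdis] at hc
  rw [eA, eB]
  exact hc

end Pool.RC
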