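import Pool.Agent.RC.St2
import Pool.Agent.RB.Main

/-!
# Project RC, module CntU: counts for the part above a line
-/

namespace Pool.RC

open Pool.RB

theorem pCntU (hIC : StIC) : StCntU := by
  intro D p hD hp
  have hpY := hD.ok.h p hp
  refine ⟨?_, ?_, ?_⟩
  · unfold uV
    apply Finset.card_le_card
    intro z hz
    simp only [Finset.mem_filter] at hz
    obtain ⟨hzZ, hVC, hic⟩ := hz
    have hz1 : z ∈ D.Z ∧ p < z.y1 := by
      simpa [upA] using hzZ
    have h1 : max (D.vlo z.xD) p = p := hVC.1
    have h2 : D.vhi z.xU = D.Y1 := hVC.2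
    have h3 : icU D z := (((hIC D z p hD hz1.1).1) hpY.1 hz1.2).1 hic
    have h4 : D.vlo z.xD ≤ p := by
      rw [← h1]; exact le_max_left _ _
    simp only [QQ, Finset.mem_filter]
    exact ⟨hz1.1, hz1.2, h2, h3, h4⟩
  · intro hT
    unfold fV
    rw [Finset.card_eq_zero, Finset.filter_eq_empty_iff]
    intro x hx
    have hxV : x ∈ D.V := by
      simp only [upA, Finset.mem_filter] at hx
      exact hx.1
    rintro ⟨h1, h2⟩
    have h1' : max (D.vlo x) p = p := h1
    have h2' : D.vhi x = D.Y1 := h2
    have h3 : D.vlo x ≤ p := by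
      rw [← h1']; exact le_max_left _ _
    have h4 := hT x hxV h2'
    omega
  · intro hT
    unfold fV
    congr 1
    ext x
    simp only [Tg, Finset.mem_filter]
    constructor
    · rintro ⟨hx, h1, h2⟩
      have hxV : x ∈ D.V := by
        simp only [upA, Finset.mem_filter] at hx
        exact hx.1
      have h1' : max (D.vlo x) p = p := h1
      have h2' : D.vhi x = D.Y1 := h2
      have h3 : D.vlo x ≤ p := by
        rw [← h1']; exact le_max_left _ _
      have h4 := hT x hxV h2'
      exact ⟨hxV, h2', le_antisymm h3 h4⟩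
    · rintro ⟨hxV, h2, h3⟩
      refine ⟨?_, ?_, ?_⟩
      · simp only [upA, Finset.mem_filter]
        refine ⟨hxV, ?_, ?_⟩
        · rw [h2]; exact hpY.2.1
        · intro z hz _ _ hzx
          have hb := Pool.RB.qHB D hD.ok z hz
          have e := (hD.ok.z z hz).eD
          rw [hzx, h2] at e
          have := hb.ltY1
          omega
      · show max (D.vlo x) p = p
        rw [h3]; exact max_self p
      · exact h2

end Pool.RC
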