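import Pool.Agent.RC.St3
import Pool.Agent.RC.Main1

/-!
# Project RC (MP_c6e2b4_co), module Corn: the two bottom faces
-/

set_option autoImplicit false

namespace Pool.RC

open Pool.RB

theorem pCorn : StCorn := by
  intro D v hD hv hlo hhi honly
  obtain ⟨v1, v2, v3, v4, v5⟩ := hD.ok.v v hv
  have hY := hD.ok.hY
  constructor
  · obtain ⟨f, hf, a1, a2, a3, a4⟩ := qFE D D.X0 D.Y0 hD.ok le_rfl (by omega) le_rfl (by omega)
    have e1 : f.x1 = D.X0 := le_antisymm a1 hf.ix1
    have e3 : f.y1 = D.Y0 := le_antisymm a3 hf.iy1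
    have e2 : f.x2 = v := by
      rcases hf.right with h | ⟨h, h', -⟩
      · exact (hf.noV v hv (by omega) (by omega) (by omega) (by omega)).elim
      · have h3 := (hD.ok.v _ h).2.2.1
        exact honly _ h (by omega)
    have e5 : f.y2 ≤ D.vhi v := by
      rcases hf.right with h | ⟨-, -, h⟩
      · omega
      · rwa [e2] at h
    rcases hf.top with h | ⟨h, h', h''⟩
    · exact (hhi (by omega)).elim
    · have h4 := (hD.ok.h _ h).2.2.1
      refine ⟨f.y2, h, by omega, by omega, e5, ?_⟩
      have hfe : f = ⟨D.X0, v, D.Y0, f.y2⟩ := by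
        rw [← e1, ← e2, ← e3]
      rw [← hfe]
      exact hf
  · obtain ⟨f, hf, a1, a2, a3, a4⟩ := qFE D (D.X1 - 1) D.Y0 hD.ok (by omega) (by omega) le_rfl (by omega)
    have e1 : f.x2 = D.X1 := le_antisymm hf.ix2 (by omega)
    have e3 : f.y1 = D.Y0 := le_antisymm a3 hf.iy1
    have e2 : f.x1 = v := by
      rcases hf.left with h | ⟨h, h', -⟩
      · exact (hf.noV v hv (by omega) (by omega) (by omega) (by omega)).elim
      · have h3 := (hD.ok.v _ h).2.2.1
        exact honly _ h (by omega)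
    have e5 : f.y2 ≤ D.vhi v := by
      rcases hf.left with h | ⟨-, -, h⟩
      · omega
      · rwa [e2] at h
    rcases hf.top with h | ⟨h, h', h''⟩
    · exact (hhi (by omega)).elim
    · have h4 := (hD.ok.h _ h).2.2.2.2
      refine ⟨f.y2, h, by omega, by omega, e5, ?_⟩
      have hfe : f = ⟨v, D.X1, D.Y0, f.y2⟩ := by
        rw [← e1, ← e2, ← e3]
      rw [← hfe]
      exact hf

end Pool.RC
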