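import Pool.Agent.RC.M_I4
import Pool.Agent.RC.St2

/-! Project RC, module DnK. -/

namespace Pool.RC

open Pool.RB

theorem pDnK (hIC : StIC) : StDnK := by
  classical
  intro s D c ok hc
  obtain ⟨_, h2, _, _, h5⟩ := pI4 D c ok hc
  have hY1 : c < D.Y1 := (ok.ok.h c hc).2.1
  have hu : uH s (dnA D c) ≤ LIb s D c := by
    unfold uH LIb
    apply Finset.card_le_card
    intro z hz
    rw [Finset.mem_filter] at hz ⊢
    obtain ⟨hz1, hz2⟩ := hz
    have hz3 : z ∈ D.Z ∧ z.y2 < c := by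
      have : z ∈ D.Z.filter (fun z => z.y2 < c) := hz1
      exact Finset.mem_filter.mp this
    exact ⟨hz3.1, hz3.2, (hIC D z c ok hz3.1).2.1 s hz3.2 hY1 hz2⟩
  have hf : fH (dnA D c) ≤ fH D := by omega
  unfold KB
  have h2' : (WB (dnA D c) : ℤ) = WB D := by exact_mod_cast h2
  have hf' : (fH (dnA D c) : ℤ) ≤ fH D := by exact_mod_cast hf
  have hu' : (uH s (dnA D c) : ℤ) ≤ LIb s D c := by exact_mod_cast hu
  linarith

end Pool.RC
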