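import Pool.Agent.RC.St3
import Pool.Agent.RC.Main1
import Pool.Agent.RB.M_HB

/-! # Project RC, module E2: holes touched by `g` with top attached up arm which are not elements -/

set_option autoImplicit false

namespace Pool.RC

open Pool.RB

theorem pE2 (hOwn : StOwn) (hTe : StTe) : StE2 := by
  intro s D g x hS hx hy1 hU hEL
  by_cases hLI : LI s D x
  · exact Or.inl hLI
  refine Or.inr ?_
  have hB := pHB D hS.ok.ok x hx
  have hO := hS.ok.ok.z x hx
  have hxV := hO.hU
  have hv := hS.ok.ok.v x.xU hxV
  have hic : ¬ icU D x := by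
    intro hic
    refine hEL ?_
    classical
    simp only [EL, Finset.mem_filter]
    refine ⟨hx, hU, hic, hLI, ?_⟩
    have := hB.loD
    omega
  have hown := hOwn D g x hS.ok hx (le_of_eq hy1) (by have := hB.y12; omega)
  have hte := (hTe D x.xU g hS.ok hxV).2.2
  have hlo : D.vlo x.xU = g := by rw [hO.eU, hy1]
  constructor
  · intro hA
    have hAx : x.xU < x.xD := by rcases hO.chir with h | h <;> omega
    have hne : eRt D x.xU ≠ ∅ := by
      intro h
      exact hic ⟨fun _ => h, fun h' => absurd h' (by omega)⟩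
    obtain ⟨y, hy⟩ := Finset.nonempty_iff_ne_empty.2 hne
    have hy' := hy
    simp only [eRt, Finset.mem_filter] at hy'
    obtain ⟨hyH, hyl, hyz⟩ := hy'
    have hgy : g < y := by
      rcases hS.ok.ok.hlo_end y hyH with h | ⟨_, h, _⟩
      · omega
      · rw [hyl, hlo] at h; exact h
    have h1 := (hte y hgy).1 hy
    have h2 := hown.1 hA
    refine Finset.one_lt_card.2 ⟨y, h1, x.yR, h2, ?_⟩
    exact fun h => hyz x hx h.symm
  · intro hA
    have hAx : x.xD < x.xU := by rcases hO.chir with h | h <;> omega
    have hne : eLf D x.xU ≠ ∅ := by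
      intro h
      exact hic ⟨fun h' => absurd h' (by omega), fun _ => h⟩
    obtain ⟨y, hy⟩ := Finset.nonempty_iff_ne_empty.2 hne
    have hy' := hy
    simp only [eLf, Finset.mem_filter] at hy'
    obtain ⟨hyH, hyl, hyz⟩ := hy'
    have hgy : g < y := by
      rcases hS.ok.ok.hhi_end y hyH with h | ⟨_, h, _⟩
      · omega
      · rw [hyl, hlo] at h; exact h
    have h1 := (hte y hgy).2 hy
    have h2 := hown.2.1 hA
    refine Finset.one_lt_card.2 ⟨y, h1, x.yL, h2, ?_⟩
    exact fun h => hyz x hx h.symm

end Pool.RC
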