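import Pool.Agent.RC.St2

/-!
# Statements of project RC, part 3: geometry and case analysis
Every docstring contains a complete proof.  `b(w)` is `D.vlo w.xD`, the height of the lower end of the down arm of `w`.
For an element `w ∈ EL s D g`: `g ≤ w.y1` (TopGe, `D.vhi w.xU = D.Y1`, `D.vlo w.xU = w.y1`), so `w.xD` covers `[b(w), w.y2]` with
`b(w) < g ≤ w.y1 < w.y2`.  An end of the piece `p` owned by a hole: `z.yL = p` (right end, `hhi p = z.x2`) or `z.yR = p` (left end,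
`hlo p = z.x1`); the owner is unique (StHU).  `L`-statements come with their mirror images; the mirror image is proved by
applying the first one to `D.fx`, `!s`, `w.fx` (StSit, StIHs (3), StEq: `(upA D p).fx = upA D.fx p`, `(lfA E x).fx = rtA E.fx (-x)`; `D.fx.fx = D`).
-/

namespace Pool.RC

open Pool.RB
open Pool.Agent.Helper30.BSP (Rect Tree IsBSP size)
open Pool.Agent.Helper4.BSPT (IBox Seeds ICost IMeets)

/-! ## J. basic geometry -/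

/-- StOwn.  If the line `p` hits `z` or touches it from below (`z.y1 ≤ p < z.y2`), the end of the top arm of `z` on `z.xU` is a
T-end of `upA D p`: type A: the top arm is `z.yR = z.y2 > p`, `hlo z.yR = z.x1 = z.xU`, and no hole of `upA D p` has the right arm `z.yR`
(StHU; `z` is not in `upA D p`).  Type B: `z.yL = z.y2`, `hhi z.yL = z.x2 = z.xU`. -/
def StOwn : Prop := ∀ (D : Cfg) (p : ℤ) (z : Hole), OkC D → z ∈ D.Z → z.y1 ≤ p → p < z.y2 →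
  (z.yL < z.yR → z.yR ∈ eRt (upA D p) z.xU) ∧ (z.yR < z.yL → z.yL ∈ eLf (upA D p) z.xU) ∧ 1 ≤ eV (upA D p) z.xU

/-- StTe.  T-ends of `UP` on a vertical piece `u` stay in the leaves.  `lfA E v`, `u < v`: a T-end `y ∈ eRt E u` (`hlo y = u < v`) is not deleted
(deleted pieces `z.yR` have an owned left end), its left end does not change, it is not owned; `y ∈ eLf E u`: `hhi y = u < v`, a deleted
`z.yR` has `hhi > z.x2 ≥ v`.  Mirror image for `rtA`.  And T-ends of `D` on `u` above `p` are T-ends of `upA D p`. -/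
def StTe : Prop := ∀ (D : Cfg) (u c : ℤ), OkC D → u ∈ D.V →
  (u < c → c < D.X1 → eRt D u ⊆ eRt (lfA D c) u ∧ eLf D u ⊆ eLf (lfA D c) u) ∧
  (D.X0 < c → c < u → eRt D u ⊆ eRt (rtA D c) u ∧ eLf D u ⊆ eLf (rtA D c) u) ∧
  (∀ y, c < y → (y ∈ eRt D u → y ∈ eRt (upA D c) u) ∧ (y ∈ eLf D u → y ∈ eLf (upA D c) u))

/-- StBadS.  `eH = 0`, so `w.xD` is not in `eUp D b(w)`: its lower end is owned: `z.xU = w.xD`, `z.y1 = b(w)`.  Type B would give `b(w) = z.yR`,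
`hlo b(w) = z.x1 > X0`.  So type A, `b(w) = z.yL`, `hhi b(w) = z.x2 = z.xD < X1`.  `adjV z w`: `z.y2 < w.y1`.  No piece left of `w.xD` stands on `b(w)`: a
T-end is excluded by `eH = 0`; an owned end gives a hole `z'` with `z'.y1 = b(w)`: `z'.yL = b(w)` is `z' = z`, whose up arm is `w.xD`;
`z'.yR = b(w)` contradicts `hlo b(w) = X0`.  `wH = 1`.  Mirror image for BadR: `z` is of type B, `z.yR = b(w)`. -/
def StBadS : Prop := ∀ (D : Cfg) (w : Hole), OkC D → w ∈ D.Z →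
  (BadL D w → wH D (D.vlo w.xD) = 1 ∧ (∀ x ∈ D.V, D.vlo x = D.vlo w.xD → x = w.xD) ∧
    ∃ z ∈ D.Z, z.xU = w.xD ∧ z.yL < z.yR ∧ z.yL = D.vlo w.xD ∧ z.y1 = D.vlo w.xD ∧ z.yR = z.y2 ∧ z.y2 < w.y1) ∧
  (BadR D w → wH D (D.vlo w.xD) = 1 ∧ (∀ x ∈ D.V, D.vlo x = D.vlo w.xD → x = w.xD) ∧
    ∃ z ∈ D.Z, z.xU = w.xD ∧ z.yR < z.yL ∧ z.yR = D.vlo w.xD ∧ z.y1 = D.vlo w.xD ∧ z.yL = z.y2 ∧ z.y2 < w.y1)

/-- StCl.  Climbing.  First version (left of `v`).  Suppose there is `x ∈ V`, `x < v`, `vlo x < β`, `α < vhi x`; take one with smallest `vlo x`.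
`α` covers `(X0, v)`, so `vlo x ≥ α` (nc), and `≠ α`.  `y0 = vlo x ∈ H`, `hlo y0 < x < hhi y0`, `α < y0 < β`.  `hlo y0 = X0`: otherwise `hlo y0 ∈ V` covers `y0`
(`vlo < y0 < vhi`), is left of `v`: a smaller one.  `v` covers `y0` (`vlo v ≤ α < y0 < β ≤ vhi v`), so `hhi y0 ≤ v` (nc); if `hhi y0 < v` then
`hhi y0 ∈ V` is again a smaller one.  So `hhi y0 = v` and `x` stands on `y0`: excluded.  Second version: mirror image. -/
def StCl : Prop := ∀ (D : Cfg) (v α β : ℤ), OkC D → v ∈ D.V → α ∈ D.H → D.vlo v ≤ α → β ≤ D.vhi v →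
  (D.hlo α = D.X0 → v ≤ D.hhi α → (∀ x ∈ D.V, x < v → D.vlo x ≠ α) →
    (∀ c ∈ D.H, α < c → c < β → D.hlo c = D.X0 → D.hhi c = v → ∀ x ∈ D.V, x < v → D.vlo x ≠ c) →
    ∀ x ∈ D.V, x < v → D.vlo x < β → α < D.vhi x → False) ∧
  (D.hhi α = D.X1 → D.hlo α ≤ v → (∀ x ∈ D.V, v < x → D.vlo x ≠ α) →
    (∀ c ∈ D.H, α < c → c < β → D.hhi c = D.X1 → D.hlo c = v → ∀ x ∈ D.V, v < x → D.vlo x ≠ c) →
    ∀ x ∈ D.V, v < x → D.vlo x < β → α < D.vhi x → False)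

/-- StTow.  StCl with `v = w.xD`, `α = b(w)`, `β = g` and StBadS. -/
def StTow : Prop := ∀ (s : Bool) (D : Cfg) (g : ℤ) (w : Hole), Sit s D g → w ∈ EL s D g →
  (BadL D w → TowL D g w ∨ ∃ c ∈ D.H, D.vlo w.xD < c ∧ c < g ∧ D.hlo c = D.X0 ∧ D.hhi c = w.xD ∧
    ∃ x ∈ D.V, x < w.xD ∧ D.vlo x = c) ∧
  (BadR D w → TowR D g w ∨ ∃ c ∈ D.H, D.vlo w.xD < c ∧ c < g ∧ D.hhi c = D.X1 ∧ D.hlo c = w.xD ∧
    ∃ x ∈ D.V, w.xD < x ∧ D.vlo x = c)

/-- StMMl.  For `p < g` the set `MM s D p` consists of the elements with `b ≤ p` (`p < g ≤ z.y1`). -/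
def StMMl : Prop := ∀ (s : Bool) (D : Cfg) (g p : ℤ), Sit s D g → p < g →
  ∀ z, z ∈ MM s D p ↔ z ∈ EL s D g ∧ D.vlo z.xD ≤ p

/-- StNum.  Elements ending on `p`: `N` = the elements with `b = p`; `TN` those whose lower end is a T-end (`z.xD ∈ eUp D p`, injective in `z`
by StHU), `HN` the others: the lower end of `z.xD` is owned by a hole `z'` with `z'.y1 = p` (injective), a hole touched by `p`: StI5. -/
def StNum : Prop := ∀ (s : Bool) (D : Cfg) (g p : ℤ), Sit s D g → p ∈ D.H →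
  ∃ TN HN : Finset Hole, (∀ z, z ∈ TN ↔ z ∈ EL s D g ∧ D.vlo z.xD = p ∧ z.xD ∈ eUp D p) ∧
    (∀ z, z ∈ HN ↔ z ∈ EL s D g ∧ D.vlo z.xD = p ∧ ∃ z' ∈ D.Z, z'.xU = z.xD ∧ z'.y1 = p) ∧
    (∀ z ∈ EL s D g, D.vlo z.xD = p → z ∈ TN ∨ z ∈ HN) ∧ TN.card ≤ eH D p ∧ HN.card + wH D p ≤ 2

/-! ## K. moves at elements -/

/-- StEC.  An element is an EC for every line `p ∈ H` with `b(w) ≤ p < g` (`TopGt`: TopGe and `p < g`). -/
def StEC : Prop := ∀ (s : Bool) (D : Cfg) (g p : ℤ) (w : Hole), Sit s D g → w ∈ EL s D g → p ∈ D.H →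
  D.vlo w.xD ≤ p → p < g → EC D p w

/-- StSem.  Strong semi.  StMRd at `p = b(w)` with the bar `c`: `wH = 1` (StBadS), `eH = 0`, and `gn L c ≥ 3`: `x` is in `eUp L c` and not top
attached (`vlo x = c < g`, TopGe).  Details (first version): `c ∈ L.H`: `c > p`, `hlo c = X0` (a deleted `z.yR` has `hlo = z.x1 > X0`).  `x ∈ L.V`: `vhi x > c > p`; not
deleted in `UP` (a deleted `z.xD` has `vlo < z.y1 ≤ p < c`).  Not owned: if `z.xU = x` then `z.y1 = c`, so `z.yR = c` (no, `hlo c = X0`) or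
`z.yL = c`: `z.x2 = hhi c = w.xD`: type A: `z.xD = w.xD`, `z = w`, `c = w.yL ≥ w.y1 ≥ g`, no; type B: `z.xU = w.xD ≠ x`. -/
def StSem : Prop := ∀ (s : Bool) (D : Cfg) (g c x : ℤ) (w : Hole), Sit s D g → w ∈ EL s D g → (BadL D w ∨ BadR D w) →
  c ∈ D.H → D.vlo w.xD < c → c < g → x ∈ D.V → D.vlo x = c →
  (MM s D (D.vlo w.xD)).card ≤ eV (upA D (D.vlo w.xD)) w.xD →
  (D.hlo c = D.X0 → D.hhi c = w.xD → x < w.xD → P s D) ∧ (D.hhi c = D.X1 → D.hlo c = w.xD → w.xD < x → P s D)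

/-- StSe2.  The value of `eV` in StSem.  `z` (StBadS) is hit by the line `b(w)` from below: StOwn: `1 ≤ eV`, and for BadL (`z` type A) the T-end
`z.yR` is on the right side; a left bar `c` (`hhi c = w.xD`, `c > b(w)`, `c < g`) is a T-end on the left side: if `z'.yL = c` then `z'.x2 = w.xD`,
`z'.xD = w.xD` (type A): `z' = w`, `c ≥ g`, no; `z'.xU = w.xD` (type B): `z' = z`, but `z` is of type A; StTe (3).  So `2 ≤ eV`.  Mirror image. -/
def StSe2 : Prop := ∀ (s : Bool) (D : Cfg) (g c : ℤ) (w : Hole), Sit s D g → w ∈ EL s D g →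
  c ∈ D.H → D.vlo w.xD < c → c < g →
  (BadL D w → D.hhi c = w.xD → 2 ≤ eV (upA D (D.vlo w.xD)) w.xD) ∧
  (BadR D w → D.hlo c = w.xD → 2 ≤ eV (upA D (D.vlo w.xD)) w.xD)

/-- StQM.  First version: `w` is BadL, `z` the hole under it (type A), `Q = z.yR = z.y2` the top arm of `z`, which starts at `w.xD`.
(1) If `hhi Q ≠ X1` or `eH D Q ≥ 1`: StMR2 at `Q` (`hlo Q = z.x1 > X0`, so `wH D Q ≤ 1`, and `= 0` if `hhi Q ≠ X1`).
(2) `hhi Q = X1`, `eH D Q = 0`: StCl (second version) with `v = w.xD`, `α = Q`, `β = g`; no piece stands on `Q` right of `w.xD`: a T-end is excluded; owned: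
`z'.y1 = Q`: `z'.yR = Q` gives `z' = z`, `z.y1 < Q`, no; `z'.yL = Q` gives `hhi Q = z'.x2 < X1`, no.  The piece `x` contradicts the conclusion of StCl, so
some bar `c ∈ (Q, g)`, `hhi c = X1`, `hlo c = w.xD` carries a piece right of `w.xD`: StSem with `|MM| ≤ 1 ≤ eV` (StOwn). -/
def StQM : Prop := ∀ (s : Bool) (D : Cfg) (g x : ℤ) (w z : Hole), Sit s D g → w ∈ EL s D g → z ∈ D.Z → z.xU = w.xD →
  z.y2 < g → x ∈ D.V → D.vlo x < g → z.y2 < D.vhi x → (MM s D z.y2).card ≤ 1 → (MM s D (D.vlo w.xD)).card ≤ 1 →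
  (BadL D w → w.xD < x → P s D) ∧ (BadR D w → x < w.xD → P s D)

/-- StCLs.  The closed side lemma.  First version.  `f.y2 ≤ vhi w.xD = w.y2 < Y1` (f.right), so `f.y2 ∈ H`, `hlo f.y2 = X0`, `w.xD ≤ hhi f.y2`.
`f.y2 = w.yL`: if `hhi f.y2 = w.xD`: a T-end would be in `eLf UP w.xD` (StTe), but `eV = 0`; so `z''.yL = f.y2`, `z''.x2 = w.xD`: type A: `z'' = w`; type B:
`z''.xU = w.xD`, `z''.y1 = b(w) ≤ q < f.y2 = z''.y2`: StOwn gives `eV ≥ 1`, no.  If `w.xD < hhi f.y2`: nc gives `f.y2 = w.y2`; `w.y2 = w.yR` for type A has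
`hlo = w.x1 > X0`, so type B, `f.y2 = w.yL`.  Leaf `L = lfA UP w.xD`: type A: `w.xU` stands on `w.yL` (`vlo w.xU = w.y1 = w.yL`) and is a T-end of `L` (its owner
`w` is not in `L`): `gn ≥ 1`.  Type B: if there is no T-end on `w.yL` in `L`: let `G` be the face of `D` containing `[X0,X0+1] x [w.yL, w.yL+1]`
(StFE).  `G.x1 = X0`, `G.y1 = w.yL` (`w.yL` covers this column).  `G.x2 ≤ w.xU` (`w.xU` covers all heights above `w.y1`); if `G.x2 < w.xU = w.x2`: `G.x2 ∈ V`,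
it covers `[w.yL, G.y2]` and `w.yL` covers `[X0, w.x2]`: `vlo G.x2 = w.yL` (nc); `G.x2 < w.xD`: a T-end on `w.yL` (owned: `z'.y1 = w.yL`; `z'.yL = w.yL` gives
`z' = w`, `w.y1 < w.yL`, no; `z'.yR = w.yL` contradicts `hlo = X0`), it is in `L`, no; `G.x2 = w.xD`: `vhi w.xD = w.yL`, no; `w.x1 < G.x2 < w.x2`: `cV w`.
So `G.x2 = w.xU`.  `G.y2 = Y1` by StStr (otherwise `G.y2` passes over `[X0, w.x2]` above `w.y2`).  A piece of `UP` with `hlo = X0` above `w.yL` meets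
`G`, between `q` and `w.yL` it meets `f`: so `WL UP = 1` (`w.yL` itself). -/
def StCLs : Prop := ∀ (D : Cfg) (q : ℤ) (w : Hole) (f : Box), OkC D → EC D q w → IsFace D f → f.y1 ≤ q → q < f.y2 →
  eV (upA D q) w.xD = 0 →
  (f.x1 = D.X0 → f.x2 = w.xD → D.hlo w.yL = D.X0 ∧ w.xD ≤ D.hhi w.yL ∧ w.yL ∈ (lfA (upA D q) w.xD).H ∧
    (1 ≤ gn (lfA (upA D q) w.xD) w.yL ∨ WL (upA D q) = 1)) ∧
  (f.x1 = w.xD → f.x2 = D.X1 → D.hhi w.yR = D.X1 ∧ D.hlo w.yR ≤ w.xD ∧ w.yR ∈ (rtA (upA D q) w.xD).H ∧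
    (1 ≤ gn (rtA (upA D q) w.xD) w.yR ∨ WR (upA D q) = 1))

/-! ## L. the lowest elements -/

/-- StK1.  Let `p = b(w)`, `w` a lowest element; by StMMl `MM s D p` = elements with `b = p` = `TN ∪ HN` (StNum).  `T = |TN|`, `h = |HN|`, `e = eH`,
`k = wH` (`≤ 1` by Irr).  If `h ≥ 1` take `w' ∈ HN`: `eV ≥ 1` (StOwn); StMR2 needs `T + h + 4 k ≤ 1 + 1 + 4 e`, `T ≤ e`, `h + k ≤ 2`, `k = 0` or `e ≥ 1`: true.
If `h = 0`: `T ≥ 1`, so `e ≥ 1`: `T + 4 k ≤ 1 + 4 e`. -/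
def StK1 : Prop := ∀ (s : Bool) (D : Cfg) (g : ℤ) (w : Hole), Sit s D g → w ∈ EL s D g →
  (∀ z ∈ EL s D g, D.vlo w.xD ≤ D.vlo z.xD) → (wH D (D.vlo w.xD) = 0 ∨ 1 ≤ eH D (D.vlo w.xD)) → P s D

/-- StF2.  Facts about a tower `w1` and another element `w` which is not lower.  First version.  `b(w1) = b(w)`: by StBadS only `w1.xD` stands on
`b(w1)`, so `w.xD = w1.xD`, `w = w1`; so `b(w1) < b(w)`.  `w.xD < w1.xD` contradicts `TowL` (`b(w) < g`, `b(w1) < g < vhi w.xD`).  `hlo b(w) = X0` would make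
`b(w)` cross `w1.xD` (`X0 < w1.xD < w.xD < hhi b(w)`, `b(w1) < b(w) < g < vhi w1.xD`). -/
def StF2 : Prop := ∀ (s : Bool) (D : Cfg) (g : ℤ) (w1 w : Hole), Sit s D g → w1 ∈ EL s D g → w ∈ EL s D g → w ≠ w1 →
  D.vlo w1.xD ≤ D.vlo w.xD →
  (BadL D w1 → TowL D g w1 → D.vlo w1.xD < D.vlo w.xD ∧ w1.xD < w.xD ∧ D.hlo (D.vlo w.xD) ≠ D.X0) ∧
  (BadR D w1 → TowR D g w1 → D.vlo w1.xD < D.vlo w.xD ∧ w.xD < w1.xD ∧ D.hhi (D.vlo w.xD) ≠ D.X1)

/-- StKF.  `w1` is a left tower, `w` another element whose lower end on `p = b(w)` is owned, all elements except `w1` have `b ≥ p`, the top arm of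
the hole `z1` under `w1` is not `p`.  (i) If `eRt (upA D p) w1.xD` is not empty: StMRv (first version, `y = w1`; `w1 ∈ QQ D p`; StTe: the T-ends stay in
`lfA`), `eV ≥ 1` (StOwn for the hole under `w`): `|MM| + 4 wH ≤ 1 + 4 eH + 4`.  (ii) Otherwise `z1.y2 ≤ p` (StOwn: `z1.y1 = b(w1) < p`, StF2), so `z1.y2 < p < g`: StQM with
`x = w.xD` (`w1.xD < w.xD`, `b(w) < g`, `z1.y2 < p < vhi w.xD`); `MM` at `z1.y2` and at `b(w1)` consist of `w1` only (StMMl). -/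
def StKF : Prop := ∀ (s : Bool) (D : Cfg) (g : ℤ) (w1 w z1 z' : Hole), Sit s D g → w1 ∈ EL s D g → BadL D w1 → TowL D g w1 →
  w ∈ EL s D g → w ≠ w1 → D.vlo w1.xD ≤ D.vlo w.xD → (∀ z ∈ EL s D g, z ≠ w1 → D.vlo w.xD ≤ D.vlo z.xD) →
  z' ∈ D.Z → z'.xU = w.xD → z1 ∈ D.Z → z1.xU = w1.xD → z1.y2 ≠ D.vlo w.xD →
  (MM s D (D.vlo w.xD)).card + 4 * wH D (D.vlo w.xD) ≤ 5 + 4 * eH D (D.vlo w.xD) → P s D

/-- StKP.  `w` ends with a T-end on `p = b(w)`, which is attached to the right wall, this is the only T-end on `p`, and no T-end of `upA D p` is on `w.xD`.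
No piece `x > w.xD` stands on `p`: T-end excluded; owned: `z'.xU = x`, `z'.y1 = p`: `z'.yL = p` contradicts `hhi p = X1`; `z'.yR = p` (type B): `z'.x1 = hlo p < w.xD <
x = z'.x2`: `cV z'` for `w.xD`.  The face `f` of `D` containing `[w.xD, w.xD+1] x [p, p+1]` has `f.x1 = w.xD`, `f.y1 = p`, and `f.x2 = X1` (otherwise `f.x2` stands on
`p`, nc).  StCLs (second version, `q = p`): if `gn ≥ 1`: StMRd (second version, `c = w.yR`): `2 + 4 ≤ 1 + 0 + 4 + 1`; if `WR UP = 1`: StMHS: `2 + 4 ≤ 2 + 4`. -/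
def StKP : Prop := ∀ (s : Bool) (D : Cfg) (g : ℤ) (w : Hole), Sit s D g → w ∈ EL s D g → D.vlo w.xD ∈ D.H →
  D.hhi (D.vlo w.xD) = D.X1 → wH D (D.vlo w.xD) = 1 → eH D (D.vlo w.xD) = 1 → w.xD ∈ eUp D (D.vlo w.xD) →
  (MM s D (D.vlo w.xD)).card ≤ 2 → eV (upA D (D.vlo w.xD)) w.xD = 0 → P s D

/-- StK2.  `w1` a lowest element, a left tower; `w2` a lowest other element, `p = b(w2)`, which is free or carries a T-end.  `MM s D p = {w1} ∪ TN ∪ HN`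
(StMMl, StF2), `T`, `h`, `e`, `k` as in StK1.  `k ≤ 1`; if `k = 1` then `hhi p = X1` (StF2).  `T ≤ e`, `h + k ≤ 2`, `T + h ≥ 1`.
`h ≥ 1`, `w ∈ HN`, `eV ≥ 1`: StMR2 needs `1 + T + h + 4 k ≤ 2 + 4 e`; it fails only if (`k = 0, e = 0, h = 2`) or (`k = 1, e = 1, T = 1, h = 1`): then StKF for `w`
(`z1` from StBadS): `|MM| + 4 k = 3 ≤ 5`, resp. `3 + 4 ≤ 5 + 4`.  `z1.y2 ≠ p`: `z1.y2 = z1.yR`; if `z1.yR = p`: for `k = 1` the owner `z'` of the lower end of `w.xD` has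
`z'.y1 = p` and `z'.yL ≠ p` (`hhi p = X1`), so `z'.yR = p`, `z' = z1`, but `z1.y1 = b(w1) < p`; for `h = 2` the two owners are different, one of them has
`yR = p` and again is `z1`.
`h = 0`: `T ≥ 1`, `w2 ∈ TN`: StMR2 for `w2` needs `1 + T + 4 k ≤ 1 + eV + 4 e`; it fails only if `k = 1`, `e = 1`, `T = 1`, `eV = 0`: StKP. -/
def StK2 : Prop := ∀ (s : Bool) (D : Cfg) (g : ℤ) (w1 w2 : Hole), Sit s D g → w1 ∈ EL s D g → BadL D w1 → TowL D g w1 →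
  (∀ z ∈ EL s D g, D.vlo w1.xD ≤ D.vlo z.xD) → w2 ∈ EL s D g → w2 ≠ w1 →
  (∀ z ∈ EL s D g, z ≠ w1 → D.vlo w2.xD ≤ D.vlo z.xD) → (wH D (D.vlo w2.xD) = 0 ∨ 1 ≤ eH D (D.vlo w2.xD)) → P s D

/-- StKj.  First version: `w` a left tower with hole `z` under it (`Q = z.yR = z.y2`), `w'` an element right of it with `b(w') < Q`.  `Q` is free: `hlo Q = z.x1 > X0`;
`hhi Q = X1` would make `Q` cross `w'.xD` (`hlo Q = w.xD < w'.xD`, `b(w') < Q < g < vhi w'.xD`).  StMR2 at `Q`: `2 ≤ 1 + eV + 4 eH` unless `eV = eH = 0`.  Then: the face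
`f` of `D` containing `[w.xD - 1, w.xD] x [Q, Q+1]` has `f.x2 = w.xD`, and `f.x1 = X0`: otherwise `f.x1 ∈ V`, `vlo f.x1 ≤ Q < g`, `vhi f.x1 > Q > b(w)`: `TowL`.  StCLs (first
version, `q = Q`): `gn ≥ 1`: StMRd with `c = w.yL`: `2 ≤ 1 + 1`; `WL = 1`: StMHS: `2 ≤ 2`. -/
def StKj : Prop := ∀ (s : Bool) (D : Cfg) (g : ℤ) (w w' z : Hole), Sit s D g → w ∈ EL s D g → w' ∈ EL s D g → z ∈ D.Z →
  z.xU = w.xD → D.vlo w'.xD < z.y2 → z.y2 < g → (MM s D z.y2).card ≤ 2 →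
  (BadL D w → TowL D g w → w.xD < w'.xD → P s D) ∧ (BadR D w → TowR D g w → w'.xD < w.xD → P s D)

/-- StK3.  `w1` left tower, `w2` right tower, `w3` a lowest other element, `p = b(w3)`; `b(w1) < b(w2) < p`, `w1.xD < w3.xD < w2.xD`, `p` is free (StF2 for
both towers).  `MM s D p = {w1, w2} ∪ TN ∪ HN`.  If `h = 0`: `T ≥ 1`: StMR2 for `w3`: `2 + T ≤ 1 + 4 e`.  If `h ≥ 1`, `e ≥ 1`: `w ∈ HN`: `2 + T + h ≤ 2 + 4 e`.  If `h ≥ 1`, `e = 0`
(so `T = 0`, `|MM| ≤ 4`): `w ∈ HN`, `z'` the hole under `w`; `w1.xD < w.xD < w2.xD` (StF2).  If `eRt (upA D p) w1.xD` is not empty: StMRv first version (`y = w1`,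
StTe, `eV ≥ 1`): `4 ≤ 1 + 4`.  If `eLf (upA D p) w2.xD` is not empty: StMRv second version.  Otherwise, with the holes `z1`, `z2` under `w1`, `w2` (StBadS;
`z1` type A, `z2` type B): `z1.y2 ≤ p`, `z2.y2 ≤ p` (StOwn).  If `z2.y2 < p`: StKj (second version, `w = w2`, `w' = w1`; `z2.y2 > z2.y1 = b(w2) > b(w1)`; `MM` at `z2.y2` is
contained in `{w1, w2}`).  Otherwise `z2.yL = z2.y2 = p`; then `z'.yL ≠ p` (else `z' = z2`, but `z'.y1 = p`), so `z'.yR = p`, and `z1.yR = z1.y2 ≠ p` (else `z1 = z'`).  So `z1.y2 < p`.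
If `z1.y2 < b(w2)`: StQM for `w1` with `x = w2.xD` (`MM` at `z1.y2`: only `w1`).  `z1.y2 = b(w2)`: `z1.yR = b(w2) = z2.yR` (type B), so `z1 = z2`, no.  `z1.y2 > b(w2)`: StKj (first
version, `w = w1`, `w' = w2`; `MM` at `z1.y2 < p` is contained in `{w1, w2}`). -/
def StK3 : Prop := ∀ (s : Bool) (D : Cfg) (g : ℤ) (w1 w2 w3 : Hole), Sit s D g → w1 ∈ EL s D g → BadL D w1 → TowL D g w1 →
  (∀ z ∈ EL s D g, D.vlo w1.xD ≤ D.vlo z.xD) → w2 ∈ EL s D g → w2 ≠ w1 → BadR D w2 → TowR D g w2 →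
  (∀ z ∈ EL s D g, z ≠ w1 → D.vlo w2.xD ≤ D.vlo z.xD) → w3 ∈ EL s D g → w3 ≠ w1 → w3 ≠ w2 →
  (∀ z ∈ EL s D g, z ≠ w1 → z ≠ w2 → D.vlo w3.xD ≤ D.vlo z.xD) → P s D

/-! ## M. all elements are towers: the line `g` -/

/-- all elements are towers -/
def AT (s : Bool) (D : Cfg) (g : ℤ) : Prop :=
  ∀ z ∈ EL s D g, (BadL D z ∧ TowL D g z) ∨ (BadR D z ∧ TowR D g z)

/-- StT1.  Two left towers are equal: if `w.xD < w'.xD` then `TowL w'` is contradicted by `x = w.xD` (`b(w) < g`, `b(w') < g < vhi w.xD`).  So `|EL| ≤ 2` under AT. -/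
def StT1 : Prop := ∀ (s : Bool) (D : Cfg) (g : ℤ), Sit s D g →
  (∀ w ∈ EL s D g, ∀ w' ∈ EL s D g, (TowL D g w → TowL D g w' → w = w') ∧ (TowR D g w → TowR D g w' → w = w')) ∧
  (AT s D g → (EL s D g).card ≤ 2) ∧ (AT s D g → AT (!s) D.fx g)

/-- StT2.  `g` is attached to the left wall and its right end is owned by the type A hole `x` (`x.yL = g`, `hhi g = x.x2 = x.xD`).  A left tower `w ∈ EL` is
`x`: `w.xD < x.xD`: `g` would cross `w.xD` (`b(w) < g ≤ w.y1 < vhi w.xD`); `x.xD < w.xD`: `TowL` (`vlo x.xD < x.y1 = g`, `vhi x.xD = x.y2 > g > b(w)`).  So `w.xD = x.xD`.  And a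
right tower `w ≠ x` has `x.xD < w.xD` (otherwise `TowR` is contradicted by `x.xD`). -/
def StT2 : Prop := ∀ (s : Bool) (D : Cfg) (g : ℤ) (w x : Hole), Sit s D g → w ∈ EL s D g → x ∈ D.Z → x.yL = g →
  x.yL < x.yR → D.hlo g = D.X0 → (TowL D g w → w = x) ∧ (TowR D g w → w ≠ x → x.xD < w.xD)

/-- StNumG.  Counting at `g`.  `TT` = members of `Tg` which are T-ends on `g`, `T4` = holes `x` with `x.y1 = g`, `vhi x.xU = Y1` (their up arms are the other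
members of `Tg`); `M1` = elements with `g < y1`; members of `MM s D g` not in `M1` have `b = g`; `TG`: those with a T-end on `g` (not top attached), `HG`: those
with an owned lower end (the owner `z'` has `z'.y1 = g` and `z'.xU` is not top attached).  `TT` and the down arms of `TG` are disjoint subsets of `eUp D g`; the
holes in `T4` and the owners for `HG` are different holes touched by `g` (StI5).  The extra parameter: if some `x ∈ eUp D g` is not top attached and is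
not a down arm of a member of `TG`, or if `eDn D g ≠ ∅`, one more; not needed. -/
def StNumG : Prop := ∀ (s : Bool) (D : Cfg) (g : ℤ), Sit s D g →
  ∃ (TT : Finset ℤ) (T4 M1 TG HG : Finset Hole),
    (∀ x, x ∈ TT ↔ x ∈ Tg D g ∧ x ∈ eUp D g) ∧ (∀ z, z ∈ T4 ↔ z ∈ D.Z ∧ z.y1 = g ∧ D.vhi z.xU = D.Y1) ∧
    (∀ z, z ∈ M1 ↔ z ∈ EL s D g ∧ g < z.y1) ∧
    (∀ z, z ∈ HG → z ∈ D.Z ∧ D.vlo z.xD = g ∧ z ∈ MM s D g ∧ ∃ z' ∈ D.Z, z'.xU = z.xD ∧ z'.y1 = g) ∧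
    (Tg D g).card = TT.card + T4.card ∧ (MM s D g).card = M1.card + TG.card + HG.card ∧
    TT.card + TG.card ≤ eH D g ∧ T4.card + HG.card + wH D g ≤ 2 ∧
    (∀ z ∈ T4, z.xU ∈ Tg D g) ∧ (∀ z ∈ T4, 1 ≤ eV (upA D g) z.xU) ∧ (∀ z ∈ T4, z ∉ EL s D g → LI s D z ∨ 2 ≤ eV (upA D g) z.xU)

/-- StE2.  A hole `x` with `x.y1 = g`, `vhi x.xU = Y1` which is not an element: `b(x) < x.y1 = g`, so `¬ icU D x` or `LI s D x`.  If `¬ icU`: type A: some
`y ∈ eRt D x.xU`, `y > g`, and `x.yR`: both in `eRt (upA D g) x.xU` (StTe, StOwn), different (`x.yR` is owned in `D`): `2 ≤ |eRt|`.  Type B: `2 ≤ |eLf|`. -/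
def StE2 : Prop := ∀ (s : Bool) (D : Cfg) (g : ℤ) (x : Hole), Sit s D g → x ∈ D.Z → x.y1 = g → D.vhi x.xU = D.Y1 →
  x ∉ EL s D g → LI s D x ∨ ((x.yL < x.yR → 2 ≤ (eRt (upA D g) x.xU).card) ∧ (x.yR < x.yL → 2 ≤ (eLf (upA D g) x.xU).card))

/-- StK40.  `g` free.  StNumG: `r = |TT|`, `q = |T4|`, `m = |M1| ≤ 2` (StT1), `hG + q ≤ 2`, `r + tG ≤ eH`.  StMS1 for `t` needs
`3 (r + q) + m + tG + hG ≤ 5 + eV + 4 eH + LIt`, implied by `3 q + m + hG ≤ 5 + eV + r`.  `q = 0`: `r ≥ 1` (`Tg ≠ ∅`): ok for any `t ∈ Tg`.  `q = 1`: `t = x.xU`, `eV ≥ 1`: `3 + 2 + 1 ≤ 6`.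
`q = 2`, `T4 = {x, x'}`, `hG = 0`: both ends of `g` are owned, so (StHU) one of them, `x`, has `x.yL = g` (type A), the other `x'.yR = g` (type B); neither is `LC`
(`hhi x'.yR = hhi g ≠ X1`, `hlo x.yL = hlo g ≠ X0`), so neither is `LI`.  `m = 0`: `6 ≤ 5 + 1`.  `m = 1`: one of the two is not in `EL` (`|EL| ≤ 2`, and it contains a member with `y1 > g`):
`t` = its up arm, `eV ≥ 2`: `7 ≤ 7`.  `m = 2`: none is in `EL`; `x'.x2 < x.x1` (`adjH x' x`), i.e. `x'.xU < x.xU`: StMSf with `t = x.xU`, `t2 = x'.xU`: `eV ≥ 2`, and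
`2 ≤ |eLf (upA D g) x'.xU| ≤ |eLf (lfA (upA D g) t) x'.xU|` (StE2, StTe): `8 ≤ 9`. -/
def StK40 : Prop := ∀ (s : Bool) (D : Cfg) (g : ℤ), Sit s D g → AT s D g → wH D g = 0 → P s D

/-- StLCx.  `x` is an element with `x.yL = g` (type A), `hlo g = X0`, and no piece right of `x.xD` covers heights just below `g`.  The face `f` of `D`
containing `[x.xD, x.xD+1] x [g-1, g]` (`b(x) ≤ g - 1`): `f.x1 = x.xD`, `f.x2 = X1` (otherwise `f.x2 ∈ V` contradicts the hypothesis), `f.y2 ≤ vhi x.xD = x.y2 = x.yR < Y1`, so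
`f.y2 ∈ H`, `hhi f.y2 = X1`, `hlo f.y2 ≤ x.xD`.  `f.y2 ≥ g`; `f.y2 = g` is impossible (`hhi g = x.xD < X1`); `g = x.y1 < f.y2 < x.y2` contradicts `cH x`.  So `f.y2 = x.yR` is attached to the
right wall: `LC D x`.  As `x ∈ EL`, `¬ LI s D x`.  If `s = false`: `eDn D x.yR ≠ ∅`: `x' ∈ V`, `vhi x' = x.yR`, `hlo x.yR = x.x1 < x' < X1` (vhi_end): `x' < x.x2`: `cV x`; `x' = x.xD` is owned; `x' > x.xD`:
it meets `f`.  So `s = true` and `eUp D g ≠ ∅`. -/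
def StLCx : Prop := ∀ (s : Bool) (D : Cfg) (g : ℤ) (x : Hole), Sit s D g → x ∈ EL s D g → x.yL = g → x.yL < x.yR →
  D.hlo g = D.X0 → (∀ u ∈ D.V, x.xD < u → D.vlo u < g → g ≤ D.vhi u → False) → s = true ∧ (eUp D g).Nonempty

/-- StKx1.  The corner hole `x` is the only element and there is a T-end from above on `g`: StMS1 with `t = x.xU`.  With the letters of StNumG: `wH = 1`, `x ∈ T4`, so
`|T4| = 1`, `HG = ∅`, `M1 = ∅`; `eV ≥ 1`.  It remains `3 (r + 1) + tG + 4 ≤ 5 + 1 + 4 eH`: if `r ≥ 1` use `r + tG ≤ eH`; if `r = 0`: `eH ≥ 1` and `eH ≥ tG`. -/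
def StKx1 : Prop := ∀ (s : Bool) (D : Cfg) (g : ℤ) (x : Hole), Sit s D g → EL s D g = {x} → x.yL = g → x.yL < x.yR →
  D.hlo g = D.X0 → (eUp D g).Nonempty → P s D

/-- StKA.  `g` is attached to the left wall and is the left arm of the element `x` of type A.  `|EL| ≤ 2`; another element `y` is a right tower (StT2: a left
tower is `x`).
Case 1: no piece right of `x.xD` covers heights just below `g` (hypothesis of StLCx).  Another element `y` has `x.xD < y.xD` (StT2), `b(y) < g < vhi y.xD`: impossible; so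
`EL = {x}`: StLCx, StKx1.
Case 2: some `u ∈ V`, `x.xD < u`, `vlo u < g ≤ vhi u`.  Then `x` is not a right tower, so it is BadL.  `z` under `x` (StBadS), `Q = z.yR = z.y2 < x.y1 = g`.  (1) `hhi Q ≠ X1` or `eH D Q ≥ 1`: StMRd
(first version) at `p = Q` with `c = g`: `gn ≥ 1` because `x.xU` stands on `g = x.yL` and is a T-end in the left leaf (`x` is not in it): `|MM| + 4 wH ≤ 2 + 4 wH ≤ 1 + 4 eH + 1`.
(2) `hhi Q = X1`, `eH D Q = 0`: StQM with `x := u` (`Q < g ≤ vhi u`) needs `|MM| ≤ 1` at `Q` and at `b(x)`: another element `y` (`x.xD < y.xD`) has `b(y) > Q`: `Q` covers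
`(x.xD, X1)`, so `y.xD` does not cross `Q` (`vhi y.xD > g > Q`): `b(y) ≥ Q`, and `b(y) = Q` would be a T-end on `Q` (no) or owned by `z'` with `z'.y1 = Q`, `z'.yL = Q` (no,
`hhi Q = X1`) or `z'.yR = Q` (`z' = z`, no). -/
def StKA : Prop := ∀ (s : Bool) (D : Cfg) (g : ℤ) (x : Hole), Sit s D g → AT s D g → x ∈ EL s D g → x.yL = g →
  x.yL < x.yR → D.hlo g = D.X0 → P s D

/-- StKB.  `g` is attached to the left wall and is the left arm of the type A hole `x`, `vhi x.xU = Y1`, `x ∉ EL`, and there is an element with `y1 > g`.  By StT2 (a left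
tower would be `x`) all elements are right towers, so `EL = {y}` (StT1).  StNumG: `wH = 1`, `T4 = {x}`, `HG = ∅`, `M1 = {y}`, and `LIt + eV ≥ 2` for `t = x.xU` (`eV ≥ 1`).
If `r ≥ 1`: StMS1: `3 (r + 1) + 1 + tG + 4 ≤ 5 + 2 + 4 eH`.  If `r = 0`: `Tg = {x.xU}`.  `y ∈ QQ D g`, `x.xU < x.xD < y.xD` (StT2).  If `eLf (upA D g) y.xD ≠ ∅`: StMSv (StTe): `1 + tG + 4 ≤ 1 + 2 + 4 +
4 eH`.  Otherwise let `z` be under `y` (type B, StBadS), `Q = z.yL = z.y2`: `z.y1 = b(y) < g`, so `Q ≤ g` (StOwn), `Q = g` would give `z.yL = x.yL`, `z = x`, no (`x.y1 = g`).  StQM (second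
version) with `x := x.xD` (`vlo x.xD < x.y1 = g`, `Q < g < x.y2 = vhi x.xD`). -/
def StKB : Prop := ∀ (s : Bool) (D : Cfg) (g : ℤ) (x y : Hole), Sit s D g → AT s D g → x ∈ D.Z → D.vhi x.xU = D.Y1 →
  x ∉ EL s D g → x.yL = g → x.yL < x.yR → D.hlo g = D.X0 → y ∈ EL s D g → g < y.y1 → P s D

/-- StK41.  `g` attached to the left wall (`wH = 1` by Irr).  StNumG, letters as in StK40.  StMS1 needs `3 q + m + hG + 4 ≤ 5 + eV + r + LIt`; `q + hG ≤ 1`.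
`q = 0`: `r ≥ 1`: needs `m + hG ≤ 2` (as `r ≥ 1`).  If `hG = 1`: the owner `z'` has `z'.y1 = g`, and `z'.yR ≠ g` (`hlo g = X0`), so `z'.yL = g`, type A; a left tower would be `z'` (StT2), but `z'.xU = z.xD`
is not top attached (`vhi z.xD = z.y2 < Y1`); so all elements are right towers, `m ≤ 1`.
`q = 1`, `T4 = {x}`, `hG = 0`: `x.y1 = g`, so `x.yL = g` (`hlo g = X0`), type A.  If `x ∈ EL`: StKA.  If `x ∉ EL` and `m ≥ 1`: StKB.  If `x ∉ EL`, `m = 0`: `LIt + eV ≥ 2` (StNumG): `3 + 4 ≤ 5 + 2`. -/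
def StK41 : Prop := ∀ (s : Bool) (D : Cfg) (g : ℤ), Sit s D g → AT s D g → D.hlo g = D.X0 → P s D

/-- StK4.  All elements are towers.  `wH D g = 0`: StK40.  `hlo g = X0`: StK41.  `hhi g = X1`: StK41 for `D.fx`, `!s` (StSit, StT1 (3), StIHs (3)). -/
def StK4 : Prop := ∀ (s : Bool) (D : Cfg) (g : ℤ), Sit s D g → AT s D g → P s D

/-! ## N. an element standing on the bottom wall -/

/-- StUVB.  `uV D ≤ WB D`: `z ↦ z.xD` is injective on the counted holes. -/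
def StUVB : Prop := ∀ D : Cfg, OkC D → uV D ≤ WB D

/-- StCorn.  `v` is the only piece standing on the bottom wall.  The face containing `[X0,X0+1] x [Y0,Y0+1]`: `x1 = X0`, `y1 = Y0`; `x2 = v` (if `x2 ≠ X1` then `x2 ∈ V`,
`vlo x2 = Y0`; `x2 = X1` is excluded by `v`, noV); `y2 ≤ vhi v < Y1`, so `y2 ∈ H`.  The same on the right side. -/
def StCorn : Prop := ∀ (D : Cfg) (v : ℤ), OkC D → v ∈ D.V → D.vlo v = D.Y0 → D.vhi v ≠ D.Y1 →
  (∀ x ∈ D.V, D.vlo x = D.Y0 → x = v) →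
  (∃ c ∈ D.H, D.hlo c = D.X0 ∧ v ≤ D.hhi c ∧ c ≤ D.vhi v ∧ IsFace D ⟨D.X0, v, D.Y0, c⟩) ∧
  (∃ c ∈ D.H, D.hhi c = D.X1 ∧ D.hlo c ≤ v ∧ c ≤ D.vhi v ∧ IsFace D ⟨v, D.X1, D.Y0, c⟩)

/-- StIcA.  Type A.  `v = w.xD`, `v = w.x2`, `vhi v = w.y2 = w.yR`, `w.yL = w.y1`.  If `WB D ≥ 2`: StMI (first part): `uV ≤ WB` (StUVB): `WB + 4 ≤ 3 WB`.  If `WB D = 1` (`w.xD` is the only
bottom attached piece), `uV ≤ 1`.  If `eV D v ≥ 2`: StMI: `5 ≤ 3 + 2`.  Let `eV ≤ 1`; `c1`, `d1` the pieces of StCorn.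
(a) `hlo w.yL = X0`.  StMI (second part) with `c = w.yL` (`hhi w.yL = w.x2 = v`; `w.yL ∈ L.H`, a deleted `z.yR` has `hlo > X0`): `w.xU` stands on `w.yL` and is a T-end in `L = lfA D v` (`w` is not in `L`), so
`gn ≥ 1`: ok if `eV ≥ 1`.  If `eV = 0`: `d1`: `hlo d1 = v` would be a T-end or owned (`z.yR = d1`, `z.x1 = v`: `z.xU = v`: `vlo v = z.y1 > Y0`, no; `z.xD = v`: `z = w`, `w.x1 < v`, no): so
`hlo d1 < v` and nc gives `d1 = vhi v = w.yR`: `hhi w.yR = X1`, `LC D w`.  `¬ LI s D w`: `s = true`: `eUp D w.yL` contains some `x ≠ w.xU` (`w.xU` is owned), `x < v` (`hhi w.yL = v`), it is also in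
`eUp L w.yL`: `gn ≥ 2`: `5 ≤ 3 + 0 + 2`.  `s = false`: `x ∈ eDn D w.yR`: `w.x1 < x < X1`, `x < w.x2`: cV; `x = v` owned; `x > v`: meets the face `[v,X1] x [Y0,d1]`: contradiction.
(b) `hlo w.yL ≠ X0`.  `c1 ≠ w.yL`.  `hhi c1 = v`: otherwise `v < hhi c1`, nc: `c1 = w.yR`, but `hlo w.yR = w.x1 > X0`.  `c1` is a T-end on `v` from the left (owned: `z.yL = c1`, `z.x2 = v`: `z.xD = v`: `z = w`, no;
`z.xU = v`: `vlo v > Y0`, no): `eV = 1`, and `c1` is the only T-end on `v`.  The face `f` containing `[v-1, v] x [c1, c1+1]` (`c1 < vhi v`: `c1 ≠ w.yR`): `f.x2 = v`, `f.y1 = c1`, `f.y2 ∈ H` reaches `v`: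
`hhi f.y2 = v`: not a T-end (`≠ c1`), so owned: `f.y2 = w.yL` (as before); or `f.y2` passes over `v`: `f.y2 = w.yR`, then `hlo f.y2 = w.x1 ≤ f.x1`.  In both cases `f.x1 > X0`, so `f.x1 ∈ V`, it covers
`[c1, f.y2]` and does not cross `c1` (`hlo c1 = X0`, `hhi c1 = v`): `vlo f.x1 = c1`.  `f.x1 ∈ eUp L c1` (it is not owned: `c1` is no arm: its left end is at the wall and its right end is a
T-end), so `gn L c1 ≥ 1`: StMI (second part) with `c = c1`: `5 ≤ 3 + 1 + 1`. -/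
def StIcA : Prop := ∀ (s : Bool) (D : Cfg) (w : Hole), OkC D → IH D → Irr D → w ∈ D.Z → D.vhi w.xU = D.Y1 →
  icU D w → ¬ LI s D w → D.vlo w.xD = D.Y0 → w.yL < w.yR → P s D

/-- StIc.  StIcA, for type B apply it to `D.fx`, `!s`, `w.fx`. -/
def StIc : Prop := ∀ (s : Bool) (D : Cfg) (w : Hole), OkC D → IH D → Irr D → w ∈ D.Z → D.vhi w.xU = D.Y1 →
  icU D w → ¬ LI s D w → D.vlo w.xD = D.Y0 → P s D

/-! ## O. assembly -/

/-- StML.  The lowest element is BadL.  StTow: left tower, or StSem (first version) with `MM s D b(w1) = {w1}` (StMMl; by StBadS no other element stands on `b(w1)`),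
`eV ≥ 1` (StSe2).  So `w1` is a left tower.  If `EL = {w1}`: StK4.  Otherwise take `w2` lowest in `EL \ {w1}`.  `wH = 0` or `eH ≥ 1` at `b(w2)`: StK2.  Otherwise `wH ≥ 1`, `eH = 0`, `hlo b(w2) ≠ X0` (StF2), so
BadR (`b(w2) ∈ H` by Sit.lo).  StTow: right tower, or StSem (second version) with `MM s D b(w2) ⊆ {w1, w2}` (StBadS) and `eV ≥ 2` (StSe2).  So `w2` is a right tower.  `EL = {w1, w2}`: StK4.  Otherwise
take `w3` lowest in `EL \ {w1, w2}`: StK3. -/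
def StML : Prop := ∀ (s : Bool) (D : Cfg) (g : ℤ) (w1 : Hole), Sit s D g → w1 ∈ EL s D g →
  (∀ z ∈ EL s D g, D.vlo w1.xD ≤ D.vlo z.xD) → BadL D w1 → P s D

/-- StStC.  The induction step.  No pieces: StBaseC.  A full piece: StMFH, StMFV.  Otherwise `Irr D`; some vertical piece is top attached (`Pool.RB.qExT`); let `g` be the smallest `vlo` of a top
attached piece; `g ≠ Y0` (Irr), so `g ∈ H`; `TopGe D g`, `Tg D g ≠ ∅`.  If some `z ∈ EL s D g` has `vlo z.xD = Y0`: StIc.  Otherwise `Sit s D g`.  `EL = ∅`: StK4.  Otherwise let `w1` be lowest in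
`EL`, `p = b(w1) ∈ H`.  `wH = 0` or `eH ≥ 1`: StK1.  Otherwise BadL: StML; or BadR: StML for `D.fx`, `!s`, `w1.fx` (StSit, StIHs). -/
def StStC : Prop := ∀ (s : Bool) (D : Cfg), OkC D → IH D → P s D

/-- StMaC.  Strong induction on `D.sz`. -/
def StMaC : Prop := ∀ (s : Bool) (D : Cfg), OkC D → P s D

/-- StInC.  The integral form.  StRootC gives `D`, `sz + 1 ≤ n + h`; all members of `bx s` meet the box, `(bx s).card = n` (see pIntS in Pool/Agent/RB/M_IntS.lean), so `cnt = n`.  StMaC (`s = true`):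
`3 k ≤ 3 n + U D + KB true D`, and `fH D + uH true D ≤ WL D` (full pieces and left arms of holes are different pieces with `hlo = X0`), so `U + KB ≤ 5 (sz - h) ≤ 5 (n - 1)`. -/
def StInC : Prop := ∀ (n : ℕ) (s : Fin n → IBox), 0 < n → Seeds n s →
  ∃ k : ℕ, Bsp (bx s) ⟨0, 2 * n + 1, 0, 2 * n + 1⟩ k ∧ 3 * k + 5 ≤ 8 * n

/-- StReC.  The theorem; as pReal in Pool/Agent/RB/M_Real.lean, with StInC instead of StIntS. -/
def StReC : Prop := ∀ S : Finset Rect, S.Nonempty → (S : Set Rect).PairwiseDisjoint Rect.toSet →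
  ∃ T : Tree, IsBSP S T Set.univ ∧ Strict S T Set.univ ∧ 3 * size S T Set.univ + 5 ≤ 8 * S.card

end Pool.RC
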