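import Pool.Agent.RC.Main1
import Pool.Agent.RC.St3

/-! # Project RC, module EC -/

set_option autoImplicit false

namespace Pool.RC

open Pool.RB

theorem pEC : StEC := by
  intro s D g p w hS hw hp hlo hlt
  simp only [EL, Finset.mem_filter] at hw
  obtain ⟨hwZ, hU, hic, -, -⟩ := hw
  have h := hS.ok.ok
  have hz := h.z w hwZ
  have hg := hS.hT w.xU hz.hU hU
  have eU := hz.eU
  exact
    { hw := hwZ
      hU := hU
      ic := hic
      hp := hp
      hlo := hlo
      hlt := by omega
      hT := fun x hx hxY => lt_of_lt_of_le hlt (hS.hT x hx hxY) }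

end Pool.RC
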