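import Pool.Agent.RC.St3
import Pool.Agent.RC.Main1
import Pool.Agent.RB.Main

/-!
# Project RC (MP_c6e2b4_co), module F2: a tower and another element which is not lower
-/

set_option autoImplicit false

namespace Pool.RC

open Pool.RB

private lemma F2_y12 (z : Hole) (h : (z.yL < z.yR ∧ z.xU < z.xD) ∨ (z.yR < z.yL ∧ z.xD < z.xU)) :
    z.y1 < z.y2 := by
  unfold Hole.y1 Hole.y2
  rcases h with h | h
  · exact lt_of_le_of_lt (min_le_left _ _) (lt_of_lt_of_le h.1 (le_max_right _ _))
  · exact lt_of_le_of_lt (min_le_right _ _) (lt_of_lt_of_le h.1 (le_max_left _ _))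

theorem pF2 (hBadS : StBadS) : StF2 := by
  intro s D g w1 w hS hw1 hw hne hle
  have hok := hS.ok.ok
  have h1 := hw1
  have h2 := hw
  simp only [EL, Finset.mem_filter] at h1 h2
  have k1 := hok.z w1 h1.1
  have k2 := hok.z w h2.1
  have v1 := hok.v _ k1.hD
  have v2 := hok.v _ k2.hD
  have hxne : w.xD ≠ w1.xD := fun h => hne ((qHU D hok w h2.1 w1 h1.1).2.2.2 h)
  have hy : g ≤ w1.y1 := by
    have := hS.hT w1.xU k1.hU h1.2.1
    rwa [k1.eU] at this
  have hyy : w1.y1 < D.vhi w1.xD := by
    rw [k1.eD]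
    exact F2_y12 w1 k1.chir
  have hgw : D.vlo w.xD < g := h2.2.2.2.2
  have hend : D.vlo w.xD ∈ D.H ∧ D.hlo (D.vlo w.xD) < w.xD ∧ w.xD < D.hhi (D.vlo w.xD) := by
    rcases hok.vlo_end _ k2.hD with h | h
    · exact absurd h (hS.lo w hw)
    · exact h
  constructor
  · intro hB hT
    have hb := ((hBadS D w1 hS.ok h1.1).1 hB).2.1
    have hlt : D.vlo w1.xD < D.vlo w.xD := by
      rcases lt_or_eq_of_le hle with h | h
      · exact h
      · exact absurd (hb w.xD k2.hD h.symm) hxne
    have hxlt : w1.xD < w.xD := by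
      rcases lt_trichotomy w.xD w1.xD with h | h | h
      · exact absurd (hT w.xD k2.hD h hgw (by omega)) id
      · exact absurd h hxne
      · exact h
    refine ⟨hlt, hxlt, fun hX => ?_⟩
    exact hok.nc w1.xD k1.hD _ hend.1 hlt (by omega) (by omega) (by omega)
  · intro hB hT
    have hb := ((hBadS D w1 hS.ok h1.1).2 hB).2.1
    have hlt : D.vlo w1.xD < D.vlo w.xD := by
      rcases lt_or_eq_of_le hle with h | h
      · exact h
      · exact absurd (hb w.xD k2.hD h.symm) hxne
    have hxlt : w.xD < w1.xD := by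
      rcases lt_trichotomy w.xD w1.xD with h | h | h
      · exact h
      · exact absurd h hxne
      · exact absurd (hT w.xD k2.hD h hgw (by omega)) id
    refine ⟨hlt, hxlt, fun hX => ?_⟩
    exact hok.nc w1.xD k1.hD _ hend.1 hlt (by omega) (by omega) (by omega)

end Pool.RC
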