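import Pool.Agent.RC.St1
import Pool.Agent.RB.Main

/-! MP_c6e2b4_co, project RC, module I3: ends at the new walls of the two parts. -/

namespace Pool.RC

open Pool.RB

/-- abstract count: `W`, `Del` disjoint, `P`, `E`, `Ui` pairwise disjoint, same union -/
private theorem I3_card {W Del P E Ui : Finset ℤ} (h : W ∪ Del = P ∪ (E ∪ Ui)) (h1 : Disjoint W Del)
    (h2 : Disjoint P (E ∪ Ui)) (h3 : Disjoint E Ui) : W.card + Del.card = P.card + (E.card + Ui.card) := by
  rw [← Finset.card_union_of_disjoint h1, h, Finset.card_union_of_disjoint h2,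
    Finset.card_union_of_disjoint h3]

private theorem I3_up (D : Cfg) (c : ℤ) (hD : OkC D) :
    WB (upA D c) + hit D c = crs D c + (eUp D c).card := by
  have HBz : ∀ z ∈ D.Z, HB D z := fun z hz => qHB D hD.ok z hz
  have HO : ∀ z ∈ D.Z, HoleOk D z := fun z hz => hD.ok.z z hz
  have hcDel : ((D.Z.filter (fun z => z.y1 ≤ c ∧ c < z.y2)).image Hole.xD).card
      = (D.Z.filter (fun z => z.y1 ≤ c ∧ c < z.y2)).card := by
    apply Finset.card_image_of_injOn
    intro z hz w hw hzw
    have hz' := (Finset.mem_filter.mp (Finset.mem_coe.mp hz)).1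
    have hw' := (Finset.mem_filter.mp (Finset.mem_coe.mp hw)).1
    exact (qHU D hD.ok z hz' w hw').2.2.2 hzw
  have hcU : ((D.Z.filter (fun z => z.y1 = c)).image Hole.xU).card
      = (D.Z.filter (fun z => z.y1 = c)).card := by
    apply Finset.card_image_of_injOn
    intro z hz w hw hzw
    have hz' := (Finset.mem_filter.mp (Finset.mem_coe.mp hz)).1
    have hw' := (Finset.mem_filter.mp (Finset.mem_coe.mp hw)).1
    exact (qHU D hD.ok z hz' w hw').2.2.1 hzw
  have hsplit : (D.Z.filter (fun z => z.y1 ≤ c ∧ c < z.y2)).card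
      = hit D c + (D.Z.filter (fun z => z.y1 = c)).card := by
    unfold hit
    rw [← Finset.card_union_of_disjoint]
    · apply congrArg Finset.card
      ext z
      simp only [Finset.mem_filter, Finset.mem_union]
      constructor
      · rintro ⟨hz, h1, h2⟩
        rcases lt_or_eq_of_le h1 with h | h
        · exact Or.inl ⟨hz, h, h2⟩
        · exact Or.inr ⟨hz, h⟩
      · rintro (⟨hz, h1, h2⟩ | ⟨hz, h⟩)
        · exact ⟨hz, le_of_lt h1, h2⟩
        · have := (HBz z hz).y12
          exact ⟨hz, by omega, by omega⟩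
    · rw [Finset.disjoint_left]
      intro z h1 h2
      have h3 := (Finset.mem_filter.mp h1).2
      have h4 := (Finset.mem_filter.mp h2).2
      omega
  have key := I3_card (W := (upA D c).V.filter (fun x => (upA D c).vlo x = (upA D c).Y0))
    (Del := (D.Z.filter (fun z => z.y1 ≤ c ∧ c < z.y2)).image Hole.xD)
    (P := D.V.filter (fun x => D.vlo x < c ∧ c < D.vhi x))
    (E := eUp D c) (Ui := (D.Z.filter (fun z => z.y1 = c)).image Hole.xU) ?_ ?_ ?_ ?_
  · have e1 : WB (upA D c) = ((upA D c).V.filter (fun x => (upA D c).vlo x = (upA D c).Y0)).card := rfl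
    have e2 : crs D c = (D.V.filter (fun x => D.vlo x < c ∧ c < D.vhi x)).card := rfl
    rw [hcDel, hcU, hsplit, ← e1, ← e2] at key
    omega
  · ext x
    simp only [upA, eUp, Finset.mem_union, Finset.mem_filter, Finset.mem_image]
    constructor
    · rintro (⟨⟨hx, h1, h2⟩, h3⟩ | ⟨z, ⟨hz, h1, h2⟩, rfl⟩)
      · have h4 : D.vlo x ≤ c := by
          have := le_max_left (D.vlo x) c
          omega
        rcases lt_or_eq_of_le h4 with h | h
        · exact Or.inl ⟨hx, h, h1⟩
        · right
          by_cases hh : ∃ z ∈ D.Z, z.xU = x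
          · obtain ⟨z, hz, hzx⟩ := hh
            right
            refine ⟨z, ⟨hz, ?_⟩, hzx⟩
            have := (HO z hz).eU
            rw [hzx] at this
            omega
          · left
            refine ⟨hx, h, ?_⟩
            intro z hz hzx
            exact hh ⟨z, hz, hzx⟩
      · left
        have a1 := (HBz z hz).loD
        have a2 := (HO z hz).eD
        exact ⟨(HO z hz).hD, by omega, by omega⟩
    · rintro (⟨hx, h1, h2⟩ | ⟨hx, h1, h2⟩ | ⟨z, ⟨hz, h1⟩, rfl⟩)
      · by_cases hh : ∃ z ∈ D.Z, z.y1 ≤ c ∧ c < z.y2 ∧ z.xD = x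
        · obtain ⟨z, hz, h3, h4, h5⟩ := hh
          exact Or.inr ⟨z, ⟨hz, h3, h4⟩, h5⟩
        · left
          refine ⟨⟨hx, h2, ?_⟩, ?_⟩
          · intro z hz h3 h4 h5
            exact hh ⟨z, hz, h3, h4, h5⟩
          · exact max_eq_right (le_of_lt h1)
      · left
        refine ⟨⟨hx, ?_, ?_⟩, ?_⟩
        · have := (hD.ok.v x hx).2.2.2.1
          omega
        · intro z hz h3 h4 h5
          have := (HBz z hz).loD
          rw [h5] at this
          omega
        · exact max_eq_right (le_of_eq h1)
      · left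
        have a1 := (HO z hz).eU
        have a2 := (HO z hz).hU
        have a3 := (HBz z hz).hiU
        have a4 := (HBz z hz).y12
        refine ⟨⟨a2, by omega, ?_⟩, ?_⟩
        · intro w hw h3 h4 h5
          have := (HBz w hw).loD
          rw [h5] at this
          omega
        · exact max_eq_right (by omega)
  · rw [Finset.disjoint_left]
    intro x h1 h2
    simp only [upA, Finset.mem_filter] at h1
    simp only [Finset.mem_filter, Finset.mem_image] at h2
    obtain ⟨z, ⟨hz, h3, h4⟩, h5⟩ := h2
    exact h1.1.2.2 z hz h3 h4 h5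
  · rw [Finset.disjoint_left]
    intro x h1 h2
    simp only [Finset.mem_filter] at h1
    simp only [eUp, Finset.mem_union, Finset.mem_filter, Finset.mem_image] at h2
    rcases h2 with ⟨_, h3, _⟩ | ⟨z, ⟨hz, h3⟩, h4⟩
    · omega
    · have a1 := (HO z hz).eU
      rw [h4] at a1
      omega
  · rw [Finset.disjoint_left]
    intro x h1 h2
    simp only [eUp, Finset.mem_filter] at h1
    simp only [Finset.mem_filter, Finset.mem_image] at h2
    obtain ⟨z, ⟨hz, _⟩, h4⟩ := h2
    exact h1.2.2 z hz h4

private theorem I3_dn (D : Cfg) (c : ℤ) (hD : OkC D) :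
    WT (dnA D c) + hit D c = crs D c + (eDn D c).card := by
  have HBz : ∀ z ∈ D.Z, HB D z := fun z hz => qHB D hD.ok z hz
  have HO : ∀ z ∈ D.Z, HoleOk D z := fun z hz => hD.ok.z z hz
  have hcDel : ((D.Z.filter (fun z => z.y1 < c ∧ c ≤ z.y2)).image Hole.xU).card
      = (D.Z.filter (fun z => z.y1 < c ∧ c ≤ z.y2)).card := by
    apply Finset.card_image_of_injOn
    intro z hz w hw hzw
    have hz' := (Finset.mem_filter.mp (Finset.mem_coe.mp hz)).1
    have hw' := (Finset.mem_filter.mp (Finset.mem_coe.mp hw)).1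
    exact (qHU D hD.ok z hz' w hw').2.2.1 hzw
  have hcU : ((D.Z.filter (fun z => z.y2 = c)).image Hole.xD).card
      = (D.Z.filter (fun z => z.y2 = c)).card := by
    apply Finset.card_image_of_injOn
    intro z hz w hw hzw
    have hz' := (Finset.mem_filter.mp (Finset.mem_coe.mp hz)).1
    have hw' := (Finset.mem_filter.mp (Finset.mem_coe.mp hw)).1
    exact (qHU D hD.ok z hz' w hw').2.2.2 hzw
  have hsplit : (D.Z.filter (fun z => z.y1 < c ∧ c ≤ z.y2)).card
      = hit D c + (D.Z.filter (fun z => z.y2 = c)).card := by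
    unfold hit
    rw [← Finset.card_union_of_disjoint]
    · apply congrArg Finset.card
      ext z
      simp only [Finset.mem_filter, Finset.mem_union]
      constructor
      · rintro ⟨hz, h1, h2⟩
        rcases lt_or_eq_of_le h2 with h | h
        · exact Or.inl ⟨hz, h1, h⟩
        · exact Or.inr ⟨hz, h.symm⟩
      · rintro (⟨hz, h1, h2⟩ | ⟨hz, h⟩)
        · exact ⟨hz, h1, le_of_lt h2⟩
        · have := (HBz z hz).y12
          exact ⟨hz, by omega, by omega⟩
    · rw [Finset.disjoint_left]
      intro z h1 h2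
      have h3 := (Finset.mem_filter.mp h1).2
      have h4 := (Finset.mem_filter.mp h2).2
      omega
  have key := I3_card (W := (dnA D c).V.filter (fun x => (dnA D c).vhi x = (dnA D c).Y1))
    (Del := (D.Z.filter (fun z => z.y1 < c ∧ c ≤ z.y2)).image Hole.xU)
    (P := D.V.filter (fun x => D.vlo x < c ∧ c < D.vhi x))
    (E := eDn D c) (Ui := (D.Z.filter (fun z => z.y2 = c)).image Hole.xD) ?_ ?_ ?_ ?_
  · have e1 : WT (dnA D c) = ((dnA D c).V.filter (fun x => (dnA D c).vhi x = (dnA D c).Y1)).card := rfl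
    have e2 : crs D c = (D.V.filter (fun x => D.vlo x < c ∧ c < D.vhi x)).card := rfl
    rw [hcDel, hcU, hsplit, ← e1, ← e2] at key
    omega
  · ext x
    simp only [dnA, eDn, Finset.mem_union, Finset.mem_filter, Finset.mem_image]
    constructor
    · rintro (⟨⟨hx, h1, h2⟩, h3⟩ | ⟨z, ⟨hz, h1, h2⟩, rfl⟩)
      · have h4 : c ≤ D.vhi x := by
          have := min_le_left (D.vhi x) c
          omega
        rcases lt_or_eq_of_le h4 with h | h
        · exact Or.inl ⟨hx, h1, h⟩
        · right
          by_cases hh : ∃ z ∈ D.Z, z.xD = x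
          · obtain ⟨z, hz, hzx⟩ := hh
            right
            refine ⟨z, ⟨hz, ?_⟩, hzx⟩
            have := (HO z hz).eD
            rw [hzx] at this
            omega
          · left
            refine ⟨hx, h.symm, ?_⟩
            intro z hz hzx
            exact hh ⟨z, hz, hzx⟩
      · left
        have a1 := (HBz z hz).hiU
        have a2 := (HO z hz).eU
        exact ⟨(HO z hz).hU, by omega, by omega⟩
    · rintro (⟨hx, h1, h2⟩ | ⟨hx, h1, h2⟩ | ⟨z, ⟨hz, h1⟩, rfl⟩)
      · by_cases hh : ∃ z ∈ D.Z, z.y1 < c ∧ c ≤ z.y2 ∧ z.xU = x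
        · obtain ⟨z, hz, h3, h4, h5⟩ := hh
          exact Or.inr ⟨z, ⟨hz, h3, h4⟩, h5⟩
        · left
          refine ⟨⟨hx, h1, ?_⟩, ?_⟩
          · intro z hz h3 h4 h5
            exact hh ⟨z, hz, h3, h4, h5⟩
          · exact min_eq_right (le_of_lt h2)
      · left
        refine ⟨⟨hx, ?_, ?_⟩, ?_⟩
        · have := (hD.ok.v x hx).2.2.2.1
          omega
        · intro z hz h3 h4 h5
          have := (HBz z hz).hiU
          rw [h5] at this
          omega
        · exact min_eq_right (le_of_eq h1.symm)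
      · left
        have a1 := (HO z hz).eD
        have a2 := (HO z hz).hD
        have a3 := (HBz z hz).loD
        have a4 := (HBz z hz).y12
        refine ⟨⟨a2, by omega, ?_⟩, ?_⟩
        · intro w hw h3 h4 h5
          have := (HBz w hw).hiU
          rw [h5] at this
          omega
        · exact min_eq_right (by omega)
  · rw [Finset.disjoint_left]
    intro x h1 h2
    simp only [dnA, Finset.mem_filter] at h1
    simp only [Finset.mem_filter, Finset.mem_image] at h2
    obtain ⟨z, ⟨hz, h3, h4⟩, h5⟩ := h2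
    exact h1.1.2.2 z hz h3 h4 h5
  · rw [Finset.disjoint_left]
    intro x h1 h2
    simp only [Finset.mem_filter] at h1
    simp only [eDn, Finset.mem_union, Finset.mem_filter, Finset.mem_image] at h2
    rcases h2 with ⟨_, h3, _⟩ | ⟨z, ⟨hz, h3⟩, h4⟩
    · omega
    · have a1 := (HO z hz).eD
      rw [h4] at a1
      omega
  · rw [Finset.disjoint_left]
    intro x h1 h2
    simp only [eDn, Finset.mem_filter] at h1
    simp only [Finset.mem_filter, Finset.mem_image] at h2
    obtain ⟨z, ⟨hz, _⟩, h4⟩ := h2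
    exact h1.2.2 z hz h4

theorem pI3 : StI3 := fun D c hD _ => ⟨I3_up D c hD, I3_dn D c hD⟩

end Pool.RC
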