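import Pool.Agent.RC.St2
import Pool.Agent.RB.M_HB
import Pool.Agent.RB.M_HU

/-!
# RC module IC: inner sides in parts
-/

namespace Pool.RC

open Pool.RB

private lemma IC_sub_empty {A B : Finset ℤ} (h : A ⊆ B) (hB : B = ∅) : A = ∅ := by
  rw [hB] at h
  exact Finset.subset_empty.mp h

private lemma IC_upRt (D : Cfg) (z : Hole) (c : ℤ) (hD : OkC D) (hz : z ∈ D.Z) (hc : c < z.y1) :
    eRt (upA D c) z.xU = eRt D z.xU := by
  have hb := pHB D hD.ok z hz
  have hx : z.x1 ≤ z.xU := min_le_left _ _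
  have h1 := hb.X0lt
  have h2 := hb.y12
  unfold eRt upA
  ext y
  simp only [Finset.mem_filter]
  constructor
  · rintro ⟨⟨hy, hcy⟩, he, hn⟩
    refine ⟨hy, he, ?_⟩
    rintro w hw rfl
    by_cases hcw : c < w.y1
    · exact hn w ⟨hw, hcw⟩ rfl
    · have e := (hD.ok.z w hw).eR
      rw [he] at e
      have hor : w.x1 = w.xU ∨ w.x1 = w.xD := min_choice _ _
      rcases hor with h | h
      · rw [h] at e
        have := (pHU pHB D hD.ok z hz w hw).2.2.1 e
        subst this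
        exact hcw hc
      · rw [h] at e
        have := hD.ok.adjV z hz w hw e
        omega
  · rintro ⟨hy, he, hn⟩
    refine ⟨⟨hy, ?_⟩, he, fun w hw => hn w hw.1⟩
    rcases hD.ok.hlo_end y hy with h | ⟨_, h, _⟩
    · omega
    · rw [he, (hD.ok.z z hz).eU] at h
      omega

private lemma IC_upLf (D : Cfg) (z : Hole) (c : ℤ) (hD : OkC D) (hz : z ∈ D.Z) (hc : c < z.y1) :
    eLf (upA D c) z.xU = eLf D z.xU := by
  have hb := pHB D hD.ok z hz
  have hx : z.xU ≤ z.x2 := le_max_left _ _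
  have h1 := hb.ltX1
  have h2 := hb.y12
  unfold eLf upA
  ext y
  simp only [Finset.mem_filter]
  constructor
  · rintro ⟨⟨hy, hcy⟩, he, hn⟩
    refine ⟨hy, he, ?_⟩
    rintro w hw rfl
    by_cases hcw : c < w.y1
    · exact hn w ⟨hw, hcw⟩ rfl
    · have e := (hD.ok.z w hw).eL
      rw [he] at e
      have hor : w.x2 = w.xU ∨ w.x2 = w.xD := max_choice _ _
      rcases hor with h | h
      · rw [h] at e
        have := (pHU pHB D hD.ok z hz w hw).2.2.1 e
        subst this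
        exact hcw hc
      · rw [h] at e
        have := hD.ok.adjV z hz w hw e
        omega
  · rintro ⟨hy, he, hn⟩
    refine ⟨⟨hy, ?_⟩, he, fun w hw => hn w hw.1⟩
    rcases hD.ok.hhi_end y hy with h | ⟨_, h, _⟩
    · omega
    · rw [he, (hD.ok.z z hz).eU] at h
      omega

private lemma IC_dnUp (D : Cfg) (c y : ℤ) (hc : y < c) : eUp D y ⊆ eUp (dnA D c) y := by
  unfold eUp dnA
  intro x
  simp only [Finset.mem_filter]
  rintro ⟨hx, he, hn⟩
  exact ⟨⟨hx, by omega, fun w hw _ _ => hn w hw⟩, he, fun w hw => hn w hw.1⟩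

private lemma IC_dnDn (D : Cfg) (c y : ℤ) (hD : OkC D) (hc : y < c) : eDn D y ⊆ eDn (dnA D c) y := by
  unfold eDn dnA
  intro x
  simp only [Finset.mem_filter]
  rintro ⟨hx, he, hn⟩
  have hv := hD.ok.v x hx
  refine ⟨⟨hx, by omega, ?_⟩, by omega, fun w hw => hn w hw.1⟩
  rintro w hw h1 h2 rfl
  have hb := (pHB D hD.ok w hw).hiU
  omega

private lemma IC_lfRt (D : Cfg) (c x : ℤ) (hc : x < c) : eRt D x ⊆ eRt (lfA D c) x := by
  unfold eRt lfA
  intro y
  simp only [Finset.mem_filter]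
  rintro ⟨hy, he, hn⟩
  exact ⟨⟨hy, by omega, fun w hw _ _ => hn w hw⟩, he, fun w hw => hn w hw.1⟩

private lemma IC_lfLf (D : Cfg) (c x : ℤ) (hD : OkC D) (hc : x < c) : eLf D x ⊆ eLf (lfA D c) x := by
  unfold eLf lfA
  intro y
  simp only [Finset.mem_filter]
  rintro ⟨hy, he, hn⟩
  have hv := hD.ok.h y hy
  refine ⟨⟨hy, by omega, ?_⟩, by omega, fun w hw => hn w hw.1⟩
  rintro w hw h1 h2 rfl
  have hb := (pHB D hD.ok w hw).hiR
  omega

private lemma IC_rtRt (D : Cfg) (c x : ℤ) (hD : OkC D) (hc : c < x) : eRt D x ⊆ eRt (rtA D c) x := by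
  unfold eRt rtA
  intro y
  simp only [Finset.mem_filter]
  rintro ⟨hy, he, hn⟩
  have hv := hD.ok.h y hy
  refine ⟨⟨hy, by omega, ?_⟩, by omega, fun w hw => hn w hw.1⟩
  rintro w hw h1 h2 rfl
  have hb := (pHB D hD.ok w hw).loL
  omega

private lemma IC_rtLf (D : Cfg) (c x : ℤ) (hc : c < x) : eLf D x ⊆ eLf (rtA D c) x := by
  unfold eLf rtA
  intro y
  simp only [Finset.mem_filter]
  rintro ⟨hy, he, hn⟩
  exact ⟨⟨hy, by omega, fun w hw _ _ => hn w hw⟩, he, fun w hw => hn w hw.1⟩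

/-- inner sides in parts -/
theorem pIC : StIC := by
  intro D z c hD hz
  have hxl : z.x1 ≤ z.xU := min_le_left _ _
  have hxr : z.xU ≤ z.x2 := le_max_left _ _
  have hyL : z.yL ≤ z.y2 := le_max_left _ _
  have hyR : z.yR ≤ z.y2 := le_max_right _ _
  refine ⟨?_, ?_, ?_, ?_⟩
  · intro _ hc
    unfold icU
    rw [IC_upRt D z c hD hz hc, IC_upLf D z c hD hz hc]
  · intro s hc _ h
    refine ⟨h.1, ?_⟩
    have h2 := h.2
    cases s with
    | true =>
      simp only [if_true] at h2 ⊢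
      exact ⟨fun hh => IC_sub_empty (IC_dnUp D c z.yL (by omega)) (h2.1 hh),
        fun hh => IC_sub_empty (IC_dnDn D c z.yL hD (by omega)) (h2.2 hh)⟩
    | false =>
      simp only [Bool.false_eq_true, if_false] at h2 ⊢
      exact ⟨fun hh => IC_sub_empty (IC_dnDn D c z.yR hD (by omega)) (h2.1 hh),
        fun hh => IC_sub_empty (IC_dnUp D c z.yR (by omega)) (h2.2 hh)⟩
  · intro hc _ h
    exact ⟨fun hh => IC_sub_empty (IC_lfRt D c z.xU (by omega)) (h.1 hh),
      fun hh => IC_sub_empty (IC_lfLf D c z.xU hD (by omega)) (h.2 hh)⟩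
  · intro _ hc h
    exact ⟨fun hh => IC_sub_empty (IC_rtRt D c z.xU hD (by omega)) (h.1 hh),
      fun hh => IC_sub_empty (IC_rtLf D c z.xU (by omega)) (h.2 hh)⟩

end Pool.RC
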