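import Pool.Agent.RC.Main1

/-! Project RC, module IHs: consequences of the induction hypothesis. -/

namespace Pool.RC

open Pool.RB

theorem pIHs (hSymZ : StSymZ) : StIHs := by
  obtain ⟨hU, hK, -⟩ := hSymZ
  have szT : ∀ D : Cfg, D.tr.sz = D.sz := fun D => (qSzA.2.2.2 D).1
  have szX : ∀ D : Cfg, D.fx.sz = D.sz := fun D => (qSzA.2.2.2 D).2.1
  refine ⟨fun D E ih hE hs => ⟨?_, ?_, fun s => ih E hE hs s⟩, ?_, ?_⟩
  · have h := ih E.fx.tr.fx (qCFx _ (qCTr _ (qCFx _ hE))) (by rw [szX, szT, szX]; exact hs) true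
    unfold P SolZ at h
    rw [(qSolSym _ _).2.1, (qSolSym _ _).1, (qSolSym _ _).2.1, (hU true E.fx.tr).1,
      (hU true E.fx).2.2, (hU true E).1, (hK E).1] at h
    exact h
  · have h := ih E.tr.fx (qCFx _ (qCTr _ hE)) (by rw [szX, szT]; exact hs) true
    unfold P SolZ at h
    rw [(qSolSym _ _).2.1, (qSolSym _ _).1, (hU true E.tr).1, (hU true E).2.2, (hK E).2.1] at h
    exact h
  · intro D ih E hE hs s
    exact ih E hE (by rw [szX] at hs; exact hs) s
  · intro s D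
    unfold P SolZ
    rw [(qSolSym _ _).2.1, (hU s D).1, (hU s D).2.1]

end Pool.RC
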