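import Pool.Agent.RC.St3
import Pool.Agent.RC.M_CSym

/-!
# Project RC, module Ic
-/

namespace Pool.RC

open Pool.RB

private theorem Ic_irr (D : Cfg) (h : Irr D) : Irr D.fx := by
  obtain ⟨h1, h2⟩ := h
  constructor
  · intro y hy hc
    apply h1 y hy
    obtain ⟨c1, c2⟩ := hc
    have e1 : D.fx.hlo y = - D.hhi y := rfl
    have e2 : D.fx.hhi y = - D.hlo y := rfl
    have e3 : D.fx.X0 = - D.X1 := rfl
    have e4 : D.fx.X1 = - D.X0 := rfl
    rw [e1, e3] at c1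
    rw [e2, e4] at c2
    constructor <;> omega
  · intro x hx hc
    have hx' : x ∈ D.V.image (fun x => -x) := hx
    obtain ⟨a, ha, rfl⟩ := Finset.mem_image.1 hx'
    apply h2 a ha
    obtain ⟨c1, c2⟩ := hc
    have e1 : D.fx.vlo (-a) = D.vlo (- (-a)) := rfl
    have e2 : D.fx.vhi (-a) = D.vhi (- (-a)) := rfl
    have e3 : D.fx.Y0 = D.Y0 := rfl
    have e4 : D.fx.Y1 = D.Y1 := rfl
    rw [e1, e3, neg_neg] at c1
    rw [e2, e4, neg_neg] at c2
    exact ⟨c1, c2⟩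

theorem pIc (hSymZ : StSymZ) (hIHs : StIHs) (hSit : StSit) (hIcA : StIcA) : StIc := by
  intro s D w hD hIH hI hw hU hic hLI hb
  have hO := hD.ok
  rcases (hO.z w hw).chir with ⟨h1, _⟩ | ⟨h1, _⟩
  · exact hIcA s D w hD hIH hI hw hU hic hLI hb h1
  · rw [← hIHs.2.2 s D]
    apply hIcA (!s) D.fx w.fx (pCFx D hD) (hIHs.2.1 D hIH) (Ic_irr D hI)
    · exact Finset.mem_image.2 ⟨w, hw, rfl⟩
    · show D.vhi (- (- w.xU)) = D.Y1
      rw [neg_neg]
      exact hU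
    · exact (hSymZ.2.2 s D w).2.1.2 hic
    · intro h
      exact hLI ((hSymZ.2.2 s D w).1.1 h)
    · show D.vlo (- (- w.xD)) = D.Y0
      rw [neg_neg]
      exact hb
    · show w.yR < w.yL
      exact h1

end Pool.RC
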