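import Pool.Agent.RC.St3
import Pool.Agent.RC.Main1
import Pool.Agent.RB.Main

/-! # Project RC, module IcA: an element of type A standing on the bottom wall -/

set_option autoImplicit false

namespace Pool.RC

open Pool.RB

/-- the facts about the hole `w` of type A with bottom attached down arm -/
private structure IcAS (D : Cfg) (w : Hole) : Prop where
  ok : OkC D
  hw : w ∈ D.Z
  hU : D.vhi w.xU = D.Y1
  lo : D.vlo w.xD = D.Y0
  hA : w.yL < w.yR
  hX : w.xU < w.xD
  eL : D.hhi w.yL = w.xD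
  eR : D.hlo w.yR = w.xU
  eU : D.vlo w.xU = w.yL
  eD : D.vhi w.xD = w.yR
  X0 : D.X0 < w.xU
  X1 : w.xD < D.X1
  Y0 : D.Y0 < w.yL
  Y1 : w.yR < D.Y1
  vV : w.xD ∈ D.V
  uV : w.xU ∈ D.V
  lH : w.yL ∈ D.H
  rH : w.yR ∈ D.H

private theorem IcA_mk (D : Cfg) (w : Hole) (hD : OkC D) (hw : w ∈ D.Z) (hU : D.vhi w.xU = D.Y1)
    (hlo : D.vlo w.xD = D.Y0) (hA : w.yL < w.yR) : IcAS D w := by
  have ho := hD.ok.z w hw
  have hb := qHB D hD.ok w hw
  have hX : w.xU < w.xD := by
    rcases ho.chir with h | h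
    · exact h.2
    · omega
  have x1 : w.x1 = w.xU := min_eq_left hX.le
  have x2 : w.x2 = w.xD := max_eq_right hX.le
  have y1 : w.y1 = w.yL := min_eq_left hA.le
  have y2 : w.y2 = w.yR := max_eq_right hA.le
  refine ⟨hD, hw, hU, hlo, hA, hX, ?_, ?_, ?_, ?_, ?_, ?_, ?_, ?_, ho.hD, ho.hU, ho.hL, ho.hR⟩
  · rw [ho.eL, x2]
  · rw [ho.eR, x1]
  · rw [ho.eU, y1]
  · rw [ho.eD, y2]
  · rw [← x1]; exact hb.X0lt
  · rw [← x2]; exact hb.ltX1
  · rw [← y1]; exact hb.Y0lt
  · rw [← y2]; exact hb.ltY1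

/-- a left end on `w.xD` is not owned -/
private theorem IcA_noR (D : Cfg) (w : Hole) (h : IcAS D w) (y : ℤ) (hy : D.hlo y = w.xD)
    (z : Hole) (hz : z ∈ D.Z) : z.yR ≠ y := by
  intro hzy
  have e := (h.ok.ok.z z hz).eR
  rw [hzy, hy] at e
  have e' : w.xD = min z.xU z.xD := e
  have hX := h.hX
  rcases min_choice z.xU z.xD with h' | h'
  · have h8 : z.xU = w.xD := by rw [e', h']
    have e2 := (h.ok.ok.z z hz).eU
    have e3 := (qHB D h.ok.ok z hz).Y0lt
    rw [h8, h.lo] at e2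
    omega
  · have hzw : z = w := (qHU D h.ok.ok z hz w h.hw).2.2.2 (by rw [e', h'])
    rw [hzw] at e'
    have := min_le_left w.xU w.xD
    omega

/-- a right end on `w.xD` which is owned belongs to `w.yL` -/
private theorem IcA_noL (D : Cfg) (w : Hole) (h : IcAS D w) (y : ℤ) (hy : D.hhi y = w.xD)
    (z : Hole) (hz : z ∈ D.Z) (hzy : z.yL = y) : y = w.yL := by
  have e := (h.ok.ok.z z hz).eL
  rw [hzy, hy] at e
  have e' : w.xD = max z.xU z.xD := e
  rcases max_choice z.xU z.xD with h' | h'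
  · have h8 : z.xU = w.xD := by rw [e', h']
    have e2 := (h.ok.ok.z z hz).eU
    have e3 := (qHB D h.ok.ok z hz).Y0lt
    rw [h8, h.lo] at e2
    omega
  · have hzw : z = w := (qHU D h.ok.ok z hz w h.hw).2.2.2 (by rw [e', h'])
    rw [← hzy, hzw]

/-- a left attached piece is no right arm -/
private theorem IcA_nR (D : Cfg) (hD : OkC D) (y : ℤ) (hy : D.hlo y = D.X0)
    (z : Hole) (hz : z ∈ D.Z) : z.yR ≠ y := by
  intro hzy
  have e := (hD.ok.z z hz).eR
  have := (qHB D hD.ok z hz).X0lt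
  rw [hzy, hy] at e
  omega

private theorem IcA_memL (D : Cfg) (w : Hole) (h : IcAS D w) (c : ℤ) (hc : c ∈ D.H) (hc0 : D.hlo c = D.X0) :
    c ∈ (lfA D w.xD).H := by
  refine Finset.mem_filter.2 ⟨hc, ?_, ?_⟩
  · have h1 := h.X0
    have h2 := h.hX
    omega
  · intro z hz _ _
    exact IcA_nR D h.ok c hc0 z hz

/-- case (a) -/
private theorem IcA_a (s : Bool) (D : Cfg) (w : Hole) (h : IcAS D w) (hCorn : StCorn) (hLI : ¬ LI s D w)
    (only : ∀ x ∈ D.V, D.vlo x = D.Y0 → x = w.xD) (h0 : D.hlo w.yL = D.X0) :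
    1 ≤ gn (lfA D w.xD) w.yL ∧ (eV D w.xD = 0 → 2 ≤ gn (lfA D w.xD) w.yL) := by
  classical
  have hX := h.hX
  have hA := h.hA
  have X0 := h.X0
  have X1 := h.X1
  have Y0 := h.Y0
  have Y1 := h.Y1
  have eL := h.eL
  have eR := h.eR
  have eU := h.eU
  have eD := h.eD
  have lo := h.lo
  have hxu : w.xU ∈ eUp (lfA D w.xD) w.yL := by
    refine Finset.mem_filter.2 ⟨Finset.mem_filter.2 ⟨h.uV, hX⟩, eU, ?_⟩
    intro z hz hzx
    have hz' := Finset.mem_filter.mp (show z ∈ D.Z.filter (fun z => z.x2 < w.xD) from hz)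
    have hzw : z = w := (qHU D h.ok.ok z hz'.1 w h.hw).2.2.1 hzx
    have h1 := hz'.2
    rw [hzw] at h1
    have h2 : w.x2 = w.xD := max_eq_right hX.le
    omega
  refine ⟨?_, ?_⟩
  · have h1 := Finset.card_pos.2 ⟨_, hxu⟩
    unfold gn
    omega
  intro hev
  have hR0 : eRt D w.xD = ∅ := by
    rw [← Finset.card_eq_zero]
    unfold eV at hev
    omega
  obtain ⟨-, d, hd, d1, d2, d3, hf⟩ := hCorn D w.xD h.ok h.vV lo (by rw [eD]; omega) only
  have hdd := h.ok.ok.h d hd
  have d4 : D.hlo d < w.xD := by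
    rcases lt_or_eq_of_le d2 with h1 | h1
    · exact h1
    · exfalso
      have h2 : d ∈ eRt D w.xD :=
        Finset.mem_filter.2 ⟨hd, h1, fun z hz => IcA_noR D w h d h1 z hz⟩
      rw [hR0] at h2
      exact absurd h2 (Finset.notMem_empty d)
  have d5 : d = w.yR := by
    by_contra h1
    have d3' : d ≤ w.yR := by rw [← eD]; exact d3
    exact h.ok.ok.nc w.xD h.vV d hd (by omega) (by rw [eD]; omega) d4 (by omega)
  rw [d5] at d1 d2 d3 d4 hf
  have hLC : LC D w := ⟨h0, d1⟩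
  cases s with
  | true =>
    have hne : (eUp D w.yL).Nonempty := by
      rw [Finset.nonempty_iff_ne_empty]
      intro he
      exact hLI ⟨hLC, by
        rw [if_pos rfl]
        exact ⟨fun _ => he, fun h9 => by omega⟩⟩
    obtain ⟨x, hx⟩ := hne
    have hx' := Finset.mem_filter.mp hx
    have hxe := h.ok.ok.vlo_end x hx'.1
    have hx1 := hx'.2.1
    have hxlt : x < w.xD := by
      rcases hxe with h9 | h9
      · omega
      · rw [hx1, eL] at h9
        exact h9.2.2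
    have hxx : x ∈ eUp (lfA D w.xD) w.yL := by
      refine Finset.mem_filter.2 ⟨Finset.mem_filter.2 ⟨hx'.1, hxlt⟩, hx1, ?_⟩
      intro z hz
      have hz' := Finset.mem_filter.mp (show z ∈ D.Z.filter (fun z => z.x2 < w.xD) from hz)
      exact hx'.2.2 z hz'.1
    have hxne : x ≠ w.xU := fun h9 => hx'.2.2 w h.hw h9.symm
    have hsub : ({x, w.xU} : Finset ℤ) ⊆ eUp (lfA D w.xD) w.yL := by
      intro t ht
      rw [Finset.mem_insert, Finset.mem_singleton] at ht
      rcases ht with rfl | rfl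
      · exact hxx
      · exact hxu
    have hc := Finset.card_le_card hsub
    rw [Finset.card_pair hxne] at hc
    unfold gn
    omega
  | false =>
    exfalso
    have hne : (eDn D w.yR).Nonempty := by
      rw [Finset.nonempty_iff_ne_empty]
      intro he
      exact hLI ⟨hLC, by
        rw [if_neg (by decide)]
        exact ⟨fun _ => he, fun h9 => by omega⟩⟩
    obtain ⟨x, hx⟩ := hne
    have hx' := Finset.mem_filter.mp hx
    have hx1 := hx'.2.1
    have hxv := h.ok.ok.v x hx'.1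
    have hx2 : w.xU < x := by
      rcases h.ok.ok.vhi_end x hx'.1 with h9 | h9
      · omega
      · rw [hx1, eR] at h9
        exact h9.2.1
    have hne2 : x ≠ w.xD := fun h9 => hx'.2.2 w h.hw h9.symm
    have x1 : w.x1 = w.xU := min_eq_left hX.le
    have x2 : w.x2 = w.xD := max_eq_right hX.le
    have y1 : w.y1 = w.yL := min_eq_left hA.le
    have y2 : w.y2 = w.yR := max_eq_right hA.le
    rcases lt_or_gt_of_ne hne2 with h9 | h9
    · exact h.ok.cV w h.hw x hx'.1 (by omega) (by omega) (by omega) (by omega)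
    · refine hf.noV x hx'.1 h9 hxv.2.1 ?_ ?_
      · show D.vlo x < w.yR
        omega
      · show D.Y0 < D.vhi x
        omega

/-- case (b) -/
private theorem IcA_b (D : Cfg) (w : Hole) (h : IcAS D w) (hCorn : StCorn)
    (only : ∀ x ∈ D.V, D.vlo x = D.Y0 → x = w.xD) (h0 : D.hlo w.yL ≠ D.X0) (hev : eV D w.xD ≤ 1) :
    1 ≤ eV D w.xD ∧ ∃ c ∈ D.H, D.hlo c = D.X0 ∧ w.xD ≤ D.hhi c ∧ 1 ≤ gn (lfA D w.xD) c := by
  classical
  have hX := h.hX
  have hA := h.hA
  have X0 := h.X0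
  have X1 := h.X1
  have Y0 := h.Y0
  have Y1 := h.Y1
  have eL := h.eL
  have eR := h.eR
  have eU := h.eU
  have eD := h.eD
  have lo := h.lo
  obtain ⟨⟨c, hc, c1, c2, c3, -⟩, -⟩ := hCorn D w.xD h.ok h.vV lo (by rw [eD]; omega) only
  rw [eD] at c3
  have hcc := h.ok.ok.h c hc
  have n1 : c ≠ w.yL := fun h9 => h0 (by rw [← h9]; exact c1)
  have n2 : c ≠ w.yR := fun h9 => by
    rw [← h9, c1] at eR
    omega
  have c4 : D.hhi c = w.xD := by
    by_contra h9
    exact h.ok.ok.nc w.xD h.vV c hc (by omega) (by omega) (by omega) (by omega)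
  have noL : ∀ z ∈ D.Z, z.yL ≠ c := fun z hz h9 => n1 (IcA_noL D w h c c4 z hz h9)
  have noR : ∀ z ∈ D.Z, z.yR ≠ c := fun z hz => IcA_nR D h.ok c c1 z hz
  have hcL : c ∈ eLf D w.xD := Finset.mem_filter.2 ⟨hc, c4, noL⟩
  have hcard := Finset.card_pos.2 ⟨_, hcL⟩
  have hL1 : (eLf D w.xD).card ≤ 1 := by
    unfold eV at hev
    omega
  refine ⟨by unfold eV; omega, c, hc, c1, c2, ?_⟩
  obtain ⟨f, hf, f1, f2, f3, f4⟩ := qFE D (w.xD - 1) c h.ok.ok (by omega) (by omega) (by omega) (by omega)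
  have g1 : f.x2 = w.xD := by
    by_contra h9
    exact hf.noV w.xD h.vV (by omega) (by omega) (by omega) (by omega)
  have g2 : f.y1 = c := by
    by_contra h9
    exact hf.noH c hc (by omega) (by omega) (by omega) (by omega)
  have g3 : f.y2 ≤ w.yR := by
    rcases hf.right with h9 | h9
    · omega
    · have h10 := h9.2.2
      rw [g1, eD] at h10
      exact h10
  obtain ⟨t1, t2, t3⟩ : f.y2 ∈ D.H ∧ D.hlo f.y2 ≤ f.x1 ∧ f.x2 ≤ D.hhi f.y2 := by
    rcases hf.top with h9 | h9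
    · omega
    · exact h9
  rw [g1] at t3
  have g4 : D.X0 < f.x1 := by
    rcases eq_or_lt_of_le t3 with h9 | h9
    · have h10 : f.y2 = w.yL := by
        by_contra h11
        have h12 : f.y2 ∈ eLf D w.xD := by
          refine Finset.mem_filter.2 ⟨t1, h9.symm, fun z hz hzy => ?_⟩
          exact h11 (IcA_noL D w h f.y2 h9.symm z hz hzy)
        have h13 := Finset.card_le_one.1 hL1 _ h12 _ hcL
        omega
      have h14 := (h.ok.ok.h _ h.lH).2.2.1
      rw [h10] at t2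
      omega
    · have h10 : f.y2 = w.yR := by
        by_contra h11
        exact h.ok.ok.nc w.xD h.vV f.y2 t1 (by omega) (by rw [eD]; omega) (by omega) h9
      rw [h10, eR] at t2
      omega
  obtain ⟨l1, l2, l3⟩ : f.x1 ∈ D.V ∧ D.vlo f.x1 ≤ f.y1 ∧ f.y2 ≤ D.vhi f.x1 := by
    rcases hf.left with h9 | h9
    · omega
    · exact h9
  have g5 : D.vlo f.x1 = c := by
    by_contra h9
    exact h.ok.ok.nc f.x1 l1 c hc (by omega) (by omega) (by omega) (by omega)
  have g6 : f.x1 ∈ eUp (lfA D w.xD) c := by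
    refine Finset.mem_filter.2 ⟨Finset.mem_filter.2 ⟨l1, show f.x1 < w.xD by omega⟩, g5, ?_⟩
    intro z hz hzx
    have hz' := Finset.mem_filter.mp (show z ∈ D.Z.filter (fun z => z.x2 < w.xD) from hz)
    have e := (h.ok.ok.z z hz'.1).eU
    rw [hzx, g5] at e
    have e' : c = min z.yL z.yR := e
    rcases min_choice z.yL z.yR with h' | h'
    · exact noL z hz'.1 (by rw [e', h'])
    · exact noR z hz'.1 (by rw [e', h'])
  have h1 := Finset.card_pos.2 ⟨_, g6⟩
  unfold gn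
  omega

theorem pIcA (hMI : StMI) (hUVB : StUVB) (hCorn : StCorn) : StIcA := by
  classical
  intro s D w hD hIH hIrr hw hU hic hLI hlo hA
  have h := IcA_mk D w hD hw hU hlo hA
  obtain ⟨m1, m2⟩ := hMI s D w hD hIH hIrr hw hU hic hlo
  have hb := hUVB D hD
  by_cases hW : 2 ≤ WB D
  · exact m1 (by omega)
  have hvB : w.xD ∈ D.V.filter (fun x => D.vlo x = D.Y0) := Finset.mem_filter.2 ⟨h.vV, hlo⟩
  have hW1 : WB D = 1 := by
    have h1 : 0 < WB D := Finset.card_pos.2 ⟨_, hvB⟩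
    omega
  have only : ∀ x ∈ D.V, D.vlo x = D.Y0 → x = w.xD := by
    intro x hx hx0
    have h1 : (D.V.filter (fun x => D.vlo x = D.Y0)).card ≤ 1 := by
      have h2 : (D.V.filter (fun x => D.vlo x = D.Y0)).card = WB D := rfl
      omega
    exact Finset.card_le_one.1 h1 _ (Finset.mem_filter.2 ⟨hx, hx0⟩) _ hvB
  by_cases hev : 2 ≤ eV D w.xD
  · exact m1 (by omega)
  by_cases h0 : D.hlo w.yL = D.X0
  · obtain ⟨a1, a2⟩ := IcA_a s D w h hCorn hLI only h0
    refine m2 w.yL (IcA_memL D w h w.yL h.lH h0) h0 (by rw [h.eL]) ?_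
    by_cases he : eV D w.xD = 0
    · have a3 := a2 he
      omega
    · omega
  · obtain ⟨b1, c, hc, c1, c2, c3⟩ := IcA_b D w h hCorn only h0 (by omega)
    exact m2 c (IcA_memL D w h c hc c1) c1 c2 (by omega)

end Pool.RC
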