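import Pool.Agent.RC.Main1
import Pool.Agent.RC.St3
import Pool.Agent.RB.Main

/-! The integral form of the theorem of project RC. -/

namespace Pool.RC

open Pool.RB
open Pool.Agent.Helper4.BSPT (IBox Seeds ICost IMeets)

private theorem InC_fH (D : Cfg) : fH D ≤ WL D := by
  unfold fH WL
  refine Finset.card_le_card ?_
  intro y hy
  rw [Finset.mem_filter] at hy ⊢
  exact ⟨hy.1, hy.2.1⟩

private theorem InC_uH (s : Bool) (D : Cfg) (hD : Ok D) : uH s D ≤ WL D := by
  classical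
  unfold uH WL
  refine Finset.card_le_card_of_injOn (fun z => z.yL) ?_ ?_
  · intro z hz
    have hz' := (Finset.mem_filter.1 (Finset.mem_coe.1 hz))
    refine Finset.mem_coe.2 (Finset.mem_filter.2 ⟨(hD.z z hz'.1).hL, ?_⟩)
    exact hz'.2.1.1
  · intro z hz w hw e
    have hz' := (Finset.mem_filter.1 (Finset.mem_coe.1 hz)).1
    have hw' := (Finset.mem_filter.1 (Finset.mem_coe.1 hw)).1
    exact (Pool.RB.qHU D hD z hz' w hw').1 e

theorem pInC (hMaC : StMaC) : StInC := by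
  intro n s hn hs
  obtain ⟨D, hD, hbox, hfit, hsz⟩ := qRootC n s hn hs
  have hP : P true D := hMaC true D hD
  obtain ⟨k, hk, hle⟩ := hP (bx s) hfit
  rw [hbox] at hk hle
  refine ⟨k, hk, ?_⟩
  have hc : cnt (bx s) ⟨0, 2 * n + 1, 0, 2 * n + 1⟩ ≤ n := by
    refine (Finset.card_filter_le _ _).trans (Finset.card_image_le.trans ?_)
    simp
  have h1 := InC_fH D
  have h2 := InC_uH true D hD.ok
  have h3 : (3 : ℚ) * k ≤ 3 * (cnt (bx s) ⟨0, 2 * n + 1, 0, 2 * n + 1⟩ : ℚ) +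
      ((U D + KB true D : ℤ) : ℚ) := by linarith
  have h4 : (3 : ℤ) * k ≤ 3 * (cnt (bx s) ⟨0, 2 * n + 1, 0, 2 * n + 1⟩ : ℤ) +
      (U D + KB true D) := by exact_mod_cast h3
  unfold U KB at h4
  omega

end Pool.RC
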