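import Pool.Agent.RC.St3

/-! # Module K1 of project RC (helper23): the basic move at the lowest elements -/

namespace Pool.RC

open Pool.RB

/-- the hole `z` of a configuration has `y1 < y2` -/
private theorem K1_y12 {D : Cfg} {z : Hole} (hz : HoleOk D z) : z.y1 < z.y2 := by
  unfold Hole.y1 Hole.y2
  rcases hz.chir with h | h
  · rw [min_eq_left h.1.le, max_eq_right h.1.le]; exact h.1
  · rw [min_eq_right h.1.le, max_eq_left h.1.le]; exact h.1

private theorem K1_wH {D : Cfg} (hI : Irr D) {p : ℤ} (hp : p ∈ D.H) : wH D p ≤ 1 := by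
  have h := hI.1 p hp
  unfold wH
  by_cases h1 : D.hlo p = D.X0
  · have h2 : ¬ D.hhi p = D.X1 := fun h2 => h ⟨h1, h2⟩
    rw [if_pos h1, if_neg h2]
  · rw [if_neg h1]
    split_ifs <;> omega

theorem pK1 (hMR2 : StMR2) (hEC : StEC) (hMMl : StMMl) (hNum : StNum) (hOwn : StOwn) : StK1 := by
  classical
  intro s D g w hS hw hmin hfree
  -- the line `p`
  have hwE := hw
  unfold EL at hwE
  rw [Finset.mem_filter] at hwE
  obtain ⟨hwZ, -, -, -, hpg⟩ := hwE
  have hxV : w.xD ∈ D.V := (hS.ok.ok.z w hwZ).hD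
  have hpH : D.vlo w.xD ∈ D.H := by
    rcases hS.ok.ok.vlo_end w.xD hxV with h | h
    · exact absurd h (hS.lo w hw)
    · exact h.1
  obtain ⟨TN, HN, hTN, hHN, hcov, hTe, hHk⟩ := hNum s D g (D.vlo w.xD) hS hpH
  have hk : wH D (D.vlo w.xD) ≤ 1 := K1_wH hS.irr hpH
  have hM : (MM s D (D.vlo w.xD)).card ≤ TN.card + HN.card := by
    have hsub : MM s D (D.vlo w.xD) ⊆ TN ∪ HN := by
      intro z hz
      obtain ⟨hzE, hzl⟩ := (hMMl s D g (D.vlo w.xD) hS hpg z).1 hz
      have hzp : D.vlo z.xD = D.vlo w.xD := le_antisymm hzl (hmin z hzE)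
      rcases hcov z hzE hzp with h | h
      · exact Finset.mem_union_left _ h
      · exact Finset.mem_union_right _ h
    exact (Finset.card_le_card hsub).trans (Finset.card_union_le _ _)
  rcases HN.eq_empty_or_nonempty with h0 | ⟨w', hw'⟩
  · -- all lower ends are T-ends
    have hwT : w ∈ TN := by
      rcases hcov w hw rfl with h | h
      · exact h
      · rw [h0] at h; exact absurd h (Finset.notMem_empty _)
    have hT1 : 1 ≤ TN.card := Finset.card_pos.2 ⟨w, hwT⟩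
    have hH0 : HN.card = 0 := by rw [h0]; rfl
    have hec : EC D (D.vlo w.xD) w := hEC s D g (D.vlo w.xD) w hS hw hpH le_rfl hpg
    refine hMR2 s D (D.vlo w.xD) w hS.ok hS.ih hec ?_
    omega
  · have hH1 : 1 ≤ HN.card := Finset.card_pos.2 ⟨w', hw'⟩
    obtain ⟨hwE', hwp', z', hz'Z, hz'x, hz'y⟩ := (hHN w').1 hw'
    have hec : EC D (D.vlo w.xD) w' := hEC s D g (D.vlo w.xD) w' hS hwE' hpH hwp'.le hpg
    have hev : 1 ≤ eV (upA D (D.vlo w.xD)) w'.xD := by
      have h := (hOwn D (D.vlo w.xD) z' hS.ok hz'Z hz'y.le (hz'y ▸ K1_y12 (hS.ok.ok.z z' hz'Z))).2.2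
      rw [hz'x] at h
      exact h
    refine hMR2 s D (D.vlo w.xD) w' hS.ok hS.ih hec ?_
    omega

end Pool.RC
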