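import Pool.Agent.RC.St3
import Pool.Agent.RB.M_HB
import Pool.Agent.RB.M_HU

/-! Module K2 of project RC (MP_c6e2b4_co). -/

namespace Pool.RC

open Pool.RB

/-- the owner of an end on `p` has `yL = p` or `yR = p` -/
private theorem K2_y1 (z : Hole) (p : ℤ) (h : z.y1 = p) : z.yL = p ∨ z.yR = p := by
  unfold Hole.y1 at h
  rcases min_choice z.yL z.yR with h1 | h1
  · left; omega
  · right; omega

theorem pK2 (hMR2 : StMR2) (hEC : StEC) (hMMl : StMMl) (hNum : StNum) (hOwn : StOwn) (hBadS : StBadS)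
    (hF2 : StF2) (hKF : StKF) (hKP : StKP) : StK2 := by
  intro s D g w1 w2 hS hw1 hB1 hT1 hlow1 hw2 hne hlow2 hke
  have hok := hS.ok
  have hOk : Ok D := hok.ok
  classical
  -- membership facts
  have hEL : ∀ z, z ∈ EL s D g → z ∈ D.Z ∧ D.vlo z.xD < g := by
    intro z hz
    unfold EL at hz
    rw [Finset.mem_filter] at hz
    exact ⟨hz.1, hz.2.2.2.2⟩
  have hw1Z := (hEL w1 hw1).1
  have hw2Z := (hEL w2 hw2).1
  have hpg : D.vlo w2.xD < g := (hEL w2 hw2).2
  have hF := (hF2 s D g w1 w2 hS hw1 hw2 hne (hlow1 w2 hw2)).1 hB1 hT1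
  obtain ⟨hF1, hF2', hF3⟩ := hF
  have hpH : D.vlo w2.xD ∈ D.H := by
    rcases hOk.vlo_end w2.xD (hOk.z w2 hw2Z).hD with h | h
    · exact absurd h (hS.lo w2 hw2)
    · exact h.1
  generalize hp : D.vlo w2.xD = p at *
  obtain ⟨TN, HN, hTN, hHN, hTH, hTe, hHk⟩ := hNum s D g p hS hpH
  -- MM
  have hMM : MM s D p ⊆ insert w1 (TN ∪ HN) := by
    intro z hz
    rw [hMMl s D g p hS hpg] at hz
    rw [Finset.mem_insert, Finset.mem_union]
    by_cases h : z = w1
    · exact Or.inl h
    · right
      have h1 := hlow2 z hz.1 h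
      have h2 : D.vlo z.xD = p := le_antisymm hz.2 h1
      exact hTH z hz.1 h2
  have hMMc : (MM s D p).card ≤ 1 + TN.card + HN.card := by
    have h1 := Finset.card_le_card hMM
    have h2 := Finset.card_insert_le w1 (TN ∪ HN)
    have h3 := Finset.card_union_le TN HN
    omega
  -- wH
  have hk : (wH D p = 0) ∨ (wH D p = 1 ∧ D.hhi p = D.X1) := by
    unfold wH
    rw [if_neg hF3]
    by_cases h : D.hhi p = D.X1
    · right; rw [if_pos h]; exact ⟨rfl, h⟩
    · left; rw [if_neg h]
  -- no other hole with right arm at `z1`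
  obtain ⟨hb1, hb2, z1, hz1, hz1U, hz1t, hz1L, hz1y1, hz1R, hz1y2⟩ := (hBadS D w1 hok hw1Z).1 hB1
  have hnotz1 : ∀ z' ∈ D.Z, z'.y1 = p → z'.yR = z1.yR → False := by
    intro z' hz' hy hR
    have h := (pHU pHB D hOk z' hz' z1 hz1).2.1 hR
    subst h
    omega
  by_cases hHN0 : HN = ∅
  · -- h = 0
    have hw2T : w2 ∈ TN := by
      rcases hTH w2 hw2 hp with h | h
      · exact h
      · rw [hHN0] at h; exact absurd h (Finset.notMem_empty _)
    have hT1' : 1 ≤ TN.card := Finset.card_pos.mpr ⟨w2, hw2T⟩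
    have hHc : HN.card = 0 := by rw [hHN0]; rfl
    have hec : EC D p w2 := hEC s D g p w2 hS hw2 hpH (le_of_eq hp) hpg
    by_cases hfin : (MM s D p).card + 4 * wH D p ≤ 1 + eV (upA D p) w2.xD + 4 * eH D p
    · exact hMR2 s D p w2 hok hS.ih hec hfin
    · rcases hk with hk | ⟨hk, hX⟩
      · exfalso; omega
      · have he : eH D p = 1 := by omega
        have hv : eV (upA D p) w2.xD = 0 := by omega
        have hUp : w2.xD ∈ eUp D p := ((hTN w2).1 hw2T).2.2
        have hm2 : (MM s D p).card ≤ 2 := by omega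
        have hKP' := hKP s D g w2 hS hw2
        rw [hp] at hKP'
        exact hKP' hpH hX hk he hUp hm2 hv
  · -- h ≥ 1
    obtain ⟨w, hwH⟩ := Finset.nonempty_iff_ne_empty.mpr hHN0
    have hHpos : 1 ≤ HN.card := Finset.card_pos.mpr ⟨w, hwH⟩
    obtain ⟨hwE, hwp, z', hz', hz'U, hz'y⟩ := (hHN w).1 hwH
    have hwne : w ≠ w1 := by
      intro h; rw [h] at hwp; omega
    have hbz' := pHB D hOk z' hz'
    have hy12 := hbz'.y12
    have hev : 1 ≤ eV (upA D p) w.xD := by
      have h := (hOwn D p z' hok hz' (le_of_eq hz'y) (by omega)).2.2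
      rw [hz'U] at h
      exact h
    have hec : EC D p w := hEC s D g p w hS hwE hpH (le_of_eq hwp) hpg
    by_cases hfin : (MM s D p).card + 4 * wH D p ≤ 1 + eV (upA D p) w.xD + 4 * eH D p
    · exact hMR2 s D p w hok hS.ih hec hfin
    · have hz1ne : z1.y2 ≠ p := by
        intro hz1p
        have hz1R' : z1.yR = p := by omega
        rcases hk with hk | ⟨hk, hX⟩
        · -- two owners
          have hh2 : 1 < HN.card := by omega
          obtain ⟨a, ha, b, hb, hab⟩ := Finset.one_lt_card.mp hh2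
          obtain ⟨haE, hap, za, hza, hzaU, hzay⟩ := (hHN a).1 ha
          obtain ⟨hbE, hbp, zb, hzb, hzbU, hzby⟩ := (hHN b).1 hb
          have haL : za.yL = p := by
            rcases K2_y1 za p hzay with h | h
            · exact h
            · exact (hnotz1 za hza hzay (by omega)).elim
          have hbL : zb.yL = p := by
            rcases K2_y1 zb p hzby with h | h
            · exact h
            · exact (hnotz1 zb hzb hzby (by omega)).elim
          have hzz := (pHU pHB D hOk za hza zb hzb).1 (by omega)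
          rw [hzz] at hzaU
          have h4 := (pHU pHB D hOk a (hEL a haE).1 b (hEL b hbE).1).2.2.2 (by omega)
          exact hab h4
        · rcases K2_y1 z' p hz'y with h | h
          · have h1 := (hOk.z z' hz').eL
            rw [h] at h1
            have h2 := hbz'.ltX1
            omega
          · exact hnotz1 z' hz' hz'y (by omega)
      have hlast : (MM s D p).card + 4 * wH D p ≤ 5 + 4 * eH D p := by
        rcases hk with hk | ⟨hk, hX⟩
        · omega
        · omega
      have hKF' := hKF s D g w1 w z1 z' hS hw1 hB1 hT1 hwE hwne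
      rw [hwp] at hKF'
      exact hKF' (le_of_lt hF1) hlow2 hz' hz'U hz1 hz1U hz1ne hlast

end Pool.RC
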