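import Pool.Agent.RC.St3
import Pool.Agent.RC.M_UpA
import Pool.Agent.RB.M_HB
import Pool.Agent.RB.M_HU

/-! Module K3 of project RC (MP_c6e2b4_co): two towers and a third element. -/

set_option autoImplicit false

namespace Pool.RC

open Pool.RB

/-- the owner of an end on `p` has `yL = p` or `yR = p` -/
private theorem K3_y1 (z : Hole) (p : ℤ) (h : z.y1 = p) : z.yL = p ∨ z.yR = p := by
  unfold Hole.y1 at h
  rcases min_choice z.yL z.yR with h1 | h1
  · left; omega
  · right; omega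

theorem pK3 (hMR2 : StMR2) (hMRv : StMRv) (hEC : StEC) (hMMl : StMMl) (hNum : StNum) (hOwn : StOwn)
    (hTe : StTe) (hBadS : StBadS) (hF2 : StF2) (hKj : StKj) (hQM : StQM) : StK3 := by
  intro s D g w1 w2 w3 hS hw1 hB1 hT1 hlow1 hw2 hne2 hB2 hT2 hlow2 hw3 hne31 hne32 hlow3
  have hok := hS.ok
  have hOk : Ok D := hok.ok
  classical
  -- membership facts
  have hELf : ∀ z, z ∈ EL s D g → z ∈ D.Z ∧ D.vhi z.xU = D.Y1 ∧ icU D z ∧ ¬ LI s D z ∧ D.vlo z.xD < g := by
    intro z hz
    unfold EL at hz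
    rw [Finset.mem_filter] at hz
    exact hz
  have hELy : ∀ z, z ∈ EL s D g → g ≤ z.y1 := by
    intro z hz
    obtain ⟨hzZ, hzU, -⟩ := hELf z hz
    have h := hS.hT z.xU (hOk.z z hzZ).hU hzU
    rw [(hOk.z z hzZ).eU] at h
    exact h
  have hw1Z := (hELf w1 hw1).1
  have hw2Z := (hELf w2 hw2).1
  have hw3Z := (hELf w3 hw3).1
  have hpg : D.vlo w3.xD < g := (hELf w3 hw3).2.2.2.2
  obtain ⟨hF13, hF13x, hF13h⟩ := (hF2 s D g w1 w3 hS hw1 hw3 hne31 (hlow1 w3 hw3)).1 hB1 hT1
  obtain ⟨hF23, hF23x, hF23h⟩ := (hF2 s D g w2 w3 hS hw2 hw3 hne32 (hlow2 w3 hw3 hne31)).2 hB2 hT2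
  obtain ⟨hF12, hF12x, -⟩ := (hF2 s D g w1 w2 hS hw1 hw2 hne2 (hlow1 w2 hw2)).1 hB1 hT1
  have hpH : D.vlo w3.xD ∈ D.H := by
    rcases hOk.vlo_end w3.xD (hOk.z w3 hw3Z).hD with h | h
    · exact absurd h (hS.lo w3 hw3)
    · exact h.1
  generalize hp : D.vlo w3.xD = p at *
  obtain ⟨hp0, hp1, -⟩ := hOk.h p hpH
  have hk : wH D p = 0 := by
    unfold wH
    rw [if_neg hF13h, if_neg hF23h]
  obtain ⟨TN, HN, hTN, hHN, hTH, hTe', hHk⟩ := hNum s D g p hS hpH
  -- MM
  have hMM : MM s D p ⊆ insert w1 (insert w2 (TN ∪ HN)) := by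
    intro z hz
    rw [hMMl s D g p hS hpg] at hz
    rw [Finset.mem_insert, Finset.mem_insert, Finset.mem_union]
    by_cases h1 : z = w1
    · exact Or.inl h1
    · by_cases h2 : z = w2
      · exact Or.inr (Or.inl h2)
      · right; right
        have h3 := hlow3 z hz.1 h1 h2
        exact hTH z hz.1 (le_antisymm hz.2 h3)
  have hMMc : (MM s D p).card ≤ 2 + TN.card + HN.card := by
    have h1 := Finset.card_le_card hMM
    have h2 := Finset.card_insert_le w1 (insert w2 (TN ∪ HN))
    have h3 := Finset.card_insert_le w2 (TN ∪ HN)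
    have h4 := Finset.card_union_le TN HN
    omega
  by_cases hHN0 : HN = ∅
  · -- h = 0
    have hw3T : w3 ∈ TN := by
      rcases hTH w3 hw3 hp with h | h
      · exact h
      · rw [hHN0] at h; exact absurd h (Finset.notMem_empty _)
    have hT1' : 1 ≤ TN.card := Finset.card_pos.mpr ⟨w3, hw3T⟩
    have hHc : HN.card = 0 := by rw [hHN0]; rfl
    have hec : EC D p w3 := hEC s D g p w3 hS hw3 hpH (le_of_eq hp) hpg
    refine hMR2 s D p w3 hok hS.ih hec ?_
    omega
  · -- h ≥ 1
    obtain ⟨w, hwH⟩ := Finset.nonempty_iff_ne_empty.mpr hHN0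
    obtain ⟨hwE, hwp, z', hz', hz'U, hz'y⟩ := (hHN w).1 hwH
    have hbz' := pHB D hOk z' hz'
    have hy12 := hbz'.y12
    have hev : 1 ≤ eV (upA D p) w.xD := by
      have h := (hOwn D p z' hok hz' (le_of_eq hz'y) (by omega)).2.2
      rw [hz'U] at h
      exact h
    have hec : EC D p w := hEC s D g p w hS hwE hpH (le_of_eq hwp) hpg
    by_cases hfin : (MM s D p).card + 4 * wH D p ≤ 1 + eV (upA D p) w.xD + 4 * eH D p
    · exact hMR2 s D p w hok hS.ih hec hfin
    have he0 : eH D p = 0 := by omega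
    have hT0 : TN.card = 0 := by omega
    have hMM4 : (MM s D p).card ≤ 4 := by omega
    have hwne1 : w ≠ w1 := by
      intro h; rw [h] at hwp; omega
    have hwne2 : w ≠ w2 := by
      intro h; rw [h] at hwp; omega
    have hx1 : w1.xD < w.xD := by
      have h := (hF2 s D g w1 w hS hw1 hwE hwne1 (hlow1 w hwE)).1 hB1 hT1
      exact h.2.1
    have hx2 : w.xD < w2.xD := by
      have h := (hF2 s D g w2 w hS hw2 hwE hwne2 (hlow2 w hwE hwne1)).2 hB2 hT2
      exact h.2.1
    have hUP : OkC (upA D p) := pUpA D p hok hp0 hp1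
    have hwZ := (hELf w hwE).1
    have hwV := (hOk.z w hwZ).hD
    obtain ⟨hwX0, hwX1, -⟩ := hOk.v w.xD hwV
    -- an element lies in QQ and its down arm in the upper part
    have hQQ : ∀ z ∈ EL s D g, D.vlo z.xD ≤ p → z ∈ QQ D p := by
      intro z hz hzp
      obtain ⟨h1, h2, h3, -, -⟩ := hELf z hz
      have h4 := hELy z hz
      unfold QQ
      rw [Finset.mem_filter]
      exact ⟨h1, by omega, h2, h3, hzp⟩
    have hVU : ∀ z ∈ EL s D g, z.xD ∈ (upA D p).V := by
      intro z hz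
      have hzZ := (hELf z hz).1
      have h4 := hELy z hz
      have hbz := pHB D hOk z hzZ
      have hy := hbz.y12
      refine Finset.mem_filter.2 ⟨(hOk.z z hzZ).hD, ?_, ?_⟩
      · rw [(hOk.z z hzZ).eD]; omega
      · intro y hy1 hy2 _ hy4
        have h5 := (pHU pHB D hOk y hy1 z hzZ).2.2.2 hy4
        rw [h5] at hy2
        omega
    by_cases hR1 : (eRt (upA D p) w1.xD).Nonempty
    · have hsub := ((hTe (upA D p) w1.xD w.xD hUP (hVU w1 hw1)).1 hx1 hwX1).1
      have hc : 1 ≤ (eRt (lfA (upA D p) w.xD) w1.xD).card := by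
        have h1 := Finset.card_le_card hsub
        have h2 := Finset.card_pos.2 hR1
        omega
      refine (hMRv s D p w w1 hok hS.ih hec (hQQ w1 hw1 (le_of_lt hF13)) (Ne.symm hwne1)).1 hx1 ?_
      omega
    by_cases hL2 : (eLf (upA D p) w2.xD).Nonempty
    · have hsub := ((hTe (upA D p) w2.xD w.xD hUP (hVU w2 hw2)).2.1 hwX0 hx2).2
      have hc : 1 ≤ (eLf (rtA (upA D p) w.xD) w2.xD).card := by
        have h1 := Finset.card_le_card hsub
        have h2 := Finset.card_pos.2 hL2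
        omega
      refine (hMRv s D p w w2 hok hS.ih hec (hQQ w2 hw2 (le_of_lt hF23)) (Ne.symm hwne2)).2 hx2 ?_
      omega
    rw [Finset.not_nonempty_iff_eq_empty] at hR1 hL2
    -- the holes under the towers
    obtain ⟨-, -, z1, hz1, hz1U, hz1t, hz1L, hz1y1, hz1R, hz1y2⟩ := (hBadS D w1 hok hw1Z).1 hB1
    obtain ⟨-, -, z2, hz2, hz2U, hz2t, hz2R, hz2y1, hz2L, hz2y2⟩ := (hBadS D w2 hok hw2Z).2 hB2
    have hbz1 := (pHB D hOk z1 hz1).y12
    have hbz2 := (pHB D hOk z2 hz2).y12
    have hz1p : z1.y2 ≤ p := by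
      by_contra hcon
      have h := (hOwn D p z1 hok hz1 (by omega) (by omega)).1 hz1t
      rw [hz1U, hR1] at h
      exact absurd h (Finset.notMem_empty _)
    have hz2p : z2.y2 ≤ p := by
      by_contra hcon
      have h := (hOwn D p z2 hok hz2 (by omega) (by omega)).2.1 hz2t
      rw [hz2U, hL2] at h
      exact absurd h (Finset.notMem_empty _)
    -- MM below p
    have hMMb : ∀ q, q < p → (MM s D q).card ≤ 2 := by
      intro q hq
      have hsub : MM s D q ⊆ {w1, w2} := by
        intro z hz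
        rw [hMMl s D g q hS (by omega)] at hz
        rw [Finset.mem_insert, Finset.mem_singleton]
        by_contra hcon
        push Not at hcon
        have h3 := hlow3 z hz.1 hcon.1 hcon.2
        have h4 := hz.2
        omega
      exact le_trans (Finset.card_le_card hsub) Finset.card_le_two
    have hMM1 : ∀ q, q < D.vlo w2.xD → (MM s D q).card ≤ 1 := by
      intro q hq
      have hsub : MM s D q ⊆ {w1} := by
        intro z hz
        rw [hMMl s D g q hS (by omega)] at hz
        rw [Finset.mem_singleton]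
        by_contra hcon
        have h3 := hlow2 z hz.1 hcon
        have h4 := hz.2
        omega
      exact le_trans (Finset.card_le_card hsub) (le_of_eq (Finset.card_singleton _))
    rcases lt_or_eq_of_le hz2p with hlt2 | heq2
    · exact (hKj s D g w2 w1 z2 hS hw2 hw1 hz2 hz2U (by omega) (by omega) (hMMb _ hlt2)).2 hB2 hT2 hF12x
    have hz1lt : z1.y2 < p := by
      rcases lt_or_eq_of_le hz1p with h | h
      · exact h
      · exfalso
        rcases K3_y1 z' p hz'y with h1 | h1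
        · have h2 := (pHU pHB D hOk z' hz' z2 hz2).1 (by omega)
          rw [h2] at hz'y
          omega
        · have h2 := (pHU pHB D hOk z' hz' z1 hz1).2.1 (by omega)
          rw [h2] at hz'y
          omega
    rcases lt_trichotomy z1.y2 (D.vlo w2.xD) with h | h | h
    · have hg2 := hELy w2 hw2
      have hb2 := (pHB D hOk w2 hw2Z).y12
      refine (hQM s D g w2.xD w1 z1 hS hw1 hz1 hz1U (by omega) (hOk.z w2 hw2Z).hD (by omega) ?_
        (hMM1 _ h) (hMM1 _ hF12)).1 hB1 hF12x
      rw [(hOk.z w2 hw2Z).eD]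
      omega
    · exfalso
      have h2 := (pHU pHB D hOk z1 hz1 z2 hz2).2.1 (by omega)
      rw [h2, hz2U] at hz1U
      omega
    · exact (hKj s D g w1 w2 z1 hS hw1 hw2 hz1 hz1U h (by omega) (hMMb _ hz1lt)).1 hB1 hT1 hF12x

end Pool.RC
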