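import Pool.Agent.RC.Main1
import Pool.Agent.RC.St3

/-! Module K4 of project RC. -/

namespace Pool.RC

open Pool.RB

theorem pK4 (hSit : StSit) (hIHs : StIHs) (hT1 : StT1) (hK40 : StK40) (hK41 : StK41) : StK4 := by
  intro s D g h hAT
  by_cases h1 : D.hlo g = D.X0
  · exact hK41 s D g h hAT h1
  · by_cases h2 : D.hhi g = D.X1
    · have h3 : Sit (!s) D.fx g := hSit.1 s D g h
      have h4 : AT (!s) D.fx g := (hT1 s D g h).2.2 hAT
      have h5 : D.fx.hlo g = D.fx.X0 := by
        show -D.hhi g = -D.X1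
        rw [h2]
      exact (hIHs.2.2 s D).1 (hK41 (!s) D.fx g h3 h4 h5)
    · refine hK40 s D g h hAT ?_
      unfold wH
      simp [h1, h2]

end Pool.RC
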