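import Pool.Agent.RC.Main1
import Pool.Agent.RC.St3
import Pool.Agent.RB.Main

/-!
# Project RC, module K40: all elements are towers, `g` is free
-/

namespace Pool.RC

open Pool.RB

/-- MODULE K40. -/
theorem pK40 (hMS1 : StMS1) (hMSf : StMSf) (hNumG : StNumG) (hT1 : StT1) (hE2 : StE2) (hTe : StTe) :
    StK40 := by
  classical
  intro s D g hS hAT hw
  have hok := hS.ok
  obtain ⟨hg0, hg1, -⟩ := hok.ok.h g hS.hg
  obtain ⟨TT, T4, M1, TG, HG, h1, h2, h3, h4, h5, h6, h7, h8, h9, h10, h11⟩ := hNumG s D g hS
  have hEL : (EL s D g).card ≤ 2 := (hT1 s D g hS).2.1 hAT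
  have hM1 : M1 ⊆ EL s D g := fun z hz => ((h3 z).1 hz).1
  have hm : M1.card ≤ 2 := (Finset.card_le_card hM1).trans hEL
  have hTgp : 0 < (Tg D g).card := Finset.card_pos.2 hS.ht
  have hS1 := fun t ht => hMS1 s D g t hok hS.ih hS.hg hS.hT ht
  have hq : T4.card ≤ 2 := by omega
  obtain hq0 | hq1 | hq2 : T4.card = 0 ∨ T4.card = 1 ∨ T4.card = 2 := by omega
  · obtain ⟨t, ht⟩ := hS.ht
    apply hS1 t ht
    omega
  · obtain ⟨x, hx⟩ := Finset.card_eq_one.1 hq1
    have hxm : x ∈ T4 := by rw [hx]; exact Finset.mem_singleton_self x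
    have hxe := h10 x hxm
    apply hS1 x.xU (h9 x hxm)
    omega
  · -- the two corner holes
    have key : ∃ x ∈ T4, ∃ x' ∈ T4, x.yL = g ∧ x.yL < x.yR ∧ x'.yR = g ∧ x'.yR < x'.yL := by
      obtain ⟨a, b, hab, hT⟩ := Finset.card_eq_two.1 hq2
      have ha : a ∈ T4 := by rw [hT]; simp
      have hb : b ∈ T4 := by rw [hT]; simp
      obtain ⟨haZ, hay, -⟩ := (h2 a).1 ha
      obtain ⟨hbZ, hby, -⟩ := (h2 b).1 hb
      have hU := qHU D hok.ok a haZ b hbZ
      have ea : a.y1 = min a.yL a.yR := rfl
      have eb : b.y1 = min b.yL b.yR := rfl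
      have ca := (hok.ok.z a haZ).chir
      have cb := (hok.ok.z b hbZ).chir
      rcases ca with ca | ca <;> rcases cb with cb | cb
      · exact absurd (hU.1 (by omega)) hab
      · exact ⟨a, ha, b, hb, by omega, ca.1, by omega, cb.1⟩
      · exact ⟨b, hb, a, ha, by omega, cb.1, by omega, ca.1⟩
      · exact absurd (hU.2.1 (by omega)) hab
    obtain ⟨x, hx, x', hx', hxL, hxA, hx'R, hx'B⟩ := key
    obtain ⟨hxZ, hxy, hxU⟩ := (h2 x).1 hx
    obtain ⟨hx'Z, hx'y, hx'U⟩ := (h2 x').1 hx'
    have hne : x ≠ x' := by
      rintro rfl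
      omega
    have hlo : D.hlo g ≠ D.X0 := by
      intro h
      simp only [wH, h, if_true] at hw
      omega
    have hhi : D.hhi g ≠ D.X1 := by
      intro h
      simp only [wH, h, if_true] at hw
      omega
    have hxI : ¬ LI s D x := by
      rintro ⟨⟨ha, -⟩, -⟩
      rw [hxL] at ha
      exact hlo ha
    have hx'I : ¬ LI s D x' := by
      rintro ⟨⟨-, ha⟩, -⟩
      rw [hx'R] at ha
      exact hhi ha
    have hxe := h10 x hx
    obtain hm0 | hm1 | hm2 : M1.card = 0 ∨ M1.card = 1 ∨ M1.card = 2 := by omega
    · apply hS1 x.xU (h9 x hx)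
      omega
    · -- one of the two is not an element
      obtain ⟨w, hwM⟩ := Finset.card_pos.1 (by omega : 0 < M1.card)
      obtain ⟨hwE, hwy⟩ := (h3 w).1 hwM
      have hex : x ∉ EL s D g ∨ x' ∉ EL s D g := by
        by_contra hcon
        push Not at hcon
        have hwx : w ≠ x := by rintro rfl; omega
        have hwx' : w ≠ x' := by rintro rfl; omega
        have hsub : ({w, x, x'} : Finset Hole) ⊆ EL s D g := by
          intro z hz
          simp only [Finset.mem_insert, Finset.mem_singleton] at hz
          rcases hz with rfl | rfl | rfl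
          · exact hwE
          · exact hcon.1
          · exact hcon.2
        have hc3 : ({w, x, x'} : Finset Hole).card = 3 := by
          rw [Finset.card_insert_of_notMem (by simp [hwx, hwx']), Finset.card_pair hne]
        have := Finset.card_le_card hsub
        omega
      rcases hex with hex | hex
      · rcases h11 x hx hex with hI | hI
        · exact absurd hI hxI
        · apply hS1 x.xU (h9 x hx)
          omega
      · rcases h11 x' hx' hex with hI | hI
        · exact absurd hI hx'I
        · apply hS1 x'.xU (h9 x' hx')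
          omega
    · -- both elements are above `g`
      have hME : M1 = EL s D g := Finset.eq_of_subset_of_card_le hM1 (by omega)
      have hxE : x ∉ EL s D g := by
        rw [← hME]
        intro h
        have := ((h3 x).1 h).2
        omega
      have hx'E : x' ∉ EL s D g := by
        rw [← hME]
        intro h
        have := ((h3 x').1 h).2
        omega
      have hx2 : 2 ≤ eV (upA D g) x.xU := by
        rcases h11 x hx hxE with hI | hI
        · exact absurd hI hxI
        · exact hI
      have hx'2 : 2 ≤ (eLf (upA D g) x'.xU).card := by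
        rcases hE2 s D g x' hS hx'Z hx'y hx'U hx'E with hI | hI
        · exact absurd hI hx'I
        · exact hI.2 hx'B
      have hlt : x'.xU < x.xU := by
        have ha := hok.ok.adjH x' hx'Z x hxZ (by omega)
        have e1 : x'.x2 = max x'.xU x'.xD := rfl
        have e2 : x.x1 = min x.xU x.xD := rfl
        have cx := (hok.ok.z x hxZ).chir
        have cx' := (hok.ok.z x' hx'Z).chir
        rcases cx with cx | cx <;> rcases cx' with cx' | cx' <;> omega
      have hokU : OkC (upA D g) := qUpA D g hok hg0 hg1
      have hx'V : x'.xU ∈ (upA D g).V := by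
        simp only [upA, Finset.mem_filter]
        refine ⟨(hok.ok.z x' hx'Z).hU, by rw [hx'U]; exact hg1, ?_⟩
        intro z hz _ _ he
        have hB := qHB D hok.ok z hz
        have e3 := (hok.ok.z z hz).eD
        rw [he, hx'U] at e3
        have := hB.ltY1
        omega
      have hX1 : x.xU < (upA D g).X1 := by
        show x.xU < D.X1
        exact (hok.ok.v x.xU (hok.ok.z x hxZ).hU).2.1
      have hsub := ((hTe (upA D g) x'.xU x.xU hokU hx'V).1 hlt hX1).2
      have hc2 := Finset.card_le_card hsub
      apply hMSf s D g x.xU x'.xU hok hS.ih hS.hg hS.hT (h9 x hx) (h9 x' hx') hlt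
      omega

end Pool.RC
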