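import Pool.Agent.RC.Main1
import Pool.Agent.RC.St3

/-! Project RC, module K41: all elements are towers, `g` attached to the left wall. -/

namespace Pool.RC

open Pool.RB

theorem pK41 (hMS1 : StMS1) (hNumG : StNumG) (hT1 : StT1) (hT2 : StT2) (hKA : StKA) (hKB : StKB) :
    StK41 := by
  intro s D g hS hAT hlo
  obtain ⟨TT, T4, M1, TG, HG, hTT, hT4, hM1, hHG, hTg, hMM, hr, hq, hT4g, hev, hev2⟩ := hNumG s D g hS
  have hw : wH D g = 1 := by
    have h2 : D.hhi g ≠ D.X1 := fun h => hS.irr.1 g hS.hg ⟨hlo, h⟩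
    simp [wH, hlo, h2]
  have hELc := (hT1 s D g hS).2.1 hAT
  have hM1s : M1 ⊆ EL s D g := fun z hz => ((hM1 z).1 hz).1
  have hM1c : M1.card ≤ 2 := (Finset.card_le_card hM1s).trans hELc
  -- a hole with bottom side on `g` is of type A and has `g` as its left arm
  have hown : ∀ z' ∈ D.Z, z'.y1 = g → z'.yL = g ∧ z'.yL < z'.yR := by
    intro z' hz' h1
    have hb := Pool.RB.qHB D hS.ok.ok z' hz'
    have hz := hS.ok.ok.z z' hz'
    rcases hz.chir with ⟨h, _⟩ | ⟨h, _⟩
    · have h3 : z'.y1 = z'.yL := min_eq_left h.le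
      exact ⟨by rw [← h3, h1], h⟩
    · exfalso
      have h3 : z'.y1 = z'.yR := min_eq_right h.le
      have h2 : z'.yR = g := by rw [← h3, h1]
      have h4 := hz.eR
      rw [h2, hlo] at h4
      have h5 := hb.X0lt
      omega
  rw [hw] at hq
  rcases T4.eq_empty_or_nonempty with h4e | ⟨x, hx4⟩
  · -- no hole of `T4`
    obtain ⟨t, ht⟩ := hS.ht
    have hr1 : 1 ≤ (Tg D g).card := Finset.card_pos.2 ⟨t, ht⟩
    have h40 : T4.card = 0 := by rw [h4e, Finset.card_empty]
    have hmh : M1.card + HG.card ≤ 2 := by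
      rcases HG.eq_empty_or_nonempty with hHe | ⟨z, hz⟩
      · rw [hHe, Finset.card_empty]; omega
      · obtain ⟨hzZ, _, _, z', hz', hzx, hzy⟩ := hHG z hz
        obtain ⟨hyL, hyA⟩ := hown z' hz' hzy
        have hR : ∀ w ∈ EL s D g, TowR D g w := by
          intro w hwE
          rcases hAT w hwE with ⟨_, h⟩ | ⟨_, h⟩
          · exfalso
            have hwz := (hT2 s D g w z' hS hwE hz' hyL hyA hlo).1 h
            have hw1 := hwE
            simp only [EL, Finset.mem_filter] at hw1
            have h1 := hw1.2.1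
            rw [hwz, hzx, (hS.ok.ok.z z hzZ).eD] at h1
            have h2 := (Pool.RB.qHB D hS.ok.ok z hzZ).ltY1
            omega
          · exact h
        have hM11 : M1.card ≤ 1 := by
          apply Finset.card_le_one.2
          intro a ha b hb
          exact ((hT1 s D g hS).1 a (hM1s ha) b (hM1s hb)).2 (hR a (hM1s ha)) (hR b (hM1s hb))
        omega
    refine hMS1 s D g t hS.ok hS.ih hS.hg hS.hT ht ?_
    rw [hMM, hw]
    omega
  · -- `T4 = {x}`
    obtain ⟨hxZ, hxy, hxU⟩ := (hT4 x).1 hx4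
    obtain ⟨hxL, hxA⟩ := hown x hxZ hxy
    have h41 : 1 ≤ T4.card := Finset.card_pos.2 ⟨x, hx4⟩
    by_cases hxE : x ∈ EL s D g
    · exact hKA s D g x hS hAT hxE hxL hxA hlo
    · rcases M1.eq_empty_or_nonempty with hMe | ⟨y, hy⟩
      · have hM0 : M1.card = 0 := by rw [hMe, Finset.card_empty]
        have he1 := hev x hx4
        have he2 : 2 ≤ eV (upA D g) x.xU + LIt s D g := by
          rcases hev2 x hx4 hxE with h | h
          · have h1 : 1 ≤ LIt s D g := by
              unfold LIt
              refine Finset.card_pos.2 ⟨x, ?_⟩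
              simp only [Finset.mem_filter]
              exact ⟨hxZ, hxy, h⟩
            omega
          · omega
        refine hMS1 s D g x.xU hS.ok hS.ih hS.hg hS.hT (hT4g x hx4) ?_
        rw [hTg, hMM, hw]
        omega
      · have hy1 := (hM1 y).1 hy
        exact hKB s D g x y hS hAT hxZ hxU hxE hxL hxA hlo hy1.1 hy1.2

end Pool.RC
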