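import Pool.Agent.RC.St3
import Pool.Agent.RB.M_HB
import Pool.Agent.RB.M_HU

/-! # Project RC, module KA: the corner hole is an element -/

set_option autoImplicit false

namespace Pool.RC

open Pool.RB

/-- membership in `EL`, unpacked -/
private theorem KA_mem {s : Bool} {D : Cfg} {g : ℤ} {z : Hole} (h : z ∈ EL s D g) :
    z ∈ D.Z ∧ D.vhi z.xU = D.Y1 ∧ icU D z ∧ ¬ LI s D z ∧ D.vlo z.xD < g := by
  classical
  unfold EL at h
  rw [Finset.mem_filter] at h
  exact h

/-- the down arm of an element reaches above `g` -/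
private theorem KA_hi {s : Bool} {D : Cfg} {g : ℤ} (hS : Sit s D g) {z : Hole} (h : z ∈ EL s D g) :
    z.xD ∈ D.V ∧ g < D.vhi z.xD ∧ g ≤ z.y1 := by
  obtain ⟨hz, hU, -, -, hlo⟩ := KA_mem h
  have hZ := hS.ok.ok.z z hz
  have hB := pHB D hS.ok.ok z hz
  have h1 := hS.hT z.xU hZ.hU hU
  have h2 := hZ.eU
  have h3 := hZ.eD
  have h4 := hB.y12
  exact ⟨hZ.hD, by omega, by omega⟩

theorem pKA (hMRd : StMRd) (hEC : StEC) (hMMl : StMMl) (hBadS : StBadS) (hT1 : StT1) (hT2 : StT2) (hLCx : StLCx)
    (hKx1 : StKx1) (hQM : StQM) : StKA := by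
  classical
  intro s D g x hS hAT hx hxL hxA hg0
  have hok := hS.ok.ok
  obtain ⟨hxZ, hxU, hxic, hxLI, hxlo⟩ := KA_mem hx
  have hxO := hok.z x hxZ
  have hxB := pHB D hok x hxZ
  obtain ⟨hxDV, hxDhi, -⟩ := KA_hi hS hx
  have hchx : x.xU < x.xD := by
    rcases hxO.chir with h | h
    · exact h.2
    · omega
  have hx2 : x.x2 = x.xD := max_eq_right hchx.le
  have hx1 : x.x1 = x.xU := min_eq_left hchx.le
  have hy1 : x.y1 = g := by rw [← hxL]; exact min_eq_left hxA.le
  have hhig : D.hhi g = x.xD := by rw [← hxL, hxO.eL, hx2]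
  have hgH : g ∈ D.H := hS.hg
  have hgh := hok.h g hgH
  -- another element is a right tower to the right of `x`
  have hoth : ∀ y ∈ EL s D g, y ≠ x → x.xD < y.xD := by
    intro y hy hyx
    obtain ⟨t1, t2⟩ := hT2 s D g y x hS hy hxZ hxL hxA hg0
    rcases hAT y hy with ⟨-, h⟩ | ⟨-, h⟩
    · exact absurd (t1 h) hyx
    · exact t2 h hyx
  by_cases hcase : ∃ u ∈ D.V, x.xD < u ∧ D.vlo u < g ∧ g ≤ D.vhi u
  swap
  · -- case 1
    have hno : ∀ u ∈ D.V, x.xD < u → D.vlo u < g → g ≤ D.vhi u → False :=
      fun u h1 h2 h3 h4 => hcase ⟨u, h1, h2, h3, h4⟩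
    have hsing : EL s D g = {x} := by
      apply Finset.eq_singleton_iff_unique_mem.2
      refine ⟨hx, fun y hy => ?_⟩
      by_contra hyx
      obtain ⟨hyV, hyhi, -⟩ := KA_hi hS hy
      have hylo := (KA_mem hy).2.2.2.2
      exact hno y.xD hyV (hoth y hy hyx) hylo hyhi.le
    obtain ⟨-, hne⟩ := hLCx s D g x hS hx hxL hxA hg0 hno
    exact hKx1 s D g x hS hsing hxL hxA hg0 hne
  · -- case 2
    obtain ⟨u, huV, hxu, hulo, huhi⟩ := hcase
    have hBL : BadL D x := by
      rcases hAT x hx with ⟨h, -⟩ | ⟨-, h⟩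
      · exact h
      · exact (h u huV hxu hulo (by omega)).elim
    obtain ⟨-, -, z, hzZ, hzU, hzA, hzL, hzy1, hzR, hzy2⟩ := (hBadS D x hS.ok hxZ).1 hBL
    have hzO := hok.z z hzZ
    have hzB := pHB D hok z hzZ
    have hQg : z.y2 < g := by omega
    have hQH : z.y2 ∈ D.H := by rw [← hzR]; exact hzO.hR
    have hQh := hok.h z.y2 hQH
    have hloQ : D.hlo z.y2 = z.x1 := by rw [← hzR]; exact hzO.eR
    have hchz : z.xU < z.xD := by
      rcases hzO.chir with h | h
      · exact h.2
      · omega
    have hzx1 : z.x1 = x.xD := by rw [← hzU]; exact min_eq_left hchz.le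
    have hbQ : D.vlo x.xD ≤ z.y2 := by
      have := hzB.y12
      omega
    have hQX0 : D.hlo z.y2 ≠ D.X0 := by
      have := hzB.X0lt
      omega
    have hQY := hzB.ltY1
    by_cases hq : D.hhi z.y2 ≠ D.X1 ∨ 1 ≤ eH D z.y2
    · -- (1)
      have hECQ : EC D z.y2 x := hEC s D g z.y2 x hS hx hQH hbQ hQg
      have hgL : g ∈ (lfA (upA D z.y2) x.xD).H := by
        refine Finset.mem_filter.2 ⟨Finset.mem_filter.2 ⟨hgH, hQg⟩, ?_, ?_⟩
        · show D.hlo g < x.xD
          have := hxB.X0lt
          omega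
        · intro z' hz' _ _ he
          have hz'Z := (Finset.mem_filter.1 hz').1
          have h1 := (hok.z z' hz'Z).eR
          have h2 := (pHB D hok z' hz'Z).X0lt
          rw [he] at h1
          omega
      have hMMc : (MM s D z.y2).card ≤ 2 := by
        refine le_trans (Finset.card_le_card ?_) ((hT1 s D g hS).2.1 hAT)
        intro y hy
        exact ((hMMl s D g z.y2 hS hQg y).1 hy).1
      have hwH : wH D z.y2 ≤ eH D z.y2 := by
        unfold wH
        rw [if_neg hQX0]
        rcases hq with h | h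
        · rw [if_neg h]; omega
        · split_ifs <;> omega
      have hgn : 1 ≤ gn (lfA (upA D z.y2) x.xD) g := by
        have hmem : x.xU ∈ eUp (lfA (upA D z.y2) x.xD) g := by
          refine Finset.mem_filter.2 ⟨Finset.mem_filter.2 ⟨Finset.mem_filter.2 ⟨hxO.hU, ?_, ?_⟩, ?_⟩, ?_, ?_⟩
          · omega
          · intro z' hz' _ _ he
            have h1 := (hok.z z' hz').eD
            have h2 := (pHB D hok z' hz').ltY1
            rw [he] at h1
            omega
          · exact hchx
          · show max (D.vlo x.xU) z.y2 = g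
            rw [hxO.eU, hy1]
            exact max_eq_left hQg.le
          · intro z' hz' he
            have hz1 := Finset.mem_filter.1 hz'
            have hz'Z := (Finset.mem_filter.1 hz1.1).1
            have hzz : z' = x := (pHU pHB D hok z' hz'Z x hxZ).2.2.1 he
            have := hz1.2
            rw [hzz, hx2] at this
            omega
        have hc : 1 ≤ (eUp (lfA (upA D z.y2) x.xD) g).card := Finset.card_pos.2 ⟨_, hmem⟩
        unfold gn
        omega
      refine (hMRd s D z.y2 g x hS.ok hS.ih hECQ).1 hgL hg0 (by omega) ?_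
      omega
    · -- (2)
      push_neg at hq
      obtain ⟨hQX1, hQe⟩ := hq
      have hQe0 : eH D z.y2 = 0 := by omega
      have hQup : eUp D z.y2 = ∅ := by
        unfold eH at hQe0
        exact Finset.card_eq_zero.1 (by omega)
      have hall : ∀ p, p ≤ z.y2 → ∀ y ∈ MM s D p, y = x := by
        intro p hp y hy
        obtain ⟨hyE, hyb⟩ := (hMMl s D g p hS (by omega) y).1 hy
        by_contra hyx
        have hxy := hoth y hyE hyx
        obtain ⟨hyV, hyhi, -⟩ := KA_hi hS hyE
        have hyv := hok.v y.xD hyV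
        rcases lt_or_eq_of_le (show D.vlo y.xD ≤ z.y2 by omega) with hlt | heq
        · exact hok.nc y.xD hyV z.y2 hQH hlt (by omega) (by omega) (by omega)
        · have hnot : y.xD ∉ eUp D z.y2 := by rw [hQup]; simp
          have hex : ∃ z' ∈ D.Z, z'.xU = y.xD := by
            by_contra hne
            push_neg at hne
            exact hnot (Finset.mem_filter.2 ⟨hyV, heq, hne⟩)
          obtain ⟨z', hz'Z, hz'U⟩ := hex
          have hz'O := hok.z z' hz'Z
          have hz'B := pHB D hok z' hz'Z
          have h1 : z'.y1 = z.y2 := by rw [← hz'O.eU, hz'U, heq]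
          rcases hz'O.chir with h | h
          · have h2 : z'.yL = z.y2 := by rw [← h1]; exact (min_eq_left h.1.le).symm
            have h3 := hz'O.eL
            rw [h2] at h3
            have h4 := hz'B.ltX1
            omega
          · have h2 : z'.yR = z.y2 := by rw [← h1]; exact (min_eq_right h.1.le).symm
            have h3 : z' = z := (pHU pHB D hok z' hz'Z z hzZ).2.1 (by rw [h2, hzR])
            rw [h3] at h
            omega
      have hc : ∀ p, p ≤ z.y2 → (MM s D p).card ≤ 1 := by
        intro p hp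
        refine Finset.card_le_one.2 (fun a ha b hb => ?_)
        rw [hall p hp a ha, hall p hp b hb]
      exact (hQM s D g u x z hS hx hzZ hzU hQg huV hulo (by omega) (hc _ le_rfl) (hc _ hbQ)).1 hBL hxu

end Pool.RC
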