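import Pool.Agent.RC.St3
import Pool.Agent.RC.M_UpA
import Pool.Agent.RB.M_HB
import Pool.Agent.RB.M_HU

/-! # Project RC, module KB -/

namespace Pool.RC

open Pool.RB

theorem pKB (hMS1 : StMS1) (hMSv : StMSv) (hNumG : StNumG) (hMMl : StMMl) (hOwn : StOwn) (hTe : StTe)
    (hBadS : StBadS) (hT1 : StT1) (hT2 : StT2) (hQM : StQM) : StKB := by
  classical
  intro s D g x y hS hAT hx hxU hxE hxL hxA hlo hy hgy
  have hC := hS.ok
  have h := hC.ok
  have hHB := pHB D h
  have hHU := pHU pHB D h
  have zx := h.z x hx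
  have bx := hHB x hx
  have hyM := hy
  simp only [EL, Finset.mem_filter] at hyM
  obtain ⟨hyZ, hyU, hyic, hyLI, hyb⟩ := hyM
  have zy := h.z y hyZ
  have byy := hHB y hyZ
  -- geometry of x
  have hxx : x.xU < x.xD := by
    rcases zx.chir with hc | hc
    · exact hc.2
    · omega
  have hx1 : x.x1 = x.xU := by unfold Hole.x1; omega
  have hx2 : x.x2 = x.xD := by unfold Hole.x2; omega
  have hy1 : x.y1 = g := by unfold Hole.y1; omega
  have hy2 : x.y2 = x.yR := by unfold Hole.y2; omega
  have hhi : D.hhi g ≠ D.X1 := by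
    have e1 := zx.eL
    rw [hxL] at e1
    have := bx.ltX1
    omega
  have hw1 : wH D g = 1 := by
    unfold wH
    rw [if_pos hlo, if_neg hhi]
  -- all elements are right towers
  have hR : ∀ z ∈ EL s D g, BadR D z ∧ TowR D g z := by
    intro z hz
    rcases hAT z hz with hL | hR
    · exfalso
      have := (hT2 s D g z x hS hz hx hxL hxA hlo).1 hL.2
      exact hxE (this ▸ hz)
    · exact hR
  have hEL : ∀ z ∈ EL s D g, z = y := fun z hz =>
    (((hT1 s D g hS).1 z hz y hy).2) (hR z hz).2 (hR y hy).2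
  have hyx : y ≠ x := fun e => hxE (e ▸ hy)
  have hxy : x.xD < y.xD := (hT2 s D g y x hS hy hx hxL hxA hlo).2 (hR y hy).2 hyx
  obtain ⟨TT, T4, M1, TG, HG, hTT, hT4, hM1, hHG, cTg, cMM, cE, cZ, hT4g, hT4e, hT4n⟩ := hNumG s D g hS
  have hxT4 : x ∈ T4 := (hT4 x).2 ⟨hx, hy1, hxU⟩
  have hT4c : 1 ≤ T4.card := Finset.card_pos.2 ⟨x, hxT4⟩
  have hM1c : M1.card ≤ 1 := by
    refine Finset.card_le_one.2 ?_
    intro a ha b hb
    rw [hEL a ((hM1 a).1 ha).1, hEL b ((hM1 b).1 hb).1]
  have hT4c1 : T4.card = 1 := by omega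
  have hHGc : HG.card = 0 := by omega
  have hev1 := hT4e x hxT4
  have hLE : 2 ≤ LIt s D g + eV (upA D g) x.xU := by
    rcases hT4n x hxT4 hxE with hL | hL
    · have : 1 ≤ LIt s D g := by
        unfold LIt
        refine Finset.card_pos.2 ⟨x, ?_⟩
        simp only [Finset.mem_filter]
        exact ⟨hx, hy1, hL⟩
      omega
    · omega
  have hTgx := hT4g x hxT4
  by_cases hr : 1 ≤ TT.card
  · refine hMS1 s D g x.xU hC hS.ih hS.hg hS.hT hTgx ?_
    omega
  · have hr0 : TT.card = 0 := by omega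
    have hTg1 : Tg D g = {x.xU} := by
      have hc1 : (Tg D g).card = 1 := by omega
      obtain ⟨a, ha⟩ := Finset.card_eq_one.1 hc1
      rw [ha] at hTgx ⊢
      rw [Finset.mem_singleton] at hTgx
      rw [hTgx]
    have hQQ : y ∈ QQ D g := by
      simp only [QQ, Finset.mem_filter]
      exact ⟨hyZ, hgy, hyU, hyic, le_of_lt hyb⟩
    have hg0 : D.Y0 < g := (h.h g hS.hg).1
    have hg1 : g < D.Y1 := (h.h g hS.hg).2.1
    have hUP : OkC (upA D g) := pUpA D g hC hg0 hg1
    by_cases hne : (eLf (upA D g) y.xD).Nonempty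
    · refine hMSv s D g x.xU y hC hS.ih hS.hg hS.hT hTg1 hQQ (by omega) ?_
      have hyV : y.xD ∈ (upA D g).V := by
        simp only [upA, Finset.mem_filter]
        refine ⟨zy.hD, ?_, ?_⟩
        · rw [zy.eD]
          have := byy.y12
          omega
        · intro z hz hz1 hz2 e
          have := (hHU z hz y hyZ).2.2.2 e
          subst this
          omega
      have hsub := ((hTe (upA D g) y.xD x.xU hUP hyV).2.1
        (by show D.X0 < x.xU; have := bx.X0lt; omega) (by omega)).2
      have hcc : 1 ≤ (eLf (rtA (upA D g) x.xU) y.xD).card :=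
        Finset.card_pos.2 (hne.mono hsub)
      omega
    · obtain ⟨_, _, z, hz, hzU, hzB, hzR, hz1, hz2, hz3⟩ := (hBadS D y hC hyZ).2 (hR y hy).1
      have hO := hOwn D g z hC hz (by omega)
      have hle : z.y2 ≤ g := by
        by_contra hcon
        have := (hO (by omega)).2.1 hzB
        rw [hzU] at this
        exact hne ⟨_, this⟩
      have hneg : z.y2 ≠ g := by
        intro e
        have : z = x := (hHU z hz x hx).1 (by omega)
        subst this
        omega
      have hMM : ∀ p, p < g → (MM s D p).card ≤ 1 := by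
        intro p hp
        refine Finset.card_le_one.2 ?_
        intro a ha b hb
        rw [hEL a ((hMMl s D g p hS hp a).1 ha).1, hEL b ((hMMl s D g p hS hp b).1 hb).1]
      refine (hQM s D g x.xD y z hS hy hz hzU (by omega) zx.hD ?_ ?_ (hMM _ (by omega)) (hMM _ hyb)).2
        (hR y hy).1 hxy
      · have := bx.loD
        omega
      · rw [zx.eD]
        have := bx.y12
        omega

end Pool.RC
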