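import Pool.Agent.RC.M_UpA
import Pool.Agent.RC.St3

/-! Module KF of project RC. -/

namespace Pool.RC

open Pool.RB

theorem pKF (hMRv : StMRv) (hEC : StEC) (hMMl : StMMl) (hOwn : StOwn) (hTe : StTe)
    (hBadS : StBadS) (hF2 : StF2) (hQM : StQM) : StKF := by
  classical
  intro s D g w1 w z1 z' hS hw1 hB1 hT1 hw hne hle hmin hz' hz'U hz1 hz1U hne1 hcard
  obtain ⟨hpp, hxx, hlo⟩ := (hF2 s D g w1 w hS hw1 hw hne hle).1 hB1 hT1
  have hok := hS.ok
  -- membership data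
  have hw1' := hw1
  have hw' := hw
  unfold EL at hw1' hw'
  rw [Finset.mem_filter] at hw1' hw'
  obtain ⟨hw1Z, hw1U, hw1ic, hw1LI, hw1g⟩ := hw1'
  obtain ⟨hwZ, hwU, hwic, hwLI, hwg⟩ := hw'
  have Hw1 := hok.ok.z w1 hw1Z
  have Hw := hok.ok.z w hwZ
  have Hz' := hok.ok.z z' hz'
  have Bw1 := pHB D hok.ok w1 hw1Z
  have Bw := pHB D hok.ok w hwZ
  have Bz' := pHB D hok.ok z' hz'
  have hz'y : z'.y1 = D.vlo w.xD := by rw [← hz'U]; exact Hz'.eU.symm
  have hpH : D.vlo w.xD ∈ D.H := by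
    rw [← hz'y]
    unfold Hole.y1
    rcases min_choice z'.yL z'.yR with h | h
    · rw [h]; exact Hz'.hL
    · rw [h]; exact Hz'.hR
  have hgw1 : g ≤ w1.y1 := by
    rw [← Hw1.eU]; exact hS.hT w1.xU Hw1.hU hw1U
  have hECw : EC D (D.vlo w.xD) w := hEC s D g _ w hS hw hpH le_rfl hwg
  have hvp := hok.ok.h _ hpH
  have hok' : OkC (upA D (D.vlo w.xD)) := pUpA D _ hok hvp.1 hvp.2.1
  by_cases hE : (eRt (upA D (D.vlo w.xD)) w1.xD).Nonempty
  · -- (i)
    have hQ : w1 ∈ QQ D (D.vlo w.xD) := by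
      unfold QQ
      rw [Finset.mem_filter]
      exact ⟨hw1Z, by omega, hw1U, hw1ic, hle⟩
    refine (hMRv s D (D.vlo w.xD) w w1 hok hS.ih hECw hQ (Ne.symm hne)).1 hxx ?_
    have he1 : 1 ≤ eV (upA D (D.vlo w.xD)) w.xD := by
      have h := (hOwn D (D.vlo w.xD) z' hok hz' hz'y.le (by have := Bz'.y12; omega)).2.2
      rw [hz'U] at h
      exact h
    have hw1V : w1.xD ∈ (upA D (D.vlo w.xD)).V := by
      show w1.xD ∈ D.V.filter _
      rw [Finset.mem_filter]
      refine ⟨Hw1.hD, ?_, ?_⟩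
      · rw [Hw1.eD]
        have := Bw1.y12
        omega
      · intro z hz hz1' hz2' hzx
        have hzw : z = w1 := (pHU pHB D hok.ok z hz w1 hw1Z).2.2.2 hzx
        rw [hzw] at hz1'
        omega
    have hwx := hok.ok.v _ Hw.hD
    have hsub := (hTe (upA D (D.vlo w.xD)) w1.xD w.xD hok' hw1V).1 hxx hwx.2.1
    have he2 : 1 ≤ (eRt (lfA (upA D (D.vlo w.xD)) w.xD) w1.xD).card :=
      Finset.card_pos.mpr (hE.mono hsub.1)
    omega
  · -- (ii)
    obtain ⟨-, -, z, hz, hzU, hzt, hzL, hzy, hzR, hzw⟩ := (hBadS D w1 hok hw1Z).1 hB1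
    have hzz : z = z1 := (pHU pHB D hok.ok z hz z1 hz1).2.2.1 (by rw [hzU, hz1U])
    subst hzz
    have hle2 : z.y2 ≤ D.vlo w.xD := by
      by_contra hcon
      have h := (hOwn D (D.vlo w.xD) z hok hz (by omega) (by omega)).1 hzt
      rw [hzU] at h
      exact hE ⟨_, h⟩
    have hlt2 : z.y2 < D.vlo w.xD := lt_of_le_of_ne hle2 hne1
    have hMM : ∀ q, q < D.vlo w.xD → (MM s D q).card ≤ 1 := by
      intro q hq
      have hsub : MM s D q ⊆ {w1} := by
        intro y hy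
        rw [Finset.mem_singleton]
        by_contra hyne
        have h := (hMMl s D g q hS (by omega) y).1 hy
        have := hmin y h.1 hyne
        have := h.2
        omega
      exact (Finset.card_le_card hsub).trans (by simp)
    have hwx := hok.ok.v _ Hw.hD
    exact (hQM s D g w.xD w1 z hS hw1 hz hzU (by omega) Hw.hD hwg (by omega)
      (hMM _ hlt2) (hMM _ hpp)).1 hB1 hxx

end Pool.RC
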