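import Pool.Agent.RC.Main1
import Pool.Agent.RC.St3
import Pool.Agent.RB.M_FE

/-! # Project RC, module KP: an element with a T-end on a piece attached to the right wall -/

set_option autoImplicit false

namespace Pool.RC

open Pool.RB

private theorem KP_face (D : Cfg) (v : ℤ) (hD : OkC D) (hv : v ∈ D.V) (hp : D.vlo v ∈ D.H)
    (hhi : D.hhi (D.vlo v) = D.X1) (hT : ∀ x, x ∈ eUp D (D.vlo v) → x = v) :
    ∃ f : Box, IsFace D f ∧ f.y1 ≤ D.vlo v ∧ D.vlo v < f.y2 ∧ f.x1 = v ∧ f.x2 = D.X1 := by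
  obtain ⟨v1, v2, v3, v4, v5⟩ := hD.ok.v v hv
  obtain ⟨p1, p2, p3, p4, p5⟩ := hD.ok.h _ hp
  obtain ⟨f, hf, f1, f2, f3, f4⟩ := pFE D v (D.vlo v) hD.ok (by omega) (by omega) (by omega) (by omega)
  have hlov : D.hlo (D.vlo v) < v := by
    rcases hD.ok.vlo_end v hv with h | h
    · omega
    · exact h.2.1
  have e1 : f.x1 = v := by
    by_contra hne
    exact hf.noV v hv (by omega) (by omega) (by omega) (by omega)
  have e3 : f.y1 = D.vlo v := by
    by_contra hne
    exact hf.noH _ hp (by omega) (by omega) (by omega) (by omega)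
  refine ⟨f, hf, by omega, by omega, e1, ?_⟩
  rcases hf.right with h | ⟨h1, h2, h3⟩
  · exact h
  exfalso
  obtain ⟨u1, u2, u3, u4, u5⟩ := hD.ok.v _ h1
  have hlo : D.vlo f.x2 = D.vlo v := by
    by_contra hne
    exact hD.ok.nc _ h1 _ hp (by omega) (by omega) (by omega) (by omega)
  by_cases hown : ∀ z ∈ D.Z, z.xU ≠ f.x2
  · have := hT f.x2 (Finset.mem_filter.2 ⟨h1, hlo, hown⟩)
    omega
  · push Not at hown
    obtain ⟨z, hz, hzx⟩ := hown
    have hb := pHB D hD.ok z hz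
    have ho := hD.ok.z z hz
    have hb1 := hb.ltX1
    have hb2 := hb.y12
    have eU := ho.eU
    have eL := ho.eL
    have eR := ho.eR
    rw [hzx, hlo] at eU
    have ey1 : z.y1 = min z.yL z.yR := rfl
    have ex1 : z.x1 = min z.xU z.xD := rfl
    have ex2 : z.x2 = max z.xU z.xD := rfl
    rcases ho.chir with ⟨c1, c2⟩ | ⟨c1, c2⟩
    · have e5 : z.yL = D.vlo v := by omega
      rw [e5] at eL
      omega
    · have e5 : z.yR = D.vlo v := by omega
      rw [e5] at eR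
      exact hD.cV z hz v hv (by omega) (by omega) (by omega) (by omega)

theorem pKP (hMRd : StMRd) (hMHS : StMHS) (hEC : StEC) (hCLs : StCLs) : StKP := by
  intro s D g w hS hw hp hhi hwH heH hT hMM heV
  have hw' := hw
  simp only [EL, Finset.mem_filter] at hw'
  obtain ⟨hwZ, hwU, hwic, hwLI, hwg⟩ := hw'
  have hE : EC D (D.vlo w.xD) w := hEC s D g (D.vlo w.xD) w hS hw hp le_rfl hwg
  have hv : w.xD ∈ D.V := (hS.ok.ok.z w hwZ).hD
  have hTu : ∀ x, x ∈ eUp D (D.vlo w.xD) → x = w.xD := by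
    intro x hx
    have hc : (eUp D (D.vlo w.xD)).card ≤ 1 := by
      unfold eH at heH
      omega
    exact (Finset.card_le_one.1 hc) x hx w.xD hT
  obtain ⟨f, hf, hf1, hf2, hf3, hf4⟩ := KP_face D w.xD hS.ok hv hp hhi hTu
  obtain ⟨h1, h2, h3, h4⟩ := (hCLs D (D.vlo w.xD) w f hS.ok hE hf hf1 hf2 heV).2 hf3 hf4
  rcases h4 with h4 | h4
  · refine (hMRd s D (D.vlo w.xD) w.yR w hS.ok hS.ih hE).2 h3 h1 h2 ?_
    omega
  · refine hMHS s D (D.vlo w.xD) hS.ok hS.ih hp hE.hT (Or.inr h4) ?_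
    omega

end Pool.RC
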