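import Pool.Agent.RC.Main1
import Pool.Agent.RC.St3
import Pool.Agent.RB.Main

/-! Module Kj of project RC. -/

namespace Pool.RC

open Pool.RB

private theorem Kj_el {s : Bool} {D : Cfg} {g : ℤ} {w : Hole} (hS : Sit s D g) (hw : w ∈ EL s D g) :
    w ∈ D.Z ∧ D.vlo w.xD < g ∧ g < D.vhi w.xD ∧ w.xD ∈ D.V := by
  classical
  have hw := Finset.mem_filter.mp hw
  obtain ⟨hwZ, hU, _, _, hlo⟩ := hw
  have hO := hS.ok.ok.z w hwZ
  have hB := qHB D hS.ok.ok w hwZ
  have h1 : g ≤ D.vlo w.xU := hS.hT w.xU hO.hU hU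
  refine ⟨hwZ, hlo, ?_, hO.hD⟩
  have e1 := hO.eU
  have e2 := hO.eD
  have e3 := hB.y12
  omega

theorem pKj (hMR2 : StMR2) (hMRd : StMRd) (hMHS : StMHS) (hEC : StEC) (hSit : StSit) (hIHs : StIHs)
    (hBadS : StBadS) (hCLs : StCLs) : StKj := by
  intro s D g w w' z hS hw hw' hz hzx hlt hQg hMM
  obtain ⟨hwZ, hwlo, hwhi, hwV⟩ := Kj_el hS hw
  obtain ⟨hwZ', hwlo', hwhi', hwV'⟩ := Kj_el hS hw'
  have hok := hS.ok.ok
  have hzO := hok.z z hz
  have hzB := qHB D hok z hz
  obtain ⟨v1, v2, v3, v4, v5⟩ := hok.v w.xD hwV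
  obtain ⟨v1', v2', v3', v4', v5'⟩ := hok.v w'.xD hwV'
  constructor
  · intro hBad hTow hlt2
    obtain ⟨_, _, z0, hz0, hz0x, hA, hyL, hy1, hyR, hy2⟩ := (hBadS D w hS.ok hwZ).1 hBad
    have hzz : z = z0 := (qHU D hok z hz z0 hz0).2.2.1 (by rw [hzx, hz0x])
    subst hzz
    have hx12 : z.xU < z.xD := by
      rcases hzO.chir with h | h
      · exact h.2
      · omega
    have hx1 : z.x1 = w.xD := by
      rw [← hzx]; unfold Hole.x1; exact min_eq_left hx12.le
    have hQH : z.y2 ∈ D.H := by rw [← hyR]; exact hzO.hR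
    have hQlo : D.hlo z.y2 = w.xD := by rw [← hyR, hzO.eR, hx1]
    have hQloX : D.hlo z.y2 ≠ D.X0 := by rw [hQlo]; omega
    have hQhiX : D.hhi z.y2 ≠ D.X1 := by
      intro h
      exact hok.nc w'.xD hwV' z.y2 hQH hlt (by omega) (by rw [hQlo]; exact hlt2) (by rw [h]; exact v2')
    have hwH : wH D z.y2 = 0 := by
      unfold wH; rw [if_neg hQloX, if_neg hQhiX]
    have hbQ : D.vlo w.xD < z.y2 := by rw [← hy1]; exact hzB.y12
    have hE : EC D z.y2 w := hEC s D g z.y2 w hS hw hQH hbQ.le hQg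
    by_cases hc : 1 ≤ eV (upA D z.y2) w.xD + eH D z.y2
    · apply hMR2 s D z.y2 w hS.ok hS.ih hE
      rw [hwH]; omega
    · have heV : eV (upA D z.y2) w.xD = 0 := by omega
      have heH : eH D z.y2 = 0 := by omega
      have hzY1 := hzB.ltY1
      have hzY0 : D.Y0 < z.y2 := by have := hzB.Y0lt; have := hzB.y12; omega
      obtain ⟨f, hf, f1, f2, f3, f4⟩ := qFE D (w.xD - 1) z.y2 hok (by omega) (by omega) hzY0.le (by omega)
      have hfx2 : f.x2 = w.xD := by
        by_contra hne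
        exact hf.noV w.xD hwV (by omega) (by omega) (by omega) (by omega)
      have hfx1 : f.x1 = D.X0 := by
        rcases hf.left with h | h
        · exact h
        · exact (hTow f.x1 h.1 (by omega) (by omega) (by omega)).elim
      obtain ⟨c1, c2, c3, c4⟩ := (hCLs D z.y2 w f hS.ok hE hf f3 (by omega) heV).1 hfx1 hfx2
      rcases c4 with c4 | c4
      · apply (hMRd s D z.y2 w.yL w hS.ok hS.ih hE).1 c3 c1 c2
        rw [hwH]; omega
      · apply hMHS s D z.y2 hS.ok hS.ih hQH hE.hT (Or.inl c4)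
        rw [hwH]; omega
  · intro hBad hTow hlt2
    obtain ⟨_, _, z0, hz0, hz0x, hA, hyL, hy1, hyR, hy2⟩ := (hBadS D w hS.ok hwZ).2 hBad
    have hzz : z = z0 := (qHU D hok z hz z0 hz0).2.2.1 (by rw [hzx, hz0x])
    subst hzz
    have hx12 : z.xD < z.xU := by
      rcases hzO.chir with h | h
      · omega
      · exact h.2
    have hx2 : z.x2 = w.xD := by
      rw [← hzx]; unfold Hole.x2; exact max_eq_left hx12.le
    have hQH : z.y2 ∈ D.H := by rw [← hyR]; exact hzO.hL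
    have hQhi : D.hhi z.y2 = w.xD := by rw [← hyR, hzO.eL, hx2]
    have hQhiX : D.hhi z.y2 ≠ D.X1 := by rw [hQhi]; omega
    have hQloX : D.hlo z.y2 ≠ D.X0 := by
      intro h
      exact hok.nc w'.xD hwV' z.y2 hQH hlt (by omega) (by rw [h]; exact v1') (by rw [hQhi]; exact hlt2)
    have hwH : wH D z.y2 = 0 := by
      unfold wH; rw [if_neg hQloX, if_neg hQhiX]
    have hbQ : D.vlo w.xD < z.y2 := by rw [← hy1]; exact hzB.y12
    have hE : EC D z.y2 w := hEC s D g z.y2 w hS hw hQH hbQ.le hQg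
    by_cases hc : 1 ≤ eV (upA D z.y2) w.xD + eH D z.y2
    · apply hMR2 s D z.y2 w hS.ok hS.ih hE
      rw [hwH]; omega
    · have heV : eV (upA D z.y2) w.xD = 0 := by omega
      have heH : eH D z.y2 = 0 := by omega
      have hzY1 := hzB.ltY1
      have hzY0 : D.Y0 < z.y2 := by have := hzB.Y0lt; have := hzB.y12; omega
      obtain ⟨f, hf, f1, f2, f3, f4⟩ := qFE D w.xD z.y2 hok (by omega) (by omega) hzY0.le (by omega)
      have hfx1 : f.x1 = w.xD := by
        by_contra hne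
        exact hf.noV w.xD hwV (by omega) (by omega) (by omega) (by omega)
      have hfx2 : f.x2 = D.X1 := by
        rcases hf.right with h | h
        · exact h
        · exact (hTow f.x2 h.1 (by omega) (by omega) (by omega)).elim
      obtain ⟨c1, c2, c3, c4⟩ := (hCLs D z.y2 w f hS.ok hE hf f3 (by omega) heV).2 hfx1 hfx2
      rcases c4 with c4 | c4
      · apply (hMRd s D z.y2 w.yR w hS.ok hS.ih hE).2 c3 c1 c2
        rw [hwH]; omega
      · apply hMHS s D z.y2 hS.ok hS.ih hQH hE.hT (Or.inr c4)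
        rw [hwH]; omega

end Pool.RC
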