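import Pool.Agent.RC.St3

/-! Project RC, module Kx1: the corner hole is the only element. -/

namespace Pool.RC

open Pool.RB

theorem pKx1 (hMS1 : StMS1) (hNumG : StNumG) : StKx1 := by
  intro s D g x hS hEL hxg hxA hlo hup
  obtain ⟨TT, T4, M1, TG, HG, _, hT4, hM1, _, hTg, hMM, hr, hq, hT4g, hev, _⟩ := hNumG s D g hS
  have hxE : x ∈ EL s D g := by rw [hEL]; exact Finset.mem_singleton_self x
  have hx := hxE
  simp only [EL, Finset.mem_filter] at hx
  have hy1 : x.y1 = g := by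
    show min x.yL x.yR = g
    rw [min_eq_left hxA.le, hxg]
  have hx4 : x ∈ T4 := (hT4 x).2 ⟨hx.1, hy1, hx.2.1⟩
  have hM : M1 = ∅ := by
    apply Finset.eq_empty_of_forall_notMem
    intro z hz
    have h := (hM1 z).1 hz
    rw [hEL, Finset.mem_singleton] at h
    rw [h.1, hy1] at h
    exact absurd h.2 (lt_irrefl _)
  have hw : wH D g = 1 := by
    have h2 : D.hhi g ≠ D.X1 := fun h => hS.irr.1 g hS.hg ⟨hlo, h⟩
    simp [wH, hlo, h2]
  have h4 : 1 ≤ T4.card := Finset.card_pos.2 ⟨x, hx4⟩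
  have he := hev x hx4
  have hE : 1 ≤ eH D g := by
    have : 1 ≤ (eUp D g).card := Finset.card_pos.2 hup
    unfold eH; omega
  refine hMS1 s D g x.xU hS.ok hS.ih hS.hg hS.hT (hT4g x hx4) ?_
  rw [hTg, hMM, hw, hM, Finset.card_empty]
  rw [hw] at hq
  omega

end Pool.RC
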