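import Pool.Agent.RC.St3
import Pool.Agent.RB.M_FE
import Pool.Agent.RB.M_HB

/-! # Project RC, module LCx: the corner hole is an element and nothing covers heights just below it -/

set_option autoImplicit false

namespace Pool.RC

open Pool.RB

theorem pLCx : StLCx := by
  classical
  intro s D g x hS hx hxL hxA hg0 hno
  have hok := hS.ok.ok
  unfold EL at hx
  rw [Finset.mem_filter] at hx
  obtain ⟨hxZ, hxU, hxic, hxLI, hxlo⟩ := hx
  have hxO := hok.z x hxZ
  have hxB := pHB D hok x hxZ
  have hch : x.xU < x.xD := by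
    rcases hxO.chir with h | h
    · exact h.2
    · omega
  have hx2 : x.x2 = x.xD := max_eq_right hch.le
  have hx1 : x.x1 = x.xU := min_eq_left hch.le
  have hy1 : x.y1 = x.yL := min_eq_left hxA.le
  have hy2 : x.y2 = x.yR := max_eq_right hxA.le
  have eL := hxO.eL
  have eR := hxO.eR
  have eD := hxO.eD
  have bX1 := hxB.ltX1
  have bX0 := hxB.X0lt
  have bY0 := hxB.Y0lt
  have bY1 := hxB.ltY1
  have b12 := hxB.x12
  obtain ⟨f, hf, f1, f2, f3, f4⟩ := pFE D x.xD (g - 1) hok (by omega) (by omega) (by omega) (by omega)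
  have e1 : f.x1 = x.xD := by
    by_contra hne
    exact hf.noV _ hxO.hD (by omega) (by omega) (by omega) (by omega)
  have e2 : f.x2 = D.X1 := by
    rcases hf.right with h | ⟨h1, h2, h3⟩
    · exact h
    · exact (hno _ h1 (by omega) (by omega) (by omega)).elim
  have hfy : f.y2 ≤ x.yR := by
    rcases hf.left with h | ⟨h1, h2, h3⟩
    · omega
    · rw [e1] at h3
      omega
  have htop : f.y2 ∈ D.H ∧ D.hlo f.y2 ≤ f.x1 ∧ f.x2 ≤ D.hhi f.y2 := by
    rcases hf.top with h | h
    · omega
    · exact h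
  obtain ⟨t1, t2, t3⟩ := htop
  have thh := hok.h _ t1
  have hne : f.y2 ≠ g := by
    intro h
    rw [h] at t3
    rw [hxL] at eL
    omega
  have e3 : f.y2 = x.yR := by
    by_contra hne2
    exact hS.ok.cH x hxZ f.y2 t1 (by omega) (by omega) (by omega) (by omega)
  have hhi : D.hhi x.yR = D.X1 := by
    rw [← e3]
    omega
  have hLC : LC D x := ⟨by rw [hxL]; exact hg0, hhi⟩
  cases s with
  | false =>
    exfalso
    apply hxLI
    refine ⟨hLC, ?_⟩
    simp only [Bool.false_eq_true, if_false]
    refine ⟨fun _ => ?_, fun h => by omega⟩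
    by_contra hne3
    obtain ⟨x', hx'⟩ := Finset.nonempty_iff_ne_empty.2 hne3
    obtain ⟨h1, h2, h3⟩ := Finset.mem_filter.1 hx'
    have hv := hok.v x' h1
    rcases hok.vhi_end x' h1 with h | ⟨h4, h5, h6⟩
    · omega
    · rw [h2] at h5 h6
      rcases lt_trichotomy x' x.xD with h7 | h7 | h7
      · exact hS.ok.cV x hxZ x' h1 (by omega) (by omega) (by omega) (by omega)
      · exact h3 x hxZ h7.symm
      · exact hf.noV x' h1 (by omega) (by omega) (by omega) (by omega)
  | true =>
    refine ⟨rfl, ?_⟩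
    by_contra hne3
    rw [Finset.not_nonempty_iff_eq_empty] at hne3
    apply hxLI
    refine ⟨hLC, ?_⟩
    simp only [if_true]
    exact ⟨fun _ => by rw [hxL]; exact hne3, fun h => by omega⟩

end Pool.RC
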