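import Pool.Agent.RC.Main1
import Pool.Agent.RC.St2
import Pool.Agent.RB.M_HB
import Pool.Agent.RB.M_HU

/-! # Project RC, module Ld: decomposition of a leaf along a full horizontal piece -/

set_option autoImplicit false

namespace Pool.RC

open Pool.RB

private theorem Ld_mono (D : Cfg) (m n : ℤ) (h : SolZ D m) (hmn : m ≤ n) : SolZ D n := by
  refine qMonoC D _ _ h ?_
  have : (m : ℚ) ≤ (n : ℚ) := by exact_mod_cast hmn
  linarith

/-- a full horizontal piece is no arm -/
private theorem Ld_noarm (E : Cfg) (c : ℤ) (hE : OkC E) (h0 : E.hlo c = E.X0) (h1 : E.hhi c = E.X1)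
    (z : Hole) (hz : z ∈ E.Z) : z.y1 ≠ c ∧ z.y2 ≠ c := by
  have hB := pHB E hE.ok z hz
  have hO := hE.ok.z z hz
  have a1 : z.yL ≠ c := by
    intro h
    have e := hO.eL
    rw [h, h1] at e
    have := hB.ltX1
    omega
  have a2 : z.yR ≠ c := by
    intro h
    have e := hO.eR
    rw [h, h0] at e
    have := hB.X0lt
    omega
  simp only [Hole.y1, Hole.y2]
  omega

private theorem Ld_nc (E : Cfg) (c : ℤ) (hE : OkC E) (hc : c ∈ E.H) (h0 : E.hlo c = E.X0) (h1 : E.hhi c = E.X1)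
    (x : ℤ) (hx : x ∈ E.V) : ¬ (E.vlo x < c ∧ c < E.vhi x) := by
  rintro ⟨a, b⟩
  have hv := hE.ok.v x hx
  exact hE.ok.nc x hx c hc a b (by omega) (by omega)

/-- a piece with lower end on `c` is in `eUp` -/
private theorem Ld_up (E : Cfg) (c : ℤ) (hE : OkC E) (hc : c ∈ E.H) (h0 : E.hlo c = E.X0) (h1 : E.hhi c = E.X1)
    (x : ℤ) (hx : x ∈ E.V) (h2 : E.vlo x ≤ c) (h3 : c < E.vhi x) : x ∈ eUp E c := by
  have h4 := Ld_nc E c hE hc h0 h1 x hx
  have h5 : E.vlo x = c := by
    by_contra h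
    exact h4 ⟨by omega, h3⟩
  simp only [eUp, Finset.mem_filter]
  refine ⟨hx, h5, fun z hz he => ?_⟩
  have e := (hE.ok.z z hz).eU
  rw [he, h5] at e
  exact (Ld_noarm E c hE h0 h1 z hz).1 e.symm

private theorem Ld_dn (E : Cfg) (c : ℤ) (hE : OkC E) (hc : c ∈ E.H) (h0 : E.hlo c = E.X0) (h1 : E.hhi c = E.X1)
    (x : ℤ) (hx : x ∈ E.V) (h2 : E.vlo x < c) (h3 : c ≤ E.vhi x) : x ∈ eDn E c := by
  have h4 := Ld_nc E c hE hc h0 h1 x hx
  have h5 : E.vhi x = c := by
    by_contra h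
    exact h4 ⟨h2, by omega⟩
  simp only [eDn, Finset.mem_filter]
  refine ⟨hx, h5, fun z hz he => ?_⟩
  have e := (hE.ok.z z hz).eD
  rw [he, h5] at e
  exact (Ld_noarm E c hE h0 h1 z hz).2 e.symm

private theorem Ld_split (S : Finset ℤ) (p : ℤ → Prop) [DecidablePred p] :
    (S.filter p).card + (S.filter (fun x => ¬ p x)).card = S.card :=
  Finset.card_filter_add_card_filter_not (s := S) p

private theorem Ld_cntU (E : Cfg) (c : ℤ) (hE : OkC E) (hc : c ∈ E.H) (h0 : E.hlo c = E.X0) (h1 : E.hhi c = E.X1) :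
    fV (upA E c) ≤ ((eUp E c).filter (fun x => E.vhi x = E.Y1)).card ∧
    uV (upA E c) ≤ ((eUp E c).filter (fun x => E.vhi x ≠ E.Y1)).card := by
  classical
  have hcc := hE.ok.h c hc
  constructor
  · refine Finset.card_le_card (fun x hx => ?_)
    have hx1 := Finset.mem_filter.mp hx
    have hx2 := Finset.mem_filter.mp (show x ∈ E.V.filter (fun x => c < E.vhi x ∧
      ∀ z ∈ E.Z, z.y1 ≤ c → c < z.y2 → z.xD ≠ x) from hx1.1)
    have e1 : max (E.vlo x) c = c := hx1.2.1
    have e2 : E.vhi x = E.Y1 := hx1.2.2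
    exact Finset.mem_filter.mpr ⟨Ld_up E c hE hc h0 h1 x hx2.1 (by omega) hx2.2.1, e2⟩
  · refine Finset.card_le_card_of_injOn (fun z => z.xD) (fun z hz => ?_) (fun z hz w hw he => ?_)
    · have hz1 := Finset.mem_filter.mp (Finset.mem_coe.mp hz)
      have hz2 := Finset.mem_filter.mp (show z ∈ E.Z.filter (fun z => c < z.y1) from hz1.1)
      have e1 : max (E.vlo z.xD) c = c := hz1.2.1.1
      have hB := pHB E hE.ok z hz2.1
      have hO := hE.ok.z z hz2.1
      have e := hO.eD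
      have g1 := hB.y12
      have g2 := hB.ltY1
      have g3 := hz2.2
      have g4 : E.vhi z.xD ≠ E.Y1 := by omega
      exact Finset.mem_coe.mpr (Finset.mem_filter.mpr
        ⟨Ld_up E c hE hc h0 h1 z.xD hO.hD (by omega) (by omega), g4⟩)
    · have hz1 := Finset.mem_filter.mp (Finset.mem_coe.mp hz)
      have hz2 := Finset.mem_filter.mp (show z ∈ E.Z.filter (fun z => c < z.y1) from hz1.1)
      have hw1 := Finset.mem_filter.mp (Finset.mem_coe.mp hw)
      have hw2 := Finset.mem_filter.mp (show w ∈ E.Z.filter (fun z => c < z.y1) from hw1.1)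
      exact (pHU pHB E hE.ok z hz2.1 w hw2.1).2.2.2 he

private theorem Ld_cntD (E : Cfg) (c : ℤ) (hE : OkC E) (hc : c ∈ E.H) (h0 : E.hlo c = E.X0) (h1 : E.hhi c = E.X1) :
    fV (dnA E c) ≤ ((eDn E c).filter (fun x => E.vlo x = E.Y0)).card ∧
    uV (dnA E c) ≤ ((eDn E c).filter (fun x => ¬ E.vlo x = E.Y0)).card := by
  classical
  have hcc := hE.ok.h c hc
  constructor
  · refine Finset.card_le_card (fun x hx => ?_)
    have hx1 := Finset.mem_filter.mp hx
    have hx2 := Finset.mem_filter.mp (show x ∈ E.V.filter (fun x => E.vlo x < c ∧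
      ∀ z ∈ E.Z, z.y1 < c → c ≤ z.y2 → z.xU ≠ x) from hx1.1)
    have e1 : min (E.vhi x) c = c := hx1.2.2
    have e2 : E.vlo x = E.Y0 := hx1.2.1
    exact Finset.mem_filter.mpr ⟨Ld_dn E c hE hc h0 h1 x hx2.1 hx2.2.1 (by omega), e2⟩
  · refine Finset.card_le_card_of_injOn (fun z => z.xU) (fun z hz => ?_) (fun z hz w hw he => ?_)
    · have hz1 := Finset.mem_filter.mp (Finset.mem_coe.mp hz)
      have hz2 := Finset.mem_filter.mp (show z ∈ E.Z.filter (fun z => z.y2 < c) from hz1.1)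
      have e1 : min (E.vhi z.xU) c = c := hz1.2.1.2
      have hB := pHB E hE.ok z hz2.1
      have hO := hE.ok.z z hz2.1
      have e := hO.eU
      have g1 := hB.y12
      have g2 := hB.Y0lt
      have g3 := hz2.2
      have g4 : ¬ E.vlo z.xU = E.Y0 := by omega
      exact Finset.mem_coe.mpr (Finset.mem_filter.mpr
        ⟨Ld_dn E c hE hc h0 h1 z.xU hO.hU (by omega) (by omega), g4⟩)
    · have hz1 := Finset.mem_filter.mp (Finset.mem_coe.mp hz)
      have hz2 := Finset.mem_filter.mp (show z ∈ E.Z.filter (fun z => z.y2 < c) from hz1.1)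
      have hw1 := Finset.mem_filter.mp (Finset.mem_coe.mp hw)
      have hw2 := Finset.mem_filter.mp (show w ∈ E.Z.filter (fun z => z.y2 < c) from hw1.1)
      exact (pHU pHB E hE.ok z hz2.1 w hw2.1).2.2.1 he

theorem pLd (hCH : StCH) (_hSymZ : StSymZ) (hIHs : StIHs) (_hSit : StSit) : StLd := by
  intro D E c hIH hE hsz hc h0 h1
  have hcc := hE.ok.h c hc
  have hUp := qUpA E c hE hcc.1 hcc.2.1
  have hDn := qDnA E c hE hcc.1 hcc.2.1
  have hs := qSzA.2.1 E c hc
  have a1 := hIHs.1 D (upA E c) hIH hUp (by omega)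
  have a2 := hIHs.1 D (dnA E c) hIH hDn (by omega)
  have b1 := Ld_cntU E c hE hc h0 h1
  have b2 := Ld_cntD E c hE hc h0 h1
  have c1 := Ld_split (eUp E c) (fun x => E.vhi x = E.Y1)
  have c2 := Ld_split (eDn E c) (fun x => E.vlo x = E.Y0)
  have i4 := qI4 E c hE hc
  have hw : wH E c = 2 := by
    unfold wH
    rw [if_pos h0, if_pos h1]
  rw [if_pos h0, if_pos h1] at i4
  have i4a := i4.2.2.1
  have i4b := i4.2.2.2.1
  have hg : gn E c = (eUp E c).card + (eDn E c).card + 2 * ((eUp E c).filter (fun x => E.vhi x ≠ E.Y1)).card := rfl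
  have he : eH E c = (eUp E c).card + (eDn E c).card := rfl
  have c1' : ((eUp E c).filter (fun x => E.vhi x = E.Y1)).card + ((eUp E c).filter (fun x => E.vhi x ≠ E.Y1)).card =
    (eUp E c).card := c1
  constructor
  · have k := hCH E c _ _ hE hc a1.1 a2.1
    refine Ld_mono E _ _ k ?_
    unfold KR
    rw [hw, he, hg]
    push_cast
    omega
  · have k := hCH E c _ _ hE hc a1.2.1 a2.2.1
    refine Ld_mono E _ _ k ?_
    unfold KL
    rw [hw, he, hg]
    push_cast
    omega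

end Pool.RC
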