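import Pool.Agent.RC.St2
import Pool.Agent.RC.Main1

/-!
# Project RC (MP_c6e2b4_co, owner helper22): cut of a leaf along a full vertical piece
-/

set_option autoImplicit false

namespace Pool.RC

open Pool.RB

private theorem Lf_crs {E : Cfg} {x : ℤ} (hE : OkC E) (hx : x ∈ E.V) (h0 : E.vlo x = E.Y0)
    (h1 : E.vhi x = E.Y1) : crsV E x = 0 := by
  unfold crsV
  rw [Finset.card_eq_zero, Finset.filter_eq_empty_iff]
  rintro y hy ⟨h2, h3⟩
  have h4 := hE.ok.h y hy
  exact hE.ok.nc x hx y hy (by omega) (by omega) h2 h3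

theorem pLf (hCV : StCV) (hW : StW) (hSymZ : StSymZ) (hIHs : StIHs) (hUVp : StUVp) : StLf := by
  intro D E x hIH hE hsz hx h0 h1
  have hv := hE.ok.v x hx
  have hLR := qLRA E x hE hv.1 hv.2.1
  have hs := qSzA.2.2.1 E x hx
  have hL := hIHs.1 D (lfA E x) hIH hLR.1 (by omega)
  have hR := hIHs.1 D (rtA E x) hIH hLR.2 (by omega)
  have hw := hW E x hE hx
  have hu := (hUVp E x hE hx).1
  have hc := Lf_crs hE hx h0 h1
  have hwV : wV E x = 2 := by
    unfold wV
    rw [if_pos h0, if_pos h1]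
  obtain ⟨w1, w2, w3, w4, -, -, w7⟩ := hw
  rw [if_pos ⟨h0, h1⟩] at w7
  have heV : eV E x = (eRt E x).card + (eLf E x).card := rfl
  have hM : StZM := fun D m n h hmn => by
    unfold SolZ at h ⊢
    refine qMonoC D _ _ h ?_
    have : (m : ℚ) ≤ n := by exact_mod_cast hmn
    linarith
  constructor
  · refine hM E _ _ (hCV E x _ _ hE hx hL.1 hR.1) ?_
    unfold KR
    omega
  · refine hM E _ _ (hCV E x _ _ hE hx hL.2.1 hR.2.1) ?_
    unfold KL
    omega

end Pool.RC
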