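import Pool.Agent.RC.Main1

/-!
# Project RC (MP_c6e2b4_co), module Lv: cut of a leaf along the down arm of a counted hole
-/

set_option autoImplicit false

namespace Pool.RC

open Pool.RB

private lemma Lv_mono {D : Cfg} {m n : ℤ} (h : SolZ D m) (hmn : m ≤ n) : SolZ D n := by
  refine qMonoC D _ _ h ?_
  have : (m : ℚ) ≤ n := by exact_mod_cast hmn
  linarith

private lemma Lv_first (hCV : StCV) (hW : StW) (hOne : StOne) (hIHs : StIHs) (hUVp : StUVp)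
    (D E : Cfg) (y : Hole) (hD : IH D) (hE : OkC E) (hsz : E.sz < D.sz) (hf : fV E = 0)
    (hy : y ∈ E.Z) (hVC : VC E y) (hic : icU E y) :
    SolZ E (U E + 3 * (WR E : ℤ) + uV E + 1 - (eLf E y.xD).card - 4 * ((eRt E y.xD).card : ℤ)) := by
  have hz := hE.ok.z y hy
  have hv : y.xD ∈ E.V := hz.hD
  obtain ⟨hX0, hX1, -, -, -⟩ := hE.ok.v _ hv
  obtain ⟨hokL, hokR⟩ := qLRA E y.xD hE hX0 hX1
  obtain ⟨hszR, hszL⟩ := qSzA.2.2.1 E y.xD hv
  obtain ⟨hcr, hhit⟩ := hOne E y hE hy hVC.2 hic hVC.1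
  have hL := (hIHs.1 D (lfA E y.xD) hD hokL (hszL.trans hsz)).1
  have hR := (hIHs.1 D (rtA E y.xD) hD hokR (hszR.trans hsz)).1
  have h := hCV E y.xD _ _ hE hv hL hR
  obtain ⟨w1, w2, w3, w4, w5, w6, w7⟩ := hW E y.xD hE hv
  have hu := (hUVp E y.xD hE hv).2 y hy rfl hVC hic
  have hhi : E.vhi y.xD ≠ E.Y1 := by
    have h1 : E.vhi y.xD = y.y2 := hz.eD
    have h2 : y.y2 < E.Y1 := by
      have hl := (hE.ok.h _ hz.hL).2.1
      have hr := (hE.ok.h _ hz.hR).2.1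
      exact max_lt hl hr
    rw [h1]
    exact ne_of_lt h2
  have hwV : wV E y.xD = 1 := by
    unfold wV
    rw [if_pos hVC.1, if_neg hhi]
  refine Lv_mono h ?_
  unfold KR eV
  rw [hwV]
  push_cast
  omega

theorem pLv (hCV : StCV) (hW : StW) (hOne : StOne) (hSymZ : StSymZ) (hIHs : StIHs) (hUVp : StUVp) :
    StLv := by
  intro D E y hD hE hsz hf hy hVC hic
  refine ⟨Lv_first hCV hW hOne hIHs hUVp D E y hD hE hsz hf hy hVC hic, ?_⟩
  obtain ⟨s1, s2, s3⟩ := hSymZ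
  obtain ⟨a1, a2, a3, a4, a5, a6, a7⟩ := qI7.1 E
  obtain ⟨-, -, -, -, -, -, -, -, -, -, b1, b2⟩ := qI7.2 E y.xD
  have hy' : y.fx ∈ E.fx.Z := Finset.mem_image_of_mem _ hy
  have hsz' : E.fx.sz < D.sz := by
    rw [(qSzA.2.2.2 E).2.1]
    exact hsz
  have h := Lv_first hCV hW hOne hIHs hUVp D E.fx y.fx hD (qCFx E hE) hsz' (by rw [a6]; exact hf) hy'
    ((s3 true E y).2.2.2 hVC) ((s3 true E y).2.1.2 hic)
  have h2 : SolZ E (U E.fx + 3 * (WR E.fx : ℤ) + uV E.fx + 1 - (eLf E.fx y.fx.xD).card -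
      4 * ((eRt E.fx y.fx.xD).card : ℤ)) := (qSolSym E _).2.1.1 h
  refine Lv_mono h2 ?_
  have hxD : y.fx.xD = -y.xD := rfl
  rw [hxD, b1, b2, (s1 true E).1, a4]
  have hK := (s2 E).2.2.1
  unfold KR KL at hK
  omega

end Pool.RC
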