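import Pool.Agent.RC.Main1

/-!
# Project RC, module MFH: a full horizontal piece
-/

namespace Pool.RC

open Pool.RB

private theorem MFH_none {D : Cfg} {c : ℤ} (hok : OkC D) (h0 : D.hlo c = D.X0) (h1 : D.hhi c = D.X1)
    (hc : c ∈ D.H) (z : Hole) (hz : z ∈ D.Z) (h2 : z.y1 ≤ c) (h3 : c < z.y2) : False := by
  have hH := hok.ok.z z hz
  have hU := hok.ok.v z.xU hH.hU
  have hD := hok.ok.v z.xD hH.hD
  have e1 : z.x1 = min z.xU z.xD := rfl
  have e2 : z.x2 = max z.xU z.xD := rfl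
  have e3 : z.y1 = min z.yL z.yR := rfl
  have e4 : z.y2 = max z.yL z.yR := rfl
  rcases lt_or_eq_of_le h2 with h4 | h4
  · exact hH.noH c hc h4 h3 (by omega) (by omega)
  · rcases le_total z.yL z.yR with h5 | h5
    · have h6 : c = z.yL := by omega
      have := hH.eL
      rw [← h6] at this
      omega
    · have h6 : c = z.yR := by omega
      have := hH.eR
      rw [← h6] at this
      omega

private theorem MFH_eUp {D : Cfg} {c : ℤ} (hok : OkC D) (hn : ∀ z ∈ D.Z, z.y1 ≤ c → c < z.y2 → False)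
    {y : ℤ} (hy : c < y) (h : eUp (upA D c) y = ∅) : eUp D y = ∅ := by
  rw [Finset.eq_empty_iff_forall_notMem] at h ⊢
  intro x hx
  refine h x ?_
  simp only [eUp, upA, Finset.mem_filter] at hx ⊢
  obtain ⟨⟨hxV, hxl⟩, hxo⟩ : (x ∈ D.V ∧ D.vlo x = y) ∧ ∀ z ∈ D.Z, z.xU ≠ x := ⟨⟨hx.1, hx.2.1⟩, hx.2.2⟩
  have := hok.ok.v x hxV
  refine ⟨⟨hxV, by omega, fun z hz a b _ => hn z hz a b⟩, ?_, fun z hz => hxo z hz.1⟩
  rw [max_eq_left (by omega)]
  exact hxl

private theorem MFH_eDn {D : Cfg} {c : ℤ} (hn : ∀ z ∈ D.Z, z.y1 ≤ c → c < z.y2 → False)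
    {y : ℤ} (hy : c < y) (h : eDn (upA D c) y = ∅) : eDn D y = ∅ := by
  rw [Finset.eq_empty_iff_forall_notMem] at h ⊢
  intro x hx
  refine h x ?_
  simp only [eDn, upA, Finset.mem_filter] at hx ⊢
  obtain ⟨hxV, hxl, hxo⟩ := hx
  exact ⟨⟨hxV, by omega, fun z hz a b _ => hn z hz a b⟩, hxl, fun z hz => hxo z hz.1⟩

private theorem MFH_LI {s : Bool} {D : Cfg} {c : ℤ} (hok : OkC D)
    (hn : ∀ z ∈ D.Z, z.y1 ≤ c → c < z.y2 → False) {z : Hole} (hz : c < z.y1)
    (h : LI s (upA D c) z) : LI s D z := by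
  have e3 : z.y1 = min z.yL z.yR := rfl
  have hL : c < z.yL := by omega
  have hR : c < z.yR := by omega
  obtain ⟨h1, h2⟩ := h
  refine ⟨h1, ?_⟩
  cases s with
  | true =>
    simp only [if_true] at h2 ⊢
    exact ⟨fun a => MFH_eUp hok hn hL (h2.1 a), fun a => MFH_eDn hn hL (h2.2 a)⟩
  | false =>
    simp only [Bool.false_eq_true, if_false] at h2 ⊢
    exact ⟨fun a => MFH_eDn hn hR (h2.1 a), fun a => MFH_eUp hok hn hR (h2.2 a)⟩

/-- MODULE MFH. -/
theorem pMFH (hCH : StCH) (hIHs : StIHs) (hIC : StIC) : StMFH := by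
  classical
  intro s D c hok hIH hc h0 h1
  obtain ⟨hc0, hc1, -⟩ := hok.ok.h c hc
  have hn : ∀ z ∈ D.Z, z.y1 ≤ c → c < z.y2 → False := MFH_none hok h0 h1 hc
  have hsz := (qSzA.2.1 D c hc)
  have kU := (hIHs.1 D (upA D c) hIH (qUpA D c hok hc0 hc1) hsz.1).2.2 s
  have kD := (hIHs.1 D (dnA D c) hIH (qDnA D c hok hc0 hc1) hsz.2).2.2 s
  have key := hCH D c _ _ hok hc kU kD
  have hcrs : crs D c = 0 := by
    rw [crs, Finset.card_eq_zero, Finset.eq_empty_iff_forall_notMem]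
    intro x hx
    simp only [Finset.mem_filter] at hx
    have := hok.ok.v x hx.1
    exact hok.ok.nc x hx.1 c hc hx.2.1 hx.2.2 (by omega) (by omega)
  have hhit : hit D c = 0 := by
    rw [hit, Finset.card_eq_zero, Finset.eq_empty_iff_forall_notMem]
    intro z hz
    simp only [Finset.mem_filter] at hz
    exact hn z hz.1 (by omega) hz.2.2
  have h3 := (qI3 D c hok hc).1
  obtain ⟨-, h4, -, -, h5⟩ := qI4 D c hok hc
  rw [hcrs, hhit] at h3
  rw [if_pos ⟨h0, h1⟩] at h5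
  have hw : wH D c = 2 := by
    unfold wH
    rw [if_pos h0, if_pos h1]
  have hu : uH s (upA D c) + uH s (dnA D c) ≤ uH s D := by
    unfold uH
    rw [← Finset.card_union_of_disjoint]
    · refine Finset.card_le_card ?_
      intro z hz
      simp only [Finset.mem_union, Finset.mem_filter, upA, dnA] at hz
      rw [Finset.mem_filter]
      rcases hz with ⟨⟨hz, h6⟩, h7⟩ | ⟨⟨hz, h6⟩, h7⟩
      · exact ⟨hz, MFH_LI hok hn h6 h7⟩
      · exact ⟨hz, (hIC D z c hok hz).2.1 s h6 hc1 h7⟩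
    · rw [Finset.disjoint_left]
      intro z hz hz'
      simp only [Finset.mem_filter, upA, dnA] at hz hz'
      have e3 : z.y1 = min z.yL z.yR := rfl
      have e4 : z.y2 = max z.yL z.yR := rfl
      omega
  have he : eH D c = (eUp D c).card + (eDn D c).card := rfl
  refine qMonoC D _ _ key ?_
  have hle : U D + KB s (upA D c) + KB s (dnA D c) - 5 - 4 * (eH D c : ℤ) + 4 * (wH D c : ℤ) ≤ U D + KB s D := by
    unfold KB
    omega
  have hle' : ((U D + KB s (upA D c) + KB s (dnA D c) - 5 - 4 * (eH D c : ℤ) + 4 * (wH D c : ℤ) : ℤ) : ℚ) ≤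
      ((U D + KB s D : ℤ) : ℚ) := by exact_mod_cast hle
  linarith

end Pool.RC
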