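import Pool.Agent.RC.Main1

/-!
# Project RC, module MFV: a full vertical piece
-/

namespace Pool.RC

open Pool.RB

/-- nothing crosses a full vertical piece, and it is no side of a hole -/
private theorem MFV_nc {D : Cfg} {x : ℤ} (hok : OkC D) (hx : x ∈ D.V) (h0 : D.vlo x = D.Y0) (h1 : D.vhi x = D.Y1)
    {y : ℤ} (hy : y ∈ D.H) (h2 : D.hlo y < x) (h3 : x < D.hhi y) : False := by
  have h4 := hok.ok.h y hy
  exact hok.ok.nc x hx y hy (by omega) (by omega) h2 h3

private theorem MFV_side {D : Cfg} {x : ℤ} (hok : OkC D) (h0 : D.vlo x = D.Y0) (h1 : D.vhi x = D.Y1)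
    {z : Hole} (hz : z ∈ D.Z) : z.x1 ≠ x ∧ z.x2 ≠ x := by
  have hH := hok.ok.z z hz
  have hL := hok.ok.h z.yL hH.hL
  have hR := hok.ok.h z.yR hH.hR
  have e1 : z.x1 = min z.xU z.xD := rfl
  have e2 : z.x2 = max z.xU z.xD := rfl
  have e3 : z.y1 = min z.yL z.yR := rfl
  have e4 : z.y2 = max z.yL z.yR := rfl
  have hU : z.xU ≠ x := by
    intro h
    have := hH.eU
    rw [h] at this
    omega
  have hD : z.xD ≠ x := by
    intro h
    have := hH.eD
    rw [h] at this
    omega
  omega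

/-- counting on the left side -/
private theorem MFV_L {s : Bool} {D : Cfg} {x : ℤ} (hok : OkC D) (hx : x ∈ D.V) (h0 : D.vlo x = D.Y0)
    (h1 : D.vhi x = D.Y1) : 3 * fH (lfA D x) + uH s (lfA D x) ≤ 3 * (eLf D x).card := by
  classical
  obtain ⟨hx0, hx1, -⟩ := hok.ok.v x hx
  have hsub1 : (lfA D x).H.filter (fun y => (lfA D x).hlo y = (lfA D x).X0 ∧ (lfA D x).hhi y = (lfA D x).X1) ⊆
      (eLf D x).filter (fun y => D.hlo y = D.X0) := by
    intro y hy
    obtain ⟨hy1, h3, h4⟩ := Finset.mem_filter.1 hy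
    obtain ⟨hy, h2, -⟩ := Finset.mem_filter.1 hy1
    change D.hlo y = D.X0 at h3
    change min (D.hhi y) x = x at h4
    have h5 : D.hhi y = x := by
      by_contra h
      exact MFV_nc hok hx h0 h1 hy h2 (by omega)
    refine Finset.mem_filter.2 ⟨Finset.mem_filter.2 ⟨hy, h5, ?_⟩, h3⟩
    intro z hz h
    have := (hok.ok.z z hz).eL
    rw [h] at this
    exact (MFV_side hok h0 h1 hz).2 (by omega)
  have hsub2 : ((lfA D x).Z.filter (fun z => LI s (lfA D x) z)).image Hole.yR ⊆
      (eLf D x).filter (fun y => ¬ D.hlo y = D.X0) := by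
    intro y hy
    rw [Finset.mem_image] at hy
    obtain ⟨z, hz, rfl⟩ := hy
    obtain ⟨hz1, ⟨h3, h4⟩, -⟩ := Finset.mem_filter.1 hz
    obtain ⟨hz, h2⟩ := Finset.mem_filter.1 hz1
    change min (D.hhi z.yR) x = x at h4
    have hH := hok.ok.z z hz
    have hU := hok.ok.v z.xU hH.hU
    have hD := hok.ok.v z.xD hH.hD
    have e1 : z.x1 = min z.xU z.xD := rfl
    have e2 : z.x2 = max z.xU z.xD := rfl
    have e5 := hH.eR
    have h5 : D.hhi z.yR = x := by
      by_contra h
      exact MFV_nc hok hx h0 h1 hH.hR (by omega) (by omega)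
    refine Finset.mem_filter.2 ⟨Finset.mem_filter.2 ⟨hH.hR, h5, ?_⟩, by omega⟩
    intro w hw h
    have := (hok.ok.z w hw).eL
    rw [h] at this
    exact (MFV_side hok h0 h1 hw).2 (by omega)
  have hinj : (((lfA D x).Z.filter (fun z => LI s (lfA D x) z)).image Hole.yR).card =
      ((lfA D x).Z.filter (fun z => LI s (lfA D x) z)).card := by
    refine Finset.card_image_of_injOn ?_
    intro z hz w hw h
    have hz' := (Finset.mem_filter.1 (Finset.mem_filter.1 (Finset.mem_coe.1 hz)).1).1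
    have hw' := (Finset.mem_filter.1 (Finset.mem_filter.1 (Finset.mem_coe.1 hw)).1).1
    exact (qHU D hok.ok z hz' w hw').2.1 h
  have c1 := Finset.card_le_card hsub1
  have c2 := Finset.card_le_card hsub2
  rw [hinj] at c2
  have c3 := Finset.card_filter_add_card_filter_not (s := eLf D x) (fun y => D.hlo y = D.X0)
  unfold fH uH
  omega

/-- counting on the right side -/
private theorem MFV_R {s : Bool} {D : Cfg} {x : ℤ} (hok : OkC D) (hx : x ∈ D.V) (h0 : D.vlo x = D.Y0)
    (h1 : D.vhi x = D.Y1) : 3 * fH (rtA D x) + uH s (rtA D x) ≤ 3 * (eRt D x).card := by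
  classical
  obtain ⟨hx0, hx1, -⟩ := hok.ok.v x hx
  have hsub1 : (rtA D x).H.filter (fun y => (rtA D x).hlo y = (rtA D x).X0 ∧ (rtA D x).hhi y = (rtA D x).X1) ⊆
      (eRt D x).filter (fun y => D.hhi y = D.X1) := by
    intro y hy
    obtain ⟨hy1, h3, h4⟩ := Finset.mem_filter.1 hy
    obtain ⟨hy, h2, -⟩ := Finset.mem_filter.1 hy1
    change max (D.hlo y) x = x at h3
    change D.hhi y = D.X1 at h4
    have h5 : D.hlo y = x := by
      by_contra h
      exact MFV_nc hok hx h0 h1 hy (by omega) h2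
    refine Finset.mem_filter.2 ⟨Finset.mem_filter.2 ⟨hy, h5, ?_⟩, h4⟩
    intro z hz h
    have := (hok.ok.z z hz).eR
    rw [h] at this
    exact (MFV_side hok h0 h1 hz).1 (by omega)
  have hsub2 : ((rtA D x).Z.filter (fun z => LI s (rtA D x) z)).image Hole.yL ⊆
      (eRt D x).filter (fun y => ¬ D.hhi y = D.X1) := by
    intro y hy
    rw [Finset.mem_image] at hy
    obtain ⟨z, hz, rfl⟩ := hy
    obtain ⟨hz1, ⟨h3, h4⟩, -⟩ := Finset.mem_filter.1 hz
    obtain ⟨hz, h2⟩ := Finset.mem_filter.1 hz1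
    change max (D.hlo z.yL) x = x at h3
    have hH := hok.ok.z z hz
    have hU := hok.ok.v z.xU hH.hU
    have hD := hok.ok.v z.xD hH.hD
    have e1 : z.x1 = min z.xU z.xD := rfl
    have e2 : z.x2 = max z.xU z.xD := rfl
    have e5 := hH.eL
    have h5 : D.hlo z.yL = x := by
      by_contra h
      exact MFV_nc hok hx h0 h1 hH.hL (by omega) (by omega)
    refine Finset.mem_filter.2 ⟨Finset.mem_filter.2 ⟨hH.hL, h5, ?_⟩, by omega⟩
    intro w hw h
    have := (hok.ok.z w hw).eR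
    rw [h] at this
    exact (MFV_side hok h0 h1 hw).1 (by omega)
  have hinj : (((rtA D x).Z.filter (fun z => LI s (rtA D x) z)).image Hole.yL).card =
      ((rtA D x).Z.filter (fun z => LI s (rtA D x) z)).card := by
    refine Finset.card_image_of_injOn ?_
    intro z hz w hw h
    have hz' := (Finset.mem_filter.1 (Finset.mem_filter.1 (Finset.mem_coe.1 hz)).1).1
    have hw' := (Finset.mem_filter.1 (Finset.mem_filter.1 (Finset.mem_coe.1 hw)).1).1
    exact (qHU D hok.ok z hz' w hw').1 h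
  have c1 := Finset.card_le_card hsub1
  have c2 := Finset.card_le_card hsub2
  rw [hinj] at c2
  have c3 := Finset.card_filter_add_card_filter_not (s := eRt D x) (fun y => D.hhi y = D.X1)
  unfold fH uH
  omega

/-- MODULE MFV. -/
theorem pMFV (hCV : StCV) (hW : StW) (hIHs : StIHs) : StMFV := by
  classical
  intro s D x hok hIH hx h0 h1
  obtain ⟨hx0, hx1, -⟩ := hok.ok.v x hx
  have hsz := qSzA.2.2.1 D x hx
  have kL := (hIHs.1 D (lfA D x) hIH (qLRA D x hok hx0 hx1).1 hsz.2).2.2 s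
  have kR := (hIHs.1 D (rtA D x) hIH (qLRA D x hok hx0 hx1).2 hsz.1).2.2 s
  have key := hCV D x _ _ hok hx kL kR
  obtain ⟨-, -, -, -, -, h5, -⟩ := hW D x hok hx
  rw [if_pos h0] at h5
  have hw : wV D x = 2 := by
    unfold wV
    rw [if_pos h0, if_pos h1]
  have cL := MFV_L (s := s) hok hx h0 h1
  have cR := MFV_R (s := s) hok hx h0 h1
  have he : eV D x = (eRt D x).card + (eLf D x).card := rfl
  refine qMonoC D _ _ key ?_
  have hle : U D + KB s (lfA D x) + KB s (rtA D x) - 5 - 4 * (eV D x : ℤ) + 4 * (wV D x : ℤ) ≤ U D + KB s D := by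
    unfold KB
    omega
  have hle' : ((U D + KB s (lfA D x) + KB s (rtA D x) - 5 - 4 * (eV D x : ℤ) + 4 * (wV D x : ℤ) : ℤ) : ℚ) ≤
      ((U D + KB s D : ℤ) : ℚ) := by exact_mod_cast hle
  linarith

end Pool.RC
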