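import Pool.Agent.RC.Main1

/-! # Project RC, module MHS: one line, the upper part open at a wall with one contact -/

set_option autoImplicit false

namespace Pool.RC

open Pool.RB

theorem pMHS (hZM : StZM) (hCH : StCH) (hIHs : StIHs) (hDnK : StDnK) (hCntU : StCntU)
    (hAcc : StAcc) : StMHS := by
  intro s D p hok hIH hp hT hW hM
  obtain ⟨hY0, hY1, -, -, -⟩ := hok.ok.h p hp
  have hUP : OkC (upA D p) := qUpA D p hok hY0 hY1
  have hDN : OkC (dnA D p) := qDnA D p hok hY0 hY1
  obtain ⟨hsU, hsD⟩ := qSzA.2.1 D p hp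
  obtain ⟨hR, hL, -⟩ := hIHs.1 D (upA D p) hIH hUP hsU
  have hB := (hIHs.1 D (dnA D p) hIH hDN hsD).2.2 s
  obtain ⟨hQ, hf, -⟩ := hCntU D p hok hp
  have hf0 := hf hT
  have hK := hDnK s D p hok hp
  have hA := hAcc s D p hok
  unfold P
  rcases hW with hW | hW
  · refine hZM D _ _ (hCH D p _ _ hok hp hL hB) ?_
    unfold KL
    rw [hW, hf0]
    unfold KB at hK ⊢
    push_cast
    omega
  · refine hZM D _ _ (hCH D p _ _ hok hp hR hB) ?_
    unfold KR
    rw [hW, hf0]
    unfold KB at hK ⊢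
    push_cast
    omega

end Pool.RC
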