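import Pool.Agent.RC.Main1

/-! # Project RC, module MI: the move I (cut along a bottom attached down arm) -/

set_option autoImplicit false

namespace Pool.RC

open Pool.RB

theorem pMI (hZM : StZM) (hCV : StCV) (hW : StW) (hIHs : StIHs) (hOne : StOne) (hUVp : StUVp)
    (hLd : StLd) : StMI := by
  intro s D w hD hIH hIrr hw hU hic hlo
  have hv : w.xD ∈ D.V := (hD.ok.z w hw).hD
  obtain ⟨hx0, hx1, -, -, -⟩ := hD.ok.v w.xD hv
  obtain ⟨okL, okR⟩ := qLRA D w.xD hD hx0 hx1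
  obtain ⟨szR, szL⟩ := qSzA.2.2.1 D w.xD hv
  have hsL := (hIHs.1 D (lfA D w.xD) hIH okL szL).1
  have hsR := (hIHs.1 D (rtA D w.xD) hIH okR szR).2.1
  obtain ⟨w1, w2, -, -, -, -, w7⟩ := hW D w.xD hD hv
  obtain ⟨o1, o2⟩ := hOne D w hD hw hU hic hlo
  have hu := (hUVp D w.xD hD hv).2 w hw rfl ⟨hlo, hU⟩ hic
  have hnf : ¬ (D.vlo w.xD = D.Y0 ∧ D.vhi w.xD = D.Y1) := hIrr.2 w.xD hv
  have hf : fV D = 0 := by
    unfold fV
    rw [Finset.card_eq_zero, Finset.filter_eq_empty_iff]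
    intro x hx
    exact hIrr.2 x hx
  rw [hf] at w7
  have hwV : wV D w.xD = 1 := by
    unfold wV
    rw [if_pos hlo, if_neg (fun h => hnf ⟨hlo, h⟩)]
  have hfL : fV (lfA D w.xD) = 0 := by omega
  have hfR : fV (rtA D w.xD) = 0 := by omega
  rw [o1, o2] at w1 w2
  have heV : eV D w.xD = (eRt D w.xD).card + (eLf D w.xD).card := rfl
  refine ⟨fun h => ?_, fun c hc hc0 hc1 h => ?_⟩
  · unfold P
    refine hZM D _ _ (hCV D w.xD _ _ hD hv hsL hsR) ?_
    unfold KR KL KB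
    rw [hfL, hfR, hwV]
    push_cast
    omega
  · have hlo' : (lfA D w.xD).hlo c = (lfA D w.xD).X0 := hc0
    have hhi' : (lfA D w.xD).hhi c = (lfA D w.xD).X1 := by
      show min (D.hhi c) w.xD = w.xD
      exact min_eq_right hc1
    have hsL' := (hLd D (lfA D w.xD) c hIH okL szL hc hlo' hhi').1
    have e : U (lfA D w.xD) + 3 * (WR (lfA D w.xD) : ℤ) - gn (lfA D w.xD) c =
        U (lfA D w.xD) + (3 * (WR (lfA D w.xD) : ℤ) - gn (lfA D w.xD) c) := by ring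
    rw [e] at hsL'
    unfold P
    refine hZM D _ _ (hCV D w.xD _ _ hD hv hsL' hsR) ?_
    unfold KL KB
    rw [hfR, hwV]
    push_cast
    omega

end Pool.RC
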