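import Pool.Agent.RC.St3
import Pool.Agent.RC.Main1
import Pool.Agent.RB.M_HU
import Pool.Agent.RB.M_HB

/-! # Project RC, module ML: the lowest element is bad on the left -/

set_option autoImplicit false

namespace Pool.RC

open Pool.RB

private theorem ML_mem (s : Bool) (D : Cfg) (g : ℤ) (z : Hole) (hz : z ∈ EL s D g) :
    z ∈ D.Z ∧ D.vlo z.xD < g := by
  classical
  simp only [EL, Finset.mem_filter] at hz
  exact ⟨hz.1, hz.2.2.2.2⟩

theorem pML (hTow : StTow) (hMMl : StMMl) (hSem : StSem) (hSe2 : StSe2) (hBadS : StBadS) (hF2 : StF2)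
    (hK4 : StK4) (hK2 : StK2) (hK3 : StK3) : StML := by
  intro s D g w1 hS h1 hlow hB1
  obtain ⟨hZ1, hlt1⟩ := ML_mem s D g w1 h1
  -- the only element ending at or below `b(w1)` is `w1`
  have hM1 : (MM s D (D.vlo w1.xD)).card ≤ 1 := by
    have hsub : MM s D (D.vlo w1.xD) ⊆ {w1} := by
      intro z hz
      obtain ⟨hzE, hzb⟩ := (hMMl s D g (D.vlo w1.xD) hS hlt1 z).1 hz
      obtain ⟨hzZ, _⟩ := ML_mem s D g z hzE
      have he : D.vlo z.xD = D.vlo w1.xD := le_antisymm hzb (hlow z hzE)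
      have hx := ((hBadS D w1 hS.ok hZ1).1 hB1).2.1 z.xD (hS.ok.ok.z z hzZ).hD he
      exact Finset.mem_singleton.2 ((pHU pHB D hS.ok.ok z hzZ w1 hZ1).2.2.2 hx)
    calc (MM s D (D.vlo w1.xD)).card ≤ ({w1} : Finset Hole).card := Finset.card_le_card hsub
      _ = 1 := Finset.card_singleton w1
  rcases (hTow s D g w1 hS h1).1 hB1 with hT1 | ⟨c, hc, a1, a2, a3, a4, x, hx, a5, a6⟩
  swap
  · have h2 := (hSe2 s D g c w1 hS h1 hc a1 a2).1 hB1 a4
    exact (hSem s D g c x w1 hS h1 (Or.inl hB1) hc a1 a2 hx a6 (by omega)).1 a3 a4 a5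
  by_cases hE1 : ∀ z ∈ EL s D g, z = w1
  · refine hK4 s D g hS (fun z hz => ?_)
    rw [hE1 z hz]
    exact Or.inl ⟨hB1, hT1⟩
  obtain ⟨z0, hz0, hne0⟩ : ∃ z ∈ EL s D g, z ≠ w1 := by
    by_contra hcon
    exact hE1 (fun z hz => by
      by_contra hne
      exact hcon ⟨z, hz, hne⟩)
  obtain ⟨w2, hw2, hm2⟩ := Finset.exists_min_image ((EL s D g).filter (fun z => z ≠ w1))
    (fun z => D.vlo z.xD) ⟨z0, Finset.mem_filter.2 ⟨hz0, hne0⟩⟩
  obtain ⟨h2, hne2⟩ := Finset.mem_filter.1 hw2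
  have hmin2 : ∀ z ∈ EL s D g, z ≠ w1 → D.vlo w2.xD ≤ D.vlo z.xD :=
    fun z hz hne => hm2 z (Finset.mem_filter.2 ⟨hz, hne⟩)
  obtain ⟨hZ2, hlt2⟩ := ML_mem s D g w2 h2
  by_cases hc2 : wH D (D.vlo w2.xD) = 0 ∨ 1 ≤ eH D (D.vlo w2.xD)
  · exact hK2 s D g w1 w2 hS h1 hB1 hT1 hlow h2 hne2 hmin2 hc2
  have hf := (hF2 s D g w1 w2 hS h1 h2 hne2 (hlow w2 h2)).1 hB1 hT1
  have hH2 : D.vlo w2.xD ∈ D.H := by
    rcases hS.ok.ok.vlo_end w2.xD (hS.ok.ok.z w2 hZ2).hD with h | h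
    · exact absurd h (hS.lo w2 h2)
    · exact h.1
  have hBR : BadR D w2 := by
    refine ⟨hH2, by omega, ?_⟩
    by_contra hcon
    apply hc2
    left
    unfold wH
    rw [if_neg hf.2.2, if_neg hcon]
  rcases (hTow s D g w2 hS h2).2 hBR with hT2 | ⟨c, hc, a1, a2, a3, a4, x, hx, a5, a6⟩
  swap
  · have h3 := (hSe2 s D g c w2 hS h2 hc a1 a2).2 hBR a4
    have hM2 : (MM s D (D.vlo w2.xD)).card ≤ 2 := by
      have hsub : MM s D (D.vlo w2.xD) ⊆ {w1, w2} := by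
        intro z hz
        obtain ⟨hzE, hzb⟩ := (hMMl s D g (D.vlo w2.xD) hS hlt2 z).1 hz
        obtain ⟨hzZ, _⟩ := ML_mem s D g z hzE
        by_cases hz1 : z = w1
        · rw [hz1]; exact Finset.mem_insert_self _ _
        · have he : D.vlo z.xD = D.vlo w2.xD := le_antisymm hzb (hmin2 z hzE hz1)
          have hxx := ((hBadS D w2 hS.ok hZ2).2 hBR).2.1 z.xD (hS.ok.ok.z z hzZ).hD he
          have := (pHU pHB D hS.ok.ok z hzZ w2 hZ2).2.2.2 hxx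
          rw [this]
          exact Finset.mem_insert_of_mem (Finset.mem_singleton_self _)
      exact le_trans (Finset.card_le_card hsub) Finset.card_le_two
    exact (hSem s D g c x w2 hS h2 (Or.inr hBR) hc a1 a2 hx a6 (by omega)).2 a3 a4 a5
  by_cases hE2 : ∀ z ∈ EL s D g, z = w1 ∨ z = w2
  · refine hK4 s D g hS (fun z hz => ?_)
    rcases hE2 z hz with h | h
    · rw [h]; exact Or.inl ⟨hB1, hT1⟩
    · rw [h]; exact Or.inr ⟨hBR, hT2⟩
  obtain ⟨z3, hz3, hne31, hne32⟩ : ∃ z ∈ EL s D g, z ≠ w1 ∧ z ≠ w2 := by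
    by_contra hcon
    exact hE2 (fun z hz => by
      by_contra hne
      exact hcon ⟨z, hz, fun h => hne (Or.inl h), fun h => hne (Or.inr h)⟩)
  obtain ⟨w3, hw3, hm3⟩ := Finset.exists_min_image ((EL s D g).filter (fun z => z ≠ w1 ∧ z ≠ w2))
    (fun z => D.vlo z.xD) ⟨z3, Finset.mem_filter.2 ⟨hz3, hne31, hne32⟩⟩
  obtain ⟨h3, hn31, hn32⟩ := Finset.mem_filter.1 hw3
  exact hK3 s D g w1 w2 w3 hS h1 hB1 hT1 hlow h2 hne2 hBR hT2 hmin2 h3 hn31 hn32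
    (fun z hz a b => hm3 z (Finset.mem_filter.2 ⟨hz, a, b⟩))

end Pool.RC
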