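import Pool.Agent.RC.St3

/-! Project RC, module MMl: the set `MM s D p` for `p < g`. -/

namespace Pool.RC

open Pool.RB

theorem pMMl : StMMl := by
  classical
  intro s D g p hS hp z
  have hTG := hS.hT
  simp only [MM, QQ, EL, Finset.mem_filter]
  constructor
  · rintro ⟨⟨hz, h1, h2, h3, h4⟩, h5⟩
    exact ⟨⟨hz, h2, h3, h5, by omega⟩, h4⟩
  · rintro ⟨⟨hz, h2, h3, h5, h6⟩, h4⟩
    have hz' := hS.ok.ok.z z hz
    have := hTG z.xU hz'.hU h2
    rw [hz'.eU] at this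
    exact ⟨⟨hz, by omega, h2, h3, h4⟩, h5⟩

end Pool.RC
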