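import Pool.Agent.RC.Main1

/-! # Project RC, module MR2: the plain move R2 -/

set_option autoImplicit false

namespace Pool.RC

open Pool.RB

theorem pMR2 (hR2g : StR2g) (hIHs : StIHs) (hCnt : StCnt) (hAcc : StAcc) (hUpE : StUpE) :
    StMR2 := by
  intro s D p w hok hIH hEC hM
  obtain ⟨hUP, -, hV, -, -, -, -, -, hX0, hX1, -, -⟩ := hUpE D p w hok hEC
  obtain ⟨hL, hR⟩ := qLRA (upA D p) w.xD hUP hX0 hX1
  have hs0 := (qSzA.2.1 D p hEC.hp).1
  obtain ⟨hsR, hsL⟩ := qSzA.2.2.1 (upA D p) w.xD hV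
  have h1 := (hIHs.1 D (lfA (upA D p) w.xD) hIH hL (hsL.trans hs0)).1
  have h2 := (hIHs.1 D (rtA (upA D p) w.xD) hIH hR (hsR.trans hs0)).2.1
  obtain ⟨-, f1, f2, hc⟩ := hCnt D p w hok hEC
  have hA := hAcc s D p hok
  refine hR2g s D p w (uV (lfA (upA D p) w.xD) : ℤ) (uV (rtA (upA D p) w.xD) : ℤ) hok hIH hEC
    ?_ ?_ ?_
  · have e : U (lfA (upA D p) w.xD) + KR (lfA (upA D p) w.xD) = U (lfA (upA D p) w.xD) +
        3 * (WR (lfA (upA D p) w.xD) : ℤ) + (uV (lfA (upA D p) w.xD) : ℤ) := by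
      unfold KR
      rw [f1]
      push_cast
      ring
    rwa [e] at h1
  · have e : U (rtA (upA D p) w.xD) + KL (rtA (upA D p) w.xD) = U (rtA (upA D p) w.xD) +
        3 * (WL (rtA (upA D p) w.xD) : ℤ) + (uV (rtA (upA D p) w.xD) : ℤ) := by
      unfold KL
      rw [f2]
      push_cast
      ring
    rwa [e] at h2
  · omega

end Pool.RC
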