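import Pool.Agent.RC.Main1

/-! Project RC, module MRd: R2 with decomposition of one of the two upper leaves. -/

namespace Pool.RC

open Pool.RB

theorem pMRd (hR2g : StR2g) (hLd : StLd) (hIHs : StIHs) (hCnt : StCnt) (hAcc : StAcc)
    (hUpE : StUpE) : StMRd := by
  intro s D p c w hD hI hE
  obtain ⟨okU, -, hvU, -, -, -, -, -, hX0, hX1, -, -⟩ := hUpE D p w hD hE
  obtain ⟨okL, okR⟩ := qLRA (upA D p) w.xD okU hX0 hX1
  have hszU : (upA D p).sz < D.sz := (qSzA.2.1 D p hE.hp).1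
  have hszL : (lfA (upA D p) w.xD).sz < D.sz :=
    lt_of_le_of_lt (qSzA.1 (upA D p) w.xD).2.2.2 hszU
  have hszR : (rtA (upA D p) w.xD).sz < D.sz :=
    lt_of_le_of_lt (qSzA.1 (upA D p) w.xD).2.2.1 hszU
  obtain ⟨-, fL, fR, hc⟩ := hCnt D p w hD hE
  have ha := hAcc s D p hD
  refine ⟨?_, ?_⟩
  · intro hcH h0 h1 hle
    have hlo : (lfA (upA D p) w.xD).hlo c = (lfA (upA D p) w.xD).X0 := h0
    have hhi : (lfA (upA D p) w.xD).hhi c = (lfA (upA D p) w.xD).X1 := by
      show min (D.hhi c) w.xD = w.xD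
      exact min_eq_right h1
    have hl := (hLd D _ c hI okL hszL hcH hlo hhi).1
    have hr := (hIHs.1 D _ hI okR hszR).2.1
    refine hR2g s D p w (-(gn (lfA (upA D p) w.xD) c : ℤ)) (uV (rtA (upA D p) w.xD) : ℤ) hD hI hE
      ?_ ?_ ?_
    · rw [← sub_eq_add_neg]
      exact hl
    · unfold KL at hr
      rw [fR] at hr
      have e : U (rtA (upA D p) w.xD) + 3 * (WL (rtA (upA D p) w.xD) : ℤ) +
          (uV (rtA (upA D p) w.xD) : ℤ) = U (rtA (upA D p) w.xD) +
          (3 * (WL (rtA (upA D p) w.xD) : ℤ) + 3 * ((0 : ℕ) : ℤ) + (uV (rtA (upA D p) w.xD) : ℤ)) := by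
        push_cast
        ring
      rw [e]
      exact hr
    · omega
  · intro hcH h0 h1 hle
    have hhi : (rtA (upA D p) w.xD).hhi c = (rtA (upA D p) w.xD).X1 := h0
    have hlo : (rtA (upA D p) w.xD).hlo c = (rtA (upA D p) w.xD).X0 := by
      show max (D.hlo c) w.xD = w.xD
      exact max_eq_right h1
    have hr := (hLd D _ c hI okR hszR hcH hlo hhi).2
    have hl := (hIHs.1 D _ hI okL hszL).1
    refine hR2g s D p w (uV (lfA (upA D p) w.xD) : ℤ) (-(gn (rtA (upA D p) w.xD) c : ℤ)) hD hI hE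
      ?_ ?_ ?_
    · unfold KR at hl
      rw [fL] at hl
      have e : U (lfA (upA D p) w.xD) + 3 * (WR (lfA (upA D p) w.xD) : ℤ) +
          (uV (lfA (upA D p) w.xD) : ℤ) = U (lfA (upA D p) w.xD) +
          (3 * (WR (lfA (upA D p) w.xD) : ℤ) + 3 * ((0 : ℕ) : ℤ) + (uV (lfA (upA D p) w.xD) : ℤ)) := by
        push_cast
        ring
      rw [e]
      exact hl
    · rw [← sub_eq_add_neg]
      exact hr
    · omega

end Pool.RC
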