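import Pool.Agent.RC.Main1

/-! # Project RC, module MRv: the move R2 and a cut of one of the upper leaves along a down arm -/

set_option autoImplicit false

namespace Pool.RC

open Pool.RB

/-- a hole with top attached up arm which is not hit by the line along the down arm of `w` and whose down arm is left
of this line lies left of the line -/
private theorem MRv_left (E : Cfg) (w y : Hole) (hE : OkC E) (hw : w ∈ E.Z) (hy : y ∈ E.Z)
    (hU : E.vhi y.xU = E.Y1) (hh : hitV E w.xD = 0) (hyw : y.xD < w.xD) : y.x2 < w.xD := by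
  have hb := pHB E hE.ok w hw
  have hbY := hb.ltY1
  have heD := (hE.ok.z w hw).eD
  have hnot : ¬ (y.x1 < w.xD ∧ w.xD < y.x2) := by
    intro h
    unfold hitV at hh
    rw [Finset.card_eq_zero, Finset.filter_eq_empty_iff] at hh
    exact hh hy h
  have h1 : y.x1 ≤ y.xD := min_le_right _ _
  by_contra hcon
  have h2 : y.x2 = w.xD := by omega
  have h3 : max y.xU y.xD = w.xD := h2
  rcases max_choice y.xU y.xD with h | h
  · rw [h] at h3
    rw [h3] at hU
    omega
  · omega

private theorem MRv_right (E : Cfg) (w y : Hole) (hE : OkC E) (hw : w ∈ E.Z) (hy : y ∈ E.Z)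
    (hU : E.vhi y.xU = E.Y1) (hh : hitV E w.xD = 0) (hyw : w.xD < y.xD) : w.xD < y.x1 := by
  have hb := pHB E hE.ok w hw
  have hbY := hb.ltY1
  have heD := (hE.ok.z w hw).eD
  have hnot : ¬ (y.x1 < w.xD ∧ w.xD < y.x2) := by
    intro h
    unfold hitV at hh
    rw [Finset.card_eq_zero, Finset.filter_eq_empty_iff] at hh
    exact hh hy h
  have h1 : y.xD ≤ y.x2 := le_max_right _ _
  by_contra hcon
  have h2 : y.x1 = w.xD := by omega
  have h3 : min y.xU y.xD = w.xD := h2
  rcases min_choice y.xU y.xD with h | h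
  · rw [h] at h3
    rw [h3] at hU
    omega
  · omega

/-- the inner side of the up arm stays clean in the part left of a line -/
private theorem MRv_icL (E : Cfg) (t : ℤ) (y : Hole) (hE : OkC E) (hy : y ∈ E.Z) (hU : E.vhi y.xU = E.Y1)
    (hty : y.x2 < t) (hic : icU E y) : icU (lfA E t) y := by
  have hxU : y.xU < t := lt_of_le_of_lt (le_max_left _ _) hty
  have hyL : y ∈ (lfA E t).Z := Finset.mem_filter.2 ⟨hy, hty⟩
  constructor
  · intro hAB
    have h0 := hic.1 hAB
    rw [Finset.eq_empty_iff_forall_notMem] at h0 ⊢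
    intro y' hy'
    obtain ⟨h1, h2, h3⟩ := Finset.mem_filter.1 hy'
    obtain ⟨h4, h5, h6⟩ := Finset.mem_filter.1 h1
    have h2' : E.hlo y' = y.xU := h2
    refine h0 y' (Finset.mem_filter.2 ⟨h4, h2', ?_⟩)
    intro z hz hzy
    have e := (hE.ok.z z hz).eR
    have hb := pHB E hE.ok z hz
    rw [hzy, h2'] at e
    have e' : y.xU = min z.xU z.xD := e
    rcases min_choice z.xU z.xD with h | h
    · have hzz : z = y := ((pHU pHB) E hE.ok z hz y hy).2.2.1 (by rw [e', h])
      subst hzz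
      exact h3 z hyL hzy
    · have h8 : z.xD = y.xU := by rw [e', h]
      have e2 := (hE.ok.z z hz).eD
      rw [h8, hU] at e2
      have := hb.ltY1
      omega
  · intro hAB
    have h0 := hic.2 hAB
    rw [Finset.eq_empty_iff_forall_notMem] at h0 ⊢
    intro y' hy'
    obtain ⟨h1, h2, h3⟩ := Finset.mem_filter.1 hy'
    obtain ⟨h4, h5, h6⟩ := Finset.mem_filter.1 h1
    have h2' : min (E.hhi y') t = y.xU := h2
    have h7 : E.hhi y' = y.xU := by
      rcases min_choice (E.hhi y') t with h | h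
      · rw [← h2', h]
      · rw [h] at h2'; omega
    refine h0 y' (Finset.mem_filter.2 ⟨h4, h7, ?_⟩)
    intro z hz hzy
    have e := (hE.ok.z z hz).eL
    rw [hzy, h7] at e
    have hzL : z ∈ (lfA E t).Z := Finset.mem_filter.2 ⟨hz, by rw [← e]; exact hxU⟩
    exact h3 z hzL hzy

/-- the inner side of the up arm stays clean in the part right of a line -/
private theorem MRv_icR (E : Cfg) (t : ℤ) (y : Hole) (hE : OkC E) (hy : y ∈ E.Z) (hU : E.vhi y.xU = E.Y1)
    (hty : t < y.x1) (hic : icU E y) : icU (rtA E t) y := by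
  have hxU : t < y.xU := lt_of_lt_of_le hty (min_le_left _ _)
  have hyR : y ∈ (rtA E t).Z := Finset.mem_filter.2 ⟨hy, hty⟩
  constructor
  · intro hAB
    have h0 := hic.1 hAB
    rw [Finset.eq_empty_iff_forall_notMem] at h0 ⊢
    intro y' hy'
    obtain ⟨h1, h2, h3⟩ := Finset.mem_filter.1 hy'
    obtain ⟨h4, h5, h6⟩ := Finset.mem_filter.1 h1
    have h2' : max (E.hlo y') t = y.xU := h2
    have h7 : E.hlo y' = y.xU := by
      rcases max_choice (E.hlo y') t with h | h
      · rw [← h2', h]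
      · rw [h] at h2'; omega
    refine h0 y' (Finset.mem_filter.2 ⟨h4, h7, ?_⟩)
    intro z hz hzy
    have e := (hE.ok.z z hz).eR
    rw [hzy, h7] at e
    have hzR : z ∈ (rtA E t).Z := Finset.mem_filter.2 ⟨hz, by rw [← e]; exact hxU⟩
    exact h3 z hzR hzy
  · intro hAB
    have h0 := hic.2 hAB
    rw [Finset.eq_empty_iff_forall_notMem] at h0 ⊢
    intro y' hy'
    obtain ⟨h1, h2, h3⟩ := Finset.mem_filter.1 hy'
    obtain ⟨h4, h5, h6⟩ := Finset.mem_filter.1 h1
    have h2' : E.hhi y' = y.xU := h2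
    refine h0 y' (Finset.mem_filter.2 ⟨h4, h2', ?_⟩)
    intro z hz hzy
    have e := (hE.ok.z z hz).eL
    have hb := pHB E hE.ok z hz
    rw [hzy, h2'] at e
    have e' : y.xU = max z.xU z.xD := e
    rcases max_choice z.xU z.xD with h | h
    · have hzz : z = y := ((pHU pHB) E hE.ok z hz y hy).2.2.1 (by rw [e', h])
      subst hzz
      exact h3 z hyR hzy
    · have h8 : z.xD = y.xU := by rw [e', h]
      have e2 := (hE.ok.z z hz).eD
      rw [h8, hU] at e2
      have := hb.ltY1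
      omega

theorem pMRv (hR2g : StR2g) (hLv : StLv) (hIHs : StIHs) (hCnt : StCnt) (hAcc : StAcc) (hUpE : StUpE)
    (hIC : StIC) : StMRv := by
  intro s D p w y hD hIH hE hyQ hne
  obtain ⟨hOk, hwZ, hvV, hwic, hVC, -, hhit, -, hX0, hX1, hY0, hY1⟩ := hUpE D p w hD hE
  obtain ⟨hf, hfL, hfR, huv⟩ := hCnt D p w hD hE
  have hacc := hAcc s D p hD
  have hLR := qLRA (upA D p) w.xD hOk hX0 hX1
  have hsz1 : (lfA (upA D p) w.xD).sz < D.sz :=
    lt_of_le_of_lt (pSzA.1 (upA D p) w.xD).2.2.2 (pSzA.2.1 D p hE.hp).1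
  have hsz2 : (rtA (upA D p) w.xD).sz < D.sz :=
    lt_of_le_of_lt (pSzA.1 (upA D p) w.xD).2.2.1 (pSzA.2.1 D p hE.hp).1
  have hy' := hyQ
  simp only [QQ, Finset.mem_filter] at hy'
  obtain ⟨hyZ, hpy, hyU, hyic, hyD⟩ := hy'
  have hyUP : y ∈ (upA D p).Z := Finset.mem_filter.2 ⟨hyZ, hpy⟩
  have hicUP : icU (upA D p) y := ((hIC D y p hD hyZ).1 hY0 hpy).2 hyic
  have hyU' : (upA D p).vhi y.xU = (upA D p).Y1 := hyU
  constructor
  · intro hlt hineq
    have hy2 : y.x2 < w.xD := MRv_left (upA D p) w y hOk hwZ hyUP hyU' hhit hlt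
    have hyL : y ∈ (lfA (upA D p) w.xD).Z := Finset.mem_filter.2 ⟨hyUP, hy2⟩
    have hicL : icU (lfA (upA D p) w.xD) y := MRv_icL (upA D p) w.xD y hOk hyUP hyU' hy2 hicUP
    have hVCy : VC (lfA (upA D p) w.xD) y := by
      refine ⟨?_, hyU⟩
      show max (D.vlo y.xD) p = p
      exact max_eq_right hyD
    have hL := (hLv D (lfA (upA D p) w.xD) y hIH hLR.1 hsz1 hfL hyL hVCy hicL).1
    have hR := (hIHs.1 D (rtA (upA D p) w.xD) hIH hLR.2 hsz2).2.1
    refine hR2g s D p w (uV (lfA (upA D p) w.xD) + 1 - (eLf (lfA (upA D p) w.xD) y.xD).card -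
      4 * ((eRt (lfA (upA D p) w.xD) y.xD).card : ℤ)) (uV (rtA (upA D p) w.xD)) hD hIH hE ?_ ?_ ?_
    · have e : U (lfA (upA D p) w.xD) + 3 * (WR (lfA (upA D p) w.xD) : ℤ) + (uV (lfA (upA D p) w.xD) + 1 -
          (eLf (lfA (upA D p) w.xD) y.xD).card - 4 * ((eRt (lfA (upA D p) w.xD) y.xD).card : ℤ)) =
          U (lfA (upA D p) w.xD) + 3 * (WR (lfA (upA D p) w.xD) : ℤ) + uV (lfA (upA D p) w.xD) + 1 -
          (eLf (lfA (upA D p) w.xD) y.xD).card - 4 * ((eRt (lfA (upA D p) w.xD) y.xD).card : ℤ) := by ring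
      rw [e]
      exact hL
    · have e : U (rtA (upA D p) w.xD) + KL (rtA (upA D p) w.xD) =
          U (rtA (upA D p) w.xD) + 3 * (WL (rtA (upA D p) w.xD) : ℤ) + uV (rtA (upA D p) w.xD) := by
        unfold KL
        rw [hfR]
        push_cast
        ring
      rw [e] at hR
      exact hR
    · zify at hineq huv hacc
      linarith
  · intro hlt hineq
    have hy2 : w.xD < y.x1 := MRv_right (upA D p) w y hOk hwZ hyUP hyU' hhit hlt
    have hyR : y ∈ (rtA (upA D p) w.xD).Z := Finset.mem_filter.2 ⟨hyUP, hy2⟩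
    have hicR : icU (rtA (upA D p) w.xD) y := MRv_icR (upA D p) w.xD y hOk hyUP hyU' hy2 hicUP
    have hVCy : VC (rtA (upA D p) w.xD) y := by
      refine ⟨?_, hyU⟩
      show max (D.vlo y.xD) p = p
      exact max_eq_right hyD
    have hL := (hIHs.1 D (lfA (upA D p) w.xD) hIH hLR.1 hsz1).1
    have hR := (hLv D (rtA (upA D p) w.xD) y hIH hLR.2 hsz2 hfR hyR hVCy hicR).2
    refine hR2g s D p w (uV (lfA (upA D p) w.xD)) (uV (rtA (upA D p) w.xD) + 1 -
      (eRt (rtA (upA D p) w.xD) y.xD).card - 4 * ((eLf (rtA (upA D p) w.xD) y.xD).card : ℤ)) hD hIH hE ?_ ?_ ?_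
    · have e : U (lfA (upA D p) w.xD) + KR (lfA (upA D p) w.xD) =
          U (lfA (upA D p) w.xD) + 3 * (WR (lfA (upA D p) w.xD) : ℤ) + uV (lfA (upA D p) w.xD) := by
        unfold KR
        rw [hfL]
        push_cast
        ring
      rw [e] at hL
      exact hL
    · have e : U (rtA (upA D p) w.xD) + 3 * (WL (rtA (upA D p) w.xD) : ℤ) + (uV (rtA (upA D p) w.xD) + 1 -
          (eRt (rtA (upA D p) w.xD) y.xD).card - 4 * ((eLf (rtA (upA D p) w.xD) y.xD).card : ℤ)) =
          U (rtA (upA D p) w.xD) + 3 * (WL (rtA (upA D p) w.xD) : ℤ) + uV (rtA (upA D p) w.xD) + 1 -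
          (eRt (rtA (upA D p) w.xD) y.xD).card - 4 * ((eLf (rtA (upA D p) w.xD) y.xD).card : ℤ) := by ring
      rw [e]
      exact hR
    · zify at hineq huv hacc
      linarith

end Pool.RC
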