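import Pool.Agent.RC.St2
import Pool.Agent.RC.M_CSym
import Pool.Agent.RC.M_Eq
import Pool.Agent.RC.M_UpA
import Pool.Agent.RC.M_DnA
import Pool.Agent.RC.M_LRA
import Pool.Agent.RC.M_SzA
import Pool.Agent.RB.M_HB
import Pool.Agent.RB.M_HU

/-! # Project RC, module MS1: the plain move S1 -/

set_option autoImplicit false

namespace Pool.RC

open Pool.RB

theorem pMS1 (hS1g : StS1g) (hW : StW) (hIHs : StIHs) (hCntU : StCntU) (hUVp : StUVp) (hAcc : StAcc) : StMS1 := by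
  intro s D g t hD hIH hg hT htT hineq
  have hDnA : StDnA := pDnA pCFy pEq pUpA
  have hLRA : StLRA := pLRA pCTr pEq pUpA hDnA
  obtain ⟨htV, ht1, ht2⟩ := Finset.mem_filter.1 htT
  obtain ⟨hg0, hg1, -⟩ := hD.ok.h g hg
  obtain ⟨htX0, htX1, -⟩ := hD.ok.v t htV
  have hUP : OkC (upA D g) := pUpA D g hD hg0 hg1
  have htUP : t ∈ (upA D g).V := by
    refine Finset.mem_filter.2 ⟨htV, ?_, ?_⟩
    · rw [ht1]; exact hg1
    · intro z hz _ _ h3
      have e := (hD.ok.z z hz).eD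
      have hb := pHB D hD.ok z hz
      rw [h3, ht1] at e
      have := hb.ltY1
      omega
  have hlo : (upA D g).vlo t = (upA D g).Y0 := by
    show max (D.vlo t) g = g
    rw [ht2, max_self]
  have hhi : (upA D g).vhi t = (upA D g).Y1 := ht1
  have hLR := hLRA (upA D g) t hUP htX0 htX1
  have hsz1 : (lfA (upA D g) t).sz < D.sz :=
    lt_of_le_of_lt (pSzA.1 (upA D g) t).2.2.2 (pSzA.2.1 D g hg).1
  have hsz2 : (rtA (upA D g) t).sz < D.sz :=
    lt_of_le_of_lt (pSzA.1 (upA D g) t).2.2.1 (pSzA.2.1 D g hg).1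
  have hw := (hW (upA D g) t hUP htUP).2.2.2.2.2.2
  rw [if_pos ⟨hlo, hhi⟩, (hCntU D g hD hg).2.2 hT] at hw
  have hL := (hIHs.1 D (lfA (upA D g) t) hIH hLR.1 hsz1).1
  have hR := (hIHs.1 D (rtA (upA D g) t) hIH hLR.2 hsz2).2.1
  have huv := (hUVp (upA D g) t hUP htUP).1
  have hq := (hCntU D g hD hg).1
  have hacc := hAcc s D g hD
  refine hS1g s D g t (3 * (fV (lfA (upA D g) t) : ℤ) + uV (lfA (upA D g) t))
    (3 * (fV (rtA (upA D g) t) : ℤ) + uV (rtA (upA D g) t)) hD hIH hg htT ?_ ?_ ?_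
  · have e : U (lfA (upA D g) t) + KR (lfA (upA D g) t) =
        U (lfA (upA D g) t) + 3 * (WR (lfA (upA D g) t) : ℤ) +
          (3 * (fV (lfA (upA D g) t) : ℤ) + uV (lfA (upA D g) t)) := by
      unfold KR
      ring
    rw [e] at hL
    exact hL
  · have e : U (rtA (upA D g) t) + KL (rtA (upA D g) t) =
        U (rtA (upA D g) t) + 3 * (WL (rtA (upA D g) t) : ℤ) +
          (3 * (fV (rtA (upA D g) t) : ℤ) + uV (rtA (upA D g) t)) := by
      unfold KL
      ring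
    rw [e] at hR
    exact hR
  · zify at hineq huv hq hacc hw
    linarith

end Pool.RC
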