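import Pool.Agent.RC.St2
import Pool.Agent.RC.M_UpA
import Pool.Agent.RC.M_LRA
import Pool.Agent.RC.M_SzA
import Pool.Agent.RC.Main1
import Pool.Agent.RB.Main

/-! RC module MSf. -/

namespace Pool.RC

open Pool.RB

private theorem MSf_memV {D : Cfg} {g t : ℤ} (hD : OkC D) (ht : t ∈ Tg D g) :
    t ∈ (upA D g).V ∧ t ∈ D.V ∧ D.vlo t = g ∧ D.vhi t = D.Y1 := by
  have h := Finset.mem_filter.1 ht
  obtain ⟨hV, h1, h2⟩ := h
  have hv := hD.ok.v t hV
  refine ⟨?_, hV, h2, h1⟩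
  refine Finset.mem_filter.2 ⟨hV, by omega, ?_⟩
  intro z hz _ _ he
  have hb := Pool.RB.qHB D hD.ok z hz
  have h3 := (hD.ok.z z hz).eD
  have h4 := hb.ltY1
  rw [he] at h3
  omega

theorem pMSf (hS1g : StS1g) (hLf : StLf) (hW : StW) (hIHs : StIHs) (hCntU : StCntU) (hUVp : StUVp)
    (hAcc : StAcc) : StMSf := by
  intro s D g t t2 hD hIH hg hT ht ht2 hlt hh
  have hgh := hD.ok.h g hg
  obtain ⟨htU, htV, htlo, hthi⟩ := MSf_memV hD ht
  obtain ⟨ht2U, ht2V, ht2lo, ht2hi⟩ := MSf_memV hD ht2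
  have htv := hD.ok.v t htV
  have hUP : OkC (upA D g) := qUpA D g hD hgh.1 hgh.2.1
  have hLR := qLRA (upA D g) t hUP htv.1 htv.2.1
  have hsz1 := (qSzA.2.1 D g hg).1
  have hsz2 := qSzA.2.2.1 (upA D g) t htU
  have hw := hW (upA D g) t hUP htU
  have hc := hCntU D g hD hg
  have hc3 := hc.2.2 hT
  have huv := (hUVp (upA D g) t hUP htU).1
  have hac := hAcc s D g hD
  have hlo : (upA D g).vlo t = (upA D g).Y0 := by
    change max (D.vlo t) g = g
    rw [htlo, max_self]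
  have hhi : (upA D g).vhi t = (upA D g).Y1 := hthi
  have hfv := hw.2.2.2.2.2.2
  rw [if_pos ⟨hlo, hhi⟩] at hfv
  have hL := (hLf D (lfA (upA D g) t) t2 hIH hLR.1 (by omega)
    (Finset.mem_filter.2 ⟨ht2U, hlt⟩) (by
      change max (D.vlo t2) g = g
      rw [ht2lo, max_self]) ht2hi).1
  have hR := (hIHs.1 D (rtA (upA D g) t) hIH hLR.2 (by omega)).2.1
  refine hS1g s D g t
    (3 * (fV (lfA (upA D g) t) : ℤ) + uV (lfA (upA D g) t) - (eLf (lfA (upA D g) t) t2).card -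
      4 * ((eRt (lfA (upA D g) t) t2).card : ℤ))
    (3 * (fV (rtA (upA D g) t) : ℤ) + uV (rtA (upA D g) t)) hD hIH hg ht ?_ ?_ ?_
  · have e : U (lfA (upA D g) t) + 3 * (WR (lfA (upA D g) t) : ℤ) +
        (3 * (fV (lfA (upA D g) t) : ℤ) + uV (lfA (upA D g) t) - (eLf (lfA (upA D g) t) t2).card -
        4 * ((eRt (lfA (upA D g) t) t2).card : ℤ)) =
        U (lfA (upA D g) t) + KR (lfA (upA D g) t) - (eLf (lfA (upA D g) t) t2).card -
        4 * ((eRt (lfA (upA D g) t) t2).card : ℤ) := by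
      unfold KR; ring
    rw [e]; exact hL
  · have e : U (rtA (upA D g) t) + 3 * (WL (rtA (upA D g) t) : ℤ) +
        (3 * (fV (rtA (upA D g) t) : ℤ) + uV (rtA (upA D g) t)) =
        U (rtA (upA D g) t) + KL (rtA (upA D g) t) := by
      unfold KL; ring
    rw [e]; exact hR
  · omega

end Pool.RC
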