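import Pool.Agent.RC.St2
import Pool.Agent.RC.M_CSym
import Pool.Agent.RC.M_Eq
import Pool.Agent.RC.M_UpA
import Pool.Agent.RC.M_DnA
import Pool.Agent.RC.M_LRA
import Pool.Agent.RC.M_SzA
import Pool.Agent.RB.M_HB
import Pool.Agent.RB.M_HU

/-! # Project RC, module MSv: the move S1 with one full piece and a cut of the right leaf along a down arm -/

set_option autoImplicit false

namespace Pool.RC

open Pool.RB

/-- a full piece of the upper part lies on the left of a hole whose down arm is right of it -/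
private theorem MSv_left (E : Cfg) (t : ℤ) (y : Hole) (hE : OkC E) (ht : t ∈ E.V) (ht0 : E.vlo t = E.Y0)
    (ht1 : E.vhi t = E.Y1) (hy : y ∈ E.Z) (hty : t < y.xD) : t < y.x1 := by
  have hb := pHB E hE.ok y hy
  have ho := hE.ok.z y hy
  have b1 := hb.Y0lt
  have b2 := hb.ltY1
  have b3 := hb.y12
  by_contra hcon
  rcases lt_trichotomy y.xU t with h | h | h
  · refine ho.noV t ht ?_ ?_ ?_ ?_
    · exact lt_of_le_of_lt (min_le_left _ _) h
    · exact lt_of_lt_of_le hty (le_max_right _ _)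
    · rw [ht0]; exact lt_trans b1 b3
    · rw [ht1]; exact lt_trans b3 b2
  · have e := ho.eU
    rw [h, ht0] at e
    omega
  · apply hcon
    exact lt_min h hty

/-- the inner side of the up arm stays clean in the part right of a full piece -/
private theorem MSv_ic (E : Cfg) (t : ℤ) (y : Hole) (hE : OkC E) (hy : y ∈ E.Z) (hU : E.vhi y.xU = E.Y1)
    (hty : t < y.x1) (hic : icU E y) : icU (rtA E t) y := by
  have hxU : t < y.xU := lt_of_lt_of_le hty (min_le_left _ _)
  have hyR : y ∈ (rtA E t).Z := Finset.mem_filter.2 ⟨hy, hty⟩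
  constructor
  · intro hAB
    have h0 := hic.1 hAB
    rw [Finset.eq_empty_iff_forall_notMem] at h0 ⊢
    intro y' hy'
    obtain ⟨h1, h2, h3⟩ := Finset.mem_filter.1 hy'
    obtain ⟨h4, h5, h6⟩ := Finset.mem_filter.1 h1
    have h2' : max (E.hlo y') t = y.xU := h2
    have h7 : E.hlo y' = y.xU := by
      rcases max_choice (E.hlo y') t with h | h
      · rw [← h2', h]
      · rw [h] at h2'; omega
    refine h0 y' (Finset.mem_filter.2 ⟨h4, h7, ?_⟩)
    intro z hz hzy
    have e := (hE.ok.z z hz).eR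
    rw [hzy, h7] at e
    have hzR : z ∈ (rtA E t).Z := Finset.mem_filter.2 ⟨hz, by rw [← e]; exact hxU⟩
    exact h3 z hzR hzy
  · intro hAB
    have h0 := hic.2 hAB
    rw [Finset.eq_empty_iff_forall_notMem] at h0 ⊢
    intro y' hy'
    obtain ⟨h1, h2, h3⟩ := Finset.mem_filter.1 hy'
    obtain ⟨h4, h5, h6⟩ := Finset.mem_filter.1 h1
    have h2' : E.hhi y' = y.xU := h2
    refine h0 y' (Finset.mem_filter.2 ⟨h4, h2', ?_⟩)
    intro z hz hzy
    have e := (hE.ok.z z hz).eL
    have hb := pHB E hE.ok z hz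
    rw [hzy, h2'] at e
    have e' : y.xU = max z.xU z.xD := e
    rcases max_choice z.xU z.xD with h | h
    · have hzz : z = y := ((pHU pHB) E hE.ok z hz y hy).2.2.1 (by rw [e', h])
      subst hzz
      exact h3 z hyR hzy
    · have h8 : z.xD = y.xU := by rw [e', h]
      have e2 := (hE.ok.z z hz).eD
      rw [h8, hU] at e2
      have := hb.ltY1
      omega

theorem pMSv (hS1g : StS1g) (hLv : StLv) (hW : StW) (hIHs : StIHs) (hCntU : StCntU) (hUVp : StUVp) (hAcc : StAcc)
    (hIC : StIC) : StMSv := by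
  intro s D g t y hD hIH hg hT hTg hy hty hineq
  have hDnA : StDnA := pDnA pCFy pEq pUpA
  have hLRA : StLRA := pLRA pCTr pEq pUpA hDnA
  have htT : t ∈ Tg D g := by rw [hTg]; exact Finset.mem_singleton_self t
  obtain ⟨htV, ht1, ht2⟩ := Finset.mem_filter.1 htT
  obtain ⟨hg0, hg1, -⟩ := hD.ok.h g hg
  obtain ⟨htX0, htX1, -⟩ := hD.ok.v t htV
  have hUP : OkC (upA D g) := pUpA D g hD hg0 hg1
  have htUP : t ∈ (upA D g).V := by
    refine Finset.mem_filter.2 ⟨htV, ?_, ?_⟩
    · rw [ht1]; exact hg1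
    · intro z hz _ _ h3
      have e := (hD.ok.z z hz).eD
      have hb := pHB D hD.ok z hz
      rw [h3, ht1] at e
      have := hb.ltY1
      omega
  have hlo : (upA D g).vlo t = (upA D g).Y0 := by
    show max (D.vlo t) g = g
    rw [ht2, max_self]
  have hhi : (upA D g).vhi t = (upA D g).Y1 := ht1
  have hLR := hLRA (upA D g) t hUP htX0 htX1
  have hsz1 : (lfA (upA D g) t).sz < D.sz :=
    lt_of_le_of_lt (pSzA.1 (upA D g) t).2.2.2 (pSzA.2.1 D g hg).1
  have hsz2 : (rtA (upA D g) t).sz < D.sz :=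
    lt_of_le_of_lt (pSzA.1 (upA D g) t).2.2.1 (pSzA.2.1 D g hg).1
  have hy' := hy
  simp only [QQ, Finset.mem_filter] at hy'
  obtain ⟨hyZ, hgy, hyU, hyic, hyD⟩ := hy'
  have hyUP : y ∈ (upA D g).Z := Finset.mem_filter.2 ⟨hyZ, hgy⟩
  have hicUP : icU (upA D g) y := ((hIC D y g hD hyZ).1 hg0 hgy).2 hyic
  have hty1 : t < y.x1 := MSv_left (upA D g) t y hUP htUP hlo hhi hyUP hty
  have hyR : y ∈ (rtA (upA D g) t).Z := Finset.mem_filter.2 ⟨hyUP, hty1⟩
  have hicR : icU (rtA (upA D g) t) y := MSv_ic (upA D g) t y hUP hyUP hyU hty1 hicUP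
  have hVC : VC (rtA (upA D g) t) y := by
    refine ⟨?_, hyU⟩
    show max (D.vlo y.xD) g = g
    exact max_eq_right hyD
  have hw := (hW (upA D g) t hUP htUP).2.2.2.2.2.2
  rw [if_pos ⟨hlo, hhi⟩, (hCntU D g hD hg).2.2 hT, hTg, Finset.card_singleton] at hw
  have hfL : fV (lfA (upA D g) t) = 0 := by omega
  have hfR : fV (rtA (upA D g) t) = 0 := by omega
  have hL := (hIHs.1 D (lfA (upA D g) t) hIH hLR.1 hsz1).1
  have hR := (hLv D (rtA (upA D g) t) y hIH hLR.2 hsz2 hfR hyR hVC hicR).2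
  have huv := (hUVp (upA D g) t hUP htUP).1
  have hq := (hCntU D g hD hg).1
  have hacc := hAcc s D g hD
  refine hS1g s D g t (uV (lfA (upA D g) t)) (uV (rtA (upA D g) t) + 1 - (eRt (rtA (upA D g) t) y.xD).card -
    4 * ((eLf (rtA (upA D g) t) y.xD).card : ℤ)) hD hIH hg htT ?_ ?_ ?_
  · have e : U (lfA (upA D g) t) + KR (lfA (upA D g) t) =
        U (lfA (upA D g) t) + 3 * (WR (lfA (upA D g) t) : ℤ) + uV (lfA (upA D g) t) := by
      unfold KR
      rw [hfL]
      push_cast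
      ring
    rw [e] at hL
    exact hL
  · have e : U (rtA (upA D g) t) + 3 * (WL (rtA (upA D g) t) : ℤ) + (uV (rtA (upA D g) t) + 1 -
        (eRt (rtA (upA D g) t) y.xD).card - 4 * ((eLf (rtA (upA D g) t) y.xD).card : ℤ)) =
        U (rtA (upA D g) t) + 3 * (WL (rtA (upA D g) t) : ℤ) + uV (rtA (upA D g) t) + 1 -
        (eRt (rtA (upA D g) t) y.xD).card - 4 * ((eLf (rtA (upA D g) t) y.xD).card : ℤ) := by ring
    rw [e]
    exact hR
  · zify at hineq huv hq hacc
    linarith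

end Pool.RC
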