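import Pool.Agent.RC.St3

/-! Module MaC of project RC (MP_c6e2b4_co). -/

namespace Pool.RC

open Pool.RB

theorem pMaC (hStC : StStC) : StMaC := by
  have key : ∀ (n : ℕ) (D : Cfg), D.sz = n → OkC D → ∀ s : Bool, P s D := by
    intro n
    induction n using Nat.strong_induction_on with
    | _ n ih =>
      intro D hn hD s
      refine hStC s D hD ?_
      intro E hE hlt t
      exact ih E.sz (by omega) E rfl hE t
  intro s D hD
  exact key D.sz D rfl hD s

end Pool.RC
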