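import Pool.Agent.RC.St3
import Pool.Agent.RC.M_I5
import Pool.Agent.RB.M_HB
import Pool.Agent.RB.M_HU

/-!
# Project RC, module Num
-/

namespace Pool.RC

open Pool.RB

theorem pNum : StNum := by
  classical
  intro s D g p hS hp
  have hO := hS.ok.ok
  have hHU := pHU pHB D hO
  have hEL : ∀ z ∈ EL s D g, z ∈ D.Z := by
    intro z hz
    unfold EL at hz
    exact (Finset.mem_filter.1 hz).1
  refine ⟨(EL s D g).filter (fun z => D.vlo z.xD = p ∧ z.xD ∈ eUp D p),
    (EL s D g).filter (fun z => D.vlo z.xD = p ∧ ∃ z' ∈ D.Z, z'.xU = z.xD ∧ z'.y1 = p), ?_, ?_, ?_, ?_, ?_⟩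
  · intro z
    rw [Finset.mem_filter]
  · intro z
    rw [Finset.mem_filter]
  · intro z hz hb
    have hZ := hEL z hz
    by_cases h : ∀ z' ∈ D.Z, z'.xU ≠ z.xD
    · left
      rw [Finset.mem_filter]
      refine ⟨hz, hb, ?_⟩
      unfold eUp
      rw [Finset.mem_filter]
      exact ⟨(hO.z z hZ).hD, hb, h⟩
    · right
      push Not at h
      obtain ⟨z', hz', he⟩ := h
      rw [Finset.mem_filter]
      refine ⟨hz, hb, z', hz', he, ?_⟩
      have h1 := (hO.z z' hz').eU
      rw [he, hb] at h1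
      exact h1.symm
  · have h1 : ((EL s D g).filter (fun z => D.vlo z.xD = p ∧ z.xD ∈ eUp D p)).card ≤ (eUp D p).card := by
      apply Finset.card_le_card_of_injOn (fun z => z.xD)
      · intro z hz
        exact (Finset.mem_filter.1 hz).2.2
      · intro z hz w hw h
        have hz' := hEL z (Finset.mem_filter.1 hz).1
        have hw' := hEL w (Finset.mem_filter.1 hw).1
        exact (hHU z hz' w hw').2.2.2 h
    unfold eH
    omega
  · have h1 : ((EL s D g).filter (fun z => D.vlo z.xD = p ∧ ∃ z' ∈ D.Z, z'.xU = z.xD ∧ z'.y1 = p)).card ≤ tch D p := by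
      rw [← Finset.card_image_of_injOn (s := (EL s D g).filter (fun z => D.vlo z.xD = p ∧
        ∃ z' ∈ D.Z, z'.xU = z.xD ∧ z'.y1 = p)) (f := fun z => z.xD)]
      · refine le_trans (Finset.card_le_card (t := (D.Z.filter (fun z => z.y1 = p ∨ z.y2 = p)).image
          (fun z => z.xU)) ?_) (Finset.card_image_le)
        intro x hx
        rw [Finset.mem_image] at hx ⊢
        obtain ⟨z, hz, rfl⟩ := hx
        obtain ⟨_, _, z', hz', h2, h3⟩ := Finset.mem_filter.1 hz
        exact ⟨z', Finset.mem_filter.2 ⟨hz', Or.inl h3⟩, h2⟩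
      · intro z hz w hw h
        have hz' := hEL z (Finset.mem_filter.1 hz).1
        have hw' := hEL w (Finset.mem_filter.1 hw).1
        exact (hHU z hz' w hw').2.2.2 h
    have h2 := pI5 D p hS.ok hp
    omega

end Pool.RC
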