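import Pool.Agent.RC.St3
import Pool.Agent.RC.Main1

set_option autoImplicit false

namespace Pool.RC

open Pool.RB

private lemma NumG_tch (D : Cfg) (g : ℤ) : tch D g = (D.Z.filter (fun z => z.y1 = g ∨ z.y2 = g)).card := rfl

theorem pNumG (hOwn : StOwn) (hE2 : StE2) : StNumG := by
  classical
  intro s D g S
  have hok := S.ok
  have hO := S.ok.ok
  have hHB : ∀ z ∈ D.Z, HB D z := fun z hz => qHB D hO z hz
  have hHU := qHU D hO
  set TT : Finset ℤ := (Tg D g).filter (fun x => x ∈ eUp D g) with hTT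
  set T4 : Finset Hole := D.Z.filter (fun z => z.y1 = g ∧ D.vhi z.xU = D.Y1) with hT4
  set M1 : Finset Hole := (EL s D g).filter (fun z => g < z.y1) with hM1
  set TG : Finset Hole := (MM s D g).filter (fun z => D.vlo z.xD = g ∧ z.xD ∈ eUp D g) with hTG
  set HG : Finset Hole := (MM s D g).filter (fun z => D.vlo z.xD = g ∧ z.xD ∉ eUp D g) with hHG
  have mMM : ∀ z, z ∈ MM s D g ↔ z ∈ D.Z ∧ g < z.y1 ∧ D.vhi z.xU = D.Y1 ∧ icU D z ∧ D.vlo z.xD ≤ g ∧ ¬ LI s D z := by
    intro z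
    simp only [MM, QQ, Finset.mem_filter]
    tauto
  have mEL : ∀ z, z ∈ EL s D g ↔ z ∈ D.Z ∧ D.vhi z.xU = D.Y1 ∧ icU D z ∧ ¬ LI s D z ∧ D.vlo z.xD < g := by
    intro z
    simp only [EL, Finset.mem_filter]
  have mTg : ∀ x, x ∈ Tg D g ↔ x ∈ D.V ∧ D.vhi x = D.Y1 ∧ D.vlo x = g := by
    intro x
    simp only [Tg, Finset.mem_filter]
  have meUp : ∀ x, x ∈ eUp D g ↔ x ∈ D.V ∧ D.vlo x = g ∧ ∀ z ∈ D.Z, z.xU ≠ x := by
    intro x
    simp only [eUp, Finset.mem_filter]
  have mT4 : ∀ z, z ∈ T4 ↔ z ∈ D.Z ∧ z.y1 = g ∧ D.vhi z.xU = D.Y1 := by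
    intro z
    simp only [hT4, Finset.mem_filter]
  have mTG : ∀ z, z ∈ TG ↔ z ∈ MM s D g ∧ D.vlo z.xD = g ∧ z.xD ∈ eUp D g := by
    intro z
    simp only [hTG, Finset.mem_filter]
  have mHG : ∀ z, z ∈ HG ↔ z ∈ MM s D g ∧ D.vlo z.xD = g ∧ z.xD ∉ eUp D g := by
    intro z
    simp only [hHG, Finset.mem_filter]
  have hHGo : ∀ z ∈ HG, ∃ z' ∈ D.Z, z'.xU = z.xD ∧ z'.y1 = g := by
    intro z hz
    obtain ⟨h1, h2, h3⟩ := (mHG z).1 hz
    have hzZ := ((mMM z).1 h1).1
    rw [meUp] at h3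
    push Not at h3
    obtain ⟨z', hz', e⟩ := h3 (hO.z z hzZ).hD h2
    refine ⟨z', hz', e, ?_⟩
    have := (hO.z z' hz').eU
    rw [e, h2] at this
    exact this.symm
  have hT4Tg : ∀ z ∈ T4, z.xU ∈ Tg D g := by
    intro z hz
    obtain ⟨h1, h2, h3⟩ := (mT4 z).1 hz
    exact (mTg _).2 ⟨(hO.z z h1).hU, h3, by rw [(hO.z z h1).eU, h2]⟩
  have hcardTg : (Tg D g).card = TT.card + T4.card := by
    have h1 := Finset.card_filter_add_card_filter_not (s := Tg D g) (fun x => x ∈ eUp D g)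
    have h2 : ((Tg D g).filter (fun x => ¬ x ∈ eUp D g)) = T4.image (fun z => z.xU) := by
      ext x
      rw [Finset.mem_filter, Finset.mem_image]
      constructor
      · rintro ⟨hx, hn⟩
        obtain ⟨a1, a2, a3⟩ := (mTg x).1 hx
        rw [meUp] at hn
        push Not at hn
        obtain ⟨z, hz, e⟩ := hn a1 a3
        refine ⟨z, (mT4 z).2 ⟨hz, ?_, by rw [e, a2]⟩, e⟩
        have := (hO.z z hz).eU
        rw [e, a3] at this
        exact this.symm
      · rintro ⟨z, hz, rfl⟩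
        refine ⟨hT4Tg z hz, fun hn => ?_⟩
        exact ((meUp _).1 hn).2.2 z ((mT4 z).1 hz).1 rfl
    have h3 : (T4.image (fun z => z.xU)).card = T4.card := by
      refine Finset.card_image_of_injOn fun z hz w hw e => ?_
      exact (hHU z ((mT4 z).1 (Finset.mem_coe.1 hz)).1 w ((mT4 w).1 (Finset.mem_coe.1 hw)).1).2.2.1 e
    rw [← h1, h2, h3]
  have hcardMM : (MM s D g).card = M1.card + TG.card + HG.card := by
    have h1 := Finset.card_filter_add_card_filter_not (s := MM s D g) (fun z => D.vlo z.xD = g)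
    have h2 := Finset.card_filter_add_card_filter_not (s := (MM s D g).filter (fun z => D.vlo z.xD = g))
      (fun z => z.xD ∈ eUp D g)
    rw [Finset.filter_filter, Finset.filter_filter] at h2
    have h3 : (MM s D g).filter (fun z => ¬ D.vlo z.xD = g) = M1 := by
      ext z
      rw [hM1, Finset.mem_filter, Finset.mem_filter, mMM, mEL]
      constructor
      · rintro ⟨⟨a1, a2, a3, a4, a5, a6⟩, a7⟩
        exact ⟨⟨a1, a3, a4, a6, lt_of_le_of_ne a5 a7⟩, a2⟩
      · rintro ⟨⟨a1, a3, a4, a6, a5⟩, a2⟩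
        exact ⟨⟨a1, a2, a3, a4, a5.le, a6⟩, a5.ne⟩
    rw [h3] at h1
    rw [← h1, ← h2]
    simp only [hTG, hHG]
    omega
  have hxDlt : ∀ z ∈ D.Z, D.vhi z.xD ≠ D.Y1 := by
    intro z hz
    rw [(hO.z z hz).eD]
    exact (hHB z hz).ltY1.ne
  have hc1 : TT.card + TG.card ≤ eH D g := by
    have h1 : (TG.image (fun z => z.xD)).card = TG.card := by
      refine Finset.card_image_of_injOn fun z hz w hw e => ?_
      have hz' := ((mMM z).1 ((mTG z).1 (Finset.mem_coe.1 hz)).1).1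
      have hw' := ((mMM w).1 ((mTG w).1 (Finset.mem_coe.1 hw)).1).1
      exact (hHU z hz' w hw').2.2.2 e
    have h2 : Disjoint TT (TG.image (fun z => z.xD)) := by
      rw [Finset.disjoint_left]
      intro x hx hx'
      obtain ⟨z, hz, rfl⟩ := Finset.mem_image.1 hx'
      have hz' := ((mMM z).1 ((mTG z).1 hz).1).1
      exact hxDlt z hz' ((mTg _).1 (Finset.mem_filter.1 hx).1).2.1
    have h3 : TT ∪ TG.image (fun z => z.xD) ⊆ eUp D g := by
      intro x hx
      rcases Finset.mem_union.1 hx with h | h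
      · exact (Finset.mem_filter.1 h).2
      · obtain ⟨z, hz, rfl⟩ := Finset.mem_image.1 h
        exact ((mTG z).1 hz).2.2
    have h4 := Finset.card_le_card h3
    rw [Finset.card_union_of_disjoint h2, h1] at h4
    unfold eH
    omega
  have hc2 : T4.card + HG.card + wH D g ≤ 2 := by
    have h0 := qI5 D g hok S.hg
    have h1 : (T4.image (fun z => z.xU)).card = T4.card := by
      refine Finset.card_image_of_injOn fun z hz w hw e => ?_
      exact (hHU z ((mT4 z).1 (Finset.mem_coe.1 hz)).1 w ((mT4 w).1 (Finset.mem_coe.1 hw)).1).2.2.1 e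
    have h2 : (HG.image (fun z => z.xD)).card = HG.card := by
      refine Finset.card_image_of_injOn fun z hz w hw e => ?_
      have hz' := ((mMM z).1 ((mHG z).1 (Finset.mem_coe.1 hz)).1).1
      have hw' := ((mMM w).1 ((mHG w).1 (Finset.mem_coe.1 hw)).1).1
      exact (hHU z hz' w hw').2.2.2 e
    have h3 : Disjoint (T4.image (fun z => z.xU)) (HG.image (fun z => z.xD)) := by
      rw [Finset.disjoint_left]
      intro x hx hx'
      obtain ⟨z, hz, rfl⟩ := Finset.mem_image.1 hx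
      obtain ⟨w, hw, e⟩ := Finset.mem_image.1 hx'
      have hw' := ((mMM w).1 ((mHG w).1 hw).1).1
      have h := ((mT4 z).1 hz).2.2
      rw [← e] at h
      exact hxDlt w hw' h
    have h4 : T4.image (fun z => z.xU) ∪ HG.image (fun z => z.xD) ⊆
        (D.Z.filter (fun z => z.y1 = g ∨ z.y2 = g)).image (fun z => z.xU) := by
      intro x hx
      rcases Finset.mem_union.1 hx with h | h
      · obtain ⟨z, hz, rfl⟩ := Finset.mem_image.1 h
        obtain ⟨a1, a2, _⟩ := (mT4 z).1 hz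
        exact Finset.mem_image.2 ⟨z, Finset.mem_filter.2 ⟨a1, Or.inl a2⟩, rfl⟩
      · obtain ⟨z, hz, rfl⟩ := Finset.mem_image.1 h
        obtain ⟨z', a1, a2, a3⟩ := hHGo z hz
        exact Finset.mem_image.2 ⟨z', Finset.mem_filter.2 ⟨a1, Or.inl a3⟩, a2⟩
    have h5 := (Finset.card_le_card h4).trans Finset.card_image_le
    rw [Finset.card_union_of_disjoint h3, h1, h2, ← NumG_tch] at h5
    omega
  refine ⟨TT, T4, M1, TG, HG, ?_, mT4, ?_, ?_, hcardTg, hcardMM, hc1, hc2, hT4Tg, ?_, ?_⟩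
  · intro x
    simp only [hTT, Finset.mem_filter]
  · intro z
    simp only [hM1, Finset.mem_filter]
  · intro z hz
    obtain ⟨h1, h2, _⟩ := (mHG z).1 hz
    exact ⟨((mMM z).1 h1).1, h2, h1, hHGo z hz⟩
  · intro z hz
    obtain ⟨a1, a2, a3⟩ := (mT4 z).1 hz
    exact (hOwn D g z hok a1 a2.le (by rw [← a2]; exact (hHB z a1).y12)).2.2
  · intro z hz hn
    obtain ⟨a1, a2, a3⟩ := (mT4 z).1 hz
    rcases hE2 s D g z S a1 a2 a3 hn with h | h
    · exact Or.inl h
    · right
      unfold eV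
      rcases (hO.z z a1).chir with c | c
      · have := h.1 c.1
        omega
      · have := h.2 c.1
        omega

end Pool.RC
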