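import Pool.Agent.RC.St2
import Pool.Agent.RB.M_HB

namespace Pool.RC

open Pool.RB

/-- MODULE One: only the piece at height `w.y2` crosses the vertical line through `w.xD`. -/
theorem pOne (hStr : StStr) : StOne := by
  intro D w hD hw hU hic hlo
  have hB := pHB D hD.ok w hw
  have hz := hD.ok.z w hw
  have ex1 : w.x1 = min w.xU w.xD := rfl
  have ex2 : w.x2 = max w.xU w.xD := rfl
  have key : ∀ y ∈ D.H, D.hlo y < w.xD → w.xD < D.hhi y → y = w.y2 := by
    intro y hy h1 h2
    rcases lt_trichotomy y w.y2 with h | h | h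
    · exfalso
      have h3 := hD.ok.h y hy
      refine hD.ok.nc w.xD hz.hD y hy ?_ ?_ h1 h2
      · rw [hlo]; exact h3.1
      · rw [hz.eD]; exact h
    · exact h
    · exact (hStr D w hD hw hU hic y hy h (by omega) (by omega)).elim
  have hy2 : w.y2 ∈ D.H ∧ D.hlo w.y2 < w.xD ∧ w.xD < D.hhi w.y2 := by
    have h4 := hD.ok.vhi_end w.xD hz.hD
    rw [hz.eD] at h4
    rcases h4 with h4 | h4
    · exact absurd h4 (by have := hB.ltY1; omega)
    · exact h4
  constructor
  · unfold crsV
    rw [Finset.card_eq_one]
    refine ⟨w.y2, ?_⟩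
    ext y
    simp only [Finset.mem_filter, Finset.mem_singleton]
    constructor
    · rintro ⟨h1, h2, h3⟩
      exact key y h1 h2 h3
    · rintro rfl
      exact hy2
  · unfold hitV
    rw [Finset.card_eq_zero, Finset.filter_eq_empty_iff]
    rintro z hzZ ⟨h1, h2⟩
    have hBz := pHB D hD.ok z hzZ
    have f := hBz.face
    have a1 : z.y1 = w.y2 := by
      rcases f.bot with h | h
      · exact absurd h (by have := hBz.Y0lt; simp only [Hole.box] at *; omega)
      · obtain ⟨g1, g2, g3⟩ := h
        simp only [Hole.box] at g1 g2 g3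
        exact key _ g1 (by omega) (by omega)
    have a2 : z.y2 = w.y2 := by
      rcases f.top with h | h
      · exact absurd h (by have := hBz.ltY1; simp only [Hole.box] at *; omega)
      · obtain ⟨g1, g2, g3⟩ := h
        simp only [Hole.box] at g1 g2 g3
        exact key _ g1 (by omega) (by omega)
    have := hBz.y12
    omega

end Pool.RC
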