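import Pool.Agent.RC.St3
import Pool.Agent.RC.Main1

/-! # Project RC, module Own: the end of the top arm of a hit hole is a T-end of the upper part -/

namespace Pool.RC

open Pool.RB

private theorem Own_A (D : Cfg) (p : ℤ) (z : Hole) (hD : OkC D) (hz : z ∈ D.Z) (h1 : z.y1 ≤ p)
    (h2 : p < z.y2) (hA : z.yL < z.yR) : z.yR ∈ eRt (upA D p) z.xU := by
  have hk := hD.ok.z z hz
  have hx : z.xU < z.xD := by
    rcases hk.chir with h | h
    · exact h.2
    · exact absurd h.1 (by omega)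
  have hy2 : z.y2 = z.yR := max_eq_right hA.le
  have hx1 : z.x1 = z.xU := min_eq_left hx.le
  unfold eRt
  rw [Finset.mem_filter]
  refine ⟨Finset.mem_filter.mpr ⟨hk.hR, by omega⟩, ?_, ?_⟩
  · show D.hlo z.yR = z.xU
    rw [hk.eR, hx1]
  intro w hw' he
  obtain ⟨hw, hpw⟩ := Finset.mem_filter.mp hw'
  have := (qHU D hD.ok z hz w hw).2.1 he.symm
  subst this
  omega

private theorem Own_B (D : Cfg) (p : ℤ) (z : Hole) (hD : OkC D) (hz : z ∈ D.Z) (h1 : z.y1 ≤ p)
    (h2 : p < z.y2) (hB : z.yR < z.yL) : z.yL ∈ eLf (upA D p) z.xU := by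
  have hk := hD.ok.z z hz
  have hx : z.xD < z.xU := by
    rcases hk.chir with h | h
    · exact absurd h.1 (by omega)
    · exact h.2
  have hy2 : z.y2 = z.yL := max_eq_left hB.le
  have hx2 : z.x2 = z.xU := max_eq_left hx.le
  unfold eLf
  rw [Finset.mem_filter]
  refine ⟨Finset.mem_filter.mpr ⟨hk.hL, by omega⟩, ?_, ?_⟩
  · show D.hhi z.yL = z.xU
    rw [hk.eL, hx2]
  intro w hw' he
  obtain ⟨hw, hpw⟩ := Finset.mem_filter.mp hw'
  have := (qHU D hD.ok z hz w hw).1 he.symm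
  subst this
  omega

theorem pOwn : StOwn := by
  intro D p z hD hz h1 h2
  refine ⟨Own_A D p z hD hz h1 h2, Own_B D p z hD hz h1 h2, ?_⟩
  unfold eV
  rcases (hD.ok.z z hz).chir with h | h
  · have := Finset.card_pos.mpr ⟨_, Own_A D p z hD hz h1 h2 h.1⟩
    omega
  · have := Finset.card_pos.mpr ⟨_, Own_B D p z hD hz h1 h2 h.1⟩
    omega

end Pool.RC
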