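import Pool.Agent.RC.St3
import Pool.Agent.RB.M_HB
import Pool.Agent.RB.M_HU

/-!
# Project RC (MP_c6e2b4_co), module QM: a piece on the other side of the down arm of a bad element
-/

set_option autoImplicit false

namespace Pool.RC

open Pool.RB

private lemma QM_eUp {D : Cfg} {q x : ℤ} (he : eH D q = 0) (hx : x ∈ D.V) (hq : D.vlo x = q) :
    ∃ z ∈ D.Z, z.xU = x := by
  by_contra hne
  push Not at hne
  have h1 : x ∈ eUp D q := by
    unfold eUp
    rw [Finset.mem_filter]
    exact ⟨hx, hq, hne⟩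
  have h2 : 0 < (eUp D q).card := Finset.card_pos.mpr ⟨x, h1⟩
  unfold eH at he
  omega

private lemma QM_A {z : Hole} (h : z.yL < z.yR) : z.y1 = z.yL ∧ z.y2 = z.yR :=
  ⟨min_eq_left h.le, max_eq_right h.le⟩

private lemma QM_B {z : Hole} (h : z.yR < z.yL) : z.y1 = z.yR ∧ z.y2 = z.yL :=
  ⟨min_eq_right h.le, max_eq_left h.le⟩

/-- facts common to both versions -/
private lemma QM_el {s : Bool} {D : Cfg} {g : ℤ} {w : Hole} (hS : Sit s D g) (hw : w ∈ EL s D g) :
    w ∈ D.Z ∧ w.xD ∈ D.V ∧ g ≤ w.y1 ∧ g ≤ D.vhi w.xD := by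
  classical
  unfold EL at hw
  obtain ⟨hwZ, hwU, -, -, -⟩ := Finset.mem_filter.mp hw
  have hok := hS.ok.ok.z w hwZ
  have h1 : g ≤ w.y1 := by
    rw [← hok.eU]
    exact hS.hT _ hok.hU hwU
  have hB := Pool.RB.pHB D hS.ok.ok w hwZ
  refine ⟨hwZ, hok.hD, h1, ?_⟩
  rw [hok.eD]
  exact h1.trans hB.y12.le

theorem pQM (hMR2 : StMR2) (hEC : StEC) (hMMl : StMMl) (hOwn : StOwn) (hBadS : StBadS) (hCl : StCl) (hSem : StSem) :
    StQM := by
  have _ := hMMl
  intro s D g x w z hS hw hz hzx hQg hx hxg hzxh hM1 hM2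
  have hOk := hS.ok.ok
  obtain ⟨hwZ, hwV, hgw, hgh⟩ := QM_el hS hw
  have hHB := Pool.RB.pHB D hOk z hz
  have hHo := hOk.z z hz
  have hHU := Pool.RB.pHU Pool.RB.pHB D hOk
  constructor
  · intro hB hwx
    obtain ⟨-, -, z', hz', hzx', hA, hL, hy1, hR, -⟩ := (hBadS D w hS.ok hwZ).1 hB
    have hzz : z' = z := (hHU z' hz' z hz).2.2.1 (hzx'.trans hzx.symm)
    subst hzz
    have hQH : z'.y2 ∈ D.H := hR ▸ hHo.hR
    have hbQ : D.vlo w.xD < z'.y2 := by
      rw [← hy1]
      exact hHB.y12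
    have hx1 : z'.x1 = w.xD := by
      rcases hHo.chir with h | h
      · rw [← hzx]
        exact min_eq_left h.2.le
      · exact absurd hA (not_lt.mpr h.1.le)
    have hloQ : D.hlo z'.y2 = z'.x1 := by
      rw [← hR]
      exact hHo.eR
    have hECQ := hEC s D g z'.y2 w hS hw hQH hbQ.le hQg
    by_cases hc : D.hhi z'.y2 = D.X1 ∧ eH D z'.y2 = 0
    · obtain ⟨hc1, hc2⟩ := hc
      by_contra hP
      refine (hCl D w.xD z'.y2 g hS.ok hwV hQH hbQ.le hgh).2 hc1 (by rw [hloQ, hx1]) ?_ ?_ x hx hwx hxg hzxh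
      · intro x' hx' hwx' hvx'
        obtain ⟨t, ht, htx⟩ := QM_eUp hc2 hx' hvx'
        have hto := hOk.z t ht
        have htB := Pool.RB.pHB D hOk t ht
        have ht1 : t.y1 = z'.y2 := by
          rw [← hto.eU, htx, hvx']
        rcases hto.chir with h | h
        · have h2 : D.hhi t.yL = t.x2 := hto.eL
          rw [← (QM_A h.1).1, ht1, hc1] at h2
          have := htB.ltX1
          omega
        · have h3 : t.yR = z'.yR := by
            rw [← (QM_B h.1).1, ht1, hR]
          have h4 : t = z' := (hHU t ht z' hz).2.1 h3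
          subst h4
          have := hHB.y12
          omega
      · intro c hcH hQc hcg hhc hlc x' hx' hwx' hvx'
        refine hP ((hSem s D g c x' w hS hw (Or.inl hB) hcH (hbQ.trans hQc) hcg hx' hvx' ?_).2 hhc hlc hwx')
        have h5 := (hOwn D (D.vlo w.xD) z' hS.ok hz hy1.le hbQ).2.2
        rw [hzx] at h5
        exact hM2.trans h5
    · refine hMR2 s D z'.y2 w hS.ok hS.ih hECQ ?_
      have hX0 : D.hlo z'.y2 ≠ D.X0 := by
        rw [hloQ]
        have := hHB.X0lt
        omega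
      unfold wH
      rw [if_neg hX0]
      by_cases h6 : D.hhi z'.y2 = D.X1
      · have h7 : eH D z'.y2 ≠ 0 := fun h => hc ⟨h6, h⟩
        rw [if_pos h6]
        omega
      · rw [if_neg h6]
        omega
  · intro hB hxw
    obtain ⟨-, -, z', hz', hzx', hA, hL, hy1, hR, -⟩ := (hBadS D w hS.ok hwZ).2 hB
    have hzz : z' = z := (hHU z' hz' z hz).2.2.1 (hzx'.trans hzx.symm)
    subst hzz
    have hQH : z'.y2 ∈ D.H := hR ▸ hHo.hL
    have hbQ : D.vlo w.xD < z'.y2 := by
      rw [← hy1]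
      exact hHB.y12
    have hx2 : z'.x2 = w.xD := by
      rcases hHo.chir with h | h
      · exact absurd hA (not_lt.mpr h.1.le)
      · rw [← hzx]
        exact max_eq_left h.2.le
    have hhiQ : D.hhi z'.y2 = z'.x2 := by
      rw [← hR]
      exact hHo.eL
    have hECQ := hEC s D g z'.y2 w hS hw hQH hbQ.le hQg
    by_cases hc : D.hlo z'.y2 = D.X0 ∧ eH D z'.y2 = 0
    · obtain ⟨hc1, hc2⟩ := hc
      by_contra hP
      refine (hCl D w.xD z'.y2 g hS.ok hwV hQH hbQ.le hgh).1 hc1 (by rw [hhiQ, hx2]) ?_ ?_ x hx hxw hxg hzxh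
      · intro x' hx' hwx' hvx'
        obtain ⟨t, ht, htx⟩ := QM_eUp hc2 hx' hvx'
        have hto := hOk.z t ht
        have htB := Pool.RB.pHB D hOk t ht
        have ht1 : t.y1 = z'.y2 := by
          rw [← hto.eU, htx, hvx']
        rcases hto.chir with h | h
        · have h3 : t.yL = z'.yL := by
            rw [← (QM_A h.1).1, ht1, hR]
          have h4 : t = z' := (hHU t ht z' hz).1 h3
          subst h4
          have := hHB.y12
          omega
        · have h2 : D.hlo t.yR = t.x1 := hto.eR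
          rw [← (QM_B h.1).1, ht1, hc1] at h2
          have := htB.X0lt
          omega
      · intro c hcH hQc hcg hlc hhc x' hx' hwx' hvx'
        refine hP ((hSem s D g c x' w hS hw (Or.inr hB) hcH (hbQ.trans hQc) hcg hx' hvx' ?_).1 hlc hhc hwx')
        have h5 := (hOwn D (D.vlo w.xD) z' hS.ok hz hy1.le hbQ).2.2
        rw [hzx] at h5
        exact hM2.trans h5
    · refine hMR2 s D z'.y2 w hS.ok hS.ih hECQ ?_
      have hX1 : D.hhi z'.y2 ≠ D.X1 := by
        rw [hhiQ]
        have := hHB.ltX1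
        omega
      unfold wH
      rw [if_neg hX1]
      by_cases h6 : D.hlo z'.y2 = D.X0
      · have h7 : eH D z'.y2 ≠ 0 := fun h => hc ⟨h6, h⟩
        rw [if_pos h6]
        omega
      · rw [if_neg h6]
        omega

end Pool.RC
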