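import Pool.Agent.RC.Main1

/-! Project RC, module R2g: the general move R2. -/

namespace Pool.RC

open Pool.RB

theorem pR2g (hZM : StZM) (hCH : StCH) (hCV : StCV) (hW : StW) (hUpE : StUpE) (hIHs : StIHs)
    (hDnK : StDnK) : StR2g := by
  intro s D p w a b hD hI hE hL hR hle
  obtain ⟨okU, -, hvU, -, -, hcrs, hhit, hwV, -, -, hp0, hp1⟩ := hUpE D p w hD hE
  have hv := hCV (upA D p) w.xD (3 * (WR (lfA (upA D p) w.xD) : ℤ) + a)
    (3 * (WL (rtA (upA D p) w.xD) : ℤ) + b) okU hvU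
    (by rw [← add_assoc]; exact hL) (by rw [← add_assoc]; exact hR)
  obtain ⟨w1, w2, -⟩ := hW (upA D p) w.xD okU hvU
  rw [hcrs, hhit] at w1 w2
  have okDn : OkC (dnA D p) := qDnA D p hD hp0 hp1
  have hsz : (dnA D p).sz < D.sz := (qSzA.2.1 D p hE.hp).2
  have hdn := (hIHs.1 D (dnA D p) hI okDn hsz).2.2 s
  have hev : (eV (upA D p) w.xD : ℤ) = ((eRt (upA D p) w.xD).card : ℤ) +
      ((eLf (upA D p) w.xD).card : ℤ) := by
    unfold eV
    push_cast
    rfl
  have hup : SolZ (upA D p) (U (upA D p) + (a + b + 5 - (eV (upA D p) w.xD : ℤ))) := by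
    refine hZM _ _ _ hv ?_
    rw [hwV]
    push_cast
    omega
  have hh := hCH D p _ _ hD hE.hp hup hdn
  have hk := hDnK s D p hD hE.hp
  show SolZ D (U D + KB s D)
  refine hZM _ _ _ hh ?_
  unfold KB at hk ⊢
  omega

end Pool.RC
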