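import Pool.Agent.RC.Main1
import Pool.Agent.RB.M_HB

/-! # Project RC, module S1g: the general move S1 -/

set_option autoImplicit false

namespace Pool.RC

open Pool.RB

theorem pS1g (hZM : StZM) (hCH : StCH) (hCV : StCV) (hW : StW) (hIHs : StIHs) (hDnK : StDnK) : StS1g := by
  intro s D g t a b hD hI hg htT hL hR hle
  obtain ⟨htV, ht1, ht2⟩ := Finset.mem_filter.1 htT
  obtain ⟨hg0, hg1, -⟩ := hD.ok.h g hg
  obtain ⟨htX0, htX1, -⟩ := hD.ok.v t htV
  have hUP : OkC (upA D g) := qUpA D g hD hg0 hg1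
  have htUP : t ∈ (upA D g).V := by
    refine Finset.mem_filter.2 ⟨htV, ?_, ?_⟩
    · rw [ht1]; exact hg1
    · intro z hz _ _ h3
      have e := (hD.ok.z z hz).eD
      have hb := pHB D hD.ok z hz
      rw [h3, ht1] at e
      have := hb.ltY1
      omega
  have hlo : (upA D g).vlo t = (upA D g).Y0 := by
    show max (D.vlo t) g = g
    rw [ht2, max_self]
  have hhi : (upA D g).vhi t = (upA D g).Y1 := ht1
  have hcrs : crsV (upA D g) t = 0 := by
    unfold crsV
    rw [Finset.card_eq_zero, Finset.filter_eq_empty_iff]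
    intro y hy h
    obtain ⟨y1, y2, -⟩ := hUP.ok.h y hy
    exact hUP.ok.nc t htUP y hy (by omega) (by omega) h.1 h.2
  have hhit : hitV (upA D g) t = 0 := by
    unfold hitV
    rw [Finset.card_eq_zero, Finset.filter_eq_empty_iff]
    intro z hz h
    have hb := pHB (upA D g) hUP.ok z hz
    have y12 := hb.y12
    have b1 := hb.Y0lt
    have b2 := hb.ltY1
    exact (hUP.ok.z z hz).noV t htUP h.1 h.2 (by omega) (by omega)
  have hwV : wV (upA D g) t = 2 := by
    unfold wV
    rw [if_pos hlo, if_pos hhi]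
  have hv := hCV (upA D g) t (3 * (WR (lfA (upA D g) t) : ℤ) + a)
    (3 * (WL (rtA (upA D g) t) : ℤ) + b) hUP htUP
    (by rw [← add_assoc]; exact hL) (by rw [← add_assoc]; exact hR)
  obtain ⟨w1, w2, -⟩ := hW (upA D g) t hUP htUP
  rw [hcrs, hhit] at w1 w2
  have okDn : OkC (dnA D g) := qDnA D g hD hg0 hg1
  have hsz : (dnA D g).sz < D.sz := (qSzA.2.1 D g hg).2
  have hdn := (hIHs.1 D (dnA D g) hI okDn hsz).2.2 s
  have hev : (eV (upA D g) t : ℤ) = ((eRt (upA D g) t).card : ℤ) +
      ((eLf (upA D g) t).card : ℤ) := by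
    unfold eV
    push_cast
    rfl
  have hup : SolZ (upA D g) (U (upA D g) + (a + b + 3 - (eV (upA D g) t : ℤ))) := by
    refine hZM _ _ _ hv ?_
    rw [hwV]
    push_cast
    omega
  have hh := hCH D g _ _ hD hg hup hdn
  have hk := hDnK s D g hD hg
  show SolZ D (U D + KB s D)
  refine hZM _ _ _ hh ?_
  unfold KB at hk ⊢
  omega

end Pool.RC
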