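import Pool.Agent.RC.St3
import Pool.Agent.RC.Main1
import Pool.Agent.RB.Main

/-!
# Project RC (MP_c6e2b4_co, owner helper22): the value of `eV` in StSem
-/

set_option autoImplicit false

namespace Pool.RC

open Pool.RB

/-- an element is not lower than `g` -/
private theorem Se2_ge {s : Bool} {D : Cfg} {g : ℤ} {w : Hole} (hS : Sit s D g) (hw : w ∈ EL s D g) :
    w ∈ D.Z ∧ g ≤ w.y1 := by
  classical
  unfold EL at hw
  rw [Finset.mem_filter] at hw
  obtain ⟨h1, h2, -⟩ := hw
  have hz := hS.ok.ok.z w h1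
  have h3 := hS.hT w.xU hz.hU h2
  rw [hz.eU] at h3
  exact ⟨h1, h3⟩

private theorem Se2_y {z : Hole} : z.y1 ≤ z.yL ∧ z.y1 ≤ z.yR := by
  unfold Hole.y1
  omega

theorem pSe2 (hOwn : StOwn) (hTe : StTe) (hBadS : StBadS) : StSe2 := by
  intro s D g c w hS hw hc hbc hcg
  have hok := hS.ok
  obtain ⟨hwZ, hg⟩ := Se2_ge hS hw
  have hwo := hok.ok.z w hwZ
  have hwy := @Se2_y w
  have hte := (hTe D w.xD (D.vlo w.xD) hok hwo.hD).2.2 c hbc
  constructor
  · intro hB hcx
    obtain ⟨-, -, z, hz, e1, e2, e3, e4, e5, e6⟩ := (hBadS D w hok hwZ).1 hB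
    have hzB := qHB D hok.ok z hz
    have hy := hzB.y12
    have h1 := (hOwn D (D.vlo w.xD) z hok hz (by omega) (by omega)).1 e2
    rw [e1] at h1
    have h2 : c ∈ eLf D w.xD := by
      unfold eLf
      rw [Finset.mem_filter]
      refine ⟨hc, hcx, fun z' hz' hyc => ?_⟩
      have hz'o := hok.ok.z z' hz'
      have h3 := hz'o.eL
      rw [hyc, hcx] at h3
      have h4 := hz'o.chir
      have hHU := qHU D hok.ok z' hz'
      unfold Hole.x2 at h3
      rcases h4 with ⟨h4, h5⟩ | ⟨h4, h5⟩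
      · have h6 : z'.xD = w.xD := by omega
        have h7 := (hHU w hwZ).2.2.2 h6
        subst h7
        omega
      · have h6 : z'.xU = z.xU := by omega
        have h7 := (hHU z hz).2.2.1 h6
        subst h7
        omega
    have h3 := hte.2 h2
    have h4 : 0 < (eRt (upA D (D.vlo w.xD)) w.xD).card := Finset.card_pos.2 ⟨_, h1⟩
    have h5 : 0 < (eLf (upA D (D.vlo w.xD)) w.xD).card := Finset.card_pos.2 ⟨_, h3⟩
    unfold eV
    omega
  · intro hB hcx
    obtain ⟨-, -, z, hz, e1, e2, e3, e4, e5, e6⟩ := (hBadS D w hok hwZ).2 hB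
    have hzB := qHB D hok.ok z hz
    have hy := hzB.y12
    have h1 := (hOwn D (D.vlo w.xD) z hok hz (by omega) (by omega)).2.1 e2
    rw [e1] at h1
    have h2 : c ∈ eRt D w.xD := by
      unfold eRt
      rw [Finset.mem_filter]
      refine ⟨hc, hcx, fun z' hz' hyc => ?_⟩
      have hz'o := hok.ok.z z' hz'
      have h3 := hz'o.eR
      rw [hyc, hcx] at h3
      have h4 := hz'o.chir
      have hHU := qHU D hok.ok z' hz'
      unfold Hole.x1 at h3
      rcases h4 with ⟨h4, h5⟩ | ⟨h4, h5⟩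
      · have h6 : z'.xU = z.xU := by omega
        have h7 := (hHU z hz).2.2.1 h6
        subst h7
        omega
      · have h6 : z'.xD = w.xD := by omega
        have h7 := (hHU w hwZ).2.2.2 h6
        subst h7
        omega
    have h3 := hte.1 h2
    have h4 : 0 < (eLf (upA D (D.vlo w.xD)) w.xD).card := Finset.card_pos.2 ⟨_, h1⟩
    have h5 : 0 < (eRt (upA D (D.vlo w.xD)) w.xD).card := Finset.card_pos.2 ⟨_, h3⟩
    unfold eV
    omega

end Pool.RC
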