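import Pool.Agent.RC.Main1
import Pool.Agent.RC.St3

/-! Module Sem of project RC. -/

namespace Pool.RC

open Pool.RB

private lemma Sem_gn (E : Cfg) (c x : ℤ) (hx : x ∈ eUp E c) (hne : E.vhi x ≠ E.Y1) : 3 ≤ gn E c := by
  have h1 : 1 ≤ (eUp E c).card := Finset.card_pos.mpr ⟨x, hx⟩
  have h2 : 1 ≤ ((eUp E c).filter (fun x => E.vhi x ≠ E.Y1)).card :=
    Finset.card_pos.mpr ⟨x, Finset.mem_filter.mpr ⟨hx, hne⟩⟩
  unfold gn
  omega

theorem pSem (hMRd : StMRd) (hBadS : StBadS) (hEC : StEC) : StSem := by
  intro s D g c x w hS hw hbad hcH hpc hcg hxV hxc hMM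
  have hok := hS.ok
  have hO := hok.ok
  have hwZ : w ∈ D.Z := by
    simp only [EL, Finset.mem_filter] at hw
    exact hw.1
  have hHBw := Pool.RB.qHB D hO w hwZ
  have hzOk := hO.z w hwZ
  have hpH : D.vlo w.xD ∈ D.H := by
    rcases hbad with h | h
    · exact h.1
    · exact h.1
  have heH : eH D (D.vlo w.xD) = 0 := by
    rcases hbad with h | h
    · exact h.2.1
    · exact h.2.1
  have hwH : wH D (D.vlo w.xD) = 1 := by
    rcases hbad with h | h
    · exact ((hBadS D w hok hwZ).1 h).1
    · exact ((hBadS D w hok hwZ).2 h).1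
  set p := D.vlo w.xD with hp
  have hpg : p < g := by omega
  have hE : EC D p w := hEC s D g p w hS hw hpH le_rfl hpg
  have hvX := hO.v w.xD hzOk.hD
  have hxX := hO.v x hxV
  have hxvhi : D.vhi x ≠ D.Y1 := by
    intro h
    have := hS.hT x hxV h
    omega
  -- `x` is a piece of the upper part
  have hxU : x ∈ (upA D p).V := by
    simp only [upA, Finset.mem_filter]
    refine ⟨hxV, by omega, ?_⟩
    intro z hz hz1 hz2 hzx
    have := (Pool.RB.qHB D hO z hz).loD
    rw [hzx] at this
    omega
  have hcU : c ∈ (upA D p).H := by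
    simp only [upA, Finset.mem_filter]
    exact ⟨hcH, hpc⟩
  have hupZ : ∀ z ∈ (upA D p).Z, z ∈ D.Z := by
    intro z hz
    simp only [upA, Finset.mem_filter] at hz
    exact hz.1
  -- the lower end of `x` in the leaves
  have hmax : max (D.vlo x) p = c := by
    rw [hxc]; exact max_eq_left (le_of_lt hpc)
  -- `z.xU = x` implies that `c` is an arm of `z`
  have hown : ∀ z ∈ D.Z, z.xU = x → z.yL = c ∨ z.yR = c := by
    intro z hz hzx
    have h1 := (hO.z z hz).eU
    rw [hzx, hxc] at h1
    unfold Hole.y1 at h1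
    rcases min_choice z.yL z.yR with h | h
    · left; rw [h] at h1; exact h1.symm
    · right; rw [h] at h1; exact h1.symm
  refine ⟨?_, ?_⟩
  · intro hlo hhi hxw
    have hcL : c ∈ (lfA (upA D p) w.xD).H := by
      simp only [lfA, Finset.mem_filter]
      refine ⟨hcU, ?_, ?_⟩
      · show D.hlo c < w.xD
        rw [hlo]; exact hvX.1
      · intro z hz _ _ hzc
        have h1 := (hO.z z (hupZ z hz)).eR
        have h2 := (Pool.RB.qHB D hO z (hupZ z hz)).X0lt
        rw [hzc, hlo] at h1
        omega
    have hxL : x ∈ eUp (lfA (upA D p) w.xD) c := by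
      simp only [eUp, Finset.mem_filter]
      refine ⟨?_, ?_, ?_⟩
      · simp only [lfA, Finset.mem_filter]
        exact ⟨hxU, hxw⟩
      · show max (D.vlo x) p = c
        exact hmax
      · intro z hz hzx
        simp only [lfA, Finset.mem_filter] at hz
        have hzD := hupZ z hz.1
        rcases hown z hzD hzx with h | h
        · have h1 := (hO.z z hzD).eL
          rw [h, hhi] at h1
          omega
        · have h1 := (hO.z z hzD).eR
          have h2 := (Pool.RB.qHB D hO z hzD).X0lt
          rw [h, hlo] at h1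
          omega
    have hg3 := Sem_gn (lfA (upA D p) w.xD) c x hxL hxvhi
    refine (hMRd s D p c w hok hS.ih hE).1 hcL hlo (le_of_eq hhi.symm) ?_
    omega
  · intro hhi hlo hxw
    have hcR : c ∈ (rtA (upA D p) w.xD).H := by
      simp only [rtA, Finset.mem_filter]
      refine ⟨hcU, ?_, ?_⟩
      · show w.xD < D.hhi c
        rw [hhi]; exact hvX.2.1
      · intro z hz _ _ hzc
        have h1 := (hO.z z (hupZ z hz)).eL
        have h2 := (Pool.RB.qHB D hO z (hupZ z hz)).ltX1
        rw [hzc, hhi] at h1
        omega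
    have hxR : x ∈ eUp (rtA (upA D p) w.xD) c := by
      simp only [eUp, Finset.mem_filter]
      refine ⟨?_, ?_, ?_⟩
      · simp only [rtA, Finset.mem_filter]
        exact ⟨hxU, hxw⟩
      · show max (D.vlo x) p = c
        exact hmax
      · intro z hz hzx
        simp only [rtA, Finset.mem_filter] at hz
        have hzD := hupZ z hz.1
        rcases hown z hzD hzx with h | h
        · have h1 := (hO.z z hzD).eL
          have h2 := (Pool.RB.qHB D hO z hzD).ltX1
          rw [h, hhi] at h1
          omega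
        · have h1 := (hO.z z hzD).eR
          rw [h, hlo] at h1
          omega
    have hg3 := Sem_gn (rtA (upA D p) w.xD) c x hxR hxvhi
    refine (hMRd s D p c w hok hS.ih hE).2 hcR hhi (le_of_eq hlo) ?_
    omega

end Pool.RC
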