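import Pool.Agent.RC.Main1

/-! MP_c6e2b4_co, project RC, module Sit: the setting of the case analysis is invariant under the reflection. -/

namespace Pool.RC

open Pool.RB

private theorem Sit_fx_fx (z : Hole) : z.fx.fx = z := by
  cases z; simp [Hole.fx]

private theorem Sit_fx_inj : Function.Injective Hole.fx := by
  intro a b h
  rw [← Sit_fx_fx a, ← Sit_fx_fx b, h]

private theorem Sit_y1 (z : Hole) : z.fx.y1 = z.y1 := by
  simp only [Hole.fx, Hole.y1]; omega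

private theorem Sit_neg_inj : Function.Injective (fun x : ℤ => -x) := fun a b h => by
  simp only at h; omega

private theorem Sit_memZ (D : Cfg) (w : Hole) : w.fx ∈ D.fx.Z ↔ w ∈ D.Z := by
  simp only [Cfg.fx, Finset.mem_image]
  constructor
  · rintro ⟨z, hz, h⟩
    rw [← Sit_fx_inj h]; exact hz
  · intro h
    exact ⟨w, h, rfl⟩

private theorem Sit_memV (D : Cfg) (x : ℤ) : x ∈ D.fx.V ↔ -x ∈ D.V := by
  simp only [Cfg.fx, Finset.mem_image]
  constructor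
  · rintro ⟨z, hz, h⟩
    rw [← h, neg_neg]; exact hz
  · intro h
    exact ⟨-x, h, neg_neg x⟩

private theorem Sit_vlo (D : Cfg) (x : ℤ) : D.fx.vlo x = D.vlo (-x) := rfl
private theorem Sit_vhi (D : Cfg) (x : ℤ) : D.fx.vhi x = D.vhi (-x) := rfl
private theorem Sit_vloD (D : Cfg) (z : Hole) : D.fx.vlo z.fx.xD = D.vlo z.xD := by
  simp only [Cfg.fx, Hole.fx, neg_neg]
private theorem Sit_vhiU (D : Cfg) (z : Hole) : D.fx.vhi z.fx.xU = D.vhi z.xU := by
  simp only [Cfg.fx, Hole.fx, neg_neg]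

private theorem Sit_fil (Z : Finset Hole) (p q : Hole → Prop) {_ : DecidablePred p} {_ : DecidablePred q}
    (h : ∀ z ∈ Z, (p z.fx ↔ q z)) : (Z.image Hole.fx).filter p = (Z.filter q).image Hole.fx := by
  rw [Finset.filter_image]
  apply congrArg
  apply Finset.filter_congr
  intro z hz
  exact h z hz

private theorem Sit_EL (hSymZ : StSymZ) (s : Bool) (D : Cfg) (g : ℤ) :
    EL (!s) D.fx g = (EL s D g).image Hole.fx := by
  unfold EL
  refine Sit_fil D.Z _ _ (fun z _ => ?_)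
  rw [Sit_vloD, Sit_vhiU, (hSymZ.2.2 s D z).1, (hSymZ.2.2 s D z).2.1]
  rfl

private theorem Sit_QQ (hSymZ : StSymZ) (D : Cfg) (g : ℤ) : QQ D.fx g = (QQ D g).image Hole.fx := by
  unfold QQ
  refine Sit_fil D.Z _ _ (fun z _ => ?_)
  rw [Sit_vloD, Sit_vhiU, Sit_y1, (hSymZ.2.2 true D z).2.1]
  rfl

private theorem Sit_MM (hSymZ : StSymZ) (s : Bool) (D : Cfg) (g : ℤ) :
    MM (!s) D.fx g = (MM s D g).image Hole.fx := by
  unfold MM
  rw [Sit_QQ hSymZ D g]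
  refine Sit_fil (QQ D g) _ _ (fun z _ => ?_)
  rw [(hSymZ.2.2 s D z).1]

private theorem Sit_eUp (D : Cfg) (c : ℤ) : eUp D.fx c = (eUp D c).image (fun x => -x) := by
  ext x
  unfold eUp
  simp only [Finset.mem_filter, Finset.mem_image, Sit_memV, Sit_vlo]
  constructor
  · rintro ⟨h1, h2, h3⟩
    refine ⟨-x, ⟨h1, h2, fun z hz h => h3 z.fx ((Sit_memZ D z).2 hz) ?_⟩, neg_neg x⟩
    simp only [Hole.fx]; omega
  · rintro ⟨a, ⟨h1, h2, h3⟩, rfl⟩
    rw [neg_neg]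
    refine ⟨h1, h2, fun z hz h => ?_⟩
    have hz' : z.fx ∈ D.Z := (Sit_memZ D z.fx).1 (by rw [Sit_fx_fx]; exact hz)
    refine h3 z.fx hz' ?_
    simp only [Hole.fx]; omega

private theorem Sit_eH (D : Cfg) (c : ℤ) : eH D.fx c = eH D c := by
  obtain ⟨_, _, _, _, _, _, _, _, h1, h2, _, _⟩ := qI7.2 D c
  unfold eH; rw [h1, h2]

private theorem Sit_eV (D : Cfg) (c : ℤ) : eV D.fx (-c) = eV D c := by
  obtain ⟨_, _, _, _, _, _, _, _, _, _, h1, h2⟩ := qI7.2 D c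
  unfold eV; rw [h1, h2, add_comm]

private theorem Sit_wH (D : Cfg) (c : ℤ) : wH D.fx c = wH D c := by
  obtain ⟨_, _, _, _, _, _, h, _⟩ := qI7.2 D c
  exact h

private theorem Sit_gn (D : Cfg) (c : ℤ) : gn D.fx c = gn D c := by
  obtain ⟨_, _, _, _, _, _, _, _, h1, h2, _, _⟩ := qI7.2 D c
  have h3 : ((eUp D.fx c).filter (fun x => D.fx.vhi x ≠ D.fx.Y1)).card =
      ((eUp D c).filter (fun x => D.vhi x ≠ D.Y1)).card := by
    rw [Sit_eUp, Finset.filter_image, Finset.card_image_of_injective _ Sit_neg_inj]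
    apply congrArg Finset.card
    apply Finset.filter_congr
    intro x _
    rw [Sit_vhi, neg_neg]
    exact Iff.rfl
  unfold gn
  rw [h1, h2, h3]

private theorem Sit_Irr (D : Cfg) (h : Irr D) : Irr D.fx := by
  obtain ⟨h1, h2⟩ := h
  refine ⟨fun y hy hh => h1 y hy ?_, fun x hx hh => h2 (-x) ((Sit_memV D x).1 hx) hh⟩
  obtain ⟨a, b⟩ := hh
  simp only [Cfg.fx] at a b
  constructor <;> omega

private theorem Sit_TopGe (D : Cfg) (g : ℤ) (h : TopGe D g) : TopGe D.fx g :=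
  fun x hx hh => h (-x) ((Sit_memV D x).1 hx) hh

private theorem Sit_TopGt (D : Cfg) (g : ℤ) (h : TopGt D g) : TopGt D.fx g :=
  fun x hx hh => h (-x) ((Sit_memV D x).1 hx) hh

private theorem Sit_Tg (D : Cfg) (g : ℤ) (h : (Tg D g).Nonempty) : (Tg D.fx g).Nonempty := by
  obtain ⟨x, hx⟩ := h
  unfold Tg at hx ⊢
  rw [Finset.mem_filter] at hx
  refine ⟨-x, ?_⟩
  rw [Finset.mem_filter, Sit_memV, Sit_vhi, Sit_vlo, neg_neg]
  exact hx

private theorem Sit_Sit (hSymZ : StSymZ) (hIHs : StIHs) (s : Bool) (D : Cfg) (g : ℤ) (h : Sit s D g) :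
    Sit (!s) D.fx g where
  ok := qCFx D h.ok
  ih := hIHs.2.1 D h.ih
  irr := Sit_Irr D h.irr
  hg := h.hg
  hT := Sit_TopGe D g h.hT
  ht := Sit_Tg D g h.ht
  lo := by
    intro z hz
    rw [Sit_EL hSymZ, Finset.mem_image] at hz
    obtain ⟨w, hw, rfl⟩ := hz
    rw [Sit_vloD]
    exact h.lo w hw

private theorem Sit_TowL (D : Cfg) (g : ℤ) (w : Hole) : TowL D.fx g w.fx ↔ TowR D g w := by
  unfold TowL TowR
  have e : w.fx.xD = -w.xD := rfl
  constructor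
  · intro h x hx h1 h2 h3
    refine h (-x) ((Sit_memV D (-x)).2 (by rw [neg_neg]; exact hx)) (by omega) ?_ ?_
    · rw [Sit_vlo, neg_neg]; exact h2
    · rw [Sit_vloD, Sit_vhi, neg_neg]; exact h3
  · intro h x hx h1 h2 h3
    rw [Sit_vloD] at h3
    exact h (-x) ((Sit_memV D x).1 hx) (by omega) h2 h3

private theorem Sit_TowR (D : Cfg) (g : ℤ) (w : Hole) : TowR D.fx g w.fx ↔ TowL D g w := by
  unfold TowL TowR
  have e : w.fx.xD = -w.xD := rfl
  constructor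
  · intro h x hx h1 h2 h3
    refine h (-x) ((Sit_memV D (-x)).2 (by rw [neg_neg]; exact hx)) (by omega) ?_ ?_
    · rw [Sit_vlo, neg_neg]; exact h2
    · rw [Sit_vloD, Sit_vhi, neg_neg]; exact h3
  · intro h x hx h1 h2 h3
    rw [Sit_vloD] at h3
    exact h (-x) ((Sit_memV D x).1 hx) (by omega) h2 h3

private theorem Sit_BadL (D : Cfg) (w : Hole) : BadL D.fx w.fx ↔ BadR D w := by
  unfold BadL BadR
  rw [Sit_vloD, Sit_eH]
  have e : (D.fx.hlo (D.vlo w.xD) = D.fx.X0) ↔ (D.hhi (D.vlo w.xD) = D.X1) := by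
    simp only [Cfg.fx]; omega
  rw [e]
  exact Iff.rfl

private theorem Sit_BadR (D : Cfg) (w : Hole) : BadR D.fx w.fx ↔ BadL D w := by
  unfold BadL BadR
  rw [Sit_vloD, Sit_eH]
  have e : (D.fx.hhi (D.vlo w.xD) = D.fx.X1) ↔ (D.hlo (D.vlo w.xD) = D.X0) := by
    simp only [Cfg.fx]; omega
  rw [e]
  exact Iff.rfl

private theorem Sit_EC1 (hSymZ : StSymZ) (D : Cfg) (g : ℤ) (w : Hole) (h : EC D g w) : EC D.fx g w.fx where
  hw := (Sit_memZ D w).2 h.hw
  hU := by rw [Sit_vhiU]; exact h.hU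
  ic := (hSymZ.2.2 true D w).2.1.2 h.ic
  hp := h.hp
  hlo := by rw [Sit_vloD]; exact h.hlo
  hlt := by rw [Sit_y1]; exact h.hlt
  hT := Sit_TopGt D g h.hT

private theorem Sit_EC (hSymZ : StSymZ) (D : Cfg) (g : ℤ) (w : Hole) : EC D.fx g w.fx ↔ EC D g w := by
  constructor
  · intro h
    have h2 := Sit_EC1 hSymZ D.fx g w.fx h
    rw [Sit_fx_fx, (qEq.1 D).2.1] at h2
    exact h2
  · exact Sit_EC1 hSymZ D g w

theorem pSit (hSymZ : StSymZ) (hIHs : StIHs) : StSit := by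
  refine ⟨Sit_Sit hSymZ hIHs, fun s D g => ⟨Sit_EL hSymZ s D g, Sit_MM hSymZ s D g, Sit_QQ hSymZ D g, ?_, ?_⟩,
    fun D g w => ⟨Sit_TowL D g w, Sit_TowR D g w, Sit_BadL D w, Sit_BadR D w, Sit_EC hSymZ D g w⟩,
    fun D c => ⟨Sit_eH D c, Sit_wH D c, Sit_eV D c, Sit_gn D c⟩⟩
  · rw [Sit_MM hSymZ s D g, Finset.card_image_of_injective _ Sit_fx_inj]
  · rw [Sit_QQ hSymZ D g, Finset.card_image_of_injective _ Sit_fx_inj]

end Pool.RC
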