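import Pool.Agent.RC.St3
import Pool.Agent.RB.M_ExT
import Pool.Agent.RB.M_FE

namespace Pool.RC

open Pool.RB

/-- the rest of the induction step once the setting `Sit` holds -/
private theorem StC_sit (hSit : StSit) (hIHs : StIHs) (hK4 : StK4) (hK1 : StK1) (hML : StML)
    (s : Bool) (D : Cfg) (g : ℤ) (hs : Sit s D g) : P s D := by
  classical
  by_cases hE : EL s D g = ∅
  · refine hK4 s D g hs ?_
    intro z hz
    rw [hE] at hz
    exact absurd hz (Finset.notMem_empty z)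
  · have hne : (EL s D g).Nonempty := Finset.nonempty_iff_ne_empty.mpr hE
    obtain ⟨w, hw, hmin⟩ := Finset.exists_min_image (EL s D g) (fun z => D.vlo z.xD) hne
    by_cases hc : wH D (D.vlo w.xD) = 0 ∨ 1 ≤ eH D (D.vlo w.xD)
    · exact hK1 s D g w hs hw hmin hc
    · push Not at hc
      obtain ⟨hc1, hc2⟩ := hc
      have heH : eH D (D.vlo w.xD) = 0 := by omega
      have hwZ : w ∈ D.Z := by
        unfold EL at hw
        exact (Finset.mem_filter.mp hw).1
      have hpH : D.vlo w.xD ∈ D.H := by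
        rcases hs.ok.ok.vlo_end w.xD (hs.ok.ok.z w hwZ).hD with h | h
        · exact absurd h (hs.lo w hw)
        · exact h.1
      by_cases hL : D.hlo (D.vlo w.xD) = D.X0
      · exact hML s D g w hs hw hmin ⟨hpH, heH, hL⟩
      · have hR : D.hhi (D.vlo w.xD) = D.X1 := by
          by_contra hR
          apply hc1
          unfold wH
          rw [if_neg hL, if_neg hR]
        have hB : BadR D w := ⟨hpH, heH, hR⟩
        have hs' : Sit (!s) D.fx g := hSit.1 s D g hs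
        have hEL : EL (!s) D.fx g = (EL s D g).image Hole.fx := (hSit.2.1 s D g).1
        have hw' : w.fx ∈ EL (!s) D.fx g := by
          rw [hEL]
          exact Finset.mem_image_of_mem _ hw
        have hvl : ∀ z : Hole, D.fx.vlo z.fx.xD = D.vlo z.xD := by
          intro z
          show D.vlo (-(-z.xD)) = D.vlo z.xD
          rw [neg_neg]
        have hmin' : ∀ z ∈ EL (!s) D.fx g, D.fx.vlo w.fx.xD ≤ D.fx.vlo z.xD := by
          intro z hz
          rw [hEL] at hz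
          obtain ⟨z0, hz0, rfl⟩ := Finset.mem_image.mp hz
          rw [hvl, hvl]
          exact hmin z0 hz0
        have hB' : BadL D.fx w.fx := ((hSit.2.2.1 D g w).2.2.1).mpr hB
        exact (hIHs.2.2 s D).mp (hML (!s) D.fx g w.fx hs' hw' hmin' hB')

theorem pStC (hBaseC : StBaseC) (hMFH : StMFH) (hMFV : StMFV) (hSit : StSit) (hIHs : StIHs) (hIc : StIc)
    (hK4 : StK4) (hK1 : StK1) (hML : StML) : StStC := by
  classical
  intro s D hok hih
  by_cases hfh : ∃ c ∈ D.H, D.hlo c = D.X0 ∧ D.hhi c = D.X1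
  · obtain ⟨c, hc, h1, h2⟩ := hfh
    exact hMFH s D c hok hih hc h1 h2
  by_cases hfv : ∃ x ∈ D.V, D.vlo x = D.Y0 ∧ D.vhi x = D.Y1
  · obtain ⟨x, hx, h1, h2⟩ := hfv
    exact hMFV s D x hok hih hx h1 h2
  have hirr : Irr D := ⟨fun y hy h => hfh ⟨y, hy, h⟩, fun x hx h => hfv ⟨x, hx, h⟩⟩
  by_cases hem : D.V.Nonempty ∨ D.H.Nonempty
  swap
  · push Not at hem
    exact hBaseC s D hok hem.1 hem.2
  obtain ⟨x0, hx0, hx0t⟩ := (pExT pFE) D hok.ok hem hirr.1
  obtain ⟨x, hx, hmin⟩ := Finset.exists_min_image (D.V.filter (fun x => D.vhi x = D.Y1)) (fun x => D.vlo x)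
    ⟨x0, Finset.mem_filter.mpr ⟨hx0, hx0t⟩⟩
  obtain ⟨hxV, hxT⟩ := Finset.mem_filter.mp hx
  have hg0 : D.vlo x ≠ D.Y0 := fun h => hirr.2 x hxV ⟨h, hxT⟩
  have hgH : D.vlo x ∈ D.H := by
    rcases hok.ok.vlo_end x hxV with h | h
    · exact absurd h hg0
    · exact h.1
  have hT : TopGe D (D.vlo x) := fun y hy hyt => hmin y (Finset.mem_filter.mpr ⟨hy, hyt⟩)
  have hTg : (Tg D (D.vlo x)).Nonempty := ⟨x, Finset.mem_filter.mpr ⟨hxV, hxT, rfl⟩⟩
  by_cases hlo : ∃ z ∈ EL s D (D.vlo x), D.vlo z.xD = D.Y0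
  · obtain ⟨z, hz, hz0⟩ := hlo
    unfold EL at hz
    obtain ⟨hzZ, hz1, hz2, hz3, hz4⟩ := Finset.mem_filter.mp hz
    exact hIc s D z hok hih hirr hzZ hz1 hz2 hz3 hz0
  · push Not at hlo
    exact StC_sit hSit hIHs hK4 hK1 hML s D (D.vlo x) ⟨hok, hih, hirr, hgH, hT, hTg, hlo⟩

end Pool.RC
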