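import Pool.Agent.RC.Main1

/-! MP_c6e2b4_co, project RC, module Str: the strip lemma. -/

namespace Pool.RC

open Pool.RB

theorem pStr : StStr := by
  intro D w hD hw hU hic y hy h1 h2 h3
  have hHB : HB D w := qHB D hD.ok w hw
  have hO : HoleOk D w := hD.ok.z w hw
  have hxU := hD.ok.v w.xU hO.hU
  -- strong induction
  suffices H : ∀ n : ℕ, ∀ y ∈ D.H, (y - w.y2).toNat = n → w.y2 < y → D.hlo y < w.x2 →
      w.x1 < D.hhi y → False from H _ y hy rfl h1 h2 h3
  intro n
  induction n using Nat.strong_induction_on with
  | _ n ih =>
    intro y hy hn h1 h2 h3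
    have hyv := hD.ok.h y hy
    -- descend along a vertical piece strictly inside the strip
    have desc : ∀ x ∈ D.V, w.x1 < x → x < w.x2 → D.vlo x < y → y < D.vhi x → False := by
      intro x hx hx1 hx2 hlo hhi
      have hgt : w.y2 < D.vlo x := by
        by_contra hcon
        have hy12 := hHB.y12
        exact hD.cV w hw x hx hx1 hx2 (by omega) (by omega)
      rcases hD.ok.vlo_end x hx with h | ⟨hH, ha, hb⟩
      · have := hHB.Y0lt
        have := hHB.y12
        omega
      · exact ih (D.vlo x - w.y2).toNat (by omega) (D.vlo x) hH rfl hgt (by omega) (by omega)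
    have hvlo : D.vlo w.xU < y := by
      rw [hO.eU]
      have := hHB.y12
      omega
    have hvhi : y < D.vhi w.xU := by rw [hU]; exact hyv.2.1
    have hnc := fun a b => hD.ok.nc w.xU hO.hU y hy hvlo hvhi a b
    rcases hO.chir with ⟨hAy, hAx⟩ | ⟨hBy, hBx⟩
    · -- type A
      have ex1 : w.x1 = w.xU := min_eq_left (le_of_lt hAx)
      have ex2 : w.x2 = w.xD := max_eq_right (le_of_lt hAx)
      have ey2 : w.y2 = w.yR := max_eq_right (le_of_lt hAy)
      rw [ex1] at h3
      have hge : w.xU ≤ D.hlo y := by
        by_contra hcon
        exact hnc (by omega) (by omega)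
      rcases eq_or_lt_of_le hge with he | hlt
      · -- a T-end on the inner side, or owned
        have hemp := hic.1 hAx
        have hnot : y ∉ eRt D w.xU := by rw [hemp]; simp
        have hex : ∃ z ∈ D.Z, z.yR = y := by
          by_contra hcon
          apply hnot
          unfold eRt
          rw [Finset.mem_filter]
          refine ⟨hy, he.symm, ?_⟩
          intro z hz hzy
          exact hcon ⟨z, hz, hzy⟩
        obtain ⟨z, hz, hzy⟩ := hex
        have hOz : HoleOk D z := hD.ok.z z hz
        have hzx : z.x1 = w.xU := by
          rw [← hOz.eR, hzy, ← he]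
        rcases hOz.chir with ⟨_, hzx'⟩ | ⟨_, hzx'⟩
        · have e1 : z.x1 = z.xU := min_eq_left (le_of_lt hzx')
          have hzw : z = w := (qHU D hD.ok z hz w hw).2.2.1 (by rw [← e1, hzx])
          rw [hzw] at hzy
          omega
        · have e1 : z.x1 = z.xD := min_eq_right (le_of_lt hzx')
          have e2 : z.xD = w.xU := by rw [← e1, hzx]
          have e3 := hOz.eD
          rw [e2, hU] at e3
          have := (qHB D hD.ok z hz).ltY1
          omega
      · rcases hD.ok.hlo_end y hy with h | ⟨hV, ha, hb⟩
        · omega
        · exact desc (D.hlo y) hV (by omega) h2 ha hb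
    · -- type B
      have ex1 : w.x1 = w.xD := min_eq_right (le_of_lt hBx)
      have ex2 : w.x2 = w.xU := max_eq_left (le_of_lt hBx)
      have ey2 : w.y2 = w.yL := max_eq_left (le_of_lt hBy)
      rw [ex2] at h2
      have hle : D.hhi y ≤ w.xU := by
        by_contra hcon
        exact hnc (by omega) (by omega)
      rcases eq_or_lt_of_le hle with he | hlt
      · have hemp := hic.2 hBx
        have hnot : y ∉ eLf D w.xU := by rw [hemp]; simp
        have hex : ∃ z ∈ D.Z, z.yL = y := by
          by_contra hcon
          apply hnot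
          unfold eLf
          rw [Finset.mem_filter]
          refine ⟨hy, he, ?_⟩
          intro z hz hzy
          exact hcon ⟨z, hz, hzy⟩
        obtain ⟨z, hz, hzy⟩ := hex
        have hOz : HoleOk D z := hD.ok.z z hz
        have hzx : z.x2 = w.xU := by
          rw [← hOz.eL, hzy, he]
        rcases hOz.chir with ⟨_, hzx'⟩ | ⟨_, hzx'⟩
        · have e1 : z.x2 = z.xD := max_eq_right (le_of_lt hzx')
          have e2 : z.xD = w.xU := by rw [← e1, hzx]
          have e3 := hOz.eD
          rw [e2, hU] at e3
          have := (qHB D hD.ok z hz).ltY1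
          omega
        · have e1 : z.x2 = z.xU := max_eq_left (le_of_lt hzx')
          have hzw : z = w := (qHU D hD.ok z hz w hw).2.2.1 (by rw [← e1, hzx])
          rw [hzw] at hzy
          omega
      · rcases hD.ok.hhi_end y hy with h | ⟨hV, ha, hb⟩
        · omega
        · exact desc (D.hhi y) hV h3 (by omega) ha hb

end Pool.RC
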