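import Pool.Agent.RC.Main1

/-! # Project RC, module SymZ: symmetries of the potential -/

set_option autoImplicit false

namespace Pool.RC

open Pool.RB

private theorem SymZ_fx_inj : Function.Injective Hole.fx := by
  intro a b h
  cases a
  cases b
  simp only [Hole.fx, Hole.mk.injEq] at h ⊢
  omega

private theorem SymZ_tr_inj : Function.Injective Hole.tr := by
  intro a b h
  cases a
  cases b
  simp only [Hole.tr, Hole.mk.injEq] at h ⊢
  omega

private theorem SymZ_card (f : Hole → Hole) (hf : Function.Injective f) (Z : Finset Hole) (p q : Hole → Prop)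
    [DecidablePred p] [DecidablePred q] (h : ∀ z, p (f z) ↔ q z) :
    ((Z.image f).filter p).card = (Z.filter q).card := by
  rw [Finset.filter_image, Finset.card_image_of_injective _ hf]
  apply congrArg Finset.card
  exact Finset.filter_congr (fun z _ => h z)

private theorem SymZ_emp {A B : Finset ℤ} (h : A.card = B.card) : A = ∅ ↔ B = ∅ := by
  rw [← Finset.card_eq_zero, ← Finset.card_eq_zero, h]

private theorem SymZ_LC (D : Cfg) (z : Hole) : LC D.fx z.fx ↔ LC D z := by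
  unfold LC
  simp only [Cfg.fx, Hole.fx]
  omega

private theorem SymZ_icL (D : Cfg) (z : Hole) : icL D.fx z.fx ↔ icR D z := by
  have h := qI7.2 D z.yR
  have e1 := SymZ_emp h.2.2.2.2.2.2.2.2.1
  have e2 := SymZ_emp h.2.2.2.2.2.2.2.2.2.1
  unfold icL icR
  show (z.yR < z.yL → eUp D.fx z.yR = ∅) ∧ (z.yL < z.yR → eDn D.fx z.yR = ∅) ↔ _
  rw [e1, e2]
  exact and_comm

private theorem SymZ_icR (D : Cfg) (z : Hole) : icR D.fx z.fx ↔ icL D z := by
  have h := qI7.2 D z.yL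
  have e1 := SymZ_emp h.2.2.2.2.2.2.2.2.1
  have e2 := SymZ_emp h.2.2.2.2.2.2.2.2.2.1
  unfold icL icR
  show (z.yR < z.yL → eDn D.fx z.yL = ∅) ∧ (z.yL < z.yR → eUp D.fx z.yL = ∅) ↔ _
  rw [e1, e2]
  exact and_comm

private theorem SymZ_LI (s : Bool) (D : Cfg) (z : Hole) : LI (!s) D.fx z.fx ↔ LI s D z := by
  unfold LI
  cases s
  · simp only [Bool.not_false, if_true, SymZ_LC, SymZ_icL, Bool.false_eq_true, if_false]
  · simp only [Bool.not_true, if_true, SymZ_LC, SymZ_icR, Bool.false_eq_true, if_false]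

private theorem SymZ_icU (D : Cfg) (z : Hole) : icU D.fx z.fx ↔ icU D z := by
  have h := qI7.2 D z.xU
  have e1 := SymZ_emp h.2.2.2.2.2.2.2.2.2.2.1
  have e2 := SymZ_emp h.2.2.2.2.2.2.2.2.2.2.2
  unfold icU
  show (-z.xU < -z.xD → eRt D.fx (-z.xU) = ∅) ∧ (-z.xD < -z.xU → eLf D.fx (-z.xU) = ∅) ↔ _
  rw [e1, e2, neg_lt_neg_iff, neg_lt_neg_iff]
  exact and_comm

private theorem SymZ_VC (D : Cfg) (z : Hole) : VC D.fx z.fx ↔ VC D z := by
  unfold VC
  simp only [Cfg.fx, Hole.fx, neg_neg]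

private theorem SymZ_LIt (G : Cfg) (y : Hole) : LI false G.tr y.tr ↔ VC G y ∧ icU G y := by
  have h1 := (qI6.2 G y.xU).2.2.2.2.2.2.2.2.1
  have h2 := (qI6.2 G y.xU).2.2.2.2.2.2.2.2.2.1
  unfold LI
  rw [if_neg (by simp)]
  unfold LC VC icR icU
  show (G.vlo y.xD = G.Y0 ∧ G.vhi y.xU = G.Y1) ∧
    ((y.xD < y.xU → eDn G.tr y.xU = ∅) ∧ (y.xU < y.xD → eUp G.tr y.xU = ∅)) ↔ _
  rw [h1, h2]
  constructor
  · rintro ⟨a, b, c⟩
    exact ⟨a, c, b⟩
  · rintro ⟨a, b, c⟩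
    exact ⟨a, c, b⟩

private theorem SymZ_uH (s : Bool) (D : Cfg) : uH (!s) D.fx = uH s D := by
  classical
  unfold uH
  exact SymZ_card Hole.fx SymZ_fx_inj D.Z _ _ (fun z => SymZ_LI s D z)

private theorem SymZ_uHt (G : Cfg) : uH false G.tr = uV G := by
  classical
  unfold uH uV
  exact SymZ_card Hole.tr SymZ_tr_inj G.Z _ _ (fun z => SymZ_LIt G z)

private theorem SymZ_uV (D : Cfg) : uV D.fx = uV D := by
  classical
  unfold uV
  exact SymZ_card Hole.fx SymZ_fx_inj D.Z _ _ (fun z => by rw [SymZ_VC, SymZ_icU])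

theorem pSymZ : StSymZ := by
  refine ⟨fun s D => ⟨?_, ?_, ?_⟩, fun E => ⟨?_, ?_, ?_, ?_⟩, fun s D z => ⟨SymZ_LI s D z, SymZ_icU D z, SymZ_VC D z⟩⟩
  · obtain ⟨h1, h2, h3, h4, h5, h6, h7⟩ := qI7.1 D
    have h8 := (qSzA.2.2.2 D).2.1
    unfold U
    rw [h1, h2, h3, h4, h7, h8]
    omega
  · obtain ⟨h1, h2, h3, h4, h5, h6, h7⟩ := qI7.1 D
    unfold KB
    rw [h2, h5, SymZ_uH]
  · obtain ⟨h1, h2, h3, h4, h5, h6, h7⟩ := qI6.1 D
    have h8 := (qSzA.2.2.2 D).1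
    unfold U
    rw [h1, h2, h3, h4, h7, h8]
    omega
  · obtain ⟨-, a2, -, -, a5, -, -⟩ := qI7.1 E.fx.tr
    obtain ⟨-, b2, -, -, b5, -, -⟩ := qI6.1 E.fx
    obtain ⟨-, -, c3, -, -, c6, -⟩ := qI7.1 E
    have d := SymZ_uH false E.fx.tr
    rw [Bool.not_false] at d
    unfold KB KR
    rw [a2, b2, c3, a5, b5, c6, d, SymZ_uHt, SymZ_uV]
  · obtain ⟨-, a2, -, -, a5, -, -⟩ := qI7.1 E.tr
    obtain ⟨-, b2, -, -, b5, -, -⟩ := qI6.1 E
    have d := SymZ_uH false E.tr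
    rw [Bool.not_false] at d
    unfold KB KL
    rw [a2, b2, a5, b5, d, SymZ_uHt]
  · obtain ⟨h1, h2, h3, h4, h5, h6, h7⟩ := qI7.1 E
    unfold KR KL
    rw [h4, h6, SymZ_uV]
  · obtain ⟨h1, h2, h3, h4, h5, h6, h7⟩ := qI7.1 E
    unfold KR KL
    rw [h3, h6, SymZ_uV]

end Pool.RC
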