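import Pool.Agent.RC.St3
import Pool.Agent.RC.Main1
import Pool.Agent.RB.Main

/-!
# Project RC (MP_c6e2b4_co), module T1
-/

set_option autoImplicit false

namespace Pool.RC

open Pool.RB

private lemma T1_one (s : Bool) (D : Cfg) (g : ℤ) (hS : Sit s D g) :
    ∀ w ∈ EL s D g, ∀ w' ∈ EL s D g,
      (TowL D g w → TowL D g w' → w = w') ∧ (TowR D g w → TowR D g w' → w = w') := by
  intro w hw w' hw'
  have hok := hS.ok.ok
  have h1 := hw
  have h2 := hw'
  simp only [EL, Finset.mem_filter] at h1 h2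
  have k1 := hok.z w h1.1
  have k2 := hok.z w' h2.1
  have hb1 := qHB D hok w h1.1
  have hb2 := qHB D hok w' h2.1
  have hy1 : g < D.vhi w.xD := by
    have := hS.hT w.xU k1.hU h1.2.1
    rw [k1.eU] at this
    rw [k1.eD]; have := hb1.y12; omega
  have hy2 : g < D.vhi w'.xD := by
    have := hS.hT w'.xU k2.hU h2.2.1
    rw [k2.eU] at this
    rw [k2.eD]; have := hb2.y12; omega
  have e1 : D.vlo w.xD < g := h1.2.2.2.2
  have e2 : D.vlo w'.xD < g := h2.2.2.2.2
  constructor
  · intro t1 t2
    rcases lt_trichotomy w.xD w'.xD with h | h | h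
    · exact (t2 w.xD k1.hD h e1 (by omega)).elim
    · exact (qHU D hok w h1.1 w' h2.1).2.2.2 h
    · exact (t1 w'.xD k2.hD h e2 (by omega)).elim
  · intro t1 t2
    rcases lt_trichotomy w.xD w'.xD with h | h | h
    · exact (t1 w'.xD k2.hD h e2 (by omega)).elim
    · exact (qHU D hok w h1.1 w' h2.1).2.2.2 h
    · exact (t2 w.xD k1.hD h e1 (by omega)).elim

theorem pT1 (hSit : StSit) : StT1 := by
  intro s D g hS
  refine ⟨T1_one s D g hS, ?_, ?_⟩
  · intro hA
    classical
    have hsub : EL s D g ⊆ (EL s D g).filter (fun z => TowL D g z) ∪ (EL s D g).filter (fun z => TowR D g z) := by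
      intro z hz
      rw [Finset.mem_union, Finset.mem_filter, Finset.mem_filter]
      rcases hA z hz with h | h
      · exact Or.inl ⟨hz, h.2⟩
      · exact Or.inr ⟨hz, h.2⟩
    have c1 : ((EL s D g).filter (fun z => TowL D g z)).card ≤ 1 := by
      rw [Finset.card_le_one]
      intro a ha b hb
      rw [Finset.mem_filter] at ha hb
      exact (T1_one s D g hS a ha.1 b hb.1).1 ha.2 hb.2
    have c2 : ((EL s D g).filter (fun z => TowR D g z)).card ≤ 1 := by
      rw [Finset.card_le_one]
      intro a ha b hb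
      rw [Finset.mem_filter] at ha hb
      exact (T1_one s D g hS a ha.1 b hb.1).2 ha.2 hb.2
    have := Finset.card_le_card hsub
    have := Finset.card_union_le ((EL s D g).filter (fun z => TowL D g z)) ((EL s D g).filter (fun z => TowR D g z))
    omega
  · intro hA z hz
    rw [(hSit.2.1 s D g).1, Finset.mem_image] at hz
    obtain ⟨w, hw, rfl⟩ := hz
    have h3 := hSit.2.2.1 D g w
    rcases hA w hw with h | h
    · exact Or.inr ⟨h3.2.2.2.1.2 h.1, h3.2.1.2 h.2⟩
    · exact Or.inl ⟨h3.2.2.1.2 h.1, h3.1.2 h.2⟩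

end Pool.RC
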