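import Pool.Agent.RC.St3
import Pool.Agent.RC.Main1
import Pool.Agent.RB.Main

/-!
# Project RC (MP_c6e2b4_co), module T2
-/

set_option autoImplicit false

namespace Pool.RC

open Pool.RB

theorem pT2 : StT2 := by
  intro s D g w x hS hw hx hxg hA hlo
  have hok := hS.ok.ok
  have h1 := hw
  simp only [EL, Finset.mem_filter] at h1
  have k1 := hok.z w h1.1
  have k2 := hok.z x hx
  have v1 := hok.v _ k1.hD
  have v2 := hok.v _ k2.hD
  have hb1 := qHB D hok w h1.1
  have hb2 := qHB D hok x hx
  have hy : g ≤ w.y1 := by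
    have := hS.hT w.xU k1.hU h1.2.1
    rwa [k1.eU] at this
  have hyy : w.y1 < D.vhi w.xD := by
    rw [k1.eD]; exact hb1.y12
  have hxx : x.xU < x.xD := by
    rcases k2.chir with h | h
    · exact h.2
    · omega
  have hx1 : x.y1 = g := by
    unfold Hole.y1; rw [min_eq_left (le_of_lt hA)]; exact hxg
  have hx2 : x.x2 = x.xD := by
    unfold Hole.x2; exact max_eq_right (le_of_lt hxx)
  have hhi : D.hhi g = x.xD := by rw [← hxg, k2.eL, hx2]
  have hlx : D.vlo x.xD < g := by have := hb2.loD; omega
  have hux : g < D.vhi x.xD := by rw [k2.eD, ← hx1]; exact hb2.y12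
  have hgw : D.vlo w.xD < g := h1.2.2.2.2
  have hnc : ¬ (w.xD < x.xD) := by
    intro h
    exact hok.nc w.xD k1.hD g hS.hg hgw (by omega) (by omega) (by omega)
  constructor
  · intro hT
    have h2 : ¬ (x.xD < w.xD) := fun h => hT x.xD k2.hD h hlx (by omega)
    have h3 : w.xD = x.xD := by omega
    exact (qHU D hok w h1.1 x hx).2.2.2 h3
  · intro hT hne
    rcases lt_trichotomy w.xD x.xD with h | h | h
    · exact absurd h hnc
    · exact absurd ((qHU D hok w h1.1 x hx).2.2.2 h) hne
    · exact h

end Pool.RC
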