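import Pool.Agent.RC.St3
import Pool.Agent.RC.Main1
import Pool.Agent.RB.Main

/-! RC module Te. -/

namespace Pool.RC

open Pool.RB

theorem pTe : StTe := by
  intro D u c hD hu
  refine ⟨?_, ?_, ?_⟩
  · intro huc hc
    constructor
    · intro y hy
      obtain ⟨hyH, hlo, hown⟩ := Finset.mem_filter.1 hy
      refine Finset.mem_filter.2 ⟨Finset.mem_filter.2 ⟨hyH, ?_, ?_⟩, hlo, ?_⟩
      · omega
      · intro z hz _ _
        exact hown z hz
      · intro z hz
        exact hown z (Finset.mem_filter.1 hz).1
    · intro y hy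
      obtain ⟨hyH, hhi, hown⟩ := Finset.mem_filter.1 hy
      have hyh := hD.ok.h y hyH
      refine Finset.mem_filter.2 ⟨Finset.mem_filter.2 ⟨hyH, ?_, ?_⟩, ?_, ?_⟩
      · omega
      · intro z hz h1 h2 he
        have hb := (Pool.RB.qHB D hD.ok z hz).hiR
        rw [he] at hb
        omega
      · change min (D.hhi y) c = u
        omega
      · intro z hz
        exact hown z (Finset.mem_filter.1 hz).1
  · intro hc hcu
    constructor
    · intro y hy
      obtain ⟨hyH, hlo, hown⟩ := Finset.mem_filter.1 hy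
      have hyh := hD.ok.h y hyH
      refine Finset.mem_filter.2 ⟨Finset.mem_filter.2 ⟨hyH, ?_, ?_⟩, ?_, ?_⟩
      · omega
      · intro z hz h1 h2 he
        have hb := (Pool.RB.qHB D hD.ok z hz).loL
        rw [he] at hb
        omega
      · change max (D.hlo y) c = u
        omega
      · intro z hz
        exact hown z (Finset.mem_filter.1 hz).1
    · intro y hy
      obtain ⟨hyH, hhi, hown⟩ := Finset.mem_filter.1 hy
      refine Finset.mem_filter.2 ⟨Finset.mem_filter.2 ⟨hyH, ?_, ?_⟩, hhi, ?_⟩
      · omega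
      · intro z hz _ _
        exact hown z hz
      · intro z hz
        exact hown z (Finset.mem_filter.1 hz).1
  · intro y hcy
    constructor
    · intro hy
      obtain ⟨hyH, hlo, hown⟩ := Finset.mem_filter.1 hy
      refine Finset.mem_filter.2 ⟨Finset.mem_filter.2 ⟨hyH, hcy⟩, hlo, ?_⟩
      intro z hz
      exact hown z (Finset.mem_filter.1 hz).1
    · intro hy
      obtain ⟨hyH, hlo, hown⟩ := Finset.mem_filter.1 hy
      refine Finset.mem_filter.2 ⟨Finset.mem_filter.2 ⟨hyH, hcy⟩, hlo, ?_⟩
      intro z hz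
      exact hown z (Finset.mem_filter.1 hz).1

end Pool.RC
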