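import Pool.Agent.RC.St3
import Pool.Agent.RB.M_HB

/-! # Project RC, module Tow -/

set_option autoImplicit false

namespace Pool.RC

open Pool.RB

theorem pTow (hBadS : StBadS) (hCl : StCl) : StTow := by
  intro s D g w hS hw
  classical
  unfold EL at hw
  rw [Finset.mem_filter] at hw
  obtain ⟨hwZ, hU, hic, hnLI, hlt⟩ := hw
  have hok := hS.ok
  have ho := hok.ok.z w hwZ
  have hb := pHB D hok.ok w hwZ
  have hxD : w.xD ∈ D.V := ho.hD
  have hgy : g ≤ D.vhi w.xD := by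
    have h1 := hS.hT w.xU ho.hU hU
    rw [ho.eU] at h1
    rw [ho.eD]
    exact le_trans h1 hb.y12.le
  obtain ⟨hBL, hBR⟩ := hBadS D w hok hwZ
  refine ⟨fun h => ?_, fun h => ?_⟩
  · obtain ⟨-, hun, -⟩ := hBL h
    obtain ⟨hα, -, hlo⟩ := h
    by_cases hex : ∃ c ∈ D.H, D.vlo w.xD < c ∧ c < g ∧ D.hlo c = D.X0 ∧ D.hhi c = w.xD ∧
        ∃ x ∈ D.V, x < w.xD ∧ D.vlo x = c
    · exact Or.inr hex
    · left
      intro x hx hxw hxg hxα
      refine (hCl D w.xD (D.vlo w.xD) g hok hxD hα le_rfl hgy).1 hlo ?_ ?_ ?_ x hx hxw hxg hxα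
      · rcases hok.ok.vlo_end w.xD hxD with h0 | ⟨-, -, h3⟩
        · have := (hok.ok.h _ hα).1
          omega
        · exact h3.le
      · intro x' hx' hlt' he
        exact absurd (hun x' hx' he) (ne_of_lt hlt')
      · intro c hc h1 h2 h3 h4 x' hx' h5 h6
        exact hex ⟨c, hc, h1, h2, h3, h4, x', hx', h5, h6⟩
  · obtain ⟨-, hun, -⟩ := hBR h
    obtain ⟨hα, -, hhi⟩ := h
    by_cases hex : ∃ c ∈ D.H, D.vlo w.xD < c ∧ c < g ∧ D.hhi c = D.X1 ∧ D.hlo c = w.xD ∧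
        ∃ x ∈ D.V, w.xD < x ∧ D.vlo x = c
    · exact Or.inr hex
    · left
      intro x hx hxw hxg hxα
      refine (hCl D w.xD (D.vlo w.xD) g hok hxD hα le_rfl hgy).2 hhi ?_ ?_ ?_ x hx hxw hxg hxα
      · rcases hok.ok.vlo_end w.xD hxD with h0 | ⟨-, h2, -⟩
        · have := (hok.ok.h _ hα).1
          omega
        · exact h2.le
      · intro x' hx' hlt' he
        exact absurd (hun x' hx' he) (ne_of_gt hlt')
      · intro c hc h1 h2 h3 h4 x' hx' h5 h6
        exact hex ⟨c, hc, h1, h2, h3, h4, x', hx', h5, h6⟩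

end Pool.RC
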