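import Pool.Agent.RC.St3
import Pool.Agent.RC.Main1

/-! Project RC, module UVB. -/

namespace Pool.RC

open Pool.RB

theorem pUVB : StUVB := by
  classical
  intro D hD
  unfold uV WB
  refine Finset.card_le_card_of_injOn (fun z => z.xD) ?_ ?_
  · intro z hz
    rw [Finset.mem_coe, Finset.mem_filter] at hz
    rw [Finset.mem_coe, Finset.mem_filter]
    exact ⟨(hD.ok.z z hz.1).hD, hz.2.1.1⟩
  · intro z hz w hw h
    rw [Finset.mem_coe, Finset.mem_filter] at hz hw
    exact (qHU D hD.ok z hz.1 w hw.1).2.2.2 h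

end Pool.RC
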