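import Pool.Agent.RC.St2
import Pool.Agent.RB.M_HB

/-!
# RC module UVp: counted holes of the two parts of a vertical cut
-/

namespace Pool.RC

open Pool.RB

open Classical in
private lemma UVp_main (hIC : StIC) (E : Cfg) (x : ℤ) (hE : OkC E) (hx : x ∈ E.V) (S : Finset Hole)
    (hS : ∀ z ∈ E.Z, VC E z → icU E z → (z.x2 < x ∨ x < z.x1) → z ∈ S) :
    uV (lfA E x) + uV (rtA E x) ≤ S.card := by
  have hv := hE.ok.v x hx
  unfold uV
  rw [← Finset.card_union_of_disjoint]
  · apply Finset.card_le_card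
    intro z hz
    rcases Finset.mem_union.mp hz with h | h
    · obtain ⟨h1, h2, h3⟩ := Finset.mem_filter.mp h
      obtain ⟨h4, h5⟩ := Finset.mem_filter.mp h1
      exact hS z h4 h2 ((hIC E z x hE h4).2.2.1 h5 hv.2.1 h3) (Or.inl h5)
    · obtain ⟨h1, h2, h3⟩ := Finset.mem_filter.mp h
      obtain ⟨h4, h5⟩ := Finset.mem_filter.mp h1
      exact hS z h4 h2 ((hIC E z x hE h4).2.2.2 hv.1 h5 h3) (Or.inr h5)
  · rw [Finset.disjoint_left]
    intro z h h'
    obtain ⟨h4, h5⟩ := Finset.mem_filter.mp (Finset.mem_filter.mp h).1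
    obtain ⟨_, h6⟩ := Finset.mem_filter.mp (Finset.mem_filter.mp h').1
    have hb := (pHB E hE.ok z h4).x12
    omega

open Classical in
theorem pUVp (hIC : StIC) : StUVp := by
  intro E x hE hx
  refine ⟨?_, ?_⟩
  · refine UVp_main hIC E x hE hx _ ?_
    intro z h1 h2 h3 _
    exact Finset.mem_filter.mpr ⟨h1, h2, h3⟩
  · intro y hy hyx h2 h3
    have hm : y ∈ E.Z.filter (fun z => VC E z ∧ icU E z) := Finset.mem_filter.mpr ⟨hy, h2, h3⟩
    have h := UVp_main hIC E x hE hx ((E.Z.filter (fun z => VC E z ∧ icU E z)).erase y) (by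
      intro z h1 h4 h5 h6
      refine Finset.mem_erase.mpr ⟨?_, Finset.mem_filter.mpr ⟨h1, h4, h5⟩⟩
      rintro rfl
      have e1 : z.x1 ≤ z.xD := min_le_right _ _
      have e2 : z.xD ≤ z.x2 := le_max_right _ _
      omega)
    rw [Finset.card_erase_of_mem hm] at h
    have hp := Finset.card_pos.mpr ⟨y, hm⟩
    unfold uV at h ⊢
    omega

end Pool.RC
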