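import Pool.Agent.RC.Main1

/-! # Project RC, module UpE -/

set_option autoImplicit false

namespace Pool.RC

open Pool.RB

theorem pUpE (hOne : StOne) (hIC : StIC) : StUpE := by
  intro D p w hC hE
  have h := hC.ok
  have hB := qHB D h w hE.hw
  have hz := h.z w hE.hw
  have hp := h.h p hE.hp
  have hv := h.v w.xD hz.hD
  have hlt := hE.hlt
  have hlo := hE.hlo
  have eD := hz.eD
  have y12 := hB.y12
  have g1 : OkC (upA D p) := qUpA D p hC hp.1 hp.2.1
  have g2 : w ∈ (upA D p).Z := by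
    simp only [upA, Finset.mem_filter]
    exact ⟨hE.hw, hlt⟩
  have g3 : w.xD ∈ (upA D p).V := by
    simp only [upA, Finset.mem_filter]
    refine ⟨hz.hD, by omega, fun z hz1 hz2 _ he => ?_⟩
    have hzw := (qHU D h z hz1 w hE.hw).2.2.2 he
    rw [hzw] at hz2
    omega
  have g4 : icU (upA D p) w := ((hIC D w p hC hE.hw).1 hp.1 hlt).mpr hE.ic
  have g5 : (upA D p).vlo w.xD = (upA D p).Y0 := by
    show max (D.vlo w.xD) p = p
    omega
  have g6 : (upA D p).vhi w.xU = (upA D p).Y1 := hE.hU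
  have g7 := hOne (upA D p) w g1 g2 g6 g4 g5
  have g8 : wV (upA D p) w.xD = 1 := by
    have h1 : ¬ (upA D p).vhi w.xD = (upA D p).Y1 := by
      show ¬ D.vhi w.xD = D.Y1
      have := hB.ltY1
      omega
    simp only [wV, if_pos g5, if_neg h1]
  exact ⟨g1, g2, g3, g4, ⟨g5, g6⟩, g7.1, g7.2, g8, hv.1, hv.2.1, hp.1, hp.2.1⟩

end Pool.RC
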