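import Pool.Agent.RC.Main1

/-! Module W of project RC: wall ends and full pieces of the two parts of a vertical cut. -/

namespace Pool.RC

open Pool.RB

theorem pW : StW := by
  intro D x hD hx
  have hE : OkC D.tr := qCTr D hD
  have hxE : x ∈ D.tr.H := hx
  obtain ⟨e1, e2, e3, e4⟩ := qEq.2.1 D x
  obtain ⟨f1, f2, f3, f4⟩ := qEq.2.1 D.tr x
  have hu : upA D.tr x = (rtA D x).tr := e3.symm
  have hd : dnA D.tr x = (lfA D x).tr := e4.symm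
  obtain ⟨a1, a2⟩ := qI3 D.tr x hE hxE
  obtain ⟨b1, b2, b3, b4, b5⟩ := qI4 D.tr x hE hxE
  rw [hu] at a1 b1 b3 b4 b5
  rw [hd] at a2 b2 b3 b4 b5
  obtain ⟨cWT, cWB, cWL, cWR, cfH, cfV, _⟩ := qI6.1 (rtA D x)
  obtain ⟨dWT, dWB, dWL, dWR, dfH, dfV, _⟩ := qI6.1 (lfA D x)
  obtain ⟨gWT, gWB, gWL, gWR, gfH, gfV, _⟩ := qI6.1 D
  obtain ⟨k1, k2, k3, k4, k5, k6, k7, k8, k9, k10, k11, k12⟩ := qI6.2 D x
  rw [cWB, k3, k1, k9] at a1
  rw [dWT, k3, k1, k10] at a2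
  rw [cWT, gWT] at b1
  rw [dWB, gWB] at b2
  rw [cWL, dWL, gWL] at b3
  rw [cWR, dWR, gWR] at b4
  rw [cfH, dfH, gfH] at b5
  refine ⟨a2, a1, b2, b1, ?_, ?_, ?_⟩
  · have : (if D.tr.hhi x = D.tr.X1 then 1 else 0) = (if D.vhi x = D.Y1 then 1 else 0) := rfl
    rw [this] at b4
    omega
  · have : (if D.tr.hlo x = D.tr.X0 then 1 else 0) = (if D.vlo x = D.Y0 then 1 else 0) := rfl
    rw [this] at b3
    omega
  · have : (if D.tr.hlo x = D.tr.X0 ∧ D.tr.hhi x = D.tr.X1 then 1 else 0)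
      = (if D.vlo x = D.Y0 ∧ D.vhi x = D.Y1 then 1 else 0) := rfl
    rw [this] at b5
    omega

end Pool.RC
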