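import Pool.Agent.RC.M_Base
import Pool.Agent.RC.St2

/-! Project RC, module ZM: `SolZ` is monotone. -/

namespace Pool.RC

open Pool.RB

/-- MODULE ZM. -/
theorem pZM : StZM := by
  intro D m n h hmn
  refine pMonoC D _ _ h ?_
  have h1 : (m : ℚ) ≤ (n : ℚ) := by exact_mod_cast hmn
  linarith

end Pool.RC
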