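import Pool.Agent.RC.Main1
import Pool.Agent.RC.St2
import Pool.Agent.RC.M_ZM
import Pool.Agent.RC.M_CH
import Pool.Agent.RC.M_CV
import Pool.Agent.RC.M_W
import Pool.Agent.RC.M_SymZ
import Pool.Agent.RC.M_IHs
import Pool.Agent.RC.M_Sit
import Pool.Agent.RC.M_Str
import Pool.Agent.RC.M_One
import Pool.Agent.RC.M_IC
import Pool.Agent.RC.M_DnK
import Pool.Agent.RC.M_Acc
import Pool.Agent.RC.M_UpE
import Pool.Agent.RC.M_Cnt
import Pool.Agent.RC.M_CntU
import Pool.Agent.RC.M_UVp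
import Pool.Agent.RC.M_Ld
import Pool.Agent.RC.M_Lv
import Pool.Agent.RC.M_Lf
import Pool.Agent.RC.M_BaseC
import Pool.Agent.RC.M_MFH
import Pool.Agent.RC.M_MFV
import Pool.Agent.RC.M_R2g
import Pool.Agent.RC.M_MR2
import Pool.Agent.RC.M_MRd
import Pool.Agent.RC.M_MRv
import Pool.Agent.RC.M_MHS
import Pool.Agent.RC.M_S1g
import Pool.Agent.RC.M_MS1
import Pool.Agent.RC.M_MSf
import Pool.Agent.RC.M_MSv
import Pool.Agent.RC.M_MI

/-!
# Project RC (MP_c6e2b4_co): assembly of part 2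
-/

namespace Pool.RC

open Pool.RB

theorem qZM : StZM := pZM
theorem qCH : StCH := pCH
theorem qCV : StCV := pCV qCH
theorem qW : StW := pW
theorem qSymZ : StSymZ := pSymZ
theorem qIHs : StIHs := pIHs qSymZ
theorem qSit : StSit := pSit qSymZ qIHs
theorem qStr : StStr := pStr
theorem qOne : StOne := pOne qStr
theorem qIC : StIC := pIC
theorem qDnK : StDnK := pDnK qIC
theorem qAcc : StAcc := pAcc
theorem qUpE : StUpE := pUpE qOne qIC
theorem qCnt : StCnt := pCnt qW qIC qUpE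
theorem qCntU : StCntU := pCntU qIC
theorem qUVp : StUVp := pUVp qIC
theorem qLd : StLd := pLd qCH qSymZ qIHs qSit
theorem qLv : StLv := pLv qCV qW qOne qSymZ qIHs qUVp
theorem qLf : StLf := pLf qCV qW qSymZ qIHs qUVp
theorem qBaseC : StBaseC := pBaseC
theorem qMFH : StMFH := pMFH qCH qIHs qIC
theorem qMFV : StMFV := pMFV qCV qW qIHs
theorem qR2g : StR2g := pR2g qZM qCH qCV qW qUpE qIHs qDnK
theorem qMR2 : StMR2 := pMR2 qR2g qIHs qCnt qAcc qUpE
theorem qMRd : StMRd := pMRd qR2g qLd qIHs qCnt qAcc qUpE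
theorem qMRv : StMRv := pMRv qR2g qLv qIHs qCnt qAcc qUpE qIC
theorem qMHS : StMHS := pMHS qZM qCH qIHs qDnK qCntU qAcc
theorem qS1g : StS1g := pS1g qZM qCH qCV qW qIHs qDnK
theorem qMS1 : StMS1 := pMS1 qS1g qW qIHs qCntU qUVp qAcc
theorem qMSf : StMSf := pMSf qS1g qLf qW qIHs qCntU qUVp qAcc
theorem qMSv : StMSv := pMSv qS1g qLv qW qIHs qCntU qUVp qAcc qIC
theorem qMI : StMI := pMI qZM qCV qW qIHs qOne qUVp qLd

end Pool.RC
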