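import Pool.Agent.RC.Main2
import Pool.Agent.RC.St3
import Pool.Agent.RC.M_Own
import Pool.Agent.RC.M_Te
import Pool.Agent.RC.M_BadS
import Pool.Agent.RC.M_Cl
import Pool.Agent.RC.M_Tow
import Pool.Agent.RC.M_MMl
import Pool.Agent.RC.M_Num
import Pool.Agent.RC.M_EC
import Pool.Agent.RC.M_Sem
import Pool.Agent.RC.M_Se2
import Pool.Agent.RC.M_QM
import Pool.Agent.RC.M_CLs
import Pool.Agent.RC.M_K1
import Pool.Agent.RC.M_F2
import Pool.Agent.RC.M_KF
import Pool.Agent.RC.M_KP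
import Pool.Agent.RC.M_K2
import Pool.Agent.RC.M_Kj
import Pool.Agent.RC.M_K3
import Pool.Agent.RC.M_T1
import Pool.Agent.RC.M_T2
import Pool.Agent.RC.M_E2
import Pool.Agent.RC.M_NumG
import Pool.Agent.RC.M_K40
import Pool.Agent.RC.M_LCx
import Pool.Agent.RC.M_Kx1
import Pool.Agent.RC.M_KA
import Pool.Agent.RC.M_KB
import Pool.Agent.RC.M_K41
import Pool.Agent.RC.M_K4
import Pool.Agent.RC.M_UVB
import Pool.Agent.RC.M_Corn
import Pool.Agent.RC.M_IcA
import Pool.Agent.RC.M_Ic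
import Pool.Agent.RC.M_ML
import Pool.Agent.RC.M_StC
import Pool.Agent.RC.M_MaC
import Pool.Agent.RC.M_InC
import Pool.Agent.RC.M_ReC

/-!
# Project RC (MP_c6e2b4_co): assembly of part 3, the theorem
-/

namespace Pool.RC

open Pool.RB

theorem qOwn : StOwn := pOwn
theorem qTe : StTe := pTe
theorem qBadS : StBadS := pBadS
theorem qCl : StCl := pCl
theorem qTow : StTow := pTow qBadS qCl
theorem qMMl : StMMl := pMMl
theorem qNum : StNum := pNum
theorem qEC : StEC := pEC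
theorem qSem : StSem := pSem qMRd qBadS qEC
theorem qSe2 : StSe2 := pSe2 qOwn qTe qBadS
theorem qQM : StQM := pQM qMR2 qEC qMMl qOwn qBadS qCl qSem
theorem qCLs : StCLs := pCLs qSit qStr qOwn qTe
theorem qK1 : StK1 := pK1 qMR2 qEC qMMl qNum qOwn
theorem qF2 : StF2 := pF2 qBadS
theorem qKF : StKF := pKF qMRv qEC qMMl qOwn qTe qBadS qF2 qQM
theorem qKP : StKP := pKP qMRd qMHS qEC qCLs
theorem qK2 : StK2 := pK2 qMR2 qEC qMMl qNum qOwn qBadS qF2 qKF qKP
theorem qKj : StKj := pKj qMR2 qMRd qMHS qEC qSit qIHs qBadS qCLs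
theorem qK3 : StK3 := pK3 qMR2 qMRv qEC qMMl qNum qOwn qTe qBadS qF2 qKj qQM
theorem qT1 : StT1 := pT1 qSit
theorem qT2 : StT2 := pT2
theorem qE2 : StE2 := pE2 qOwn qTe
theorem qNumG : StNumG := pNumG qOwn qE2
theorem qK40 : StK40 := pK40 qMS1 qMSf qNumG qT1 qE2 qTe
theorem qLCx : StLCx := pLCx
theorem qKx1 : StKx1 := pKx1 qMS1 qNumG
theorem qKA : StKA := pKA qMRd qEC qMMl qBadS qT1 qT2 qLCx qKx1 qQM
theorem qKB : StKB := pKB qMS1 qMSv qNumG qMMl qOwn qTe qBadS qT1 qT2 qQM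
theorem qK41 : StK41 := pK41 qMS1 qNumG qT1 qT2 qKA qKB
theorem qK4 : StK4 := pK4 qSit qIHs qT1 qK40 qK41
theorem qUVB : StUVB := pUVB
theorem qCorn : StCorn := pCorn
theorem qIcA : StIcA := pIcA qMI qUVB qCorn
theorem qIc : StIc := pIc qSymZ qIHs qSit qIcA
theorem qML : StML := pML qTow qMMl qSem qSe2 qBadS qF2 qK4 qK2 qK3
theorem qStC : StStC := pStC qBaseC qMFH qMFV qSit qIHs qIc qK4 qK1 qML
theorem qMaC : StMaC := pMaC qStC
theorem qInC : StInC := pInC qMaC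
theorem qReC : StReC := pReC qInC

end Pool.RC
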